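import Pool.Agent.Work.MP_3e8c7a_r.Interface

set_option autoImplicit false

namespace Pool.RX

open Module Pool.Agent.MP3e8c7a

/-- A norming functional with values in `ℝ`. -/
theorem BAS_norming {V : Type} [AddCommGroup V] [Module ℝ V] [FiniteDimensional ℝ V]
    (p : Seminorm ℝ V) (v : V) (hv : v ≠ 0) :
    ∃ f : V →ₗ[ℝ] ℝ, (∀ x, |f x| ≤ p x) ∧ f v = p v := by
  have hinj : Function.Injective (LinearMap.toSpanSingleton ℝ V v) := by
    intro a b hab
    have h1 : a • v = b • v := hab
    exact smul_left_injective ℝ hv h1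
  obtain ⟨g, hg1, hg2⟩ := exists_ext p (LinearMap.toSpanSingleton ℝ V v) hinj
    (C := 1) zero_le_one ((p v) • (LinearMap.id : ℝ →ₗ[ℝ] ℝ)) (fun a => by
      show |p v • a| ≤ 1 * p (a • v)
      rw [map_smul_eq_mul, smul_eq_mul, abs_mul, Real.norm_eq_abs,
        abs_of_nonneg (apply_nonneg p v), one_mul, mul_comm])
  refine ⟨g, fun x => ?_, ?_⟩
  · have h1 := hg2 x
    rwa [one_mul] at h1
  · have h1 := hg1 1
    have h2 : (LinearMap.toSpanSingleton ℝ V v) 1 = v := one_smul ℝ v
    have h3 : ((p v) • (LinearMap.id : ℝ →ₗ[ℝ] ℝ)) 1 = p v := by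
      show p v • (1 : ℝ) = p v
      rw [smul_eq_mul, mul_one]
    rw [h2, h3] at h1
    exact h1

theorem p_BAS : Stmt_BAS := by
  intro m
  induction m with
  | zero =>
    intro V _ _ _ s hs hV
    have hsub : Subsingleton V := Module.finrank_zero_iff.1 hV
    have e : V ≃ₗ[ℝ] (Fin 0 → ℝ) := LinearEquiv.ofFinrankEq _ _ (by rw [hV]; simp)
    refine ⟨e, fun x => ?_, fun x => ?_⟩
    · rw [Subsingleton.elim x 0]
      simp
    · rw [Subsingleton.elim x 0]
      simp
  | succ m ih =>
    intro V _ _ _ s hs hV
    have hnt : Nontrivial V := Module.nontrivial_of_finrank_pos (R := ℝ) (by rw [hV]; omega)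
    obtain ⟨v₀, hv₀⟩ := exists_ne (0 : V)
    have hpos : 0 < s v₀ := lt_of_le_of_ne (apply_nonneg s _) fun h => hv₀ (hs _ h.symm)
    obtain ⟨v, hv⟩ : ∃ v : V, v = (s v₀)⁻¹ • v₀ := ⟨_, rfl⟩
    have hsv : s v = 1 := by
      rw [hv, map_smul_eq_mul, Real.norm_eq_abs, abs_of_pos (inv_pos.2 hpos),
        inv_mul_cancel₀ hpos.ne']
    have hv0 : v ≠ 0 := by
      intro h
      rw [h, map_zero] at hsv
      exact zero_ne_one hsv
    obtain ⟨f, hf1, hf2⟩ := BAS_norming s v hv0
    rw [hsv] at hf2
    have hker : finrank ℝ (LinearMap.ker f) = m := by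
      have h1 := LinearMap.finrank_range_add_finrank_ker f
      have h2 : LinearMap.range f = ⊤ := by
        rw [LinearMap.range_eq_top]
        intro a
        exact ⟨a • v, by rw [map_smul, hf2, smul_eq_mul, mul_one]⟩
      rw [h2, finrank_top, finrank_self, hV] at h1
      omega
    obtain ⟨e', he1, he2⟩ := ih (LinearMap.ker f) (s.comp (LinearMap.ker f).subtype)
      (hs.comp _ (Submodule.subtype_injective _)) hker
    let P : V →ₗ[ℝ] LinearMap.ker f :=
      LinearMap.codRestrict (LinearMap.ker f) (LinearMap.id - f.smulRight v) (fun x => by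
        rw [LinearMap.mem_ker]
        show f (x - f x • v) = 0
        rw [map_sub, map_smul, hf2, smul_eq_mul, mul_one, sub_self])
    have hP : ∀ x, ((P x : LinearMap.ker f) : V) = x - f x • v := fun x => rfl
    have hPk : ∀ z : LinearMap.ker f, P (z : V) = z := fun z => by
      apply Subtype.ext
      rw [hP, LinearMap.mem_ker.1 z.2, zero_smul, sub_zero]
    have hPv : P v = 0 := by
      apply Subtype.ext
      rw [hP, hf2, one_smul, sub_self]
      rfl
    let F : V →ₗ[ℝ] (Fin (m + 1) → ℝ) :=
      { toFun := fun x => Fin.cons (f x) (e' (P x))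
        map_add' := fun x y => by
          funext i
          refine Fin.cases ?_ (fun j => ?_) i
          · simp
          · simp
        map_smul' := fun a x => by
          funext i
          refine Fin.cases ?_ (fun j => ?_) i
          · simp
          · simp }
    have hF0 : ∀ x, F x 0 = f x := fun x => rfl
    have hFs : ∀ x j, F x (Fin.succ j) = e' (P x) j := fun x j => rfl
    have hinj : Function.Injective F := by
      rw [← LinearMap.ker_eq_bot, LinearMap.ker_eq_bot']
      intro x hx
      have h1 : f x = 0 := by rw [← hF0, hx]; rfl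
      have h2 : e' (P x) = 0 := by
        funext j
        rw [← hFs, hx]
        rfl
      have h3 : P x = 0 := by
        rwa [LinearEquiv.map_eq_zero_iff] at h2
      have h4 := hP x
      rw [h3, h1, zero_smul, sub_zero] at h4
      exact h4.symm
    let e : V ≃ₗ[ℝ] (Fin (m + 1) → ℝ) := LinearEquiv.ofInjectiveOfFinrankEq F hinj (by
      rw [hV]; simp)
    have he : ∀ x, e x = F x := fun x => rfl
    refine ⟨e, fun x => ?_, fun x => ?_⟩
    · rw [he]
      have hsx : 0 ≤ s x := apply_nonneg s x
      have h2m : (1 : ℝ) ≤ 2 ^ m := one_le_pow₀ one_le_two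
      rw [pi_norm_le_iff_of_nonneg (by positivity)]
      intro i
      refine Fin.cases ?_ (fun j => ?_) i
      · rw [hF0, Real.norm_eq_abs]
        refine (hf1 x).trans ?_
        rw [pow_succ]
        nlinarith
      · rw [hFs]
        refine (norm_le_pi_norm (e' (P x)) j).trans ((he1 (P x)).trans ?_)
        have h3 : (s.comp (LinearMap.ker f).subtype) (P x) = s (x - f x • v) := rfl
        rw [h3]
        have h4 : s (x - f x • v) ≤ 2 * s x := by
          refine (map_sub_le_add s _ _).trans ?_
          rw [map_smul_eq_mul, hsv, mul_one, Real.norm_eq_abs]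
          linarith [hf1 x]
        rw [pow_succ]
        nlinarith
    · rw [he, Fin.sum_univ_succ, hF0]
      have h5 : x = f x • v + (x - f x • v) := by abel
      have h6 : s x ≤ s (f x • v) + s (x - f x • v) := by
        conv_lhs => rw [h5]
        exact map_add_le_add s _ _
      have h7 : s (f x • v) = |f x| := by
        rw [map_smul_eq_mul, hsv, mul_one, Real.norm_eq_abs]
      have h8 : s (x - f x • v) ≤ ∑ j, |F x (Fin.succ j)| := he2 (P x)
      linarith

end Pool.RX
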