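import Pool.Agent.Work.MP_3e8c7a_r.Interface

/-!
# Block GRD: greedy choice of a space on which one norm is much larger than the other one
-/

set_option autoImplicit false

namespace Pool.RX

open Module Pool.Agent.MP3e8c7a

/-- two norms on a finite dimensional space are comparable -/
theorem GRD_bdd (h1 : Stmt_BAS) (V : Type) [AddCommGroup V] [Module ℝ V] [FiniteDimensional ℝ V]
    (p r : Seminorm ℝ V) (hr : Def r) : ∃ K : ℝ, ∀ x, p x ≤ K * r x := by
  obtain ⟨e, he, -⟩ := h1 (finrank ℝ V) V r hr rfl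
  refine ⟨(∑ i, p (e.symm (Pi.single i 1))) * 2 ^ finrank ℝ V, fun x => ?_⟩
  have hx : x = ∑ i, e x i • e.symm (Pi.single i 1) := by
    apply e.injective
    rw [map_sum]
    simp only [map_smul, LinearEquiv.apply_symm_apply]
    funext j
    rw [Finset.sum_apply]
    simp [Pi.single_apply]
  have h2 : p x ≤ ∑ i, p (e x i • e.symm (Pi.single i 1)) := by
    conv_lhs => rw [hx]
    exact Finset.le_sum_of_subadditive p (map_zero p).le (map_add_le_add p) _ _
  refine h2.trans ?_
  have h3 : ∀ i, p (e x i • e.symm (Pi.single i 1)) ≤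
      p (e.symm (Pi.single i 1)) * (2 ^ finrank ℝ V * r x) := by
    intro i
    rw [map_smul_eq_mul, mul_comm]
    apply mul_le_mul_of_nonneg_left _ (apply_nonneg _ _)
    exact (norm_le_pi_norm (e x) i).trans (he x)
  calc ∑ i, p (e x i • e.symm (Pi.single i 1))
      ≤ ∑ i, p (e.symm (Pi.single i 1)) * (2 ^ finrank ℝ V * r x) :=
        Finset.sum_le_sum fun i _ => h3 i
    _ = (∑ i, p (e.symm (Pi.single i 1))) * 2 ^ finrank ℝ V * r x := by
        rw [← Finset.sum_mul]
        ring

/-- the largest ratio on a subspace, with an almost extremal vector -/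
theorem GRD_sup (h1 : Stmt_BAS) (V : Type) [AddCommGroup V] [Module ℝ V] [FiniteDimensional ℝ V]
    (p r : Seminorm ℝ V) (hp : Def p) (hr : Def r) (F : Submodule ℝ V) (hF : 0 < finrank ℝ F) :
    ∃ ρ : ℝ, 0 < ρ ∧ (∀ x ∈ F, p x ≤ ρ * r x) ∧ ∃ x ∈ F, r x = 1 ∧ ρ / 2 ≤ p x := by
  obtain ⟨K, hK⟩ := GRD_bdd h1 V p r hr
  have hF' : Nontrivial F := Module.finrank_pos_iff.1 hF
  obtain ⟨⟨x₀, hx₀⟩, hne⟩ := exists_ne (0 : F)
  have hx0 : x₀ ≠ 0 := fun h => hne (Subtype.ext h)
  have hpos : ∀ x, x ≠ 0 → 0 < r x := fun x hx =>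
    lt_of_le_of_ne (apply_nonneg r x) fun h => hx (hr x h.symm)
  have hpos' : ∀ x, x ≠ 0 → 0 < p x := fun x hx =>
    lt_of_le_of_ne (apply_nonneg p x) fun h => hx (hp x h.symm)
  set E : Set ℝ := {y | ∃ x ∈ F, r x = 1 ∧ p x = y} with hE
  have hbdd : BddAbove E := by
    refine ⟨K, ?_⟩
    rintro y ⟨x, -, hx1, rfl⟩
    have := hK x
    rw [hx1, mul_one] at this
    exact this
  have hnorm : ∀ x ∈ F, x ≠ 0 → (r x)⁻¹ * p x ∈ E := by
    intro x hx hx1
    refine ⟨(r x)⁻¹ • x, F.smul_mem _ hx, ?_, ?_⟩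
    · rw [map_smul_eq_mul, norm_inv, Real.norm_eq_abs, abs_of_pos (hpos x hx1),
        inv_mul_cancel₀ (hpos x hx1).ne']
    · rw [map_smul_eq_mul, norm_inv, Real.norm_eq_abs, abs_of_pos (hpos x hx1)]
  have hne : E.Nonempty := ⟨_, hnorm x₀ hx₀ hx0⟩
  have hρ : 0 < sSup E :=
    lt_of_lt_of_le (mul_pos (inv_pos.2 (hpos x₀ hx0)) (hpos' x₀ hx0))
      (le_csSup hbdd (hnorm x₀ hx₀ hx0))
  refine ⟨sSup E, hρ, ?_, ?_⟩
  · intro x hx
    by_cases hx1 : x = 0
    · rw [hx1, map_zero, map_zero, mul_zero]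
    · have h := le_csSup hbdd (hnorm x hx hx1)
      rw [inv_mul_le_iff₀ (hpos x hx1)] at h
      rw [mul_comm]
      exact h
  · obtain ⟨y, ⟨x, hx, hx1, rfl⟩, hy⟩ := exists_lt_of_lt_csSup hne (half_lt_self hρ)
    exact ⟨x, hx, hx1, hy.le⟩

theorem GRD_ind (h1 : Stmt_BAS) (M : ℕ) : ∃ A : ℝ, 1 ≤ A ∧ ∀ (V : Type) [AddCommGroup V]
    [Module ℝ V] [FiniteDimensional ℝ V] (p r : Seminorm ℝ V), Def p → Def r →
    M < finrank ℝ V →
    ∃ (ρ : ℝ) (W : (Fin M → ℝ) →ₗ[ℝ] V) (a : V →ₗ[ℝ] (Fin M → ℝ)) (F : Submodule ℝ V), 0 < ρ ∧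
      Top M A ρ p r W a ∧ finrank ℝ V ≤ finrank ℝ F + M ∧ (∀ x ∈ F, p x ≤ ρ * r x) ∧
      (∃ x ∈ F, r x = 1 ∧ ρ / 2 ≤ p x) ∧ (∀ y, y - W (a y) ∈ F) ∧
      (∀ y, p (y - W (a y)) ≤ A * p y) ∧ (∀ y, r (y - W (a y)) ≤ A * r y) ∧
      ∀ y ∈ F, a y = 0 := by
  induction M with
  | zero =>
    refine ⟨1, le_rfl, ?_⟩
    intro V _ _ _ p r hp hr hV
    obtain ⟨ρ, hρ, h2, h3⟩ := GRD_sup h1 V p r hp hr ⊤ (by rw [finrank_top]; exact hV)
    refine ⟨ρ, 0, 0, ⊤, hρ, ?_, ?_, h2, h3, fun y => trivial, ?_, ?_, fun y _ => rfl⟩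
    · constructor
      · intro ω
        exact Subsingleton.elim _ _
      · intro ω
        rw [LinearMap.zero_apply, map_zero, one_mul]
        exact norm_nonneg ω
      · intro x
        rw [LinearMap.zero_apply, norm_zero, one_mul]
        exact apply_nonneg r x
      · intro x
        rw [LinearMap.zero_apply, norm_zero, mul_zero, one_mul]
        exact apply_nonneg p x
    · rw [finrank_top, add_zero]
    · intro y
      rw [LinearMap.zero_apply, sub_zero, one_mul]
    · intro y
      rw [LinearMap.zero_apply, sub_zero, one_mul]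
  | succ M ih =>
    obtain ⟨A, hA, hall⟩ := ih
    refine ⟨4 * A, by linarith, ?_⟩
    intro V _ _ _ p r hp hr hV
    obtain ⟨ρ, W, a, F, hρ, hT, hdim, hF, ⟨x, hxF, hrx, hpx⟩, hyF, hpy, hry, haF⟩ :=
      hall V p r hp hr (by omega)
    have hpx0 : 0 < p x := lt_of_lt_of_le (by linarith) hpx
    have hx0 : x ≠ 0 := by
      intro h
      rw [h, map_zero] at hpx0
      exact lt_irrefl _ hpx0
    -- the functional
    obtain ⟨f, hf1, hf2⟩ := exists_ext p (LinearMap.toSpanSingleton ℝ V x)
      (by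
        intro s t hst
        simp only [LinearMap.toSpanSingleton_apply] at hst
        exact smul_left_injective ℝ hx0 hst) zero_le_one
      (p x • (LinearMap.id : ℝ →ₗ[ℝ] ℝ))
      (by
        intro t
        simp only [LinearMap.smul_apply, LinearMap.id_apply, LinearMap.toSpanSingleton_apply,
          smul_eq_mul, one_mul]
        rw [map_smul_eq_mul, abs_mul, abs_of_pos hpx0, Real.norm_eq_abs, mul_comm])
    have hfx : f x = p x := by
      have := hf1 1
      simpa using this
    have hf3 : ∀ y, |f y| ≤ p y := fun y => by simpa using hf2 y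
    have hax : a x = 0 := haF x hxF
    -- the new subspace
    have hdim' : finrank ℝ V ≤ finrank ℝ (F ⊓ LinearMap.ker f : Submodule ℝ V) + (M + 1) := by
      have h2 := Submodule.finrank_sup_add_finrank_inf_eq F (LinearMap.ker f)
      have h3 := f.finrank_range_add_finrank_ker
      have h4 : finrank ℝ (LinearMap.range f) ≤ 1 := by
        have := Submodule.finrank_le (LinearMap.range f)
        rwa [finrank_self] at this
      have h5 := Submodule.finrank_le (F ⊔ LinearMap.ker f)
      omega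
    obtain ⟨ρ', hρ', hF', hx'⟩ := GRD_sup h1 V p r hp hr (F ⊓ LinearMap.ker f) (by omega)
    have hρρ : ρ' ≤ 2 * ρ := by
      obtain ⟨x', hx'1, hx'2, hx'3⟩ := hx'
      have := hF x' (Submodule.mem_inf.1 hx'1).1
      rw [hx'2] at this
      linarith
    set c : V →ₗ[ℝ] ℝ := (p x)⁻¹ • (f ∘ₗ (LinearMap.id - W ∘ₗ a)) with hc
    have hcy : ∀ y, c y = (p x)⁻¹ * f (y - W (a y)) := fun y => rfl
    set a' : V →ₗ[ℝ] (Fin (M + 1) → ℝ) :=
      LinearMap.pi (Fin.cases c fun i => LinearMap.proj i ∘ₗ a) with ha'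
    have ha0 : ∀ y, a' y 0 = c y := fun y => rfl
    have haS : ∀ y (i : Fin M), a' y i.succ = a y i := fun y i => rfl
    set W' : (Fin (M + 1) → ℝ) →ₗ[ℝ] V :=
      W ∘ₗ (LinearMap.pi fun i : Fin M => LinearMap.proj i.succ) +
        (LinearMap.toSpanSingleton ℝ V x) ∘ₗ LinearMap.proj 0 with hW'
    have hWω : ∀ ω, W' ω = W (fun i : Fin M => ω i.succ) + ω 0 • x := fun ω => rfl
    have haa : ∀ y, (fun i : Fin M => a' y i.succ) = a y := fun y => rfl
    -- the bound of the new coordinate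
    have hcp : ∀ y, p x * |c y| ≤ p (y - W (a y)) := by
      intro y
      rw [hcy, abs_mul, abs_of_pos (inv_pos.2 hpx0), ← mul_assoc, mul_inv_cancel₀ hpx0.ne',
        one_mul]
      exact hf3 _
    have hcr : ∀ y, |c y| ≤ 2 * r (y - W (a y)) := by
      intro y
      have h2 := hcp y
      have h3 := hF _ (hyF y)
      have h4 : ρ / 2 * |c y| ≤ p x * |c y| := mul_le_mul_of_nonneg_right hpx (abs_nonneg _)
      have h5 : ρ / 2 * |c y| ≤ ρ / 2 * (2 * r (y - W (a y))) := by
        calc ρ / 2 * |c y| ≤ ρ * r (y - W (a y)) := h4.trans (h2.trans h3)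
          _ = ρ / 2 * (2 * r (y - W (a y))) := by ring
      exact le_of_mul_le_mul_left h5 (by linarith)
    have hWa' : ∀ y, y - W' (a' y) = (y - W (a y)) - c y • x := by
      intro y
      rw [hWω, haa, ha0]
      abel
    have hr0 : ∀ y, 0 ≤ r y := fun y => apply_nonneg r y
    have hp0 : ∀ y, 0 ≤ p y := fun y => apply_nonneg p y
    refine ⟨ρ', W', a', F ⊓ LinearMap.ker f, hρ', ?_, hdim', hF', hx', ?_, ?_, ?_, ?_⟩
    · constructor
      · intro ω
        have h2 : a (W' ω) = fun i : Fin M => ω i.succ := by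
          rw [hWω, map_add, hT.aW, map_smul, hax, smul_zero, add_zero]
        funext i
        refine Fin.cases ?_ (fun j => ?_) i
        · rw [ha0, hcy, h2, hWω, add_sub_cancel_left, map_smul, hfx, smul_eq_mul]
          field_simp
        · rw [haS, h2]
      · intro ω
        rw [hWω]
        have h2 : ‖fun i : Fin M => ω i.succ‖ ≤ ‖ω‖ := by
          rw [pi_norm_le_iff_of_nonneg (norm_nonneg _)]
          intro i
          exact norm_le_pi_norm ω i.succ
        have h3 : |ω 0| ≤ ‖ω‖ := norm_le_pi_norm ω 0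
        have h4 := hT.rW (fun i : Fin M => ω i.succ)
        have h5 : r (ω 0 • x) = |ω 0| := by
          rw [map_smul_eq_mul, hrx, mul_one, Real.norm_eq_abs]
        have h6 := map_add_le_add r (W fun i : Fin M => ω i.succ) (ω 0 • x)
        have h7 : A * ‖fun i : Fin M => ω i.succ‖ ≤ A * ‖ω‖ :=
          mul_le_mul_of_nonneg_left h2 (by linarith)
        have h8 : ‖ω‖ ≤ A * ‖ω‖ := by nlinarith [norm_nonneg ω]
        have h9 : 0 ≤ A * ‖ω‖ := by positivity
        linarith
      · intro y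
        have h9 : 0 ≤ A * r y := mul_nonneg (by linarith) (hr0 y)
        rw [pi_norm_le_iff_of_nonneg (by linarith)]
        intro i
        refine Fin.cases ?_ (fun j => ?_) i
        · rw [ha0, Real.norm_eq_abs]
          have := hcr y
          have := hry y
          linarith
        · rw [haS]
          have h2 := norm_le_pi_norm (a y) j
          have h3 := hT.ra y
          linarith
      · intro y
        have h9 : 0 ≤ A * p y := mul_nonneg (by linarith) (hp0 y)
        have h10 : ‖a' y‖ ≤ ρ'⁻¹ * (4 * A * p y) := by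
          rw [pi_norm_le_iff_of_nonneg (by positivity)]
          intro i
          rw [← div_eq_inv_mul, le_div_iff₀ hρ']
          refine Fin.cases ?_ (fun j => ?_) i
          · rw [ha0, Real.norm_eq_abs]
            have h2 := hcp y
            have h3 := hpy y
            have h4 : ρ / 2 * |c y| ≤ p x * |c y| :=
              mul_le_mul_of_nonneg_right hpx (abs_nonneg _)
            have h5 : |c y| * ρ' ≤ |c y| * (2 * ρ) :=
              mul_le_mul_of_nonneg_left hρρ (abs_nonneg _)
            nlinarith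
          · rw [haS]
            have h2 := norm_le_pi_norm (a y) j
            have h3 := hT.pa y
            have h5 : ‖a y j‖ * ρ' ≤ ‖a y j‖ * (2 * ρ) :=
              mul_le_mul_of_nonneg_left hρρ (norm_nonneg _)
            have h6 : ‖a y j‖ * (2 * ρ) ≤ ‖a y‖ * (2 * ρ) :=
              mul_le_mul_of_nonneg_right h2 (by linarith)
            linarith
        rw [← div_eq_inv_mul, le_div_iff₀ hρ'] at h10
        linarith
    · intro y
      rw [hWa']
      refine Submodule.mem_inf.2 ⟨F.sub_mem (hyF y) (F.smul_mem _ hxF), ?_⟩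
      rw [LinearMap.mem_ker, map_sub, map_smul, hfx, smul_eq_mul, hcy]
      field_simp
      ring
    · intro y
      rw [hWa']
      have h2 := map_sub_le_add p (y - W (a y)) (c y • x)
      have h3 : p (c y • x) = p x * |c y| := by
        rw [map_smul_eq_mul, Real.norm_eq_abs, mul_comm]
      have h4 := hcp y
      have h5 := hpy y
      have h9 : 0 ≤ A * p y := mul_nonneg (by linarith) (hp0 y)
      linarith
    · intro y
      rw [hWa']
      have h2 := map_sub_le_add r (y - W (a y)) (c y • x)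
      have h3 : r (c y • x) = |c y| := by
        rw [map_smul_eq_mul, Real.norm_eq_abs, hrx, mul_one]
      have h4 := hcr y
      have h5 := hry y
      have h9 : 0 ≤ A * r y := mul_nonneg (by linarith) (hr0 y)
      linarith
    · intro y hy
      obtain ⟨hy1, hy2⟩ := Submodule.mem_inf.1 hy
      have hay := haF y hy1
      funext i
      refine Fin.cases ?_ (fun j => ?_) i
      · rw [ha0, hcy, hay, map_zero, sub_zero, LinearMap.mem_ker.1 hy2, mul_zero]
        rfl
      · rw [haS, hay]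
        rfl

theorem p_GRD (h1 : Stmt_BAS) : Stmt_GRD := by
  intro M
  obtain ⟨A, hA, h⟩ := GRD_ind h1 M
  refine ⟨A, hA, ?_⟩
  intro V _ _ _ p r hp hr hV
  obtain ⟨ρ, W, a, F, h2, h3, h4, h5, -⟩ := h V p r hp hr hV
  exact ⟨ρ, W, a, F, h2, h3, h4, h5⟩

end Pool.RX
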