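import Pool.Agent.Work.MP_3e8c7a_r.Interface

/-! Block NET of THEOREM RX (helper86). -/

set_option autoImplicit false

namespace Pool.RX

open Module Pool.Agent.MP3e8c7a

theorem p_NET (hBAS : Stmt_BAS) : Stmt_NET := by
  classical
  intro m
  refine ⟨(2 * (2 ^ m * (4 * (m + 1))) + 1) ^ m, fun V _ _ _ s hs hm => ?_⟩
  obtain ⟨m', hm'⟩ : ∃ m', finrank ℝ V = m' := ⟨_, rfl⟩
  rw [hm'] at hm
  obtain ⟨e, he1, he2⟩ := hBAS m' V s hs hm'
  set K : ℕ := 2 ^ m * (4 * (m + 1)) with hK
  set Q : ℝ := 4 * ((m : ℝ) + 1) with hQ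
  have hQ0 : 0 < Q := by positivity
  have hKQ : (K : ℝ) = 2 ^ m * Q := by
    rw [hK, hQ]
    push_cast
    ring
  refine ⟨(Fintype.piFinset (fun _ : Fin m' => Finset.Icc (-(K : ℤ)) K)).image
    (fun z => e.symm (fun i => (z i : ℝ) / Q)), ?_, ?_⟩
  · refine Finset.card_image_le.trans ?_
    rw [Fintype.card_piFinset, Finset.prod_const, Finset.card_univ, Fintype.card_fin,
      Int.card_Icc]
    have h1 : ((K : ℤ) + 1 - -(K : ℤ)).toNat = 2 * K + 1 := by omega
    rw [h1]
    exact Nat.pow_le_pow_right (by omega) hm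
  · intro x hx
    set z : Fin m' → ℤ := fun i => ⌊Q * e x i⌋ with hz
    have hb : ∀ i, |Q * e x i| ≤ (K : ℝ) := by
      intro i
      have h1 : |e x i| ≤ ‖e x‖ := by
        rw [← Real.norm_eq_abs]
        exact norm_le_pi_norm (e x) i
      have h2 : ‖e x‖ ≤ 2 ^ m' := by
        refine (he1 x).trans ?_
        calc (2 : ℝ) ^ m' * s x ≤ 2 ^ m' * 1 :=
              mul_le_mul_of_nonneg_left hx (by positivity)
          _ = 2 ^ m' := mul_one _
      have h3 : (2 : ℝ) ^ m' ≤ 2 ^ m := pow_le_pow_right₀ (by norm_num) hm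
      rw [abs_mul, abs_of_pos hQ0, hKQ, mul_comm]
      exact mul_le_mul_of_nonneg_right (h1.trans (h2.trans h3)) hQ0.le
    refine ⟨e.symm (fun i => (z i : ℝ) / Q), ?_, ?_⟩
    · refine Finset.mem_image.2 ⟨z, ?_, rfl⟩
      rw [Fintype.mem_piFinset]
      intro i
      rw [Finset.mem_Icc]
      have h := abs_le.1 (hb i)
      constructor
      · rw [hz]
        refine Int.le_floor.2 ?_
        push_cast
        exact h.1
      · have h1 : (z i : ℝ) ≤ Q * e x i := Int.floor_le _
        have h2 : (z i : ℝ) ≤ ((K : ℤ) : ℝ) := by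
          push_cast
          exact h1.trans h.2
        exact_mod_cast h2
    · have h1 := he2 (x - e.symm (fun i => (z i : ℝ) / Q))
      have h2 : ∀ i, |e (x - e.symm (fun i => (z i : ℝ) / Q)) i| ≤ 1 / Q := by
        intro i
        rw [map_sub, LinearEquiv.apply_symm_apply, Pi.sub_apply]
        have h3 : (z i : ℝ) ≤ Q * e x i := Int.floor_le _
        have h4 : Q * e x i < (z i : ℝ) + 1 := Int.lt_floor_add_one _
        have h5 : e x i - (z i : ℝ) / Q = (Q * e x i - z i) / Q := by
          field_simp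
        rw [h5, abs_div, abs_of_pos hQ0, abs_of_nonneg (by linarith)]
        exact div_le_div_of_nonneg_right (by linarith) hQ0.le
      refine h1.trans ?_
      refine (Finset.sum_le_sum fun i _ => h2 i).trans ?_
      rw [Finset.sum_const, Finset.card_univ, Fintype.card_fin, nsmul_eq_mul]
      have h6 : (m' : ℝ) ≤ m := by exact_mod_cast hm
      rw [mul_one_div, div_le_div_iff₀ hQ0 (by norm_num), hQ]
      linarith

end Pool.RX
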