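import Pool.Agent.Work.MP_3e8c7a_r.Interface

set_option autoImplicit false

namespace Pool.RX

open Module Pool.Agent.MP3e8c7a

theorem p_DIM : Stmt_DIM := by
  intro K C
  refine ⟨⌈4 * C ^ 2 * K ^ 2⌉₊, ?_⟩
  intro V _ _ _ s k h ν hs hν hK hC h2
  let Λ : V →ₗ[ℝ] EuclideanSpace ℝ (Fin k) :=
    (WithLp.linearEquiv 2 ℝ (Fin k → ℝ)).symm.toLinearMap ∘ₗ
      LinearMap.pi fun i => Real.sqrt (ν i) • ((LinearMap.proj i : (Fin k → ℝ) →ₗ[ℝ] ℝ) ∘ₗ h)
  have hΛ : ∀ x i, Λ x i = Real.sqrt (ν i) * h x i := fun x i => rfl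
  have hnorm : ∀ x, ‖Λ x‖ ^ 2 = ∑ i, ν i * (h x i) ^ 2 := by
    intro x
    rw [EuclideanSpace.real_norm_sq_eq]
    refine Finset.sum_congr rfl fun i _ => ?_
    rw [hΛ, mul_pow, Real.sq_sqrt (hν i)]
  have hK0 : 0 ≤ K := (Finset.sum_nonneg fun i _ => hν i).trans hK
  have hsb : ∀ x, (s x) ^ 2 ≤ 4 * K * ‖Λ x‖ ^ 2 := by
    intro x
    have h3 : (∑ i, ν i * |h x i|) ^ 2 ≤ (∑ i, ν i) * ∑ i, ν i * (h x i) ^ 2 :=
      Finset.sum_sq_le_sum_mul_sum_of_sq_le_mul Finset.univ (fun i _ => hν i)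
        (fun i _ => mul_nonneg (hν i) (sq_nonneg (h x i)))
        (fun i _ => le_of_eq (by rw [mul_pow, sq_abs]; ring))
    have h4 : (s x) ^ 2 ≤ (2 * ∑ i, ν i * |h x i|) ^ 2 :=
      pow_le_pow_left₀ (apply_nonneg s x) (h2 x) 2
    have h5 : (∑ i, ν i) * (∑ i, ν i * (h x i) ^ 2) ≤ K * ‖Λ x‖ ^ 2 := by
      rw [← hnorm x]
      exact mul_le_mul_of_nonneg_right hK (sq_nonneg _)
    nlinarith [h3, h4, h5]
  have hinj : Function.Injective Λ := by
    rw [← LinearMap.ker_eq_bot, LinearMap.ker_eq_bot']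
    intro x hx
    have h3 := hsb x
    rw [hx, norm_zero] at h3
    have h4 : s x = 0 := by
      have h5 : (s x) ^ 2 ≤ 0 := by simpa using h3
      exact pow_eq_zero_iff (two_ne_zero) |>.1 (le_antisymm h5 (sq_nonneg _))
    exact hs x h4
  have hfin : finrank ℝ (LinearMap.range Λ) = finrank ℝ V := LinearMap.finrank_range_of_inj hinj
  let u := stdOrthonormalBasis ℝ (LinearMap.range Λ)
  have hx : ∀ l, ∃ x, Λ x = (u l : EuclideanSpace ℝ (Fin k)) := fun l => (u l).2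
  choose x hx using hx
  have hua : ∀ a : Fin (finrank ℝ (LinearMap.range Λ)) → ℝ,
      ‖Λ (∑ l, a l • x l)‖ ^ 2 = ∑ l, a l ^ 2 := by
    intro a
    have h5 : ∑ l, a l • u l = u.repr.symm (WithLp.toLp 2 a) :=
      u.sum_repr_symm (WithLp.toLp 2 a)
    have h6 : Λ (∑ l, a l • x l) =
        ((∑ l, a l • u l : LinearMap.range Λ) : EuclideanSpace ℝ (Fin k)) := by
      rw [map_sum, Submodule.coe_sum]
      refine Finset.sum_congr rfl fun l _ => ?_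
      rw [map_smul, hx l]
      rfl
    rw [h6, ← Submodule.coe_norm, h5, LinearIsometryEquiv.norm_map, EuclideanSpace.real_norm_sq_eq]
  have hS : ∀ i, ∑ l, (h (x l) i) ^ 2 ≤ 4 * C ^ 2 * K := by
    intro i
    have h3 : h (∑ l, (h (x l) i) • x l) i = ∑ l, (h (x l) i) ^ 2 := by
      rw [map_sum, Finset.sum_apply]
      refine Finset.sum_congr rfl fun l _ => ?_
      rw [map_smul, Pi.smul_apply, smul_eq_mul, sq]
    have h4 := hC (∑ l, (h (x l) i) • x l) i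
    rw [h3] at h4
    have h5 := hsb (∑ l, (h (x l) i) • x l)
    rw [hua] at h5
    have h0 : 0 ≤ ∑ l, (h (x l) i) ^ 2 := Finset.sum_nonneg fun l _ => sq_nonneg _
    rw [abs_of_nonneg h0] at h4
    have h6 : (∑ l, (h (x l) i) ^ 2) ^ 2 ≤ (4 * C ^ 2 * K) * ∑ l, (h (x l) i) ^ 2 := by
      have h7 := pow_le_pow_left₀ h0 h4 2
      rw [mul_pow] at h7
      calc (∑ l, (h (x l) i) ^ 2) ^ 2 ≤ C ^ 2 * (s (∑ l, (h (x l) i) • x l)) ^ 2 := h7
        _ ≤ C ^ 2 * (4 * K * ∑ l, (h (x l) i) ^ 2) :=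
            mul_le_mul_of_nonneg_left h5 (sq_nonneg C)
        _ = _ := by ring
    rcases h0.eq_or_lt with h7 | h7
    · rw [← h7]
      positivity
    · rw [sq] at h6
      exact le_of_mul_le_mul_right h6 h7
  have hn : (finrank ℝ V : ℝ) ≤ 4 * C ^ 2 * K ^ 2 := by
    have h3 : ∀ l, ‖Λ (x l)‖ ^ 2 = 1 := by
      intro l
      rw [hx l, ← Submodule.coe_norm, u.orthonormal.1 l, one_pow]
    have h4 : (finrank ℝ (LinearMap.range Λ) : ℝ) = ∑ l, ‖Λ (x l)‖ ^ 2 := by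
      rw [Finset.sum_congr rfl fun l _ => h3 l]
      simp
    rw [← hfin, h4]
    calc ∑ l, ‖Λ (x l)‖ ^ 2 = ∑ l, ∑ i, ν i * (h (x l) i) ^ 2 :=
          Finset.sum_congr rfl fun l _ => hnorm (x l)
      _ = ∑ i, ν i * ∑ l, (h (x l) i) ^ 2 := by
          rw [Finset.sum_comm]
          exact Finset.sum_congr rfl fun i _ => (Finset.mul_sum _ _ _).symm
      _ ≤ ∑ i, ν i * (4 * C ^ 2 * K) :=
          Finset.sum_le_sum fun i _ => mul_le_mul_of_nonneg_left (hS i) (hν i)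
      _ = (∑ i, ν i) * (4 * C ^ 2 * K) := (Finset.sum_mul _ _ _).symm
      _ ≤ K * (4 * C ^ 2 * K) := mul_le_mul_of_nonneg_right hK (by positivity)
      _ = 4 * C ^ 2 * K ^ 2 := by ring
  exact_mod_cast hn.trans (Nat.le_ceil _)

end Pool.RX
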