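import Pool.Agent.Work.MP_3e8c7a_r.Interface

/-! Block DUN: the dual norm. -/

set_option autoImplicit false

namespace Pool.RX

open Module Pool.Agent.MP3e8c7a

theorem DUN_bound (hBAS : Stmt_BAS) {V : Type} [AddCommGroup V] [Module ℝ V]
    [FiniteDimensional ℝ V] (s : Seminorm ℝ V) (hs : Def s) (f : Module.Dual ℝ V) :
    ∃ K : ℝ, ∀ w, |f w| ≤ K * s w := by
  obtain ⟨e, he, -⟩ := hBAS (finrank ℝ V) V s hs rfl
  refine ⟨(∑ i, |f (e.symm (Pi.single i 1))|) * 2 ^ finrank ℝ V, fun w => ?_⟩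
  have h1 : f w = ∑ i, e w i * f (e.symm (Pi.single i 1)) := by
    have h2 : e w = ∑ i, e w i • (Pi.single i (1 : ℝ) : Fin (finrank ℝ V) → ℝ) := by
      conv_lhs => rw [← Finset.univ_sum_single (e w)]
      refine Finset.sum_congr rfl fun i _ => ?_
      rw [← Pi.single_smul, smul_eq_mul, mul_one]
    have h3 : w = ∑ i, e w i • e.symm (Pi.single i 1) := by
      have h4 := congrArg e.symm h2
      rw [LinearEquiv.symm_apply_apply, map_sum] at h4
      refine h4.trans (Finset.sum_congr rfl fun i _ => ?_)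
      rw [map_smul]
    conv_lhs => rw [h3]
    rw [map_sum]
    refine Finset.sum_congr rfl fun i _ => ?_
    rw [map_smul, smul_eq_mul]
  have h5 : |f w| ≤ ∑ i, ‖e w‖ * |f (e.symm (Pi.single i 1))| := by
    rw [h1]
    refine (Finset.abs_sum_le_sum_abs _ _).trans (Finset.sum_le_sum fun i _ => ?_)
    rw [abs_mul]
    exact mul_le_mul_of_nonneg_right (norm_le_pi_norm (e w) i) (abs_nonneg _)
  rw [← Finset.mul_sum] at h5
  refine h5.trans ?_
  have h6 : 0 ≤ ∑ i, |f (e.symm (Pi.single i 1))| := Finset.sum_nonneg fun i _ => abs_nonneg _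
  nlinarith [mul_le_mul_of_nonneg_left (he w) h6]

theorem p_DUN (hBAS : Stmt_BAS) : Stmt_DUN := by
  intro V _ _ _ s hs
  have hne : Nonempty {w : V // s w ≤ 1} := ⟨⟨0, by rw [map_zero]; exact zero_le_one⟩⟩
  have hbdd : ∀ f : Module.Dual ℝ V, BddAbove (Set.range fun w : {w : V // s w ≤ 1} => |f w|) := by
    intro f
    obtain ⟨K, hK⟩ := DUN_bound hBAS s hs f
    refine ⟨|K|, ?_⟩
    rintro _ ⟨w, rfl⟩
    have h1 := hK w
    have h2 := w.2
    have h3 : 0 ≤ s w := apply_nonneg s _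
    calc |f w| ≤ K * s w := h1
      _ ≤ |K| * s w := mul_le_mul_of_nonneg_right (le_abs_self K) h3
      _ ≤ |K| * 1 := mul_le_mul_of_nonneg_left h2 (abs_nonneg K)
      _ = |K| := mul_one _
  have hle : ∀ (f : Module.Dual ℝ V) (w : V), s w ≤ 1 →
      |f w| ≤ ⨆ w : {w : V // s w ≤ 1}, |f w| := fun f w hw => le_ciSup (hbdd f) ⟨w, hw⟩
  let σ : Seminorm ℝ (Module.Dual ℝ V) :=
    Seminorm.of (fun f => ⨆ w : {w : V // s w ≤ 1}, |f w|)
      (fun f g => by
        refine ciSup_le fun w => ?_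
        rw [LinearMap.add_apply]
        exact (abs_add_le _ _).trans (add_le_add (hle f w w.2) (hle g w w.2)))
      (fun a f => by
        rw [Real.mul_iSup_of_nonneg (norm_nonneg a)]
        congr 1
        funext w
        rw [LinearMap.smul_apply, smul_eq_mul, abs_mul, Real.norm_eq_abs])
  have hσ : ∀ f, σ f = ⨆ w : {w : V // s w ≤ 1}, |f w| := fun f => rfl
  have hmain : ∀ (f : Module.Dual ℝ V) (w : V), |f w| ≤ σ f * s w := by
    intro f w
    rcases (apply_nonneg s w).eq_or_lt with h0 | h0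
    · have h1 := hs w h0.symm
      rw [h1, map_zero, map_zero, abs_zero, mul_zero]
    · have h1 : s ((s w)⁻¹ • w) ≤ 1 := by
        rw [map_smul_eq_mul, Real.norm_eq_abs, abs_of_pos (inv_pos.mpr h0),
          inv_mul_cancel₀ h0.ne']
      have h2 := hle f _ h1
      rw [map_smul, smul_eq_mul, abs_mul, abs_of_pos (inv_pos.mpr h0), ← hσ,
        inv_mul_le_iff₀ h0, mul_comm] at h2
      exact h2
  refine ⟨σ, ?_, hmain, ?_⟩
  · intro f hf
    ext w
    have h1 := hmain f w
    rw [hf, zero_mul] at h1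
    rw [LinearMap.zero_apply]
    exact abs_eq_zero.mp (le_antisymm h1 (abs_nonneg _))
  · intro f κ _ h
    rw [hσ]
    refine ciSup_le fun w => ?_
    rw [abs_le]
    refine ⟨?_, h w w.2⟩
    have h1 := h (-(w : V)) (by rw [map_neg_eq_map]; exact w.2)
    rw [map_neg] at h1
    linarith

end Pool.RX
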