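import Pool.Agent.Work.MP_3e8c7a_r.Interface
import Pool.Agent.Work.MP_3e8c7a_k.B_MOM

set_option autoImplicit false

/-! # Block KHI: Khinchine's inequality -/

namespace Pool.RX

open Module Pool.Agent.MP3e8c7a

theorem KHI_pt (c σ w : ℝ) (hc : 0 ≤ c) (hc2 : c ^ 2 = 3) (hσ : 0 ≤ σ) (hw : 0 ≤ w) :
    (3 / 2) * σ ^ 2 * w ^ 2 - (1 / 6) * w ^ 4 ≤ c * σ ^ 3 * w := by
  have h1 : 0 ≤ (w / 6) * ((w - c * σ) ^ 2 * (w + 2 * (c * σ))) := by positivity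
  have h2 : (w / 6) * ((w - c * σ) ^ 2 * (w + 2 * (c * σ)))
      = c * σ ^ 3 * w - ((3 / 2) * σ ^ 2 * w ^ 2 - (1 / 6) * w ^ 4) := by
    have h3 : (w / 6) * ((w - c * σ) ^ 2 * (w + 2 * (c * σ)))
        = w ^ 4 / 6 - (c ^ 2) * σ ^ 2 * w ^ 2 / 2 + (c ^ 2) * c * σ ^ 3 * w / 3 := by ring
    rw [h3, hc2]
    ring
  linarith

theorem p_KHI : Stmt_KHI := by
  intro m x
  obtain ⟨h2, h4⟩ := Pool.Agent.MP3e8c7ak.MOM m x
  have hrad : ∀ g : Fin m → Bool, Pool.Agent.MP3e8c7ak.dt g x = rad g x := fun g => rfl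
  have hsq : Pool.Agent.MP3e8c7ak.sq x = ∑ l, x l ^ 2 := rfl
  simp only [hrad] at h2 h4
  rw [hsq] at h2 h4
  have hS : 0 ≤ ∑ l, x l ^ 2 := Finset.sum_nonneg fun l _ => sq_nonneg _
  set σ := Real.sqrt (∑ l, x l ^ 2) with hσ
  have hσ0 : 0 ≤ σ := Real.sqrt_nonneg _
  have hσ2 : ∑ l, x l ^ 2 = σ ^ 2 := (Real.sq_sqrt hS).symm
  rw [hσ2] at h2 h4
  have hc0 : 0 ≤ Real.sqrt 3 := Real.sqrt_nonneg _
  have hc2 : Real.sqrt 3 ^ 2 = 3 := Real.sq_sqrt (by norm_num)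
  have hW : 0 ≤ ∑ g : Fin m → Bool, |rad g x| := Finset.sum_nonneg fun g _ => abs_nonneg _
  rcases hσ0.eq_or_lt with h0 | h0
  · rw [← h0, mul_zero]
    positivity
  have hsum : ∑ g : Fin m → Bool, ((3 / 2) * σ ^ 2 * (rad g x) ^ 2 - (1 / 6) * (rad g x) ^ 4)
      ≤ ∑ g : Fin m → Bool, Real.sqrt 3 * σ ^ 3 * |rad g x| := by
    refine Finset.sum_le_sum fun g _ => ?_
    have h5 := KHI_pt (Real.sqrt 3) σ |rad g x| hc0 hc2 hσ0 (abs_nonneg _)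
    have h6 : |rad g x| ^ 2 = rad g x ^ 2 := sq_abs _
    have h7 : |rad g x| ^ 4 = rad g x ^ 4 := by
      have h8 : |rad g x| ^ 4 = (|rad g x| ^ 2) ^ 2 := by ring
      rw [h8, h6]
      ring
    rw [h6, h7] at h5
    exact h5
  rw [Finset.sum_sub_distrib, ← Finset.mul_sum, ← Finset.mul_sum, ← Finset.mul_sum, h2] at hsum
  have h9 : σ ^ 3 * (2 ^ m * σ) ≤ σ ^ 3 * (Real.sqrt 3 * ∑ g : Fin m → Bool, |rad g x|) := by
    nlinarith [h4, hsum]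
  exact le_of_mul_le_mul_left h9 (by positivity)

end Pool.RX
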