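import Pool.Agent.Work.MP_3e8c7a_r.Interface

/-! # Block NORI: in every norm on `ℝ^M` some subspace is not a complemented subspace of `ℓ_∞^k`
(helper56) -/

set_option autoImplicit false

namespace Pool.RX

open Module Pool.Agent.MP3e8c7a

theorem NORI_mono {t : Bool} {C C' : ℝ} (h : C ≤ C') {A : Type} [AddCommGroup A] [Module ℝ A]
    {s : Seminorm ℝ A} (hF : Fac t C s) : Fac t C' s := by
  obtain ⟨k, j, q, h1, h2, h3⟩ := hF
  exact ⟨k, j, q, h1, h2, fun x => (h3 x).trans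
    (mul_le_mul_of_nonneg_right h (apply_nonneg (XN t k) x))⟩

theorem NORI_transfer {M m : ℕ} {C : ℝ} (hC : 1 ≤ C) (s : Seminorm ℝ (Fin M → ℝ))
    (T : (Fin m → ℝ) →ₗ[ℝ] (Fin M → ℝ)) (h1 : ∀ z, ∑ l, |z l| ≤ 8 * s (T z))
    (h2 : ∀ z, s (T z) ≤ C * ∑ l, |z l|)
    (hF : Fac true C (s.comp (LinearMap.range T).subtype)) : Fac true (8 * C ^ 2) (oneS m) := by
  have hinj : Function.Injective T := by
    rw [← LinearMap.ker_eq_bot, LinearMap.ker_eq_bot']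
    intro z hz
    have h3 := h1 z
    rw [hz, map_zero, mul_zero] at h3
    have h4 : ‖z‖ ≤ 0 := (norm_le_one m z).trans h3
    exact norm_le_zero_iff.1 h4
  obtain ⟨k, j, q, hjq, hj, hq⟩ := hF
  set e : (Fin m → ℝ) ≃ₗ[ℝ] LinearMap.range T := LinearEquiv.ofInjective T hinj with he
  have hC0 : (0 : ℝ) < C := by linarith
  have e1 : ∀ z, ((e z : LinearMap.range T) : Fin M → ℝ) = T z := fun z => rfl
  have e2 : ∀ w : LinearMap.range T, T (e.symm w) = (w : Fin M → ℝ) := by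
    intro w
    rw [← e1, LinearEquiv.apply_symm_apply]
  refine ⟨k, C⁻¹ • (j ∘ₗ e.toLinearMap), C • (e.symm.toLinearMap ∘ₗ q), ?_, ?_, ?_⟩
  · intro z
    change C • e.symm (q (C⁻¹ • j (e z))) = z
    rw [map_smul, hjq, map_smul, smul_smul, mul_inv_cancel₀ hC0.ne', one_smul,
      LinearEquiv.symm_apply_apply]
  · intro z
    change XN true k (C⁻¹ • j (e z)) ≤ ∑ l, |z l|
    rw [map_smul_eq_mul, Real.norm_eq_abs, abs_of_pos (inv_pos.2 hC0)]
    have h3 : XN true k (j (e z)) ≤ C * ∑ l, |z l| := (hj (e z)).trans (h2 z)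
    calc C⁻¹ * XN true k (j (e z)) ≤ C⁻¹ * (C * ∑ l, |z l|) :=
          mul_le_mul_of_nonneg_left h3 (inv_pos.2 hC0).le
      _ = ∑ l, |z l| := by rw [← mul_assoc, inv_mul_cancel₀ hC0.ne', one_mul]
  · intro x
    change oneS m (C • e.symm (q x)) ≤ 8 * C ^ 2 * XN true k x
    rw [map_smul_eq_mul, Real.norm_eq_abs, abs_of_pos hC0, oneS_apply]
    have h3 : ∑ l, |e.symm (q x) l| ≤ 8 * (C * XN true k x) := by
      refine (h1 _).trans ?_
      rw [e2]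
      exact mul_le_mul_of_nonneg_left (hq x) (by norm_num)
    calc C * ∑ l, |e.symm (q x) l| ≤ C * (8 * (C * XN true k x)) :=
          mul_le_mul_of_nonneg_left h3 hC0.le
      _ = 8 * C ^ 2 * XN true k x := by ring

theorem p_NORI (hSYI : Stmt_SYI) (hOBI : Stmt_OBI) (hRAD : Stmt_RAD) : Stmt_NORI := by
  intro C
  set C' : ℝ := max C 1 with hC'
  have h1 : 1 ≤ C' := le_max_right _ _
  obtain ⟨m, hm⟩ := exists_nat_gt (3 * (8 * C' ^ 2) ^ 2)
  obtain ⟨M, hM⟩ := hSYI C' (2 ^ m) h1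
  refine ⟨M, fun s hs => ?_⟩
  by_contra hcon
  push Not at hcon
  have hF : ∀ S : Submodule ℝ (Fin M → ℝ), Fac true C' (s.comp S.subtype) :=
    fun S => NORI_mono (le_max_left _ _) (hcon S)
  obtain ⟨y, hy⟩ := hM (⊤ : Submodule ℝ (Fin M → ℝ)) (s.comp (⊤ : Submodule ℝ _).subtype)
    (fun x hx => Subtype.ext (hs _ hx)) (by rw [finrank_top, finrank_fin_fun]) (hF ⊤)
  obtain ⟨⟨u, hu⟩, -⟩ := hRAD m
  set T : (Fin m → ℝ) →ₗ[ℝ] (Fin M → ℝ) := (⊤ : Submodule ℝ (Fin M → ℝ)).subtype ∘ₗ y ∘ₗ u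
  have t1 : ∀ z, ∑ l, |z l| ≤ 8 * s (T z) := by
    intro z
    rw [← hu z]
    exact (hy (u z)).1
  have t2 : ∀ z, s (T z) ≤ C' * ∑ l, |z l| := by
    intro z
    rw [← hu z]
    exact (hy (u z)).2
  have h3 := hOBI m (8 * C' ^ 2) (NORI_transfer h1 s T t1 t2 (hF _))
  linarith

end Pool.RX

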