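import Pool.Agent.Work.MP_3e8c7a_r.Interface

/-!
# MP_3e8c7a_an, THEOREM RX: block OBI
-/

set_option autoImplicit false

namespace Pool.RX

open Module Pool.Agent.MP3e8c7a

theorem OBI_rad_abs {m : ℕ} (g : Fin m → Bool) (x : Fin m → ℝ) : |rad g x| ≤ ∑ l, |x l| := by
  unfold rad
  refine (Finset.abs_sum_le_sum_abs _ _).trans (Finset.sum_le_sum fun l _ => ?_)
  have h : |sgn (g l)| = 1 := by
    unfold sgn
    split_ifs <;> simp
  rw [abs_mul, h, one_mul]

theorem OBI_lin {m k : ℕ} (g : Fin m → Bool) (c : Fin k → ℝ) (y : Fin k → Fin m → ℝ) :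
    rad g (∑ i, c i • y i) = ∑ i, c i * rad g (y i) := by
  unfold rad
  simp only [Finset.sum_apply, Pi.smul_apply, smul_eq_mul, Finset.mul_sum]
  rw [Finset.sum_comm]
  refine Finset.sum_congr rfl fun i _ => Finset.sum_congr rfl fun l _ => ?_
  ring

theorem OBI_cs {m : ℕ} (x : Fin m → ℝ) :
    ∑ l, |x l| ≤ Real.sqrt m * Real.sqrt (∑ l, x l ^ 2) := by
  rw [← Real.sqrt_mul (Nat.cast_nonneg m)]
  apply Real.le_sqrt_of_sq_le
  have h := sq_sum_le_card_mul_sum_sq (s := Finset.univ) (f := fun l => |x l|)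
  simpa using h

theorem p_OBI (hKHI : Stmt_KHI) : Stmt_OBI := by
  rintro m C ⟨k, j, q, hqj, hj, hq⟩
  rcases Nat.eq_zero_or_pos m with hm0 | hm
  · subst hm0
    simp only [Nat.cast_zero]
    positivity
  obtain ⟨e, he⟩ : ∃ e : Fin m → (Fin m → ℝ), e = fun l l' => if l = l' then 1 else 0 :=
    ⟨_, rfl⟩
  obtain ⟨X, hX⟩ : ∃ X : Fin k → (Fin m → ℝ), X = fun i => q (fun i' => if i = i' then 1 else 0) :=
    ⟨_, rfl⟩
  have hqX : ∀ x, q x = ∑ i, x i • X i := fun x => by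
    rw [hX]
    exact LinearMap.pi_apply_eq_sum_univ q x
  have hone : ∀ l, oneS m (e l) = 1 := by
    intro l
    rw [oneS_apply, he]
    simp [apply_ite]
  have hh : ∀ l i, |j (e l) i| ≤ 1 := fun l i => by
    rw [← hone l]
    exact (norm_le_pi_norm (j (e l)) i).trans (hj (e l))
  have hC : 0 ≤ C := by
    have h1 : (1 : ℝ) ≤ C * ‖j (e ⟨0, hm⟩)‖ := by
      have h := hq (j (e ⟨0, hm⟩))
      rw [hqj, hone] at h
      exact h
    by_contra hc
    have h2 : C * ‖j (e ⟨0, hm⟩)‖ ≤ 0 :=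
      mul_nonpos_of_nonpos_of_nonneg (not_le.1 hc).le (norm_nonneg _)
    linarith
  have hg : ∀ g, ∑ i, |rad g (X i)| ≤ C := by
    intro g
    obtain ⟨ε, hε⟩ : ∃ ε : Fin k → ℝ, ε = fun i => if 0 ≤ rad g (X i) then 1 else -1 :=
      ⟨_, rfl⟩
    have h1 : ∑ i, |rad g (X i)| = rad g (q ε) := by
      rw [hqX, OBI_lin]
      refine Finset.sum_congr rfl fun i _ => ?_
      rw [hε]
      show |rad g (X i)| = (if 0 ≤ rad g (X i) then (1 : ℝ) else -1) * rad g (X i)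
      split_ifs with h
      · rw [abs_of_nonneg h, one_mul]
      · rw [abs_of_neg (not_le.1 h)]
        ring
    have h2 : ‖ε‖ ≤ 1 := by
      rw [pi_norm_le_iff_of_nonneg zero_le_one]
      intro i
      rw [hε]
      show ‖if 0 ≤ rad g (X i) then (1 : ℝ) else -1‖ ≤ 1
      split_ifs <;> simp
    calc ∑ i, |rad g (X i)| = rad g (q ε) := h1
      _ ≤ |rad g (q ε)| := le_abs_self _
      _ ≤ ∑ l, |q ε l| := OBI_rad_abs g _
      _ ≤ C * ‖ε‖ := hq ε
      _ ≤ C * 1 := mul_le_mul_of_nonneg_left h2 hC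
      _ = C := mul_one C
  have h2 : ∑ i, Real.sqrt (∑ l, X i l ^ 2) ≤ Real.sqrt 3 * C := by
    have h3 : 2 ^ m * ∑ i, Real.sqrt (∑ l, X i l ^ 2) ≤ 2 ^ m * (Real.sqrt 3 * C) := by
      calc 2 ^ m * ∑ i, Real.sqrt (∑ l, X i l ^ 2)
          = ∑ i, 2 ^ m * Real.sqrt (∑ l, X i l ^ 2) := Finset.mul_sum _ _ _
        _ ≤ ∑ i, Real.sqrt 3 * ∑ g : Fin m → Bool, |rad g (X i)| :=
            Finset.sum_le_sum fun i _ => hKHI m (X i)
        _ = Real.sqrt 3 * ∑ g : Fin m → Bool, ∑ i, |rad g (X i)| := by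
            rw [← Finset.mul_sum, Finset.sum_comm]
        _ ≤ Real.sqrt 3 * ∑ _g : Fin m → Bool, C :=
            mul_le_mul_of_nonneg_left (Finset.sum_le_sum fun g _ => hg g) (Real.sqrt_nonneg _)
        _ = 2 ^ m * (Real.sqrt 3 * C) := by
            simp
            ring
    exact le_of_mul_le_mul_left h3 (by positivity)
  have h4 : (m : ℝ) ≤ ∑ i, ∑ l, |X i l| := by
    calc (m : ℝ) = ∑ _l : Fin m, (1 : ℝ) := by simp
      _ = ∑ l : Fin m, ∑ i, j (e l) i * X i l := by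
          refine Finset.sum_congr rfl fun l _ => ?_
          have h5 := congrFun (hqj (e l)) l
          rw [hqX, Finset.sum_apply] at h5
          simp only [Pi.smul_apply, smul_eq_mul] at h5
          rw [h5, he]
          simp
      _ = ∑ i, ∑ l, j (e l) i * X i l := Finset.sum_comm
      _ ≤ ∑ i, ∑ l, |X i l| := Finset.sum_le_sum fun i _ => Finset.sum_le_sum fun l _ => by
          calc j (e l) i * X i l ≤ |j (e l) i * X i l| := le_abs_self _
            _ = |j (e l) i| * |X i l| := abs_mul _ _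
            _ ≤ 1 * |X i l| := mul_le_mul_of_nonneg_right (hh l i) (abs_nonneg _)
            _ = |X i l| := one_mul _
  have h5 : (m : ℝ) ≤ Real.sqrt m * (Real.sqrt 3 * C) := by
    calc (m : ℝ) ≤ ∑ i, ∑ l, |X i l| := h4
      _ ≤ ∑ i, Real.sqrt m * Real.sqrt (∑ l, X i l ^ 2) :=
          Finset.sum_le_sum fun i _ => OBI_cs (X i)
      _ = Real.sqrt m * ∑ i, Real.sqrt (∑ l, X i l ^ 2) := (Finset.mul_sum _ _ _).symm
      _ ≤ Real.sqrt m * (Real.sqrt 3 * C) := mul_le_mul_of_nonneg_left h2 (Real.sqrt_nonneg _)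
  have hs : Real.sqrt m * Real.sqrt m = m := Real.mul_self_sqrt (Nat.cast_nonneg m)
  have hs0 : 0 < Real.sqrt m := Real.sqrt_pos.2 (Nat.cast_pos.2 hm)
  have h6 : Real.sqrt m ≤ Real.sqrt 3 * C := by
    refine le_of_mul_le_mul_left ?_ hs0
    rw [hs]
    exact h5
  calc (m : ℝ) = Real.sqrt m * Real.sqrt m := hs.symm
    _ ≤ (Real.sqrt 3 * C) * (Real.sqrt 3 * C) := mul_self_le_mul_self hs0.le h6
    _ = (Real.sqrt 3 * Real.sqrt 3) * C ^ 2 := by ring
    _ = 3 * C ^ 2 := by rw [Real.mul_self_sqrt (by norm_num)]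

end Pool.RX
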