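import Pool.Agent.Work.MP_3e8c7a_r.Interface

/-! # Block OBO: `ℓ_2^m` is not complemented in `ℓ_1` (helper37) -/

set_option autoImplicit false

namespace Pool.RX

open Module Pool.Agent.MP3e8c7a

theorem OBO_exp {m k : ℕ} (j : (Fin m → ℝ) →ₗ[ℝ] (Fin k → ℝ)) (y : Fin m → ℝ) (i : Fin k) :
    j y i = ∑ l, y l * j (Pi.single l 1) i := by
  have h1 : y = ∑ l, y l • (Pi.single l (1 : ℝ) : Fin m → ℝ) := by
    funext a
    rw [Finset.sum_apply, Finset.sum_eq_single a]
    · simp
    · intro b _ hb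
      simp [hb.symm]
    · intro h
      exact absurd (Finset.mem_univ a) h
  conv_lhs => rw [h1]
  rw [map_sum, Finset.sum_apply]
  refine Finset.sum_congr rfl fun l _ => ?_
  rw [map_smul, Pi.smul_apply, smul_eq_mul]

theorem p_OBO (hKHI : Stmt_KHI) : Stmt_OBO := by
  intro m k C j q hC hqj hj hq
  set h : Fin k → Fin m → ℝ := fun i l => j (Pi.single l 1) i with hh
  set x : Fin k → Fin m → ℝ := fun i l => q (Pi.single i 1) l with hx
  have hxC : ∀ i, Real.sqrt (∑ l, x i l ^ 2) ≤ C := by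
    intro i
    have h1 := hq (Pi.single i 1)
    have h2 : ∑ a, |(Pi.single i (1 : ℝ) : Fin k → ℝ) a| = 1 := by
      rw [Finset.sum_eq_single i]
      · simp
      · intro b _ hb
        simp [hb]
      · intro hn
        exact absurd (Finset.mem_univ i) hn
    rw [h2, mul_one] at h1
    exact h1
  -- the trace
  have htr : (m : ℝ) = ∑ i, ∑ l, h i l * x i l := by
    have h1 : ∀ l : Fin m, (1 : ℝ) = ∑ i, h i l * x i l := by
      intro l
      have h2 := congrFun (hqj (Pi.single l 1)) l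
      rw [Pi.single_eq_same, OBO_exp q] at h2
      exact h2.symm
    rw [Finset.sum_comm, ← Finset.sum_congr rfl fun l _ => h1 l]
    simp
  have hcs : ∀ i, ∑ l, h i l * x i l ≤ Real.sqrt (∑ l, h i l ^ 2) * C := by
    intro i
    refine (Real.sum_mul_le_sqrt_mul_sqrt Finset.univ (h i) (x i)).trans ?_
    exact mul_le_mul_of_nonneg_left (hxC i) (Real.sqrt_nonneg _)
  set H : ℝ := ∑ i, Real.sqrt (∑ l, h i l ^ 2) with hH
  have hmH : (m : ℝ) ≤ H * C := by
    rw [htr, hH, Finset.sum_mul]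
    exact Finset.sum_le_sum fun i _ => hcs i
  -- signs
  have hsg : ∀ c : Bool, sgn c ^ 2 = 1 := by
    intro c
    cases c <;> simp [sgn]
  have hrad : ∀ g : Fin m → Bool, ∑ i, |rad g (h i)| ≤ Real.sqrt m := by
    intro g
    have h1 := hj (fun l => sgn (g l))
    have h2 : ∑ l : Fin m, sgn (g l) ^ 2 = (m : ℝ) := by
      rw [Finset.sum_congr rfl fun l _ => hsg (g l)]
      simp
    rw [h2] at h1
    refine le_trans (le_of_eq ?_) h1
    refine Finset.sum_congr rfl fun i _ => ?_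
    rw [OBO_exp j]
    rfl
  have h2m : (0 : ℝ) < 2 ^ m := by positivity
  have hsum : (2 : ℝ) ^ m * H ≤ Real.sqrt 3 * (2 ^ m * Real.sqrt m) := by
    have h1 : (2 : ℝ) ^ m * H ≤ ∑ i, Real.sqrt 3 * ∑ g : Fin m → Bool, |rad g (h i)| := by
      rw [hH, Finset.mul_sum]
      exact Finset.sum_le_sum fun i _ => hKHI m (h i)
    refine h1.trans ?_
    rw [← Finset.mul_sum, Finset.sum_comm]
    refine mul_le_mul_of_nonneg_left ?_ (Real.sqrt_nonneg _)
    refine (Finset.sum_le_sum fun g _ => hrad g).trans ?_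
    rw [Finset.sum_const, nsmul_eq_mul]
    refine le_of_eq ?_
    rw [Finset.card_univ, Fintype.card_fun, Fintype.card_bool, Fintype.card_fin]
    push_cast
    ring
  have hH2 : H ≤ Real.sqrt 3 * Real.sqrt m := by
    have h1 : (2 : ℝ) ^ m * H ≤ 2 ^ m * (Real.sqrt 3 * Real.sqrt m) := by linarith
    exact le_of_mul_le_mul_left h1 h2m
  have h3 : (m : ℝ) ≤ Real.sqrt 3 * Real.sqrt m * C :=
    hmH.trans (mul_le_mul_of_nonneg_right hH2 hC)
  rcases Nat.eq_zero_or_pos m with h0 | hpos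
  · rw [h0]
    push_cast
    positivity
  · have hmp : (0 : ℝ) < m := by exact_mod_cast hpos
    have hsp : 0 < Real.sqrt m := Real.sqrt_pos.2 hmp
    have hss : Real.sqrt m * Real.sqrt m = m := Real.mul_self_sqrt hmp.le
    have h4 : Real.sqrt m ≤ Real.sqrt 3 * C := by
      have h5 : Real.sqrt m * Real.sqrt m ≤ Real.sqrt m * (Real.sqrt 3 * C) := by
        rw [hss]
        linarith
      exact le_of_mul_le_mul_left h5 hsp
    have h33 : Real.sqrt 3 * Real.sqrt 3 = 3 := Real.mul_self_sqrt (by norm_num)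
    calc (m : ℝ) = Real.sqrt m * Real.sqrt m := hss.symm
      _ ≤ (Real.sqrt 3 * C) * (Real.sqrt 3 * C) := mul_le_mul h4 h4 hsp.le (by positivity)
      _ = (Real.sqrt 3 * Real.sqrt 3) * C ^ 2 := by ring
      _ = 3 * C ^ 2 := by rw [h33]

end Pool.RX
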