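import Pool.Agent.Work.MP_3e8c7a_r.Interface
import Pool.Agent.Work.MP_3e8c7a_k.B_MOM

/-!
# Block RAD: the spaces spanned by the Rademacher functions
-/

set_option autoImplicit false

namespace Pool.RX

open Module Pool.Agent.MP3e8c7a

theorem RAD_second (m : ℕ) (x : Fin m → ℝ) :
    ∑ g : Fin m → Bool, (rad g x) ^ 2 = 2 ^ m * ∑ l, x l ^ 2 :=
  (Pool.Agent.MP3e8c7ak.MOM m x).1

theorem RAD_abs_sgn (c : Bool) : |sgn c| = 1 := by
  cases c <;> simp [sgn]

/-- the linear map `y ↦ (c · rad g y)_g` -/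
noncomputable def RAD_u (m : ℕ) (c : ℝ) (e : Fin (2 ^ m) ≃ (Fin m → Bool)) :
    (Fin m → ℝ) →ₗ[ℝ] (Fin (2 ^ m) → ℝ) where
  toFun y := fun i => c * rad (e i) y
  map_add' x y := by
    funext i
    simp only [rad, Pi.add_apply, mul_add, Finset.sum_add_distrib]
  map_smul' a x := by
    funext i
    simp only [rad, Pi.smul_apply, smul_eq_mul, RingHom.id_apply]
    rw [mul_left_comm, Finset.mul_sum (a := a)]
    congr 1
    apply Finset.sum_congr rfl
    intro l _
    ring

theorem RAD_u_apply (m : ℕ) (c : ℝ) (e : Fin (2 ^ m) ≃ (Fin m → Bool)) (y : Fin m → ℝ)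
    (i : Fin (2 ^ m)) : RAD_u m c e y i = c * rad (e i) y := rfl

theorem p_RAD (h1 : Stmt_KHI) : Stmt_RAD := by
  intro m
  have e : Fin (2 ^ m) ≃ (Fin m → Bool) :=
    (Fintype.equivFinOfCardEq (by simp)).symm
  constructor
  · refine ⟨RAD_u m 1 e, fun y => ?_⟩
    apply le_antisymm
    · rw [pi_norm_le_iff_of_nonneg (Finset.sum_nonneg fun _ _ => abs_nonneg _)]
      intro i
      rw [RAD_u_apply, one_mul, Real.norm_eq_abs]
      unfold rad
      refine (Finset.abs_sum_le_sum_abs _ _).trans (Finset.sum_le_sum fun l _ => ?_)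
      rw [abs_mul, RAD_abs_sgn, one_mul]
    · have h := norm_le_pi_norm (RAD_u m 1 e y) (e.symm fun l => decide (0 ≤ y l))
      refine le_trans ?_ h
      rw [RAD_u_apply, one_mul, Real.norm_eq_abs, Equiv.apply_symm_apply]
      refine le_trans ?_ (le_abs_self _)
      unfold rad
      apply Finset.sum_le_sum
      intro l _
      change |y l| ≤ sgn (decide (0 ≤ y l)) * y l
      by_cases hl : 0 ≤ y l
      · rw [abs_of_nonneg hl, decide_eq_true hl]
        simp [sgn]
      · rw [abs_of_neg (not_le.1 hl), decide_eq_false hl]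
        simp [sgn]
  · have hp : (0 : ℝ) < 2 ^ m := by positivity
    refine ⟨RAD_u m ((2 ^ m)⁻¹) e, fun y => ?_⟩
    have hsum : ∑ i, |RAD_u m ((2 ^ m)⁻¹) e y i| =
        (2 ^ m)⁻¹ * ∑ g : Fin m → Bool, |rad g y| := by
      rw [Finset.mul_sum, ← Equiv.sum_comp e]
      apply Finset.sum_congr rfl
      intro i _
      rw [RAD_u_apply, abs_mul, abs_of_pos (inv_pos.2 hp)]
    rw [hsum]
    have hk := h1 m y
    constructor
    · rw [mul_left_comm, ← div_eq_inv_mul, le_div_iff₀ hp, mul_comm]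
      exact hk
    · rw [← div_eq_inv_mul, div_le_iff₀ hp]
      have hcs := Finset.sum_mul_sq_le_sq_mul_sq (Finset.univ : Finset (Fin m → Bool))
        (fun _ => (1 : ℝ)) (fun g => |rad g y|)
      simp only [one_mul, sq_abs, one_pow] at hcs
      rw [RAD_second] at hcs
      have hcard : ∑ _g : Fin m → Bool, (1 : ℝ) = 2 ^ m := by simp
      rw [hcard] at hcs
      have hS : 0 ≤ ∑ l, y l ^ 2 := Finset.sum_nonneg fun _ _ => sq_nonneg _
      have hL : 0 ≤ ∑ g : Fin m → Bool, |rad g y| := Finset.sum_nonneg fun _ _ => abs_nonneg _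
      apply (sq_le_sq₀ hL (by positivity)).1
      rw [mul_pow, Real.sq_sqrt hS]
      calc (∑ g : Fin m → Bool, |rad g y|) ^ 2 ≤ 2 ^ m * (2 ^ m * ∑ l, y l ^ 2) := hcs
        _ = (∑ l, y l ^ 2) * (2 ^ m) ^ 2 := by ring

end Pool.RX
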