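import Pool.Agent.Work.MP_3e8c7a_r.Interface

/-! # Block SEL: independent sets (helper37) -/

set_option autoImplicit false

namespace Pool.RX

open Module Pool.Agent.MP3e8c7a

theorem SEL_ind {V : Type} [DecidableEq V] (E : V → V → Prop) [DecidableRel E] (d : ℕ) :
    ∀ (j : ℕ) (S : Finset V), (∀ s ∈ S, (S.filter (E s)).card ≤ d) → (2 * d + 1) * j ≤ S.card →
      ∃ T ⊆ S, T.card = j ∧ ∀ s ∈ T, ∀ t ∈ T, s ≠ t → ¬ E s t := by
  intro j
  induction j with
  | zero =>
    intro S _ _
    exact ⟨∅, Finset.empty_subset _, rfl, fun s hs => absurd hs (Finset.notMem_empty _)⟩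
  | succ j ih =>
    intro S hS hcard
    have hex : ∃ t ∈ S, (S.filter (fun s => E s t)).card ≤ d := by
      by_contra hcon
      push Not at hcon
      have h1 := Finset.sum_card_bipartiteAbove_eq_sum_card_bipartiteBelow (s := S) (t := S) E
      have h2 : ∑ a ∈ S, (S.bipartiteAbove E a).card ≤ S.card * d := by
        have := Finset.sum_le_card_nsmul S (fun a => (S.bipartiteAbove E a).card) d
          fun a ha => hS a ha
        rwa [smul_eq_mul] at this
      have h3 : S.card * (d + 1) ≤ ∑ b ∈ S, (S.bipartiteBelow E b).card := by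
        have := Finset.card_nsmul_le_sum S (fun b => (S.bipartiteBelow E b).card) (d + 1)
          fun b hb => hcon b hb
        rwa [smul_eq_mul] at this
      rw [← h1] at h3
      have h4 : S.card * (d + 1) ≤ S.card * d := h3.trans h2
      have h5 : S.card = 0 := by
        rw [Nat.mul_succ] at h4
        omega
      rw [h5, Nat.mul_succ] at hcard
      omega
    obtain ⟨t, ht, hin⟩ := hex
    have hout := hS t ht
    set S' := S \ (insert t (S.filter (fun s => E s t) ∪ S.filter (E t))) with hS'
    have hsub : S' ⊆ S := Finset.sdiff_subset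
    have hcU : (insert t (S.filter (fun s => E s t) ∪ S.filter (E t))).card ≤ 2 * d + 1 := by
      refine (Finset.card_insert_le _ _).trans ?_
      have := Finset.card_union_le (S.filter (fun s => E s t)) (S.filter (E t))
      omega
    have hc' : (2 * d + 1) * j ≤ S'.card := by
      have h1 := Finset.le_card_sdiff
        (insert t (S.filter (fun s => E s t) ∪ S.filter (E t))) S
      rw [← hS'] at h1
      rw [Nat.mul_succ] at hcard
      omega
    obtain ⟨T, hT, hTc, hTi⟩ := ih S' (fun s hs =>
      (Finset.card_le_card (Finset.filter_subset_filter _ hsub)).trans (hS s (hsub hs))) hc'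
    have htT : t ∉ T := by
      intro h
      have h1 := hT h
      rw [hS', Finset.mem_sdiff] at h1
      exact h1.2 (Finset.mem_insert_self _ _)
    have hav : ∀ s ∈ T, ¬ E s t ∧ ¬ E t s := by
      intro s hs
      have h1 := hT hs
      rw [hS', Finset.mem_sdiff] at h1
      constructor
      · intro hE
        exact h1.2 (Finset.mem_insert_of_mem (Finset.mem_union_left _
          (Finset.mem_filter.2 ⟨h1.1, hE⟩)))
      · intro hE
        exact h1.2 (Finset.mem_insert_of_mem (Finset.mem_union_right _
          (Finset.mem_filter.2 ⟨h1.1, hE⟩)))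
    refine ⟨insert t T, Finset.insert_subset ht (hT.trans hsub), ?_, ?_⟩
    · rw [Finset.card_insert_of_notMem htT, hTc]
    · intro a ha b hb hab
      rcases Finset.mem_insert.1 ha with ha' | ha'
      · rcases Finset.mem_insert.1 hb with hb' | hb'
        · exact absurd (ha'.trans hb'.symm) hab
        · rw [ha']
          exact (hav b hb').2
      · rcases Finset.mem_insert.1 hb with hb' | hb'
        · rw [hb']
          exact (hav a ha').1
        · exact hTi a ha' b hb' hab

theorem p_SEL : Stmt_SEL := by
  classical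
  intro C η j hη
  refine ⟨(2 * ⌊C / η⌋₊ + 1) * j, fun m hm hC => ?_⟩
  obtain ⟨T, -, hT, hi⟩ := SEL_ind (fun s t => η < m s t) ⌊C / η⌋₊ j Finset.univ (by
    intro s _
    refine Nat.le_floor ?_
    rw [le_div_iff₀ hη]
    refine le_trans ?_ (hC s)
    have h1 : ∑ t ∈ Finset.univ.filter (fun t => η < m s t), η ≤
        ∑ t ∈ Finset.univ.filter (fun t => η < m s t), m s t :=
      Finset.sum_le_sum fun t ht => (Finset.mem_filter.1 ht).2.le
    rw [Finset.sum_const, nsmul_eq_mul] at h1
    exact h1.trans (Finset.sum_le_sum_of_subset_of_nonneg (Finset.filter_subset _ _)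
      fun t _ _ => hm s t)) (by rw [Finset.card_univ, Fintype.card_fin])
  refine ⟨fun i => T.orderEmbOfFin hT i, (T.orderEmbOfFin hT).injective, fun s t hst => ?_⟩
  exact not_lt.1 (hi _ (Finset.orderEmbOfFin_mem T hT s) _ (Finset.orderEmbOfFin_mem T hT t)
    fun h => hst ((T.orderEmbOfFin hT).injective h))

end Pool.RX
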