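import Pool.Agent.Work.MP_3e8c7a_r.Interface

set_option autoImplicit false

namespace Pool.RX

open Module Pool.Agent.MP3e8c7a

/-- the sign of a real number, never zero -/
noncomputable def SYI_sg (a : ℝ) : ℝ := if 0 ≤ a then 1 else -1

theorem SYI_sg_mul (a : ℝ) : SYI_sg a * a = |a| := by
  unfold SYI_sg
  split_ifs with h
  · rw [one_mul, abs_of_nonneg h]
  · rw [neg_one_mul, abs_of_neg (not_le.1 h)]

theorem SYI_sg_abs (a : ℝ) : |SYI_sg a| = 1 := by
  unfold SYI_sg
  split_ifs with h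
  · exact abs_one
  · rw [abs_neg, abs_one]

/-- a norming functional -/
theorem SYI_norming {V : Type} [AddCommGroup V] [Module ℝ V] (s : Seminorm ℝ V) (v : V) :
    ∃ f : V →ₗ[ℝ] ℝ, (∀ x, |f x| ≤ s x) ∧ f v = s v := by
  by_cases hv : v = 0
  · refine ⟨0, fun x => ?_, ?_⟩
    · rw [LinearMap.zero_apply, abs_zero]
      exact apply_nonneg s x
    · rw [hv, map_zero, map_zero]
  · have hi : Function.Injective (LinearMap.toSpanSingleton ℝ V v) := by
      rw [← LinearMap.ker_eq_bot]
      exact LinearMap.ker_toSpanSingleton ℝ hv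
    obtain ⟨g, hg1, hg2⟩ := exists_ext s (LinearMap.toSpanSingleton ℝ V v) hi zero_le_one
      ((s v) • (LinearMap.id : ℝ →ₗ[ℝ] ℝ)) (fun a => by
        rw [LinearMap.smul_apply, LinearMap.id_apply, smul_eq_mul, one_mul,
          LinearMap.toSpanSingleton_apply, map_smul_eq_mul, abs_mul, Real.norm_eq_abs,
          abs_of_nonneg (apply_nonneg s v), mul_comm])
    refine ⟨g, fun x => by simpa using hg2 x, ?_⟩
    have h := hg1 1
    rw [LinearMap.toSpanSingleton_apply, one_smul] at h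
    rw [h, LinearMap.smul_apply, LinearMap.id_apply, smul_eq_mul, mul_one]

/-- a linear map from `ℝ^k` in coordinates -/
theorem SYI_sum {V : Type} [AddCommGroup V] [Module ℝ V] {k : ℕ} (q : (Fin k → ℝ) →ₗ[ℝ] V)
    (z : Fin k → ℝ) : q z = ∑ i, z i • q (Pi.single i 1) := by
  conv_lhs => rw [pi_eq_sum_univ' z]
  rw [map_sum]
  refine Finset.sum_congr rfl fun i _ => ?_
  rw [map_smul]

/-- block SYI -/
theorem p_SYI (hUI : Stmt_UI) (hSEL : Stmt_SEL) (hDIM : Stmt_DIM) : Stmt_SYI := by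
  intro C j hC
  have hη : (0 : ℝ) < 1 / (8 * ((j : ℝ) + 1)) := by positivity
  obtain ⟨J, hJ⟩ := hSEL C (1 / (8 * ((j : ℝ) + 1))) j hη
  obtain ⟨K, hK, hUI'⟩ := hUI C (1 / 2) J (by norm_num)
  obtain ⟨n₁, hn₁⟩ := hDIM K 1
  refine ⟨n₁ + 1, ?_⟩
  intro V _ _ _ s hs hdim hfac
  classical
  obtain ⟨k, j₀, q₀, hqj, hj, hq⟩ := hfac
  simp only [XN_true] at hj hq
  set x : Fin k → V := fun i => q₀ (Pi.single i 1) with hx
  have hsum : ∀ z : Fin k → ℝ, q₀ z = ∑ i, z i • x i := fun z => SYI_sum q₀ z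
  have hfsum : ∀ (f : V →ₗ[ℝ] ℝ) (z : Fin k → ℝ), f (q₀ z) = ∑ i, z i * f (x i) := by
    intro f z
    rw [hsum, map_sum]
    exact Finset.sum_congr rfl fun i _ => by rw [map_smul, smul_eq_mul]
  have hμC : ∀ f : V →ₗ[ℝ] ℝ, (∀ v, |f v| ≤ s v) → ∑ i, |f (x i)| ≤ C := by
    intro f hf
    have h1 : ∑ i, |f (x i)| = f (q₀ fun i => SYI_sg (f (x i))) := by
      rw [hfsum]
      exact Finset.sum_congr rfl fun i _ => (SYI_sg_mul _).symm
    have h2 : ‖(fun i => SYI_sg (f (x i)) : Fin k → ℝ)‖ ≤ 1 := by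
      rw [pi_norm_le_iff_of_nonneg zero_le_one]
      intro i
      rw [Real.norm_eq_abs]
      exact le_of_eq (SYI_sg_abs _)
    rw [h1]
    calc f (q₀ fun i => SYI_sg (f (x i))) ≤ |f (q₀ fun i => SYI_sg (f (x i)))| := le_abs_self _
      _ ≤ s (q₀ fun i => SYI_sg (f (x i))) := hf _
      _ ≤ C * ‖(fun i => SYI_sg (f (x i)) : Fin k → ℝ)‖ := hq _
      _ ≤ C * 1 := mul_le_mul_of_nonneg_left h2 (by linarith)
      _ = C := mul_one C
  rcases hUI' k {μ | ∃ f : V →ₗ[ℝ] ℝ, (∀ v, |f v| ≤ s v) ∧ μ = fun i => |f (x i)|} (by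
      rintro μ ⟨f, hf, rfl⟩
      exact ⟨fun i => abs_nonneg _, hμC f hf⟩) with h1 | h1
  · obtain ⟨μ, A, hμ, hdis, hA⟩ := h1
    choose f hf hμf using hμ
    have hA' : ∀ t, 1 / 4 ≤ ∑ i ∈ A t, |f t (x i)| := by
      intro t
      have h2 := hA t
      rw [hμf t] at h2
      linarith
    obtain ⟨g, hg, hgη⟩ := hJ (fun t u => ∑ i ∈ A u, |f t (x i)|)
      (fun t u => Finset.sum_nonneg fun i _ => abs_nonneg _)
      (fun t => by
        have h2 : ∑ u, ∑ i ∈ A u, |f t (x i)| = ∑ i ∈ Finset.univ.biUnion A, |f t (x i)| := by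
          rw [Finset.sum_biUnion]
          intro u _ v _ huv
          exact hdis u v huv
        rw [h2]
        exact (Finset.sum_le_sum_of_subset_of_nonneg (Finset.subset_univ _)
          fun i _ _ => abs_nonneg _).trans (hμC (f t) (hf t)))
    -- the vectors
    let Y : Fin j → Fin k → ℝ := fun t i => if i ∈ A (g t) then SYI_sg (f (g t) (x i)) else 0
    let Z : (Fin j → ℝ) →ₗ[ℝ] (Fin k → ℝ) := Fintype.linearCombination ℝ Y
    have hZ : ∀ a, Z a = ∑ t, a t • Y t := fun a => Fintype.linearCombination_apply ℝ Y a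
    have hZn : ∀ a, ‖Z a‖ ≤ ‖a‖ := by
      intro a
      rw [pi_norm_le_iff_of_nonneg (norm_nonneg a)]
      intro i
      rw [hZ, Finset.sum_apply]
      by_cases h2 : ∃ t, i ∈ A (g t)
      · obtain ⟨t, ht⟩ := h2
        rw [Finset.sum_eq_single t]
        · rw [Pi.smul_apply, smul_eq_mul, Real.norm_eq_abs, abs_mul]
          change |a t| * |if i ∈ A (g t) then SYI_sg (f (g t) (x i)) else 0| ≤ ‖a‖
          rw [if_pos ht, SYI_sg_abs, mul_one]
          exact norm_le_pi_norm a t
        · intro u _ hut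
          rw [Pi.smul_apply, smul_eq_mul]
          change a u * (if i ∈ A (g u) then SYI_sg (f (g u) (x i)) else 0) = 0
          rw [if_neg, mul_zero]
          intro hu
          exact Finset.disjoint_left.1 (hdis (g u) (g t) fun h => hut (hg h)) hu ht
        · intro h
          exact absurd (Finset.mem_univ t) h
      · rw [Finset.sum_eq_zero, norm_zero]
        · exact norm_nonneg a
        · intro u _
          rw [Pi.smul_apply, smul_eq_mul]
          change a u * (if i ∈ A (g u) then SYI_sg (f (g u) (x i)) else 0) = 0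
          rw [if_neg fun hu => h2 ⟨u, hu⟩, mul_zero]
    have hfY : ∀ (F : V →ₗ[ℝ] ℝ) (t : Fin j), F (q₀ (Y t)) =
        ∑ i ∈ A (g t), SYI_sg (f (g t) (x i)) * F (x i) := by
      intro F t
      rw [hfsum]
      change ∑ i, (if i ∈ A (g t) then SYI_sg (f (g t) (x i)) else 0) * F (x i) = _
      simp only [ite_mul, zero_mul]
      rw [Finset.sum_ite_mem, Finset.univ_inter]
    refine ⟨q₀ ∘ₗ Z, fun a => ⟨?_, ?_⟩⟩
    · change ‖a‖ ≤ 8 * s (q₀ (Z a))
      rcases Nat.eq_zero_or_pos j with h2 | h2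
      · subst h2
        have h3 : ‖a‖ = 0 := by
          rw [norm_eq_zero]
          exact Subsingleton.elim _ _
        rw [h3]
        have := apply_nonneg s (q₀ (Z a))
        linarith
      · haveI : Nonempty (Fin j) := ⟨⟨0, h2⟩⟩
        obtain ⟨t₀, ht₀⟩ := Finite.exists_max (fun t => |a t|)
        have h3 : ‖a‖ ≤ |a t₀| := by
          rw [pi_norm_le_iff_of_nonneg (abs_nonneg _)]
          intro t
          rw [Real.norm_eq_abs]
          exact ht₀ t
        have h4 : f (g t₀) (q₀ (Z a)) = ∑ t, a t * f (g t₀) (q₀ (Y t)) := by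
          rw [hZ, map_sum, map_sum]
          exact Finset.sum_congr rfl fun t _ => by rw [map_smul, map_smul, smul_eq_mul]
        have h5 : f (g t₀) (q₀ (Y t₀)) = ∑ i ∈ A (g t₀), |f (g t₀) (x i)| := by
          rw [hfY]
          exact Finset.sum_congr rfl fun i _ => SYI_sg_mul _
        have h6 : 1 / 4 ≤ f (g t₀) (q₀ (Y t₀)) := by
          rw [h5]
          exact hA' (g t₀)
        have h7 : ∀ t, t ≠ t₀ → |f (g t₀) (q₀ (Y t))| ≤ 1 / (8 * ((j : ℝ) + 1)) := by
          intro t ht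
          rw [hfY]
          calc |∑ i ∈ A (g t), SYI_sg (f (g t) (x i)) * f (g t₀) (x i)|
              ≤ ∑ i ∈ A (g t), |SYI_sg (f (g t) (x i)) * f (g t₀) (x i)| :=
                Finset.abs_sum_le_sum_abs _ _
            _ = ∑ i ∈ A (g t), |f (g t₀) (x i)| :=
                Finset.sum_congr rfl fun i _ => by rw [abs_mul, SYI_sg_abs, one_mul]
            _ ≤ 1 / (8 * ((j : ℝ) + 1)) := hgη t₀ t fun h => ht h.symm
        have h8 : f (g t₀) (q₀ (Z a)) = a t₀ * f (g t₀) (q₀ (Y t₀)) +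
            ∑ t ∈ Finset.univ.erase t₀, a t * f (g t₀) (q₀ (Y t)) := by
          rw [h4]
          exact (Finset.add_sum_erase Finset.univ (fun t => a t * f (g t₀) (q₀ (Y t)))
            (Finset.mem_univ t₀)).symm
        have h9 : |∑ t ∈ Finset.univ.erase t₀, a t * f (g t₀) (q₀ (Y t))| ≤ ‖a‖ * (1 / 8) := by
          calc |∑ t ∈ Finset.univ.erase t₀, a t * f (g t₀) (q₀ (Y t))|
              ≤ ∑ t ∈ Finset.univ.erase t₀, |a t * f (g t₀) (q₀ (Y t))| :=
                Finset.abs_sum_le_sum_abs _ _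
            _ ≤ ∑ t ∈ Finset.univ.erase t₀, ‖a‖ * (1 / (8 * ((j : ℝ) + 1))) := by
                refine Finset.sum_le_sum fun t ht => ?_
                rw [abs_mul]
                exact mul_le_mul (norm_le_pi_norm a t) (h7 t (Finset.ne_of_mem_erase ht))
                  (abs_nonneg _) (norm_nonneg a)
            _ ≤ ∑ t : Fin j, ‖a‖ * (1 / (8 * ((j : ℝ) + 1))) :=
                Finset.sum_le_sum_of_subset_of_nonneg (Finset.erase_subset _ _)
                  fun t _ _ => by positivity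
            _ = ‖a‖ * (j * (1 / (8 * ((j : ℝ) + 1)))) := by
                rw [Finset.sum_const, Finset.card_univ, Fintype.card_fin, nsmul_eq_mul]
                ring
            _ ≤ ‖a‖ * (1 / 8) := by
                refine mul_le_mul_of_nonneg_left ?_ (norm_nonneg a)
                rw [mul_one_div, div_le_div_iff₀ (by positivity) (by norm_num)]
                linarith
        have h10 : ‖a‖ * (1 / 4) ≤ |a t₀ * f (g t₀) (q₀ (Y t₀))| := by
          rw [abs_mul]
          exact mul_le_mul h3 (h6.trans (le_abs_self _)) (by norm_num) (abs_nonneg _)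
        have h11 : |f (g t₀) (q₀ (Z a))| ≤ s (q₀ (Z a)) := hf (g t₀) _
        have h12 : |a t₀ * f (g t₀) (q₀ (Y t₀))| ≤ |f (g t₀) (q₀ (Z a))| +
            |∑ t ∈ Finset.univ.erase t₀, a t * f (g t₀) (q₀ (Y t))| := by
          rw [h8]
          have h13 := abs_sub (a t₀ * f (g t₀) (q₀ (Y t₀)) +
            ∑ t ∈ Finset.univ.erase t₀, a t * f (g t₀) (q₀ (Y t)))
            (∑ t ∈ Finset.univ.erase t₀, a t * f (g t₀) (q₀ (Y t)))
          rwa [add_sub_cancel_right] at h13
        linarith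
    · change s (q₀ (Z a)) ≤ C * ‖a‖
      exact (hq _).trans (mul_le_mul_of_nonneg_left (hZn a) (by linarith))
  · exfalso
    obtain ⟨ν, hν0, hνK, hνμ⟩ := h1
    have h2 := hn₁ V s k j₀ ν hs hν0 hνK
      (fun v i => by
        rw [one_mul]
        exact (norm_le_pi_norm (j₀ v) i).trans (hj v))
      (fun v => by
        obtain ⟨f, hf, hfv⟩ := SYI_norming s v
        have h3 : s v = ∑ i, j₀ v i * f (x i) := by
          rw [← hfv, ← hfsum, hqj]
        have h4 := hνμ (fun i => |f (x i)|) ⟨f, hf, rfl⟩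
        have h5 : ∀ i, j₀ v i * f (x i) ≤ ν i * |j₀ v i| + s v * max (|f (x i)| - ν i) 0 := by
          intro i
          have h6 : j₀ v i * f (x i) ≤ |j₀ v i| * |f (x i)| := by
            rw [← abs_mul]
            exact le_abs_self _
          have h7 : |f (x i)| ≤ ν i + max (|f (x i)| - ν i) 0 := by
            have := le_max_left (|f (x i)| - ν i) 0
            linarith
          have h8 : |j₀ v i| ≤ s v := (norm_le_pi_norm (j₀ v) i).trans (hj v)
          have h9 : 0 ≤ max (|f (x i)| - ν i) 0 := le_max_right _ _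
          have h10 := mul_le_mul_of_nonneg_left h7 (abs_nonneg (j₀ v i))
          have h11 := mul_le_mul_of_nonneg_right h8 h9
          nlinarith
        have h6 : ∑ i, j₀ v i * f (x i) ≤ ∑ i, ν i * |j₀ v i| +
            s v * ∑ i, max (|f (x i)| - ν i) 0 := by
          rw [Finset.mul_sum, ← Finset.sum_add_distrib]
          exact Finset.sum_le_sum fun i _ => h5 i
        have h7 : s v * ∑ i, max (|f (x i)| - ν i) 0 ≤ s v * (1 / 2) :=
          mul_le_mul_of_nonneg_left h4 (apply_nonneg s v)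
        linarith)
    omega

end Pool.RX
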