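import Pool.Agent.Work.MP_3e8c7a_r.Interface

/-! MP_3e8c7a_an, THEOREM RX, block SYO. -/

set_option autoImplicit false

namespace Pool.RX

open Module Pool.Agent.MP3e8c7a

theorem SYO_disj {J k : ℕ} (A : Fin J → Finset (Fin k))
    (hA : ∀ s t, s ≠ t → Disjoint (A s) (A t)) (f : Fin k → ℝ) (hf : ∀ i, 0 ≤ f i) :
    ∑ s, ∑ i ∈ A s, f i ≤ ∑ i, f i := by
  have h1 : ∑ i ∈ Finset.univ.biUnion A, f i = ∑ s, ∑ i ∈ A s, f i :=
    Finset.sum_biUnion fun s _ t _ hst => hA s t hst
  rw [← h1]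
  exact Finset.sum_le_sum_of_subset_of_nonneg (Finset.subset_univ _) fun i _ _ => hf i

theorem SYO_row {j k : ℕ} (A : Finset (Fin k)) (v : Fin j → Fin k → ℝ) (a : Fin j → ℝ)
    (s : Fin j) (δ η : ℝ) (hη : 0 ≤ η) (h1 : δ ≤ ∑ i ∈ A, |v s i|)
    (h2 : ∀ t, t ≠ s → ∑ i ∈ A, |v t i| ≤ η) :
    |a s| * δ ≤ ∑ i ∈ A, |∑ t, a t * v t i| + η * ∑ t, |a t| := by
  have h3 : ∀ i, |a s| * |v s i| ≤ |∑ t, a t * v t i| +
      ∑ t ∈ Finset.univ.erase s, |a t| * |v t i| := by
    intro i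
    have e1 : a s * v s i = (∑ t, a t * v t i) - ∑ t ∈ Finset.univ.erase s, a t * v t i := by
      rw [← Finset.add_sum_erase Finset.univ (fun t => a t * v t i) (Finset.mem_univ s)]
      ring
    calc |a s| * |v s i| = |a s * v s i| := (abs_mul _ _).symm
      _ = |(∑ t, a t * v t i) - ∑ t ∈ Finset.univ.erase s, a t * v t i| := by rw [e1]
      _ ≤ |∑ t, a t * v t i| + |∑ t ∈ Finset.univ.erase s, a t * v t i| := abs_sub _ _
      _ ≤ |∑ t, a t * v t i| + ∑ t ∈ Finset.univ.erase s, |a t * v t i| :=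
        add_le_add le_rfl (Finset.abs_sum_le_sum_abs _ _)
      _ = _ := by simp only [abs_mul]
  calc |a s| * δ ≤ |a s| * ∑ i ∈ A, |v s i| := mul_le_mul_of_nonneg_left h1 (abs_nonneg _)
    _ = ∑ i ∈ A, |a s| * |v s i| := Finset.mul_sum _ _ _
    _ ≤ ∑ i ∈ A, (|∑ t, a t * v t i| + ∑ t ∈ Finset.univ.erase s, |a t| * |v t i|) :=
      Finset.sum_le_sum fun i _ => h3 i
    _ = ∑ i ∈ A, |∑ t, a t * v t i| +
        ∑ t ∈ Finset.univ.erase s, |a t| * ∑ i ∈ A, |v t i| := by
      rw [Finset.sum_add_distrib, Finset.sum_comm]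
      simp only [Finset.mul_sum]
    _ ≤ ∑ i ∈ A, |∑ t, a t * v t i| + ∑ t ∈ Finset.univ.erase s, |a t| * η :=
      add_le_add le_rfl (Finset.sum_le_sum fun t ht =>
        mul_le_mul_of_nonneg_left (h2 t (Finset.ne_of_mem_erase ht)) (abs_nonneg _))
    _ ≤ ∑ i ∈ A, |∑ t, a t * v t i| + ∑ t, |a t| * η :=
      add_le_add le_rfl (Finset.sum_le_sum_of_subset_of_nonneg (Finset.erase_subset _ _)
        fun t _ _ => mul_nonneg (abs_nonneg _) hη)
    _ = _ := by rw [← Finset.sum_mul, mul_comm η]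

theorem SYO_single {k : ℕ} (i : Fin k) : XN false k (Pi.single i 1) = 1 := by
  rw [XN_false, Finset.sum_eq_single i]
  · simp
  · intro l _ hl
    rw [Pi.single_eq_of_ne hl, abs_zero]
  · intro h
    exact absurd (Finset.mem_univ i) h

theorem SYO_exp {k : ℕ} {V : Type} [AddCommGroup V] [Module ℝ V] (q : (Fin k → ℝ) →ₗ[ℝ] V)
    (f : Module.Dual ℝ V) (x : Fin k → ℝ) : f (q x) = ∑ i, x i * f (q (Pi.single i 1)) := by
  have h1 : x = ∑ i, x i • (Pi.single i 1 : Fin k → ℝ) := by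
    funext l
    rw [Finset.sum_apply, Finset.sum_eq_single l]
    · simp
    · intro i _ hi
      rw [Pi.smul_apply, Pi.single_eq_of_ne hi.symm, smul_zero]
    · intro h
      exact absurd (Finset.mem_univ l) h
  conv_lhs => rw [h1]
  rw [map_sum, map_sum]
  exact Finset.sum_congr rfl fun i _ => by rw [map_smul, map_smul, smul_eq_mul]

theorem p_SYO (hUI : Stmt_UI) (hSEL : Stmt_SEL) (hDIM : Stmt_DIM) (hDUN : Stmt_DUN) :
    Stmt_SYO := by
  intro C j hC
  have hC0 : 0 < C := lt_of_lt_of_le one_pos hC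
  obtain ⟨ε, hεd⟩ : ∃ ε : ℝ, ε = 1 / (2 * C) := ⟨_, rfl⟩
  have hε : 0 < ε := by rw [hεd]; positivity
  have hCε : C * ε = 1 / 2 := by rw [hεd]; field_simp
  obtain ⟨η, hηd⟩ : ∃ η : ℝ, η = ε / (4 * ((j : ℝ) + 1)) := ⟨_, rfl⟩
  have hη : 0 < η := by rw [hηd]; positivity
  have hjη : (j : ℝ) * η ≤ ε / 4 := by
    rw [hηd, mul_div_assoc', div_le_div_iff₀ (by positivity) (by norm_num)]
    have : (0 : ℝ) ≤ j := Nat.cast_nonneg j
    nlinarith
  obtain ⟨J, hJ⟩ := hSEL 1 η j hη
  obtain ⟨K, hK, hUI'⟩ := hUI 1 ε J hε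
  obtain ⟨n, hn⟩ := hDIM K C
  refine ⟨n + 1, ?_⟩
  intro V _ _ _ s hs hdim hFac
  obtain ⟨k, j₀, q₀, hqj, hj, hq⟩ := hFac
  have hj1 : ∀ w, ∑ i, |j₀ w i| ≤ s w := hj
  rcases hUI' k {μ | ∃ w, s w ≤ 1 ∧ μ = fun i => |j₀ w i|} (by
    rintro μ ⟨w, hw, rfl⟩
    exact ⟨fun i => abs_nonneg _, (hj1 w).trans hw⟩) with h | h
  · obtain ⟨μ, A, hμ, hA, hμA⟩ := h
    choose w hw hμw using hμ
    have hw1 : ∀ t, ∑ i, |j₀ (w t) i| ≤ 1 := fun t => (hj1 _).trans (hw t)
    obtain ⟨g, hg, hgη⟩ := hJ (fun s t => ∑ i ∈ A t, |j₀ (w s) i|)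
      (fun s t => Finset.sum_nonneg fun i _ => abs_nonneg _)
      (fun s => (SYO_disj A hA (fun i => |j₀ (w s) i|) fun i => abs_nonneg _).trans (hw1 s))
    refine ⟨Fintype.linearCombination ℝ (fun t => w (g t)), fun a => ?_⟩
    have e0 : Fintype.linearCombination ℝ (fun t => w (g t)) a = ∑ t, a t • w (g t) :=
      Fintype.linearCombination_apply ℝ _ _
    rw [e0]
    have hS : 0 ≤ ∑ t, |a t| := Finset.sum_nonneg fun t _ => abs_nonneg _
    constructor
    · have e1 : ∀ i, j₀ (∑ t, a t • w (g t)) i = ∑ t, a t * j₀ (w (g t)) i := by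
        intro i
        rw [map_sum, Finset.sum_apply]
        exact Finset.sum_congr rfl fun t _ => by rw [map_smul, Pi.smul_apply, smul_eq_mul]
      have h1 : ∑ t, ∑ i ∈ A (g t), |∑ r, a r * j₀ (w (g r)) i| ≤ s (∑ t, a t • w (g t)) := by
        have h2 := SYO_disj (fun t => A (g t)) (fun s t hst => hA _ _ fun h => hst (hg h))
          (fun i => |∑ r, a r * j₀ (w (g r)) i|) fun i => abs_nonneg _
        have h3 := hj1 (∑ t, a t • w (g t))
        simp only [e1] at h3
        exact h2.trans h3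
      have h4 : ∀ t, |a t| * (ε / 2) ≤ ∑ i ∈ A (g t), |∑ r, a r * j₀ (w (g r)) i| +
          η * ∑ r, |a r| := by
        intro t
        refine SYO_row (A (g t)) (fun r i => j₀ (w (g r)) i) a t (ε / 2) η hη.le ?_ ?_
        · have h5 := hμA (g t)
          rw [hμw (g t)] at h5
          exact h5
        · intro r hr
          exact hgη r t hr
      have h6 : (∑ t, |a t|) * (ε / 2) ≤ s (∑ t, a t • w (g t)) +
          j * (η * ∑ r, |a r|) := by
        calc (∑ t, |a t|) * (ε / 2) = ∑ t, |a t| * (ε / 2) := Finset.sum_mul _ _ _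
          _ ≤ ∑ t, (∑ i ∈ A (g t), |∑ r, a r * j₀ (w (g r)) i| + η * ∑ r, |a r|) :=
            Finset.sum_le_sum fun t _ => h4 t
          _ = (∑ t, ∑ i ∈ A (g t), |∑ r, a r * j₀ (w (g r)) i|) + j * (η * ∑ r, |a r|) := by
            rw [Finset.sum_add_distrib, Finset.sum_const, Finset.card_univ, Fintype.card_fin,
              nsmul_eq_mul]
          _ ≤ _ := add_le_add h1 le_rfl
      have h7 : (j : ℝ) * (η * ∑ r, |a r|) ≤ ε / 4 * ∑ r, |a r| := by
        rw [← mul_assoc]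
        exact mul_le_mul_of_nonneg_right hjη hS
      have h8 : ε / 4 * ∑ r, |a r| ≤ s (∑ t, a t • w (g t)) := by linarith
      have h9 := mul_le_mul_of_nonneg_left h8 (by positivity : (0 : ℝ) ≤ 8 * C)
      have e2 : 8 * C * (ε / 4 * ∑ r, |a r|) = ∑ r, |a r| := by
        have : 8 * C * (ε / 4 * ∑ r, |a r|) = 2 * (C * ε) * ∑ r, |a r| := by ring
        rw [this, hCε]
        ring
      rw [e2] at h9
      exact h9
    · calc s (∑ t, a t • w (g t)) ≤ ∑ t, s (a t • w (g t)) := by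
            exact Finset.le_sum_of_subadditive s (map_zero s).le (map_add_le_add s) _ _
        _ = ∑ t, |a t| * s (w (g t)) := Finset.sum_congr rfl fun t _ => by
            rw [map_smul_eq_mul, Real.norm_eq_abs]
        _ ≤ ∑ t, |a t| * 1 := Finset.sum_le_sum fun t _ =>
            mul_le_mul_of_nonneg_left (hw _) (abs_nonneg _)
        _ = ∑ t, |a t| := by simp
  · exfalso
    obtain ⟨ν, hν, hνK, hνε⟩ := h
    obtain ⟨σ, hσd, hσ1, hσ2⟩ := hDUN V s hs
    have hx : ∀ i, s (q₀ (Pi.single i 1)) ≤ C := by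
      intro i
      have := hq (Pi.single i 1)
      rwa [SYO_single, mul_one] at this
    have hfx : ∀ (f : Module.Dual ℝ V) i, |f (q₀ (Pi.single i 1))| ≤ C * σ f := by
      intro f i
      calc |f (q₀ (Pi.single i 1))| ≤ σ f * s (q₀ (Pi.single i 1)) := hσ1 f _
        _ ≤ σ f * C := mul_le_mul_of_nonneg_left (hx i) (apply_nonneg σ f)
        _ = C * σ f := mul_comm _ _
    have hmain := hn (Module.Dual ℝ V) σ k
      (LinearMap.pi fun i => Module.Dual.eval ℝ V (q₀ (Pi.single i 1))) ν hσd hν hνK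
      (fun f i => hfx f i) (by
        intro f
        have h1 : σ f ≤ ∑ i, ν i * |f (q₀ (Pi.single i 1))| + ε * (C * σ f) := by
          refine hσ2 f _ (add_nonneg (Finset.sum_nonneg fun i _ =>
            mul_nonneg (hν i) (abs_nonneg _)) (by have := apply_nonneg σ f; positivity)) ?_
          intro w hw
          have h2 := hνε _ ⟨w, hw, rfl⟩
          calc f w = f (q₀ (j₀ w)) := by rw [hqj]
            _ = ∑ i, j₀ w i * f (q₀ (Pi.single i 1)) := SYO_exp q₀ f (j₀ w)
            _ ≤ ∑ i, (ν i * |f (q₀ (Pi.single i 1))| + max (|j₀ w i| - ν i) 0 * (C * σ f)) := by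
              refine Finset.sum_le_sum fun i _ => ?_
              have h3 : j₀ w i * f (q₀ (Pi.single i 1)) ≤
                  |j₀ w i| * |f (q₀ (Pi.single i 1))| := by
                rw [← abs_mul]
                exact le_abs_self _
              have h4 : |j₀ w i| ≤ ν i + max (|j₀ w i| - ν i) 0 := by
                have := le_max_left (|j₀ w i| - ν i) 0
                linarith
              calc _ ≤ |j₀ w i| * |f (q₀ (Pi.single i 1))| := h3
                _ ≤ (ν i + max (|j₀ w i| - ν i) 0) * |f (q₀ (Pi.single i 1))| :=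
                  mul_le_mul_of_nonneg_right h4 (abs_nonneg _)
                _ = ν i * |f (q₀ (Pi.single i 1))| +
                    max (|j₀ w i| - ν i) 0 * |f (q₀ (Pi.single i 1))| := add_mul _ _ _
                _ ≤ _ := add_le_add le_rfl
                  (mul_le_mul_of_nonneg_left (hfx f i) (le_max_right _ _))
            _ = ∑ i, ν i * |f (q₀ (Pi.single i 1))| +
                (∑ i, max (|j₀ w i| - ν i) 0) * (C * σ f) := by
              rw [Finset.sum_add_distrib, Finset.sum_mul]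
            _ ≤ _ := add_le_add le_rfl (mul_le_mul_of_nonneg_right h2
              (mul_nonneg hC0.le (apply_nonneg σ f)))
        have h5 : ε * (C * σ f) = σ f / 2 := by
          have : ε * (C * σ f) = (C * ε) * σ f := by ring
          rw [this, hCε]
          ring
        rw [h5] at h1
        show σ f ≤ 2 * ∑ i, ν i * |f (q₀ (Pi.single i 1))|
        linarith)
    rw [Subspace.dual_finrank_eq] at hmain
    omega

end Pool.RX
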