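import Pool.Agent.Work.MP_3e8c7a_r.Interface

/-!
# Block ABSO (typed by helper21): subspaces of codimension `c` of `ℓ_1^N` contain copies of `ℓ_1^k`
-/

set_option autoImplicit false

namespace Pool.RX

open Module Pool.Agent.MP3e8c7a

/-- the push forward of vectors along a map of the indices -/
def ABSO_P {k N : ℕ} (r : Fin k → Fin N) : (Fin k → ℝ) →ₗ[ℝ] (Fin N → ℝ) where
  toFun x := fun j => ∑ i, if r i = j then x i else 0
  map_add' x y := by
    funext j
    rw [Pi.add_apply, ← Finset.sum_add_distrib]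
    refine Finset.sum_congr rfl fun i _ => ?_
    split_ifs
    · rfl
    · simp
  map_smul' c x := by
    funext j
    rw [Pi.smul_apply, smul_eq_mul, Finset.mul_sum]
    refine Finset.sum_congr rfl fun i _ => ?_
    split_ifs
    · rfl
    · simp

theorem ABSO_P_apply {k N : ℕ} (r : Fin k → Fin N) (x : Fin k → ℝ) (j : Fin N) :
    ABSO_P r x j = ∑ i, if r i = j then x i else 0 := rfl

theorem ABSO_P_pair {k N : ℕ} (r : Fin k → Fin N) (x : Fin k → ℝ) (w : Fin N → ℝ) :
    ∑ j, w j * ABSO_P r x j = ∑ i, w (r i) * x i := by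
  simp only [ABSO_P_apply, Finset.mul_sum]
  rw [Finset.sum_comm]
  refine Finset.sum_congr rfl fun i _ => ?_
  rw [Finset.sum_eq_single (r i)]
  · rw [if_pos rfl]
  · intro j _ hj
    rw [if_neg (fun h => hj h.symm), mul_zero]
  · intro h
    exact absurd (Finset.mem_univ _) h

theorem ABSO_P_norm {k N : ℕ} (r : Fin k → Fin N) (x : Fin k → ℝ) :
    ∑ j, |ABSO_P r x j| ≤ ∑ i, |x i| := by
  have h1 : ∀ j, |ABSO_P r x j| ≤ ABSO_P r (fun i => |x i|) j := by
    intro j
    rw [ABSO_P_apply, ABSO_P_apply]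
    refine (Finset.abs_sum_le_sum_abs _ _).trans (Finset.sum_le_sum fun i _ => ?_)
    split_ifs
    · exact le_refl _
    · rw [abs_zero]
  refine (Finset.sum_le_sum fun j _ => h1 j).trans ?_
  have h2 := ABSO_P_pair r (fun i => |x i|) (fun _ => 1)
  simp only [one_mul] at h2
  rw [h2]

theorem ABSO_P_zero {k N : ℕ} (r : Fin k → Fin N) (x : Fin k → ℝ) (j : Fin N)
    (h : ∀ i, r i ≠ j) : ABSO_P r x j = 0 := by
  rw [ABSO_P_apply]
  exact Finset.sum_eq_zero fun i _ => if_neg (h i)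

/-- representatives of the cells -/
theorem ABSO_rep (N m c G : ℕ) (v : Fin m → Fin N → ℝ) (hm : m ≤ c) (hN : 0 < N)
    (hG : 0 < G) (hv : ∀ l i, |v l i| ≤ 1) :
    ∃ rep : Fin N → Fin N, (Finset.univ.image rep).card ≤ (2 * G + 1) ^ c ∧
      ∀ l i, |v l i - v l (rep i)| ≤ 1 / G := by
  classical
  have hne : Nonempty (Fin N) := ⟨⟨0, hN⟩⟩
  have hG' : (0 : ℝ) < G := by exact_mod_cast hG
  obtain ⟨cell, hcell⟩ : ∃ cell : Fin N → (Fin m → ℤ), ∀ i l, cell i l = ⌊(G : ℝ) * v l i⌋ :=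
    ⟨fun i l => ⌊(G : ℝ) * v l i⌋, fun _ _ => rfl⟩
  have hg : ∀ i, cell (Function.invFun cell (cell i)) = cell i :=
    fun i => Function.invFun_eq ⟨i, rfl⟩
  refine ⟨fun i => Function.invFun cell (cell i), ?_, ?_⟩
  · have h1 : Finset.univ.image (fun i => Function.invFun cell (cell i)) =
        (Finset.univ.image cell).image (Function.invFun cell) := by
      rw [Finset.image_image]
      rfl
    rw [h1]
    refine Finset.card_image_le.trans ?_
    have h2 : Finset.univ.image cell ⊆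
        Fintype.piFinset (fun _ : Fin m => Finset.Icc (-(G : ℤ)) G) := by
      intro κ hκ
      obtain ⟨i, -, rfl⟩ := Finset.mem_image.mp hκ
      rw [Fintype.mem_piFinset]
      intro l
      rw [Finset.mem_Icc, hcell]
      have h3 := abs_le.mp (hv l i)
      constructor
      · apply Int.le_floor.mpr
        push_cast
        nlinarith
      · have h4 : ((⌊(G : ℝ) * v l i⌋ : ℤ) : ℝ) ≤ G := (Int.floor_le _).trans (by nlinarith)
        exact_mod_cast h4
    refine (Finset.card_le_card h2).trans ?_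
    rw [Fintype.card_piFinset]
    simp only [Int.card_Icc, Finset.prod_const, Finset.card_univ, Fintype.card_fin]
    have h5 : ((G : ℤ) + 1 - -(G : ℤ)).toNat = 2 * G + 1 := by omega
    rw [h5]
    exact Nat.pow_le_pow_right (by omega) hm
  · intro l i
    have h1 : cell (Function.invFun cell (cell i)) l = cell i l := congrFun (hg i) l
    rw [hcell, hcell] at h1
    have h3 := Int.abs_sub_lt_one_of_floor_eq_floor h1.symm
    rw [← mul_sub, abs_mul, abs_of_pos hG'] at h3
    rw [le_div_iff₀ hG', mul_comm]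
    exact h3.le

/-- the functionals which define a subspace of codimension `c` -/
theorem ABSO_dual (hBAS : Stmt_BAS) (N c : ℕ) (Φ : Submodule ℝ (Fin N → ℝ))
    (h : N ≤ finrank ℝ Φ + c) :
    ∃ (m : ℕ) (v : Fin m → Fin N → ℝ), m ≤ c ∧ (∀ l i, |v l i| ≤ 1) ∧
      (∀ t : Fin m → ℝ, ‖t‖ ≤ 2 ^ m * ‖fun i => ∑ l, t l * v l i‖) ∧
      ∀ x : Fin N → ℝ, (∀ l, ∑ i, v l i * x i = 0) → x ∈ Φ := by
  classical
  obtain ⟨co, hco⟩ : ∃ co : Module.Dual ℝ (Fin N → ℝ) →ₗ[ℝ] (Fin N → ℝ),
      ∀ f i, co f i = f (Pi.single i 1) :=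
    ⟨{ toFun := fun f i => f (Pi.single i 1)
       map_add' := fun f g => rfl
       map_smul' := fun a f => rfl }, fun _ _ => rfl⟩
  have hpair : ∀ (f : Module.Dual ℝ (Fin N → ℝ)) (x : Fin N → ℝ), f x = ∑ i, co f i * x i := by
    intro f x
    have h1 : x = ∑ i, x i • (Pi.single i 1 : Fin N → ℝ) := by
      funext j
      rw [Finset.sum_apply, Finset.sum_eq_single j]
      · simp
      · intro i _ hij
        simp [hij.symm]
      · intro hj
        exact absurd (Finset.mem_univ _) hj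
    conv_lhs => rw [h1]
    rw [map_sum]
    refine Finset.sum_congr rfl fun i _ => ?_
    rw [map_smul, smul_eq_mul, hco, mul_comm]
  have hinj : Function.Injective co := by
    intro f g hfg
    apply LinearMap.ext
    intro x
    rw [hpair, hpair, hfg]
  obtain ⟨s, hs⟩ : ∃ s : Seminorm ℝ Φ.dualAnnihilator, ∀ φ, s φ = ‖co φ‖ :=
    ⟨(normSeminorm ℝ (Fin N → ℝ)).comp (co.comp Φ.dualAnnihilator.subtype), fun _ => rfl⟩
  have hsD : Def s := by
    intro φ hφ
    rw [hs, norm_eq_zero] at hφ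
    apply Subtype.ext
    apply hinj
    rw [hφ, Submodule.coe_zero, map_zero]
  have hfin : finrank ℝ Φ.dualAnnihilator ≤ c := by
    have h1 := Subspace.finrank_add_finrank_dualAnnihilator_eq Φ
    rw [Module.finrank_fin_fun] at h1
    omega
  obtain ⟨e, he1, he2⟩ := hBAS _ Φ.dualAnnihilator s hsD rfl
  refine ⟨_, fun l => co (e.symm (Pi.single l 1)), hfin, ?_, ?_, ?_⟩
  · intro l i
    have h1 : s (e.symm (Pi.single l 1)) ≤ 1 := by
      refine (he2 _).trans ?_
      rw [LinearEquiv.apply_symm_apply, Finset.sum_eq_single l]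
      · simp
      · intro j _ hj
        simp [hj]
      · intro hl
        exact absurd (Finset.mem_univ _) hl
    rw [hs] at h1
    rw [← Real.norm_eq_abs]
    exact (norm_le_pi_norm _ i).trans h1
  · intro t
    have h1 := he1 (e.symm t)
    rw [LinearEquiv.apply_symm_apply, hs] at h1
    have h2 : t = ∑ l, t l • (Pi.single l 1 : Fin _ → ℝ) := by
      funext j
      rw [Finset.sum_apply, Finset.sum_eq_single j]
      · simp
      · intro i _ hij
        simp [hij.symm]
      · intro hj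
        exact absurd (Finset.mem_univ _) hj
    have h3 : co (e.symm t) = fun i => ∑ l, t l * co (e.symm (Pi.single l 1)) i := by
      have h4 : (e.symm t : Φ.dualAnnihilator) = ∑ l, t l • e.symm (Pi.single l 1) := by
        conv_lhs => rw [h2]
        rw [map_sum]
        exact Finset.sum_congr rfl fun l _ => map_smul _ _ _
      rw [h4, Submodule.coe_sum, map_sum]
      funext i
      rw [Finset.sum_apply]
      refine Finset.sum_congr rfl fun l _ => ?_
      rw [Submodule.coe_smul, map_smul, Pi.smul_apply, smul_eq_mul]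
    rw [h3] at h1
    exact h1
  · intro x hx
    have h1 : x ∈ Φ.dualAnnihilator.dualCoannihilator := by
      rw [Submodule.mem_dualCoannihilator]
      intro φ hφ
      have h2 : (⟨φ, hφ⟩ : Φ.dualAnnihilator) = ∑ l, (e ⟨φ, hφ⟩) l • e.symm (Pi.single l 1) := by
        apply e.injective
        rw [map_sum]
        simp only [map_smul, LinearEquiv.apply_symm_apply]
        funext j
        rw [Finset.sum_apply, Finset.sum_eq_single j]
        · simp
        · intro i _ hij
          simp [hij.symm]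
        · intro hj
          exact absurd (Finset.mem_univ _) hj
      have h3 : φ = ∑ l, (e ⟨φ, hφ⟩) l • ((e.symm (Pi.single l 1) : Φ.dualAnnihilator) :
          Module.Dual ℝ (Fin N → ℝ)) := by
        have h4 := congrArg (fun ψ : Φ.dualAnnihilator => (ψ : Module.Dual ℝ (Fin N → ℝ))) h2
        simp only [Submodule.coe_sum, Submodule.coe_smul] at h4
        exact h4
      rw [h3, LinearMap.sum_apply]
      refine Finset.sum_eq_zero fun l _ => ?_
      rw [LinearMap.smul_apply, hpair, hx l, smul_zero]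
    rw [Subspace.dualAnnihilator_dualCoannihilator_eq] at h1
    exact h1

theorem ABSO_main (hDUL : Stmt_DUL) (N k m c G : ℕ) (v : Fin m → Fin N → ℝ) (hm : m ≤ c)
    (hN : 0 < N) (hG : 4 * (c + 1) * 2 ^ (c + 1) ≤ G) (hv : ∀ l i, |v l i| ≤ 1)
    (hv2 : ∀ t : Fin m → ℝ, ‖t‖ ≤ 2 ^ m * ‖fun i => ∑ l, t l * v l i‖)
    (hk : k + (2 * G + 1) ^ c ≤ N) :
    ∃ e : (Fin k → ℝ) →ₗ[ℝ] (Fin N → ℝ), (∀ x l, ∑ i, v l i * e x i = 0) ∧
      ∀ x, ∑ i, |x i| ≤ ∑ i, |e x i| ∧ ∑ i, |e x i| ≤ 3 * ∑ i, |x i| := by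
  classical
  have hG0 : 0 < G := lt_of_lt_of_le (by positivity) hG
  have hG' : (0 : ℝ) < G := by exact_mod_cast hG0
  have hGm : 4 * (m : ℝ) * 2 ^ (m + 1) ≤ G := by
    have h1 : 4 * m * 2 ^ (m + 1) ≤ G := by
      refine le_trans ?_ hG
      exact Nat.mul_le_mul (by omega) (Nat.pow_le_pow_right (by omega) (by omega))
    exact_mod_cast h1
  obtain ⟨rep, hrep1, hrep2⟩ := ABSO_rep N m c G v hm hN hG0 hv
  obtain ⟨A, hA⟩ : ∃ A : Finset (Fin N), A = Finset.univ.image rep := ⟨_, rfl⟩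
  have hrA : ∀ i, rep i ∈ A := fun i => by
    rw [hA]
    exact Finset.mem_image_of_mem _ (Finset.mem_univ i)
  rw [← hA] at hrep1
  obtain ⟨f, -, hf⟩ := exists_emb (k := k) ∅ A (Finset.disjoint_empty_left A)
    (by rw [Finset.card_empty]; exact Nat.zero_le k) (by omega)
  obtain ⟨g, hg1, hg2⟩ : ∃ g : Fin A.card → Fin N, (∀ j, g j ∈ A) ∧ ∀ a ∈ A, ∃ j, g j = a := by
    refine ⟨fun j => A.orderEmbOfFin rfl j, fun j => Finset.orderEmbOfFin_mem A rfl j,
      fun a ha => ?_⟩
    have h5 : a ∈ Set.range (A.orderEmbOfFin rfl) := by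
      rw [Finset.range_orderEmbOfFin]
      exact ha
    exact h5
  obtain ⟨β, hβ⟩ : ∃ β : Fin m → (Fin A.card → ℝ) →ₗ[ℝ] ℝ,
      ∀ l y, β l y = ∑ j, v l (g j) * y j := by
    refine ⟨fun l => ∑ j, v l (g j) • (LinearMap.proj j : (Fin A.card → ℝ) →ₗ[ℝ] ℝ),
      fun l y => ?_⟩
    rw [LinearMap.sum_apply]
    rfl
  have hD : Def (oneS A.card) := XN_def false A.card
  have hc : (0 : ℝ) < 1 / 2 ^ (m + 1) := by positivity
  obtain ⟨ξ, hξ1, hξ2⟩ := hDUL (Fin A.card → ℝ) (oneS A.card) m β (1 / 2 ^ (m + 1)) hD hc (by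
    intro t κ hκ hb
    have h1 : ∀ j, |∑ l, t l * v l (g j)| ≤ κ := by
      intro j
      have h2 := hb (Pi.single j 1)
      have h3 : ∀ l, β l (Pi.single j 1) = v l (g j) := by
        intro l
        rw [hβ, Finset.sum_eq_single j]
        · simp
        · intro i _ hij
          simp [hij]
        · intro hj
          exact absurd (Finset.mem_univ _) hj
      have h4 : oneS A.card (Pi.single j 1) = 1 := by
        rw [oneS_apply, Finset.sum_eq_single j]
        · simp
        · intro i _ hij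
          simp [hij]
        · intro hj
          exact absurd (Finset.mem_univ _) hj
      simp only [h3, h4, mul_one] at h2
      exact h2
    have h2 : ∀ i, |∑ l, t l * v l i| ≤ κ + m * (‖t‖ * (1 / G)) := by
      intro i
      obtain ⟨j, hj⟩ := hg2 (rep i) (hrA i)
      have h3 : ∑ l, t l * v l i = ∑ l, t l * v l (g j) + ∑ l, t l * (v l i - v l (rep i)) := by
        rw [← Finset.sum_add_distrib]
        refine Finset.sum_congr rfl fun l _ => ?_
        rw [hj]
        ring
      rw [h3]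
      refine (abs_add_le _ _).trans (add_le_add (h1 j) ?_)
      refine (Finset.abs_sum_le_sum_abs _ _).trans ?_
      have h4 : ∀ l ∈ (Finset.univ : Finset (Fin m)),
          |t l * (v l i - v l (rep i))| ≤ ‖t‖ * (1 / G) := by
        intro l _
        rw [abs_mul]
        refine mul_le_mul ?_ (hrep2 l i) (abs_nonneg _) (norm_nonneg _)
        rw [← Real.norm_eq_abs]
        exact norm_le_pi_norm t l
      refine (Finset.sum_le_sum h4).trans ?_
      rw [Finset.sum_const, Finset.card_univ, Fintype.card_fin, nsmul_eq_mul]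
    have h5 : ‖fun i => ∑ l, t l * v l i‖ ≤ κ + m * (‖t‖ * (1 / G)) := by
      rw [pi_norm_le_iff_of_nonneg (by positivity)]
      intro i
      rw [Real.norm_eq_abs]
      exact h2 i
    have h6 : ‖t‖ ≤ 2 ^ m * (κ + m * (‖t‖ * (1 / G))) :=
      (hv2 t).trans (mul_le_mul_of_nonneg_left h5 (by positivity))
    have h7 : 2 ^ m * (m * (‖t‖ * (1 / G))) ≤ ‖t‖ / 2 := by
      have h8 : 2 ^ m * (m * (‖t‖ * (1 / G))) = ‖t‖ * (2 ^ m * m) / G := by ring
      rw [h8, div_le_div_iff₀ hG' (by norm_num)]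
      have h9 : 2 ^ m * (m : ℝ) * 2 ≤ G := by
        rw [pow_succ] at hGm
        have h10 : (0 : ℝ) ≤ m * 2 ^ m := by positivity
        nlinarith
      calc ‖t‖ * (2 ^ m * m) * 2 = ‖t‖ * (2 ^ m * (m : ℝ) * 2) := by ring
        _ ≤ ‖t‖ * G := mul_le_mul_of_nonneg_left h9 (norm_nonneg _)
    have h11 : ‖t‖ / 2 ≤ 2 ^ m * κ := by
      rw [mul_add] at h6
      linarith
    have h12 : 1 / 2 ^ (m + 1) * ‖t‖ = ‖t‖ / 2 / 2 ^ m := by
      rw [pow_succ]
      field_simp
    rw [h12, div_le_iff₀ (by positivity), mul_comm κ]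
    exact h11)
  obtain ⟨L, hL⟩ : ∃ L : (Fin k → ℝ) →ₗ[ℝ] (Fin m → ℝ),
      ∀ x l, L x l = ∑ i, (v l (f i) - v l (rep (f i))) * x i := by
    refine ⟨LinearMap.pi fun l => ∑ i, (v l (f i) - v l (rep (f i))) •
      (LinearMap.proj i : (Fin k → ℝ) →ₗ[ℝ] ℝ), fun x l => ?_⟩
    rw [LinearMap.pi_apply, LinearMap.sum_apply]
    rfl
  refine ⟨ABSO_P f - ABSO_P (fun i => rep (f i)) - (ABSO_P g).comp (ξ.comp L), ?_, ?_⟩
  · intro x l
    have h1 : ∀ i, v l i * (ABSO_P f - ABSO_P (fun i => rep (f i)) -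
        (ABSO_P g).comp (ξ.comp L)) x i = v l i * ABSO_P f x i -
          v l i * ABSO_P (fun i => rep (f i)) x i - v l i * ABSO_P g (ξ (L x)) i := by
      intro i
      change v l i * (ABSO_P f x i - ABSO_P (fun i => rep (f i)) x i - ABSO_P g (ξ (L x)) i) = _
      ring
    rw [Finset.sum_congr rfl fun i _ => h1 i, Finset.sum_sub_distrib, Finset.sum_sub_distrib,
      ABSO_P_pair, ABSO_P_pair, ABSO_P_pair, ← hβ l, hξ1, hL, ← Finset.sum_sub_distrib, sub_eq_zero]
    exact Finset.sum_congr rfl fun i _ => by ring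
  · intro x
    have hx0 : 0 ≤ ∑ i, |x i| := Finset.sum_nonneg fun i _ => abs_nonneg _
    constructor
    · have h1 : ∀ i, (ABSO_P f - ABSO_P (fun i => rep (f i)) -
          (ABSO_P g).comp (ξ.comp L)) x (f i) = x i := by
        intro i
        change ABSO_P f x (f i) - ABSO_P (fun i => rep (f i)) x (f i) -
          ABSO_P g (ξ (L x)) (f i) = x i
        have h2 : ABSO_P f x (f i) = x i := emb_apply f x i
        rw [h2, ABSO_P_zero (fun i => rep (f i)) x (f i) fun j hj => hf i (by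
          rw [← hj]; exact hrA _), ABSO_P_zero g _ (f i) fun j hj => hf i (by
          rw [← hj]; exact hg1 _), sub_zero, sub_zero]
      have h3 : ∑ i, |x i| = ∑ j ∈ Finset.univ.map f, |(ABSO_P f -
          ABSO_P (fun i => rep (f i)) - (ABSO_P g).comp (ξ.comp L)) x j| := by
        rw [Finset.sum_map]
        exact Finset.sum_congr rfl fun i _ => by rw [h1]
      rw [h3]
      exact Finset.sum_le_univ_sum_of_nonneg fun j => abs_nonneg _
    · have hLn : ‖L x‖ ≤ (∑ i, |x i|) * (1 / G) := by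
        rw [pi_norm_le_iff_of_nonneg (by positivity)]
        intro l
        rw [hL, Real.norm_eq_abs, Finset.sum_mul]
        refine (Finset.abs_sum_le_sum_abs _ _).trans (Finset.sum_le_sum fun i _ => ?_)
        rw [abs_mul, mul_comm]
        exact mul_le_mul_of_nonneg_left (hrep2 l (f i)) (abs_nonneg _)
      have h4 : ∑ j, |ξ (L x) j| ≤ ∑ i, |x i| := by
        have h5 := hξ2 (L x)
        rw [oneS_apply] at h5
        have h6 : 2 * (m : ℝ) / (1 / 2 ^ (m + 1)) = 2 * m * 2 ^ (m + 1) := by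
          field_simp
        rw [h6] at h5
        refine h5.trans ((mul_le_mul_of_nonneg_left hLn (by positivity)).trans ?_)
        have h7 : 2 * (m : ℝ) * 2 ^ (m + 1) * ((∑ i, |x i|) * (1 / G)) =
            (∑ i, |x i|) * (2 * m * 2 ^ (m + 1)) / G := by ring
        rw [h7, div_le_iff₀ hG']
        refine mul_le_mul_of_nonneg_left ?_ hx0
        have h8 : (0 : ℝ) ≤ m * 2 ^ (m + 1) := by positivity
        nlinarith
      have h9 : ∀ j, |(ABSO_P f - ABSO_P (fun i => rep (f i)) -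
          (ABSO_P g).comp (ξ.comp L)) x j| ≤ |ABSO_P f x j| +
            |ABSO_P (fun i => rep (f i)) x j| + |ABSO_P g (ξ (L x)) j| := by
        intro j
        change |ABSO_P f x j - ABSO_P (fun i => rep (f i)) x j - ABSO_P g (ξ (L x)) j| ≤ _
        exact (abs_sub _ _).trans (add_le_add (abs_sub _ _) (le_refl _))
      refine (Finset.sum_le_sum fun j _ => h9 j).trans ?_
      rw [Finset.sum_add_distrib, Finset.sum_add_distrib]
      have h10 := ABSO_P_norm (fun i => f i) x
      have h11 := ABSO_P_norm (fun i => rep (f i)) x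
      have h12 := ABSO_P_norm g (ξ (L x))
      linarith

theorem p_ABSO (hBAS : Stmt_BAS) (hDUL : Stmt_DUL) : Stmt_ABSO := by
  intro θ h0 h1
  refine ⟨3, by norm_num, fun c => ?_⟩
  obtain ⟨G, hG⟩ : ∃ G : ℕ, G = 4 * (c + 1) * 2 ^ (c + 1) := ⟨_, rfl⟩
  obtain ⟨n₀, hn₀⟩ := exists_nat_ge ((((2 * G + 1) ^ c : ℕ) : ℝ) / θ)
  refine ⟨n₀ + 1, fun N k Φ hN hk hΦ => ?_⟩
  have hN' : (n₀ : ℝ) + 1 ≤ N := by exact_mod_cast hN
  have h2 : (((2 * G + 1) ^ c : ℕ) : ℝ) ≤ θ * N := by
    rw [div_le_iff₀ h0] at hn₀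
    nlinarith
  have h3 : k + (2 * G + 1) ^ c ≤ N := by
    have h4 : (k : ℝ) + (((2 * G + 1) ^ c : ℕ) : ℝ) ≤ N := by linarith
    exact_mod_cast h4
  obtain ⟨m, v, hm, hv1, hv2, hv3⟩ := ABSO_dual hBAS N c Φ hΦ
  obtain ⟨e, he1, he2⟩ := ABSO_main hDUL N k m c G v hm (by omega) hG.ge hv1 hv2 h3
  exact ⟨e, fun x => hv3 _ (he1 x), he2⟩

end Pool.RX

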