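import Pool.Agent.Work.MP_3e8c7a_r.Interface

/-!
# MP_3e8c7a_an, THEOREM RX, block CEL
-/

set_option autoImplicit false

namespace Pool.RX

open Module Pool.Agent.MP3e8c7a

/-- one cell -/
theorem CEL_cell {ι : Type} (Q A : Finset ι) (hAQ : A ⊆ Q) (u x : ι → ℝ) (θ δ X c : ℝ)
    (hu : ∀ i, 0 ≤ u i) (hθ : 0 < θ) (hδ : 0 < δ) (hX : 0 ≤ X)
    (hA : θ * ∑ i ∈ Q, u i ≤ ∑ i ∈ A, u i) (h1 : ∀ i, |x i| ≤ c * X * u i)
    (h2 : ∀ i ∈ Q, ∀ j ∈ Q, |x i * u j - x j * u i| ≤ δ * X * (u i * u j)) :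
    θ * ∑ i ∈ Q, |x i| - δ * X * ∑ i ∈ Q, u i ≤ ∑ i ∈ A, |x i| := by
  have hQ0 : 0 ≤ ∑ i ∈ Q, u i := Finset.sum_nonneg fun i _ => hu i
  have hAx : 0 ≤ ∑ i ∈ A, |x i| := Finset.sum_nonneg fun i _ => abs_nonneg _
  have hQx : 0 ≤ ∑ i ∈ Q, |x i| := Finset.sum_nonneg fun i _ => abs_nonneg _
  rcases hQ0.eq_or_lt with h0 | hpos
  · have h3 : ∀ i ∈ Q, u i = 0 := (Finset.sum_eq_zero_iff_of_nonneg fun i _ => hu i).1 h0.symm
    have h4 : ∑ i ∈ Q, |x i| = 0 := by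
      refine Finset.sum_eq_zero fun i hi => ?_
      have h5 := h1 i
      rw [h3 i hi, mul_zero] at h5
      exact le_antisymm h5 (abs_nonneg _)
    rw [h4, ← h0]
    simpa using hAx
  · have hAu : ∑ i ∈ A, u i ≤ ∑ i ∈ Q, u i :=
      Finset.sum_le_sum_of_subset_of_nonneg hAQ fun i _ _ => hu i
    have h3 : ∀ i ∈ Q, ∀ a ∈ A, |x i| * u a - δ * X * (u i * u a) ≤ |x a| * u i := by
      intro i hi a ha
      have h4 := h2 i hi a (hAQ ha)
      have h5 : |x i * u a| - |x a * u i| ≤ |x i * u a - x a * u i| := abs_sub_abs_le_abs_sub _ _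
      rw [abs_mul, abs_mul, abs_of_nonneg (hu a), abs_of_nonneg (hu i)] at h5
      linarith
    have h4 : ∑ i ∈ Q, ∑ a ∈ A, (|x i| * u a - δ * X * (u i * u a)) ≤
        ∑ i ∈ Q, ∑ a ∈ A, |x a| * u i :=
      Finset.sum_le_sum fun i hi => Finset.sum_le_sum fun a ha => h3 i hi a ha
    have h5 : ∑ i ∈ Q, ∑ a ∈ A, (|x i| * u a - δ * X * (u i * u a)) =
        (∑ i ∈ Q, |x i|) * (∑ a ∈ A, u a) - δ * X * ((∑ i ∈ Q, u i) * ∑ a ∈ A, u a) := by
      rw [Finset.sum_mul_sum, Finset.sum_mul_sum, Finset.mul_sum, ← Finset.sum_sub_distrib]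
      refine Finset.sum_congr rfl fun i _ => ?_
      rw [Finset.sum_sub_distrib, Finset.mul_sum]
    have h6 : ∑ i ∈ Q, ∑ a ∈ A, |x a| * u i = (∑ a ∈ A, |x a|) * ∑ i ∈ Q, u i := by
      rw [Finset.sum_comm, Finset.sum_mul_sum]
    rw [h5, h6] at h4
    refine le_of_mul_le_mul_right ?_ hpos
    refine le_trans ?_ h4
    have h7 := mul_le_mul_of_nonneg_left hA hQx
    have h8 : δ * X * ((∑ i ∈ Q, u i) * ∑ a ∈ A, u a) ≤
        δ * X * ((∑ i ∈ Q, u i) * ∑ i ∈ Q, u i) :=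
      mul_le_mul_of_nonneg_left (mul_le_mul_of_nonneg_left hAu hQ0) (mul_nonneg hδ.le hX)
    nlinarith

theorem p_CEL (hCLL : Stmt_CLL) : Stmt_CEL := by
  intro m θ hθ hθ1
  have hm : (0 : ℝ) < 2 * (m + 1) := by positivity
  obtain ⟨ν, hν⟩ := hCLL m θ (θ / (2 * (m + 1))) hθ hθ1 (div_pos hθ hm)
  refine ⟨ν, fun N S hS => ?_⟩
  obtain ⟨u, c, A, hu, hum, hA, hcell, h1, h2⟩ := hν N S hS
  refine ⟨A, hA, fun x hx => ?_⟩
  set X : ℝ := ∑ l, |x l| with hXdef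
  have hX : 0 ≤ X := Finset.sum_nonneg fun i _ => abs_nonneg _
  have hk : ∀ κ : Fin ν, θ * ∑ i with c i = κ, |x i| -
      θ / (2 * (m + 1)) * X * ∑ i with c i = κ, u i ≤ ∑ i ∈ A with c i = κ, |x i| := by
    intro κ
    refine CEL_cell _ _ (fun i hi => ?_) u x θ _ X (2 ^ m) hu hθ (div_pos hθ hm) hX (hcell κ)
      (h1 x hx) (fun i hi j hj => ?_)
    · rw [Finset.mem_filter] at hi ⊢
      exact ⟨Finset.mem_univ i, hi.2⟩
    · rw [Finset.mem_filter] at hi hj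
      exact h2 x hx i j (hi.2.trans hj.2.symm)
  have hs := Finset.sum_le_sum fun κ (_ : κ ∈ (Finset.univ : Finset (Fin ν))) => hk κ
  rw [Finset.sum_sub_distrib, ← Finset.mul_sum, ← Finset.mul_sum,
    Finset.sum_fiberwise, Finset.sum_fiberwise, Finset.sum_fiberwise] at hs
  have h3 : θ / (2 * (m + 1)) * X * ∑ i, u i ≤ θ / 2 * X := by
    have h4 : θ / (2 * (m + 1)) * X * ∑ i, u i ≤ θ / (2 * (m + 1)) * X * m :=
      mul_le_mul_of_nonneg_left hum (mul_nonneg (div_pos hθ hm).le hX)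
    refine h4.trans ?_
    have h5 : θ / (2 * (m + 1)) * X * m = θ / 2 * X * (m / (m + 1)) := by
      field_simp
    rw [h5]
    have h6 : (m : ℝ) / (m + 1) ≤ 1 := by
      rw [div_le_one (by positivity)]
      linarith
    exact mul_le_of_le_one_right (mul_nonneg (by positivity) hX) h6
  have h7 : ∑ i, |x i| = X := rfl
  rw [h7] at hs
  linarith

end Pool.RX
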