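import Pool.Agent.Work.MP_3e8c7a_r.Interface

/-! Block CPL (helper98): the tilt. -/

set_option autoImplicit false

namespace Pool.RX

open Module Pool.Agent.MP3e8c7a

/-- The sup norm and the Euclidean norm. -/
theorem CPL_eu (n : ℕ) (x : EuclideanSpace ℝ (Fin n)) :
    ‖x.ofLp‖ ≤ ‖x‖ ∧ ‖x‖ ≤ ((n : ℝ) + 1) * ‖x.ofLp‖ := by
  constructor
  · rw [pi_norm_le_iff_of_nonneg (norm_nonneg x)]
    intro i
    exact PiLp.norm_apply_le x i
  · have h0 : 0 ≤ ‖x.ofLp‖ := norm_nonneg _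
    have h1 : ‖x‖ ^ 2 ≤ (((n : ℝ) + 1) * ‖x.ofLp‖) ^ 2 := by
      rw [EuclideanSpace.norm_sq_eq]
      have h2 : ∑ i, ‖x.ofLp i‖ ^ 2 ≤ ∑ _i : Fin n, ‖x.ofLp‖ ^ 2 := by
        refine Finset.sum_le_sum fun i _ => ?_
        exact pow_le_pow_left₀ (norm_nonneg _) (norm_le_pi_norm x.ofLp i) 2
      refine h2.trans ?_
      rw [Finset.sum_const, Finset.card_univ, Fintype.card_fin, nsmul_eq_mul, mul_pow]
      refine mul_le_mul_of_nonneg_right ?_ (sq_nonneg _)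
      have hn : (0 : ℝ) ≤ n := Nat.cast_nonneg n
      nlinarith
    have hn : (0 : ℝ) ≤ n := Nat.cast_nonneg n
    exact (abs_le_of_sq_le_sq' h1 (by positivity)).2

/-- Good coordinates on a subspace of `ℝ^M`. -/
theorem CPL_iso (M m : ℕ) (S : Submodule ℝ (Fin M → ℝ)) (hS : finrank ℝ S = m) :
    ∃ v : (Fin m → ℝ) ≃ₗ[ℝ] S, ∀ t, ‖((v t : S) : Fin M → ℝ)‖ ≤ ((M : ℝ) + 1) * ‖t‖ ∧
      ‖t‖ ≤ ((M : ℝ) + 1) * ‖((v t : S) : Fin M → ℝ)‖ := by
  have hmM : m ≤ M := by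
    rw [← hS]
    calc finrank ℝ S ≤ finrank ℝ (Fin M → ℝ) := Submodule.finrank_le S
      _ = M := by simp
  have hmM' : (m : ℝ) ≤ M := by exact_mod_cast hmM
  let L : (Fin M → ℝ) ≃ₗ[ℝ] EuclideanSpace ℝ (Fin M) :=
    (WithLp.linearEquiv 2 ℝ (Fin M → ℝ)).symm
  let S' : Submodule ℝ (EuclideanSpace ℝ (Fin M)) := S.map (L : (Fin M → ℝ) →ₗ[ℝ] _)
  let f : S ≃ₗ[ℝ] S' := L.submoduleMap S
  have hS' : finrank ℝ S' = m := by
    rw [← hS]
    exact (LinearEquiv.finrank_eq f).symm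
  let b : OrthonormalBasis (Fin m) ℝ S' := (stdOrthonormalBasis ℝ S').reindex (finCongr hS')
  let K : (Fin m → ℝ) ≃ₗ[ℝ] EuclideanSpace ℝ (Fin m) :=
    (WithLp.linearEquiv 2 ℝ (Fin m → ℝ)).symm
  refine ⟨(K.trans b.repr.symm.toLinearEquiv).trans f.symm, fun t => ?_⟩
  set w : S' := b.repr.symm (K t) with hw
  have e1 : (((K.trans b.repr.symm.toLinearEquiv).trans f.symm) t : S) = f.symm w := rfl
  have e2 : ((w : S') : EuclideanSpace ℝ (Fin M)).ofLp = ((f.symm w : S) : Fin M → ℝ) := by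
    have h1 : (f (f.symm w) : S') = w := f.apply_symm_apply w
    have h2 : ((f (f.symm w) : S') : EuclideanSpace ℝ (Fin M)) = L ((f.symm w : S) : Fin M → ℝ) :=
      rfl
    rw [h1] at h2
    rw [h2]
    rfl
  have e3 : ‖((w : S') : EuclideanSpace ℝ (Fin M))‖ = ‖K t‖ := by
    have h1 : ‖w‖ = ‖K t‖ := b.repr.symm.norm_map (K t)
    exact h1
  have e4 : (K t).ofLp = t := rfl
  have a1 := CPL_eu M ((w : S') : EuclideanSpace ℝ (Fin M))
  have a2 := CPL_eu m (K t)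
  rw [e4] at a2
  rw [e2, e3] at a1
  rw [e1]
  constructor
  · calc ‖((f.symm w : S) : Fin M → ℝ)‖ ≤ ‖K t‖ := a1.1
      _ ≤ ((m : ℝ) + 1) * ‖t‖ := a2.2
      _ ≤ ((M : ℝ) + 1) * ‖t‖ := mul_le_mul_of_nonneg_right (by linarith) (norm_nonneg _)
  · exact a2.1.trans a1.2

theorem p_CPL : Stmt_CPL := by
  intro M A C₀ hA hC
  have hM : (0 : ℝ) ≤ M := Nat.cast_nonneg M
  obtain ⟨κ, hκ⟩ : ∃ κ : ℝ, κ = (M : ℝ) + 1 := ⟨_, rfl⟩
  have hκp : 0 < κ := by rw [hκ]; linarith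
  have hAp : 0 < A := by linarith
  have hCp : 0 < C₀ := by linarith
  refine ⟨4 * A ^ 2 * κ ^ 2 * C₀, by positivity, ?_⟩
  intro V _ _ _ P R b k m ρ B B' W a S e τ ξ hb hP hR hH hT hS he hB hB' hρ hτξ hτ hξ hC₀
  obtain ⟨v, hv⟩ := CPL_iso M m S hS
  rw [← hκ] at hv
  obtain ⟨s, hs⟩ : ∃ s : ℝ, s = 1 / (2 * A * κ * B) := ⟨_, rfl⟩
  have hsp : 0 < s := by rw [hs]; positivity
  -- the vectors `s W v t`
  obtain ⟨y, hy⟩ : ∃ y : (Fin m → ℝ) →ₗ[ℝ] V,
      ∀ t, y t = s • W ((v t : S) : Fin M → ℝ) :=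
    ⟨s • (W ∘ₗ S.subtype ∘ₗ (v : (Fin m → ℝ) →ₗ[ℝ] S)), fun t => rfl⟩
  obtain ⟨u, hu⟩ : ∃ u : (Fin k → ℝ) →ₗ[ℝ] V, ∀ x, u x = e x + y (τ x) :=
    ⟨e + y ∘ₗ τ, fun t => rfl⟩
  -- (1)
  have h1 : ∀ x, R (y (τ x)) ≤ R (e x) / 2 := by
    intro x
    rw [hy, map_smul_eq_mul, Real.norm_eq_abs, abs_of_pos hsp]
    have h2 : R (W ((v (τ x) : S) : Fin M → ℝ)) ≤ A * (κ * (B * R (e x))) :=
      (hT.rW _).trans (mul_le_mul_of_nonneg_left ((hv (τ x)).1.trans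
        (mul_le_mul_of_nonneg_left (hτ x) hκp.le)) hAp.le)
    calc s * R (W ((v (τ x) : S) : Fin M → ℝ)) ≤ s * (A * (κ * (B * R (e x)))) :=
          mul_le_mul_of_nonneg_left h2 hsp.le
      _ = R (e x) / 2 := by
          rw [hs]
          field_simp
  have hu1 : ∀ x, R (e x) / 2 ≤ R (u x) := by
    intro x
    have e1 : e x = u x - y (τ x) := by rw [hu]; abel
    have h2 : R (e x) ≤ R (u x) + R (y (τ x)) := by
      conv_lhs => rw [e1]
      exact map_sub_le_add R _ _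
    linarith [h1 x]
  have hu2 : ∀ x, R (u x) ≤ 3 / 2 * R (e x) := by
    intro x
    have h2 : R (u x) ≤ R (e x) + R (y (τ x)) := by
      rw [hu]
      exact map_add_le_add R _ _
    linarith [h1 x]
  have huinj : Function.Injective u := by
    rw [← LinearMap.ker_eq_bot, LinearMap.ker_eq_bot']
    intro x hx
    have h2 := hu1 x
    rw [hx, map_zero] at h2
    have h3 : R (e x) = 0 := le_antisymm (by linarith) (apply_nonneg R _)
    have h4 := hR _ h3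
    exact he (by rw [h4, map_zero])
  have hk : finrank ℝ (Fin k → ℝ) = k := by simp
  have i1 : Iso b (P.comp e) (R.comp e) := hH.inj e he hk
  have i2 : Iso b (P.comp u) (R.comp u) := hH.inj u huinj hk
  have i3 : Iso (2 * (3 / 2)) (R.comp e) (R.comp u) := by
    refine Iso.of_bounds (LinearEquiv.refl ℝ (Fin k → ℝ)) (by norm_num) (fun x => ?_) fun x => ?_
    · show R (e x) ≤ 2 * R (u x)
      linarith [hu1 x]
    · exact hu2 x
  have hbp : 0 < b := by linarith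
  have i4 := (i1.trans i3 (by norm_num)).trans (i2.symm hbp) hbp.le
  obtain ⟨T, hTT⟩ := i4
  have hT1 : ∀ x, P (e x) ≤ P (u (T x)) := fun x => (hTT x).1
  have hT2 : ∀ x, P (u (T x)) ≤ 3 * b ^ 2 * P (e x) := fun x => by
    have h2 : P (u (T x)) ≤ b * (2 * (3 / 2)) * b * P (e x) := (hTT x).2
    have h3 : b * (2 * (3 / 2)) * b * P (e x) = 3 * b ^ 2 * P (e x) := by ring
    linarith
  -- (2)
  have h2 : ∀ t, 2 * B' * ‖t‖ ≤ P (y t) / C₀ := by
    intro t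
    have h3 : ρ * ‖s • ((v t : S) : Fin M → ℝ)‖ ≤ A * P (y t) := by
      have h4 := hT.pa (y t)
      rw [hy, map_smul, hT.aW] at h4
      rw [hy]
      exact h4
    rw [norm_smul, Real.norm_eq_abs, abs_of_pos hsp] at h3
    have h5 := (hv t).2
    have h6 : 4 * A ^ 2 * κ ^ 2 * C₀ * (B * B') * (s * ‖((v t : S) : Fin M → ℝ)‖) ≤
        A * P (y t) :=
      (mul_le_mul_of_nonneg_right hρ (mul_nonneg hsp.le (norm_nonneg _))).trans h3
    have h7 : 4 * A ^ 2 * κ ^ 2 * C₀ * (B * B') * (s * ‖((v t : S) : Fin M → ℝ)‖) =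
        A * C₀ * (2 * B') * (κ * ‖((v t : S) : Fin M → ℝ)‖) := by
      rw [hs]
      field_simp
      ring
    have h8 : A * C₀ * (2 * B') * ‖t‖ ≤ A * C₀ * (2 * B') * (κ * ‖((v t : S) : Fin M → ℝ)‖) :=
      mul_le_mul_of_nonneg_left h5 (by positivity)
    have h9 : A * (C₀ * (2 * B' * ‖t‖)) ≤ A * P (y t) := by
      calc A * (C₀ * (2 * B' * ‖t‖)) = A * C₀ * (2 * B') * ‖t‖ := by ring
        _ ≤ A * P (y t) := by linarith
    have h10 := le_of_mul_le_mul_left h9 hAp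
    rw [le_div_iff₀ hCp]
    linarith
  have h3 : ∀ t g, τ g = 0 → P (y t) / C₀ ≤ P (y t + e g) := by
    intro t g hg
    have h4 := hC₀ (s • ((v t : S) : Fin M → ℝ)) (S.smul_mem s (v t).2) g hg
    rw [map_smul, ← hy] at h4
    rw [div_le_iff₀ hCp]
    linarith
  have h4 : ∀ t, P (e (ξ t)) ≤ P (y t) / C₀ / 2 := by
    intro t
    have := hξ t
    have := h2 t
    linarith
  have h5 : ∀ x, P (y (τ x)) / (2 * C₀) ≤ P (u x) := by
    intro x
    have e1 : u x = (y (τ x) + e (x - ξ (τ x))) + e (ξ (τ x)) := by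
      rw [hu, map_sub]
      abel
    have h6 : P (y (τ x) + e (x - ξ (τ x))) ≤ P (u x) + P (e (ξ (τ x))) := by
      have e2 : y (τ x) + e (x - ξ (τ x)) = u x - e (ξ (τ x)) := by
        rw [e1]
        abel
      rw [e2]
      exact map_sub_le_add P _ _
    have h7 := h3 (τ x) (x - ξ (τ x)) (by rw [map_sub, hτξ, sub_self])
    have h8 := h4 (τ x)
    have e3 : P (y (τ x)) / (2 * C₀) = P (y (τ x)) / C₀ / 2 := by
      field_simp
    rw [e3]
    linarith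
  have h6 : ∀ t, P (u (ξ t)) ≤ 3 / 2 * P (y t) := by
    intro t
    have h7 : P (u (ξ t)) ≤ P (e (ξ t)) + P (y t) := by
      rw [hu, hτξ]
      exact map_add_le_add P _ _
    have h8 := h4 t
    have h9 : P (y t) / C₀ ≤ P (y t) := div_le_self (apply_nonneg P _) hC
    linarith
  -- the maps
  refine ⟨(2 / (3 * s)) • ((T.symm : (Fin k → ℝ) →ₗ[ℝ] (Fin k → ℝ)) ∘ₗ ξ ∘ₗ
    (v.symm : S →ₗ[ℝ] (Fin m → ℝ))), (3 * s / 2) • ((v : (Fin m → ℝ) →ₗ[ℝ] S) ∘ₗ τ ∘ₗ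
    (T : (Fin k → ℝ) →ₗ[ℝ] (Fin k → ℝ))), fun ω => ?_, fun ω => ?_, fun x => ?_⟩
  · show (3 * s / 2) • v (τ (T ((2 / (3 * s)) • T.symm (ξ (v.symm ω))))) = ω
    rw [map_smul, LinearEquiv.apply_symm_apply, map_smul, hτξ, map_smul,
      LinearEquiv.apply_symm_apply, smul_smul]
    have : 3 * s / 2 * (2 / (3 * s)) = 1 := by
      field_simp
    rw [this, one_smul]
  · show P (e ((2 / (3 * s)) • T.symm (ξ (v.symm ω)))) ≤ P (W (ω : Fin M → ℝ))
    have h7 := hT1 ((2 / (3 * s)) • T.symm (ξ (v.symm ω)))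
    have hpos : 0 < 2 / (3 * s) := by positivity
    have e1 : P (u (T ((2 / (3 * s)) • T.symm (ξ (v.symm ω))))) =
        2 / (3 * s) * P (u (ξ (v.symm ω))) := by
      rw [map_smul, LinearEquiv.apply_symm_apply, map_smul, map_smul_eq_mul, Real.norm_eq_abs,
        abs_of_pos hpos]
    have e2 : P (y (v.symm ω)) = s * P (W (ω : Fin M → ℝ)) := by
      rw [hy, LinearEquiv.apply_symm_apply, map_smul_eq_mul, Real.norm_eq_abs, abs_of_pos hsp]
    have h8 := h6 (v.symm ω)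
    rw [e2] at h8
    rw [e1] at h7
    refine h7.trans ?_
    calc 2 / (3 * s) * P (u (ξ (v.symm ω))) ≤ 2 / (3 * s) * (3 / 2 * (s * P (W (ω : Fin M → ℝ)))) :=
          mul_le_mul_of_nonneg_left h8 hpos.le
      _ = P (W (ω : Fin M → ℝ)) := by
          field_simp
  · show P (W (((3 * s / 2) • v (τ (T x)) : S) : Fin M → ℝ)) ≤ 9 * b ^ 2 * C₀ * P (e x)
    have hpos : 0 < 3 * s / 2 := by positivity
    have e1 : P (W (((3 * s / 2) • v (τ (T x)) : S) : Fin M → ℝ)) =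
        3 / 2 * P (y (τ (T x))) := by
      rw [hy, Submodule.coe_smul, map_smul, map_smul_eq_mul, map_smul_eq_mul, Real.norm_eq_abs,
        Real.norm_eq_abs, abs_of_pos hpos, abs_of_pos hsp]
      ring
    rw [e1]
    have h7 := h5 (T x)
    rw [div_le_iff₀ (by positivity)] at h7
    have h8 := hT2 x
    have h9 : P (u (T x)) * (2 * C₀) ≤ 3 * b ^ 2 * P (e x) * (2 * C₀) :=
      mul_le_mul_of_nonneg_right h8 (by positivity)
    nlinarith

end Pool.RX
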