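import Pool.Agent.Work.MP_3e8c7a_r.Interface

/-!
# MP_3e8c7a_an, THEOREM RX, block DUL (Helly's lemma)
-/

set_option autoImplicit false

namespace Pool.RX

open Module Pool.Agent.MP3e8c7a

/-- one vector of the dual system -/
theorem DUL_one {V : Type} [AddCommGroup V] [Module ℝ V] (s : Seminorm ℝ V) (m : ℕ)
    (β : Fin m → V →ₗ[ℝ] ℝ) (c : ℝ) (hc : 0 < c)
    (h : ∀ (t : Fin m → ℝ) (κ : ℝ), 0 ≤ κ → (∀ x, |∑ l, t l * β l x| ≤ κ * s x) → c * ‖t‖ ≤ κ)
    (l : Fin m) : ∃ v : V, (∀ j, β j v = if j = l then 1 else 0) ∧ s v ≤ 2 / c := by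
  by_cases hx : ∃ x : V, (∀ j, j ≠ l → β j x = 0) ∧ c / 2 * s x < β l x
  · obtain ⟨x, hx0, hxl⟩ := hx
    have hs : 0 ≤ s x := apply_nonneg s x
    have hpos : 0 < β l x := lt_of_le_of_lt (mul_nonneg (by positivity) hs) hxl
    refine ⟨(β l x)⁻¹ • x, fun j => ?_, ?_⟩
    · rw [map_smul, smul_eq_mul]
      by_cases hj : j = l
      · rw [if_pos hj, hj]
        exact inv_mul_cancel₀ hpos.ne'
      · rw [if_neg hj, hx0 j hj, mul_zero]
    · rw [map_smul_eq_mul, Real.norm_eq_abs, abs_of_pos (inv_pos.2 hpos), le_div_iff₀ hc,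
        inv_mul_eq_div, div_mul_eq_mul_div, div_le_iff₀ hpos]
      nlinarith
  · exfalso
    push Not at hx
    let L : Fin m → V →ₗ[ℝ] ℝ := fun j => if j = l then 0 else β j
    let U : Submodule ℝ V := ⨅ j, LinearMap.ker (L j)
    have hU : ∀ x ∈ U, ∀ j, j ≠ l → β j x = 0 := by
      intro x hxU j hj
      have h1 : x ∈ LinearMap.ker (L j) := (Submodule.mem_iInf _).1 hxU j
      have h2 : L j = β j := if_neg hj
      rw [h2] at h1
      exact h1
    have hle : ∀ x ∈ U, |β l x| ≤ c / 2 * s x := by
      intro x hxU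
      rw [abs_le]
      constructor
      · have h1 := hx (-x) (fun j hj => by rw [map_neg, hU x hxU j hj, neg_zero])
        rw [map_neg, map_neg_eq_map] at h1
        linarith
      · exact hx x (hU x hxU)
    obtain ⟨φ, hφ1, hφ2⟩ := exists_ext s U.subtype U.injective_subtype (C := c / 2)
      (by positivity) (β l ∘ₗ U.subtype) (fun a => hle a a.2)
    have hker : ⨅ j, LinearMap.ker (L j) ≤ LinearMap.ker (β l - φ) := by
      intro x hxU
      have h1 : φ x = β l x := hφ1 ⟨x, hxU⟩
      rw [LinearMap.mem_ker, LinearMap.sub_apply, h1, sub_self]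
    have hspan := mem_span_of_iInf_ker_le_ker hker
    obtain ⟨d, hd⟩ := (Submodule.mem_span_range_iff_exists_fun ℝ).1 hspan
    let t : Fin m → ℝ := fun j => if j = l then 1 else - d j
    have hsum : ∀ x, ∑ j, t j * β j x = φ x := by
      intro x
      have h1 : (∑ j, d j • L j) x = (β l - φ) x := by rw [hd]
      rw [LinearMap.sum_apply, LinearMap.sub_apply] at h1
      have h2 : ∑ j, t j * β j x = β l x - ∑ j, (d j • L j) x := by
        rw [← Finset.add_sum_erase _ _ (Finset.mem_univ l),
          ← Finset.add_sum_erase _ (fun j => (d j • L j) x) (Finset.mem_univ l)]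
        have h3 : (d l • L l) x = 0 := by
          have h4 : L l = 0 := if_pos rfl
          rw [h4]
          simp
        have h5 : t l = 1 := if_pos rfl
        rw [h3, h5, one_mul, zero_add, sub_eq_add_neg, ← Finset.sum_neg_distrib]
        congr 1
        refine Finset.sum_congr rfl fun j hj => ?_
        have hj' : j ≠ l := Finset.ne_of_mem_erase hj
        have h6 : t j = - d j := if_neg hj'
        have h7 : L j = β j := if_neg hj'
        rw [h6, h7, LinearMap.smul_apply, smul_eq_mul, neg_mul]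
      rw [h2, h1]
      ring
    have h8 := h t (c / 2) (by positivity) (fun x => by rw [hsum x]; exact hφ2 x)
    have h9 : 1 ≤ ‖t‖ := by
      have h10 := norm_le_pi_norm t l
      have h11 : t l = 1 := if_pos rfl
      rw [h11, norm_one] at h10
      exact h10
    nlinarith

theorem p_DUL : Stmt_DUL := by
  intro V _ _ _ s m β c _ hc h
  choose v hv1 hv2 using DUL_one s m β c hc h
  refine ⟨Fintype.linearCombination ℝ v, fun t l => ?_, fun t => ?_⟩
  · rw [Fintype.linearCombination_apply, map_sum, Finset.sum_eq_single l]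
    · rw [map_smul, hv1, if_pos rfl, smul_eq_mul, mul_one]
    · intro j _ hj
      rw [map_smul, hv1, if_neg (Ne.symm hj), smul_eq_mul, mul_zero]
    · intro hl
      exact absurd (Finset.mem_univ l) hl
  · rw [Fintype.linearCombination_apply]
    have h1 : s (∑ i, t i • v i) ≤ ∑ i, s (t i • v i) :=
      Finset.le_sum_of_subadditive s (map_zero s).le (map_add_le_add s) _ _
    have h2 : ∑ i, s (t i • v i) ≤ ∑ _i : Fin m, ‖t‖ * (2 / c) := by
      refine Finset.sum_le_sum fun i _ => ?_
      rw [map_smul_eq_mul]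
      exact mul_le_mul (norm_le_pi_norm t i) (hv2 i) (apply_nonneg s _) (norm_nonneg t)
    rw [Finset.sum_const, Finset.card_univ, Fintype.card_fin, nsmul_eq_mul] at h2
    refine h1.trans (h2.trans (le_of_eq ?_))
    ring

end Pool.RX
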