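import Pool.Agent.Work.MP_3e8c7a_r.Interface

set_option autoImplicit false

namespace Pool.RX

open Module Pool.Agent.MP3e8c7a

/-- an injection of `ℝ^m` into a subspace of dimension at least `m` -/
theorem LIF_inj {V : Type} [AddCommGroup V] [Module ℝ V] [FiniteDimensional ℝ V]
    (U : Submodule ℝ V) {m : ℕ} (hm : m ≤ finrank ℝ U) :
    ∃ ι : (Fin m → ℝ) →ₗ[ℝ] V, Function.Injective ι ∧ ∀ t, ι t ∈ U := by
  have b := Module.finBasis ℝ U
  have hli : LinearIndependent ℝ (fun i : Fin m => (b (Fin.castLE hm i) : U)) :=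
    b.linearIndependent.comp _ (Fin.castLE_injective hm)
  have hli2 : LinearIndependent ℝ (fun i : Fin m => ((b (Fin.castLE hm i) : U) : V)) :=
    hli.map' U.subtype (Submodule.ker_subtype U)
  refine ⟨Fintype.linearCombination ℝ (fun i : Fin m => ((b (Fin.castLE hm i) : U) : V)),
    hli2.fintypeLinearCombination_injective, fun t => ?_⟩
  rw [Fintype.linearCombination_apply]
  exact U.sum_mem fun i _ => U.smul_mem _ (b (Fin.castLE hm i)).2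

/-- block LIF -/
theorem p_LIF (hBAS : Stmt_BAS) : Stmt_LIF := by
  intro M D₁ hD₁
  refine ⟨2 ^ M * D₁ + M, by positivity, ?_⟩
  intro V _ _ _ P R k m e F hP hR he hPR hmM hm
  obtain ⟨ι, hι, hιU⟩ := LIF_inj (F.comap e) hm
  have hdef : Def (P.comp (e ∘ₗ ι)) := hP.comp (e ∘ₗ ι) (he.comp hι)
  obtain ⟨e₀, h1, h2⟩ := hBAS m (Fin m → ℝ) (P.comp (e ∘ₗ ι)) hdef (by simp)
  have h3 : ∀ i : Fin m, ∃ g : (Fin k → ℝ) →ₗ[ℝ] ℝ, (∀ a, g (ι a) = e₀ a i) ∧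
      ∀ x, |g x| ≤ 2 ^ M * D₁ * (R.comp e) x := by
    intro i
    refine exists_ext (R.comp e) ι hι (C := 2 ^ M * D₁) (by positivity)
      ((LinearMap.proj i) ∘ₗ (e₀ : (Fin m → ℝ) →ₗ[ℝ] (Fin m → ℝ))) (fun a => ?_)
    have h4 : |e₀ a i| ≤ ‖e₀ a‖ := norm_le_pi_norm (e₀ a) i
    have h5 : P (e (ι a)) ≤ D₁ * R (e (ι a)) := hPR _ (hιU a)
    have h6 : ‖e₀ a‖ ≤ 2 ^ m * P (e (ι a)) := h1 a
    have h7 : (2 : ℝ) ^ m ≤ 2 ^ M := pow_le_pow_right₀ (by norm_num) hmM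
    have h8 : 0 ≤ P (e (ι a)) := apply_nonneg P _
    calc |e₀ a i| ≤ 2 ^ m * P (e (ι a)) := h4.trans h6
      _ ≤ 2 ^ M * P (e (ι a)) := mul_le_mul_of_nonneg_right h7 h8
      _ ≤ 2 ^ M * (D₁ * R (e (ι a))) := mul_le_mul_of_nonneg_left h5 (by positivity)
      _ = 2 ^ M * D₁ * R (e (ι a)) := by ring
  choose g hg1 hg2 using h3
  refine ⟨LinearMap.pi g, ι ∘ₗ (e₀.symm : (Fin m → ℝ) →ₗ[ℝ] (Fin m → ℝ)), fun t => ?_,
    fun x => ?_, fun t => ?_⟩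
  · funext i
    change g i (ι (e₀.symm t)) = t i
    rw [hg1, LinearEquiv.apply_symm_apply]
  · have h9 : 0 ≤ R (e x) := apply_nonneg R _
    rw [pi_norm_le_iff_of_nonneg (by positivity)]
    intro i
    have h10 := hg2 i x
    change |g i x| ≤ 2 ^ M * D₁ * R (e x) at h10
    change |g i x| ≤ (2 ^ M * D₁ + M) * R (e x)
    have h11 : 0 ≤ (M : ℝ) * R (e x) := by positivity
    rw [add_mul]
    linarith
  · have h12 := h2 (e₀.symm t)
    rw [LinearEquiv.apply_symm_apply] at h12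
    change P (e (ι (e₀.symm t))) ≤ ∑ i, |t i| at h12
    change P (e (ι (e₀.symm t))) ≤ (2 ^ M * D₁ + M) * ‖t‖
    have h13 : ∑ i, |t i| ≤ m * ‖t‖ := by
      calc ∑ i, |t i| ≤ ∑ _i : Fin m, ‖t‖ := Finset.sum_le_sum fun i _ => norm_le_pi_norm t i
        _ = m * ‖t‖ := by simp
    have h14 : (m : ℝ) * ‖t‖ ≤ M * ‖t‖ :=
      mul_le_mul_of_nonneg_right (by exact_mod_cast hmM) (norm_nonneg t)
    have h15 : 0 ≤ 2 ^ M * D₁ * ‖t‖ := by positivity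
    rw [add_mul]
    linarith

end Pool.RX
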