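import Pool.Agent.Work.MP_3e8c7a_r.Interface

set_option autoImplicit false

namespace Pool.RX

open Module Pool.Agent.MP3e8c7a

theorem NORO_aux (m M k : ℕ) (C : ℝ) (hC : 1 ≤ C) (hOBO : Stmt_OBO)
    (s : Seminorm ℝ (Fin M → ℝ)) (v : (Fin m → ℝ) →ₗ[ℝ] (Fin M → ℝ))
    (h1 : ∀ z, Real.sqrt (∑ l, z l ^ 2) ≤ Real.sqrt 3 * (8 * C * s (v z)))
    (h2 : ∀ z, s (v z) ≤ Real.sqrt (∑ l, z l ^ 2))
    (j : LinearMap.range v →ₗ[ℝ] (Fin k → ℝ)) (q : (Fin k → ℝ) →ₗ[ℝ] LinearMap.range v)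
    (hqj : ∀ a, q (j a) = a) (hj : ∀ a, XN false k (j a) ≤ s (a : Fin M → ℝ))
    (hq : ∀ x, s (q x : Fin M → ℝ) ≤ C * XN false k x) : (m : ℝ) ≤ 576 * C ^ 4 := by
  have hinj : Function.Injective v := by
    rw [← LinearMap.ker_eq_bot, LinearMap.ker_eq_bot']
    intro z hz
    have h3 := h1 z
    rw [hz, map_zero, mul_zero, mul_zero] at h3
    have h4 : ∑ l, z l ^ 2 ≤ 0 := by
      by_contra hcon
      exact absurd (Real.sqrt_pos.mpr (not_le.mp hcon)) (not_lt.mpr h3)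
    funext l
    have h5 : z l ^ 2 ≤ ∑ l, z l ^ 2 :=
      Finset.single_le_sum (f := fun l => z l ^ 2) (fun i _ => sq_nonneg _) (Finset.mem_univ l)
    have h6 : z l ^ 2 = 0 := le_antisymm (h5.trans h4) (sq_nonneg _)
    exact pow_eq_zero_iff (two_ne_zero) |>.mp h6
  let e : (Fin m → ℝ) ≃ₗ[ℝ] LinearMap.range v := LinearEquiv.ofInjective v hinj
  have he : ∀ z, ((e z : LinearMap.range v) : Fin M → ℝ) = v z := fun z => rfl
  have he2 : ∀ w : LinearMap.range v, v (e.symm w) = (w : Fin M → ℝ) := by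
    intro w
    rw [← he, LinearEquiv.apply_symm_apply]
  have h3 := hOBO m k (Real.sqrt 3 * (8 * C * C)) (j ∘ₗ (e : (Fin m → ℝ) →ₗ[ℝ] LinearMap.range v))
    ((e.symm : LinearMap.range v →ₗ[ℝ] (Fin m → ℝ)) ∘ₗ q) (by positivity)
    (fun z => by
      show e.symm (q (j (e z))) = z
      rw [hqj, LinearEquiv.symm_apply_apply])
    (fun z => by
      show ∑ i, |j (e z) i| ≤ _
      have h4 := hj (e z)
      rw [XN_false, he] at h4
      exact h4.trans (h2 z))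
    (fun x => by
      show Real.sqrt (∑ l, (e.symm (q x)) l ^ 2) ≤ _
      have h4 := h1 (e.symm (q x))
      rw [he2] at h4
      have h5 := hq x
      rw [XN_false] at h5
      calc Real.sqrt (∑ l, (e.symm (q x)) l ^ 2) ≤ Real.sqrt 3 * (8 * C * s (q x)) := h4
        _ ≤ Real.sqrt 3 * (8 * C * (C * ∑ i, |x i|)) := by gcongr
        _ = Real.sqrt 3 * (8 * C * C) * ∑ i, |x i| := by ring)
  have h4 : Real.sqrt 3 ^ 2 = 3 := Real.sq_sqrt (by norm_num)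
  calc (m : ℝ) ≤ 3 * (Real.sqrt 3 * (8 * C * C)) ^ 2 := h3
    _ = 3 * Real.sqrt 3 ^ 2 * 64 * C ^ 4 := by ring
    _ = 576 * C ^ 4 := by rw [h4]; ring

theorem NORO_mono {C C' : ℝ} (h : C ≤ C') {A : Type} [AddCommGroup A] [Module ℝ A]
    (s : Seminorm ℝ A) (hF : Fac false C s) : Fac false C' s := by
  obtain ⟨k, j, q, h1, h2, h3⟩ := hF
  exact ⟨k, j, q, h1, h2, fun x => (h3 x).trans
    (mul_le_mul_of_nonneg_right h (apply_nonneg _ _))⟩

theorem p_NORO (hSYO : Stmt_SYO) (hOBO : Stmt_OBO) (hRAD : Stmt_RAD) : Stmt_NORO := by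
  intro C₀
  set C : ℝ := max C₀ 1 with hCdef
  have hC : 1 ≤ C := le_max_right _ _
  have hC₀ : C₀ ≤ C := le_max_left _ _
  obtain ⟨m, hm⟩ := exists_nat_gt (576 * C ^ 4)
  obtain ⟨n₁, hn₁⟩ := hSYO C (2 ^ m) hC
  refine ⟨n₁, fun s hs => ?_⟩
  by_contra hcon
  have hall : ∀ S : Submodule ℝ (Fin n₁ → ℝ), Fac false C (s.comp S.subtype) := by
    intro S
    by_contra h
    exact hcon ⟨S, fun h' => h (NORO_mono hC₀ _ h')⟩
  obtain ⟨y, hy⟩ := hn₁ (⊤ : Submodule ℝ (Fin n₁ → ℝ))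
    (s.comp (⊤ : Submodule ℝ (Fin n₁ → ℝ)).subtype) (hs.comp _ Subtype.val_injective)
    (by rw [finrank_top]; simp) (hall ⊤)
  obtain ⟨-, u, hu⟩ := hRAD m
  set v : (Fin m → ℝ) →ₗ[ℝ] (Fin n₁ → ℝ) :=
    (⊤ : Submodule ℝ (Fin n₁ → ℝ)).subtype ∘ₗ y ∘ₗ u with hv
  have hsv : ∀ z, s (v z) = (s.comp (⊤ : Submodule ℝ (Fin n₁ → ℝ)).subtype) (y (u z)) :=
    fun z => rfl
  obtain ⟨k, j, q, hqj, hj, hq⟩ := hall (LinearMap.range v)
  have hfin := NORO_aux m n₁ k C hC hOBO s v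
    (fun z => by
      have h1 := (hu z).1
      have h2 := (hy (u z)).1
      rw [← hsv] at h2
      exact h1.trans (mul_le_mul_of_nonneg_left h2 (Real.sqrt_nonneg _)))
    (fun z => by
      have h1 := (hu z).2
      have h2 := (hy (u z)).2
      rw [← hsv] at h2
      exact h2.trans h1)
    j q hqj (fun a => hj a) (fun x => hq x)
  linarith

end Pool.RX
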