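import Pool.Agent.Work.MP_3e8c7a_r.Interface

set_option autoImplicit false

namespace Pool.RX

open Module Pool.Agent.MP3e8c7a

/-- A norming functional. -/
theorem NRF_hb {V : Type} [AddCommGroup V] [Module ℝ V] [FiniteDimensional ℝ V]
    (r : Seminorm ℝ V) (y : V) : ∃ φ : V →ₗ[ℝ] ℝ, φ y = r y ∧ ∀ x, |φ x| ≤ r x := by
  by_cases hy : y = 0
  · refine ⟨0, ?_, fun x => ?_⟩
    · rw [hy, map_zero, map_zero]
    · rw [LinearMap.zero_apply, abs_zero]
      exact apply_nonneg r x
  · have hi : Function.Injective (LinearMap.toSpanSingleton ℝ V y) := by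
      intro s t hst
      rw [LinearMap.toSpanSingleton_apply, LinearMap.toSpanSingleton_apply] at hst
      exact smul_left_injective ℝ hy hst
    obtain ⟨g, hg1, hg2⟩ := exists_ext r (LinearMap.toSpanSingleton ℝ V y) hi
      (C := 1) zero_le_one (r y • (LinearMap.id : ℝ →ₗ[ℝ] ℝ)) (fun t => by
        rw [LinearMap.toSpanSingleton_apply, map_smul_eq_mul, LinearMap.smul_apply,
          LinearMap.id_apply, smul_eq_mul, abs_mul, one_mul, Real.norm_eq_abs,
          abs_of_nonneg (apply_nonneg r y), mul_comm])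
    refine ⟨g, ?_, fun x => ?_⟩
    · have h1 := hg1 1
      rw [LinearMap.toSpanSingleton_apply, one_smul, LinearMap.smul_apply, LinearMap.id_apply,
        smul_eq_mul, mul_one] at h1
      exact h1
    · have h2 := hg2 x
      rwa [one_mul] at h2

theorem p_NRF (hNET : Stmt_NET) : Stmt_NRF := by
  classical
  intro m
  obtain ⟨ν, hν⟩ := hNET m
  refine ⟨ν, ?_⟩
  intro V _ _ _ r hr S hS
  obtain ⟨T, hT, hnet⟩ := hν S (r.comp S.subtype) (hr.comp S.subtype S.injective_subtype) hS
  choose φ hφ1 hφ2 using fun y : S => NRF_hb r (y : V)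
  let L : V →ₗ[ℝ] (T → ℝ) := LinearMap.pi fun y => φ (y : S)
  refine ⟨LinearMap.ker L, ?_, ?_⟩
  · have h1 := L.finrank_range_add_finrank_ker
    have h2 : finrank ℝ (LinearMap.range L) ≤ finrank ℝ (T → ℝ) := Submodule.finrank_le _
    rw [Module.finrank_fintype_fun_eq_card, Fintype.card_coe] at h2
    omega
  · intro w hw x hx
    have hx' : ∀ y ∈ T, φ y x = 0 := by
      intro y hy
      have h1 : L x = 0 := hx
      exact congrFun h1 ⟨y, hy⟩
    by_cases h0 : r w = 0
    · rw [h0]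
      have := apply_nonneg r (w + x)
      linarith
    · have hc : 0 < r w := lt_of_le_of_ne (apply_nonneg r w) (Ne.symm h0)
      have hc' : 0 < (r w)⁻¹ := inv_pos.2 hc
      obtain ⟨y, hy, hyw⟩ := hnet ((r w)⁻¹ • ⟨w, hw⟩) (by
        show r ((r w)⁻¹ • w) ≤ 1
        rw [map_smul_eq_mul, Real.norm_eq_abs, abs_of_pos hc', inv_mul_cancel₀ h0])
      have hyw' : r ((r w)⁻¹ • w - (y : V)) ≤ 1 / 4 := hyw
      have e1 : r ((r w)⁻¹ • w) = 1 := by
        rw [map_smul_eq_mul, Real.norm_eq_abs, abs_of_pos hc', inv_mul_cancel₀ h0]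
      -- the lower bound
      have h2 : r ((r w)⁻¹ • w) ≤ r ((r w)⁻¹ • w - (y : V)) + r (y : V) := by
        have := map_add_le_add r ((r w)⁻¹ • w - (y : V)) (y : V)
        rwa [sub_add_cancel] at this
      have h3 : φ y ((r w)⁻¹ • (w + x)) = r (y : V) + φ y ((r w)⁻¹ • w - (y : V)) := by
        rw [smul_add, map_add, map_smul (φ y) (r w)⁻¹ x, hx' y hy, smul_zero, add_zero, map_sub,
          hφ1]
        ring
      have h4 := hφ2 y ((r w)⁻¹ • w - (y : V))
      have h5 := hφ2 y ((r w)⁻¹ • (w + x))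
      have h6 : r ((r w)⁻¹ • (w + x)) = (r w)⁻¹ * r (w + x) := by
        rw [map_smul_eq_mul, Real.norm_eq_abs, abs_of_pos hc']
      have h7 := neg_abs_le (φ y ((r w)⁻¹ • w - (y : V)))
      have h8 := le_abs_self (φ y ((r w)⁻¹ • (w + x)))
      have h9 : 1 / 2 ≤ (r w)⁻¹ * r (w + x) := by
        rw [← h6]
        linarith
      have h10 : r w * (1 / 2) ≤ r w * ((r w)⁻¹ * r (w + x)) :=
        mul_le_mul_of_nonneg_left h9 hc.le
      rw [← mul_assoc, mul_inv_cancel₀ h0, one_mul] at h10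
      linarith

end Pool.RX
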