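import Pool.Agent.Work.MP_3e8c7a_r.Interface

set_option autoImplicit false

namespace Pool.RX

open Module Pool.Agent.MP3e8c7a

theorem NRM_max {N : ℕ} (hN : 0 < N) (z : Fin N → ℝ) : ∃ i : Fin N, ‖z‖ ≤ |z i| := by
  haveI : Nonempty (Fin N) := ⟨⟨0, hN⟩⟩
  obtain ⟨i, hi⟩ := Finite.exists_max (fun i => |z i|)
  refine ⟨i, ?_⟩
  rw [pi_norm_le_iff_of_nonneg (abs_nonneg _)]
  intro l
  rw [Real.norm_eq_abs]
  exact hi l

/-- block NRM: few coordinates norm a space of small dimension -/
theorem p_NRM (hNET : Stmt_NET) : Stmt_NRM := by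
  intro m
  obtain ⟨ν, hν⟩ := hNET m
  refine ⟨ν, ?_⟩
  intro N S _ _ _ w q hm hinj
  classical
  let s : Seminorm ℝ S := (normSeminorm ℝ (Fin N → ℝ)).comp w + q
  have hs : ∀ x, s x = ‖w x‖ + q x := fun x => rfl
  have hdef : Def s := by
    intro x hx
    rw [hs] at hx
    have h1 := norm_nonneg (w x)
    have h2 := apply_nonneg q x
    exact hinj x (norm_eq_zero.1 (by linarith)) (by linarith)
  obtain ⟨T, hT, hcov⟩ := hν S s hdef hm
  rcases Nat.eq_zero_or_pos N with hN | hN
  · subst hN
    refine ⟨∅, by simp, fun x κ hκ _ => ?_⟩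
    have h1 : ‖w x‖ = 0 := by
      rw [norm_eq_zero]
      exact Subsingleton.elim _ _
    have h2 := apply_nonneg q x
    linarith
  · have h1 : ∀ y : S, ∃ i : Fin N, ‖w y‖ ≤ |w y i| := fun y => NRM_max hN (w y)
    choose c hc using h1
    refine ⟨T.image c, Finset.card_image_le.trans hT, fun x κ hκ hJ => ?_⟩
    have hx0 : 0 ≤ s x := apply_nonneg s x
    rcases hx0.eq_or_lt with h0 | h0
    · have h2 := apply_nonneg q x
      have h3 := hs x
      rw [← h0] at h3
      rw [← h3]
      linarith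
    · have hsx' : s ((s x)⁻¹ • x) = 1 := by
        rw [map_smul_eq_mul, Real.norm_eq_abs, abs_of_pos (inv_pos.2 h0), inv_mul_cancel₀ h0.ne']
      obtain ⟨y, hy, hxy⟩ := hcov ((s x)⁻¹ • x) (le_of_eq hsx')
      set x' : S := (s x)⁻¹ • x with hx'
      have h4 : |w x (c y)| ≤ κ := hJ (c y) (Finset.mem_image_of_mem c hy)
      have h5 : |w x' (c y)| = (s x)⁻¹ * |w x (c y)| := by
        rw [hx', map_smul, Pi.smul_apply, smul_eq_mul, abs_mul, abs_of_pos (inv_pos.2 h0)]
      have h6 : q x' = (s x)⁻¹ * q x := by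
        rw [hx', map_smul_eq_mul, Real.norm_eq_abs, abs_of_pos (inv_pos.2 h0)]
      have h7 : |w y (c y)| ≤ |w x' (c y)| + ‖w (x' - y)‖ := by
        have h8 : |w (x' - y) (c y)| ≤ ‖w (x' - y)‖ := by
          rw [← Real.norm_eq_abs]
          exact norm_le_pi_norm _ _
        have h9 : w (x' - y) (c y) = w x' (c y) - w y (c y) := by
          rw [map_sub, Pi.sub_apply]
        rw [h9] at h8
        have h10 := abs_sub_abs_le_abs_sub (w y (c y)) (w x' (c y))
        rw [abs_sub_comm] at h10
        linarith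
      have h11 : q y ≤ q x' + q (x' - y) := by
        have h12 := map_sub_le_add q x' (x' - y)
        rw [sub_sub_cancel] at h12
        exact h12
      have h13 : s x' ≤ s y + s (x' - y) := by
        have h14 := map_add_le_add s y (x' - y)
        rw [add_sub_cancel] at h14
        exact h14
      have h15 := hs y
      have h16 := hs (x' - y)
      have h17 := hc y
      have h18 : 1 / 2 ≤ (s x)⁻¹ * (κ + q x) := by
        have h19 : (s x)⁻¹ * |w x (c y)| ≤ (s x)⁻¹ * κ :=
          mul_le_mul_of_nonneg_left h4 (inv_pos.2 h0).le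
        rw [mul_add]
        linarith
      have h20 : s x * (1 / 2) ≤ κ + q x := by
        have h21 := mul_le_mul_of_nonneg_left h18 h0.le
        rwa [mul_inv_cancel_left₀ h0.ne'] at h21
      rw [← hs x]
      linarith

end Pool.RX
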