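import Pool.Agent.Work.MP_3e8c7a_r.Interface

/-!
# Block STAO: the geometry of step A for the cross-polytope
-/

set_option autoImplicit false

namespace Pool.RX

open Module Pool.Agent.MP3e8c7a

/-- the profile of a space of small dimension in `ℓ_1^N` -/
theorem STAO_prof (hB : Stmt_BAS) {N l m : ℕ} {S : Type} [AddCommGroup S] [Module ℝ S]
    [FiniteDimensional ℝ S] (w : S →ₗ[ℝ] (Fin N → ℝ)) (hw : Function.Injective w)
    (hl : finrank ℝ S = l) (hlm : l ≤ m) :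
    ∃ u : Fin N → ℝ, (∀ i, 0 ≤ u i) ∧ ∑ i, u i ≤ m ∧
      ∀ ω i, |w ω i| ≤ 2 ^ m * (∑ a, |w ω a|) * u i := by
  obtain ⟨e, he1, he2⟩ := hB l S ((XN false N).comp w) ((XN_def false N).comp w hw) hl
  have hs : ∀ x, ((XN false N).comp w) x = ∑ a, |w x a| := fun x => by
    rw [Seminorm.comp_apply, XN_false]
  refine ⟨fun i => ∑ h, |w (e.symm (Pi.single h 1)) i|, fun i =>
    Finset.sum_nonneg fun h _ => abs_nonneg _, ?_, ?_⟩
  · rw [Finset.sum_comm]
    have h1 : ∀ h : Fin l, ∑ i, |w (e.symm (Pi.single h 1)) i| ≤ 1 := by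
      intro h
      rw [← hs]
      refine (he2 _).trans ?_
      rw [LinearEquiv.apply_symm_apply]
      rw [Finset.sum_eq_single h]
      · simp
      · intro b _ hb
        rw [Pi.single_eq_of_ne hb, abs_zero]
      · intro hh
        exact absurd (Finset.mem_univ h) hh
    calc ∑ h, ∑ i, |w (e.symm (Pi.single h 1)) i| ≤ ∑ _h : Fin l, (1 : ℝ) :=
          Finset.sum_le_sum fun h _ => h1 h
      _ = (l : ℝ) := by simp
      _ ≤ m := by exact_mod_cast hlm
  · intro ω i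
    have h2 : ω = ∑ h, (e ω h) • e.symm (Pi.single h (1 : ℝ)) := by
      apply e.injective
      rw [map_sum]
      funext c
      rw [Finset.sum_apply]
      rw [Finset.sum_eq_single c]
      · rw [map_smul, LinearEquiv.apply_symm_apply, Pi.smul_apply, Pi.single_eq_same, smul_eq_mul,
          mul_one]
      · intro b _ hb
        rw [map_smul, LinearEquiv.apply_symm_apply, Pi.smul_apply, Pi.single_eq_of_ne hb.symm,
          smul_zero]
      · intro hh
        exact absurd (Finset.mem_univ c) hh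
    have h3 : w ω i = ∑ h, (e ω h) * w (e.symm (Pi.single h (1 : ℝ))) i := by
      conv_lhs => rw [h2]
      rw [map_sum, Finset.sum_apply]
      refine Finset.sum_congr rfl fun h _ => ?_
      rw [map_smul, Pi.smul_apply, smul_eq_mul]
    have h0 : 0 ≤ ∑ a, |w ω a| := Finset.sum_nonneg fun a _ => abs_nonneg _
    have h4 : ‖e ω‖ ≤ 2 ^ m * ∑ a, |w ω a| := by
      refine (he1 ω).trans ?_
      rw [hs]
      exact mul_le_mul_of_nonneg_right (pow_le_pow_right₀ (by norm_num) hlm) h0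
    rw [h3, Finset.mul_sum]
    refine (Finset.abs_sum_le_sum_abs _ _).trans (Finset.sum_le_sum fun h _ => ?_)
    rw [abs_mul]
    refine mul_le_mul_of_nonneg_right (le_trans ?_ h4) (abs_nonneg _)
    rw [← Real.norm_eq_abs]
    exact norm_le_pi_norm _ h

/-- the functional with the coefficients `c` -/
noncomputable def STAO_bet {M : ℕ} (c : Fin M → ℝ) : (Fin M → ℝ) →ₗ[ℝ] ℝ :=
  ∑ j, c j • LinearMap.proj j

theorem STAO_bet_apply {M : ℕ} (c z : Fin M → ℝ) : STAO_bet c z = ∑ j, c j * z j := by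
  rw [STAO_bet, LinearMap.sum_apply]
  exact Finset.sum_congr rfl fun j _ => rfl

/-- coefficients which annihilate the vectors with index in `H` -/
theorem STAO_gam (hB : Stmt_BAS) {N l M' : ℕ} (H : Finset (Fin N)) (hH : l + H.card ≤ M')
    (a' : (Fin N → ℝ) →ₗ[ℝ] (Fin M' → ℝ)) :
    ∃ Γ : (Fin l → ℝ) →ₗ[ℝ] (Fin M' → ℝ),
      (∀ i ∈ H, ∀ y, ∑ j, Γ y j * a' (Pi.single i 1) j = 0) ∧
      (∀ y, ‖y‖ ≤ 2 ^ M' * ‖Γ y‖) ∧ ∀ h, ‖Γ (Pi.single h 1)‖ ≤ 1 := by
  let L : (Fin M' → ℝ) →ₗ[ℝ] (H → ℝ) :=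
    LinearMap.pi fun i : H => STAO_bet (a' (Pi.single i.1 1))
  have hL : ∀ z (i : H), L z i = ∑ j, a' (Pi.single i.1 1) j * z j := fun z i =>
    STAO_bet_apply _ _
  let G : Submodule ℝ (Fin M' → ℝ) := LinearMap.ker L
  have hG : l ≤ finrank ℝ G := by
    have h1 := LinearMap.finrank_range_add_finrank_ker L
    have h2 : finrank ℝ (LinearMap.range L) ≤ H.card := by
      refine (Submodule.finrank_le _).trans ?_
      rw [Module.finrank_fintype_fun_eq_card, Fintype.card_coe]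
    rw [Module.finrank_fintype_fun_eq_card, Fintype.card_fin] at h1
    change finrank ℝ (LinearMap.range L) + finrank ℝ G = M' at h1
    omega
  have hGM : finrank ℝ G ≤ M' := by
    refine (Submodule.finrank_le _).trans ?_
    rw [Module.finrank_fintype_fun_eq_card, Fintype.card_fin]
  obtain ⟨e, he1, he2⟩ := hB (finrank ℝ G) G
    ((normSeminorm ℝ (Fin M' → ℝ)).comp G.subtype)
    ((XN_def true M').comp G.subtype (Submodule.injective_subtype G)) rfl
  have hs : ∀ x : G, ((normSeminorm ℝ (Fin M' → ℝ)).comp G.subtype) x = ‖(x : Fin M' → ℝ)‖ :=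
    fun x => rfl
  let f₀ : Fin l ↪ Fin (finrank ℝ G) := Fin.castLEEmb hG
  let Γ : (Fin l → ℝ) →ₗ[ℝ] (Fin M' → ℝ) := G.subtype.comp (e.symm.toLinearMap.comp (emb f₀))
  have hΓ : ∀ y, Γ y = (e.symm (emb f₀ y) : Fin M' → ℝ) := fun y => rfl
  refine ⟨Γ, ?_, ?_, ?_⟩
  · intro i hi y
    have h1 : (e.symm (emb f₀ y) : Fin M' → ℝ) ∈ G := (e.symm (emb f₀ y)).2
    have h2 : L (e.symm (emb f₀ y) : Fin M' → ℝ) = 0 := LinearMap.mem_ker.1 h1
    have h3 := congrFun h2 ⟨i, hi⟩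
    rw [hL] at h3
    rw [Pi.zero_apply] at h3
    rw [← h3]
    refine Finset.sum_congr rfl fun j _ => ?_
    rw [hΓ, mul_comm]
  · intro y
    have h1 := emb_XN true f₀ y
    rw [XN_true, XN_true] at h1
    have h2 := he1 (e.symm (emb f₀ y))
    rw [LinearEquiv.apply_symm_apply, h1, hs] at h2
    refine h2.trans ?_
    rw [hΓ]
    exact mul_le_mul_of_nonneg_right (pow_le_pow_right₀ (by norm_num) hGM) (norm_nonneg _)
  · intro h
    have h2 := he2 (e.symm (emb f₀ (Pi.single h 1)))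
    rw [LinearEquiv.apply_symm_apply, hs] at h2
    rw [hΓ]
    refine h2.trans ?_
    have h1 := emb_XN false f₀ (Pi.single h 1)
    rw [XN_false, XN_false] at h1
    rw [h1]
    rw [Finset.sum_eq_single h]
    · simp
    · intro b _ hb
      rw [Pi.single_eq_of_ne hb, abs_zero]
    · intro hh
      exact absurd (Finset.mem_univ h) hh

/-- expansion in the standard basis -/
theorem STAO_exp {N M : ℕ} (a' : (Fin N → ℝ) →ₗ[ℝ] (Fin M → ℝ)) (x : Fin N → ℝ) (j : Fin M) :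
    a' x j = ∑ i, x i * a' (Pi.single i 1) j := by
  have h1 : x = ∑ i, x i • (Pi.single i (1 : ℝ) : Fin N → ℝ) := by
    funext c
    rw [Finset.sum_apply, Finset.sum_eq_single c]
    · rw [Pi.smul_apply, Pi.single_eq_same, smul_eq_mul, mul_one]
    · intro b _ hb
      rw [Pi.smul_apply, Pi.single_eq_of_ne hb.symm, smul_zero]
    · intro hh
      exact absurd (Finset.mem_univ c) hh
  conv_lhs => rw [h1]
  rw [map_sum, Finset.sum_apply]
  refine Finset.sum_congr rfl fun i _ => ?_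
  rw [map_smul, Pi.smul_apply, smul_eq_mul]

/-- the vectors `(∑_h y_h β_h e_i)_i` -/
noncomputable def STAO_Z {N l M' : ℕ} (a' : (Fin N → ℝ) →ₗ[ℝ] (Fin M' → ℝ))
    (Γ : (Fin l → ℝ) →ₗ[ℝ] (Fin M' → ℝ)) : (Fin l → ℝ) →ₗ[ℝ] (Fin N → ℝ) :=
  (LinearMap.pi fun i : Fin N => STAO_bet (a' (Pi.single i 1))).comp Γ

theorem STAO_Z_apply {N l M' : ℕ} (a' : (Fin N → ℝ) →ₗ[ℝ] (Fin M' → ℝ))
    (Γ : (Fin l → ℝ) →ₗ[ℝ] (Fin M' → ℝ)) (y : Fin l → ℝ) (i : Fin N) :
    STAO_Z a' Γ y i = ∑ j, Γ y j * a' (Pi.single i 1) j := by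
  change STAO_bet (a' (Pi.single i 1)) (Γ y) = _
  rw [STAO_bet_apply]
  exact Finset.sum_congr rfl fun j _ => mul_comm _ _

theorem STAO_Z_sum {N l M' : ℕ} (a' : (Fin N → ℝ) →ₗ[ℝ] (Fin M' → ℝ))
    (Γ : (Fin l → ℝ) →ₗ[ℝ] (Fin M' → ℝ)) (y : Fin l → ℝ) (x : Fin N → ℝ) :
    ∑ j, Γ y j * a' x j = ∑ i, x i * STAO_Z a' Γ y i := by
  calc ∑ j, Γ y j * a' x j = ∑ j, ∑ i, Γ y j * (x i * a' (Pi.single i 1) j) := by
        refine Finset.sum_congr rfl fun j _ => ?_
        rw [STAO_exp a' x j, Finset.mul_sum]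
    _ = ∑ i, ∑ j, Γ y j * (x i * a' (Pi.single i 1) j) := Finset.sum_comm
    _ = ∑ i, x i * STAO_Z a' Γ y i := by
        refine Finset.sum_congr rfl fun i _ => ?_
        rw [STAO_Z_apply, Finset.mul_sum]
        exact Finset.sum_congr rfl fun j _ => by ring

theorem STAO_single_norm {M : ℕ} (j : Fin M) : ‖(Pi.single j 1 : Fin M → ℝ)‖ ≤ 1 := by
  rw [pi_norm_le_iff_of_nonneg zero_le_one]
  intro i
  by_cases h : i = j
  · rw [h, Pi.single_eq_same, norm_one]
  · rw [Pi.single_eq_of_ne h, norm_zero]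
    exact zero_le_one

theorem STAO_Z_norm {N l M' : ℕ} {A ρ' : ℝ} {R : Seminorm ℝ (Fin N → ℝ)}
    {W' : (Fin M' → ℝ) →ₗ[ℝ] (Fin N → ℝ)} {a' : (Fin N → ℝ) →ₗ[ℝ] (Fin M' → ℝ)} (hA : 1 ≤ A)
    (hT : Top M' A ρ' R (XN false N) W' a') (Γ : (Fin l → ℝ) →ₗ[ℝ] (Fin M' → ℝ))
    (y : Fin l → ℝ) : ‖Γ y‖ ≤ A * ‖STAO_Z a' Γ y‖ := by
  have hA0 : 0 ≤ A := zero_le_one.trans hA
  rw [pi_norm_le_iff_of_nonneg (mul_nonneg hA0 (norm_nonneg _))]
  intro j
  have h1 : Γ y j = ∑ i, W' (Pi.single j 1) i * STAO_Z a' Γ y i := by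
    rw [← STAO_Z_sum, hT.aW, Finset.sum_eq_single j]
    · rw [Pi.single_eq_same, mul_one]
    · intro b _ hb
      rw [Pi.single_eq_of_ne hb, mul_zero]
    · intro hh
      exact absurd (Finset.mem_univ j) hh
  rw [h1, Real.norm_eq_abs]
  calc |∑ i, W' (Pi.single j 1) i * STAO_Z a' Γ y i|
      ≤ ∑ i, |W' (Pi.single j 1) i| * ‖STAO_Z a' Γ y‖ := by
        refine (Finset.abs_sum_le_sum_abs _ _).trans (Finset.sum_le_sum fun i _ => ?_)
        rw [abs_mul]
        refine mul_le_mul_of_nonneg_left ?_ (abs_nonneg _)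
        rw [← Real.norm_eq_abs]
        exact norm_le_pi_norm _ i
    _ = XN false N (W' (Pi.single j 1)) * ‖STAO_Z a' Γ y‖ := by
        rw [XN_false, Finset.sum_mul]
    _ ≤ A * ‖STAO_Z a' Γ y‖ := by
        refine mul_le_mul_of_nonneg_right ?_ (norm_nonneg _)
        refine (hT.rW _).trans ?_
        calc A * ‖(Pi.single j 1 : Fin M' → ℝ)‖ ≤ A * 1 :=
              mul_le_mul_of_nonneg_left (STAO_single_norm j) hA0
          _ = A := mul_one A

/-- deleting the coordinates in `J` -/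
noncomputable def STAO_del {N : ℕ} (J : Finset (Fin N)) : (Fin N → ℝ) →ₗ[ℝ] (Fin N → ℝ) where
  toFun x := fun i => if i ∈ J then 0 else x i
  map_add' x y := by
    funext i
    rw [Pi.add_apply, Pi.add_apply]
    split_ifs
    · rw [add_zero]
    · rfl
  map_smul' c x := by
    funext i
    rw [Pi.smul_apply, Pi.smul_apply, RingHom.id_apply]
    split_ifs
    · rw [smul_zero]
    · rfl

theorem STAO_del_apply {N : ℕ} (J : Finset (Fin N)) (x : Fin N → ℝ) (i : Fin N) :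
    STAO_del J x i = if i ∈ J then 0 else x i := rfl

theorem p_STAO (hB : Stmt_BAS) (hN : Stmt_NRM) (hC : Stmt_CEL) (hD : Stmt_DUL) : Stmt_STAO := by
  intro θ hθ hθ1
  refine ⟨8 / θ, ?_, ?_⟩
  · rw [le_div_iff₀ hθ]
    linarith
  intro m
  obtain ⟨ν₁, hν₁⟩ := hN m
  obtain ⟨ν₂, hν₂⟩ := hC m (θ / 2) (by linarith) (by linarith)
  refine ⟨m + 2 ^ m * m * (4 * (ν₁ + 1)), ?_⟩
  intro A hA
  obtain ⟨M', hM'⟩ : ∃ M' : ℕ, M' = m + 2 ^ m * m * (4 * (ν₁ + 1)) := ⟨_, rfl⟩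
  rw [← hM']
  have hA0 : 0 < A := lt_of_lt_of_le zero_lt_one hA
  refine ⟨M' * A + 2 * m * (2 * 2 ^ M' * A) + 1, ⌈(2 * ν₂ + ν₁ : ℝ) / θ⌉₊, by positivity, ?_⟩
  intro N k S _ _ _ w R ρ' W' a' l hn hk1 hk2 hw hl hlm hρ hT
  -- the size of N
  have hNθ : (2 * ν₂ + ν₁ : ℝ) ≤ θ * N := by
    have h1 : (2 * ν₂ + ν₁ : ℝ) / θ ≤ N :=
      (Nat.le_ceil _).trans (by exact_mod_cast hn)
    rw [div_le_iff₀ hθ] at h1
    linarith
  -- the profile
  obtain ⟨u, hu0, hu1, hu2⟩ := STAO_prof hB w hw hl hlm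
  obtain ⟨η, hη⟩ : ∃ η : ℝ, η = 1 / (4 * (ν₁ + 1)) := ⟨_, rfl⟩
  have hη0 : 0 < η := by
    rw [hη]
    positivity
  classical
  let H : Finset (Fin N) := Finset.univ.filter fun i => η < 2 ^ m * u i
  have hH : H.card ≤ 2 ^ m * m * (4 * (ν₁ + 1)) := by
    have h1 : (H.card : ℝ) * η ≤ 2 ^ m * m := by
      calc (H.card : ℝ) * η = ∑ _i ∈ H, η := by
            rw [Finset.sum_const, nsmul_eq_mul]
        _ ≤ ∑ i ∈ H, 2 ^ m * u i :=
            Finset.sum_le_sum fun i hi => (Finset.mem_filter.1 hi).2.le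
        _ ≤ ∑ i, 2 ^ m * u i :=
            Finset.sum_le_sum_of_subset_of_nonneg (Finset.subset_univ _)
              fun i _ _ => mul_nonneg (by positivity) (hu0 i)
        _ = 2 ^ m * ∑ i, u i := by rw [Finset.mul_sum]
        _ ≤ 2 ^ m * m := mul_le_mul_of_nonneg_left hu1 (by positivity)
    have h2 : (H.card : ℝ) ≤ 2 ^ m * m * (4 * (ν₁ + 1)) := by
      rw [hη, mul_one_div, div_le_iff₀ (by positivity)] at h1
      exact h1
    exact_mod_cast h2
  obtain ⟨Γ, hΓ1, hΓ2, hΓ3⟩ := STAO_gam hB H (by omega : l + H.card ≤ M') a'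
  have hZ1 : ∀ i ∈ H, ∀ y, STAO_Z a' Γ y i = 0 := fun i hi y => by
    rw [STAO_Z_apply]
    exact hΓ1 i hi y
  have hZ2 : ∀ y, ‖y‖ ≤ 2 ^ M' * A * ‖STAO_Z a' Γ y‖ := fun y => by
    calc ‖y‖ ≤ 2 ^ M' * ‖Γ y‖ := hΓ2 y
      _ ≤ 2 ^ M' * (A * ‖STAO_Z a' Γ y‖) :=
          mul_le_mul_of_nonneg_left (STAO_Z_norm hA hT Γ y) (by positivity)
      _ = 2 ^ M' * A * ‖STAO_Z a' Γ y‖ := by ring
  obtain ⟨J₂, hJ₂, hJ₂'⟩ := hν₁ N (Fin l → ℝ) (STAO_Z a' Γ) 0
    (by rw [Module.finrank_fintype_fun_eq_card, Fintype.card_fin]; exact hlm)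
    (fun y hy _ => by
      have h1 := hZ2 y
      rw [hy, norm_zero, mul_zero] at h1
      exact norm_le_zero_iff.1 h1)
  let J : Finset (Fin N) := J₂ \ H
  have hJ : J.card ≤ ν₁ := (Finset.card_le_card Finset.sdiff_subset).trans hJ₂
  have hJ3 : ∀ y κ, 0 ≤ κ → (∀ i ∈ J, |STAO_Z a' Γ y i| ≤ κ) → ‖STAO_Z a' Γ y‖ ≤ 2 * κ := by
    intro y κ hκ h
    have h1 := hJ₂' y κ hκ (fun i hi => by
      by_cases hiH : i ∈ H
      · rw [hZ1 i hiH, abs_zero]
        exact hκ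
      · exact h i (Finset.mem_sdiff.2 ⟨hi, hiH⟩))
    simpa using h1
  -- few coordinates carry little
  have hJ4 : ∀ ω, ∑ i ∈ J, |w ω i| ≤ 1 / 4 * ∑ a, |w ω a| := by
    intro ω
    have h0 : 0 ≤ ∑ a, |w ω a| := Finset.sum_nonneg fun a _ => abs_nonneg _
    have h1 : ∀ i ∈ J, |w ω i| ≤ η * ∑ a, |w ω a| := by
      intro i hi
      have hiH : i ∉ H := (Finset.mem_sdiff.1 hi).2
      have h2 : 2 ^ m * u i ≤ η := by
        by_contra hcon
        exact hiH (Finset.mem_filter.2 ⟨Finset.mem_univ i, not_le.1 hcon⟩)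
      calc |w ω i| ≤ 2 ^ m * (∑ a, |w ω a|) * u i := hu2 ω i
        _ = (2 ^ m * u i) * ∑ a, |w ω a| := by ring
        _ ≤ η * ∑ a, |w ω a| := mul_le_mul_of_nonneg_right h2 h0
    calc ∑ i ∈ J, |w ω i| ≤ ∑ _i ∈ J, η * ∑ a, |w ω a| := Finset.sum_le_sum h1
      _ = (J.card : ℝ) * η * ∑ a, |w ω a| := by
          rw [Finset.sum_const, nsmul_eq_mul]
          ring
      _ ≤ 1 / 4 * ∑ a, |w ω a| := by
          refine mul_le_mul_of_nonneg_right ?_ h0
          have h3 : (J.card : ℝ) ≤ ν₁ := by exact_mod_cast hJ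
          rw [hη, mul_one_div, div_le_iff₀ (by positivity)]
          linarith
  -- the cells
  obtain ⟨A₀, hA₀, hA₀'⟩ := hν₂ N (LinearMap.range ((STAO_del J).comp w))
    ((LinearMap.finrank_range_le _).trans (by rw [hl]; exact hlm))
  let E : Finset (Fin N) := A₀ \ J
  have hE1 : (E.card : ℝ) ≤ θ * N := by
    have h1 : (E.card : ℝ) ≤ A₀.card := by
      exact_mod_cast Finset.card_le_card Finset.sdiff_subset
    have h2 : (0 : ℝ) ≤ ν₁ := Nat.cast_nonneg _
    linarith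
  have hE2 : ∀ ω, θ / 8 * ∑ i, |w ω i| ≤ ∑ i ∈ E, |w ω i| := by
    intro ω
    have h0 : 0 ≤ ∑ a, |w ω a| := Finset.sum_nonneg fun a _ => abs_nonneg _
    have h1 := hA₀' (((STAO_del J).comp w) ω) ⟨ω, rfl⟩
    have h2 : ∑ i ∈ A₀, |((STAO_del J).comp w) ω i| = ∑ i ∈ E, |w ω i| := by
      have h3 : ∑ i ∈ E, |w ω i| = ∑ i ∈ E, |((STAO_del J).comp w) ω i| := by
        refine Finset.sum_congr rfl fun i hi => ?_
        rw [LinearMap.comp_apply, STAO_del_apply, if_neg (Finset.mem_sdiff.1 hi).2]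
      rw [h3]
      symm
      refine Finset.sum_subset Finset.sdiff_subset fun i hi hi' => ?_
      have h4 : i ∈ J := by
        by_contra hcon
        exact hi' (Finset.mem_sdiff.2 ⟨hi, hcon⟩)
      rw [LinearMap.comp_apply, STAO_del_apply, if_pos h4, abs_zero]
    have h5 : ∑ i, |w ω i| = ∑ i, |((STAO_del J).comp w) ω i| + ∑ i ∈ J, |w ω i| := by
      have h6 : ∑ i ∈ J, |w ω i| = ∑ i, if i ∈ J then |w ω i| else 0 := by
        rw [← Finset.sum_filter]
        refine Finset.sum_congr ?_ fun i _ => rfl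
        ext i
        simp
      rw [h6, ← Finset.sum_add_distrib]
      refine Finset.sum_congr rfl fun i _ => ?_
      rw [LinearMap.comp_apply, STAO_del_apply]
      split_ifs
      · rw [abs_zero, zero_add]
      · rw [add_zero]
    rw [h2] at h1
    have h7 := hJ4 ω
    have h8 : 3 / 4 * ∑ i, |w ω i| ≤ ∑ i, |((STAO_del J).comp w) ω i| := by linarith
    have h9 : θ / 4 * (3 / 4 * ∑ i, |w ω i|) ≤ θ / 4 * ∑ i, |((STAO_del J).comp w) ω i| :=
      mul_le_mul_of_nonneg_left h8 (by linarith)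
    have h10 : 0 ≤ θ * ∑ i, |w ω i| := mul_nonneg hθ.le h0
    have h11 : θ / 2 / 2 = θ / 4 := by ring
    rw [h11] at h1
    nlinarith
  have hdis : Disjoint J E := Finset.disjoint_sdiff
  have hJk : J.card ≤ k := by
    have h1 : (J.card : ℝ) ≤ ν₁ := by exact_mod_cast hJ
    have h2 : (0 : ℝ) ≤ ν₂ := Nat.cast_nonneg _
    have h3 : (J.card : ℝ) ≤ k := by linarith
    exact_mod_cast h3
  have hkE : k + E.card ≤ N := by
    have h1 : (k : ℝ) + E.card ≤ N := by linarith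
    exact_mod_cast h1
  obtain ⟨f, hf1, hf2⟩ := exists_emb J E hdis hJk hkE
  -- the functionals
  let β : Fin l → (Fin k → ℝ) →ₗ[ℝ] ℝ := fun h =>
    (STAO_bet (Γ (Pi.single h 1))).comp (a'.comp (emb f))
  have hβ : ∀ h x, β h x = ∑ j, Γ (Pi.single h 1) j * a' (emb f x) j := fun h x =>
    STAO_bet_apply _ _
  have hβs : ∀ (t : Fin l → ℝ) x, ∑ h, t h * β h x = ∑ j, Γ t j * a' (emb f x) j := by
    intro t x
    calc ∑ h, t h * β h x = ∑ h, ∑ j, t h * (Γ (Pi.single h 1) j * a' (emb f x) j) := by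
          refine Finset.sum_congr rfl fun h _ => ?_
          rw [hβ, Finset.mul_sum]
      _ = ∑ j, ∑ h, t h * (Γ (Pi.single h 1) j * a' (emb f x) j) := Finset.sum_comm
      _ = ∑ j, Γ t j * a' (emb f x) j := by
          refine Finset.sum_congr rfl fun j _ => ?_
          rw [STAO_exp Γ t j, Finset.sum_mul]
          exact Finset.sum_congr rfl fun h _ => by ring
  obtain ⟨c, hc⟩ : ∃ c : ℝ, c = 1 / (2 * 2 ^ M' * A) := ⟨_, rfl⟩
  have hc0 : 0 < c := by
    rw [hc]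
    positivity
  obtain ⟨ξ, hξ1, hξ2⟩ := hD (Fin k → ℝ) (XN false k) l β c (XN_def false k) hc0 (by
    intro t κ hκ h
    have h1 : ‖STAO_Z a' Γ t‖ ≤ 2 * κ := by
      refine hJ3 t κ hκ fun i hi => ?_
      obtain ⟨i', rfl⟩ := hf1 i hi
      have h2 := h (Pi.single i' 1)
      have h3 : emb f (Pi.single i' (1 : ℝ)) = Pi.single (f i') 1 := by
        funext b
        by_cases hb : b = f i'
        · rw [hb, emb_apply, Pi.single_eq_same, Pi.single_eq_same]
        · rw [Pi.single_eq_of_ne hb]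
          by_cases hb2 : ∃ a, f a = b
          · obtain ⟨a, rfl⟩ := hb2
            rw [emb_apply, Pi.single_eq_of_ne]
            intro hab
            exact hb (by rw [hab])
          · exact emb_zero f _ b fun a ha => hb2 ⟨a, ha⟩
      have h4 : XN false k (Pi.single i' 1) = 1 := by
        rw [XN_false, Finset.sum_eq_single i']
        · simp
        · intro b _ hb
          rw [Pi.single_eq_of_ne hb, abs_zero]
        · intro hh
          exact absurd (Finset.mem_univ i') hh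
      rw [hβs, h3, h4, mul_one] at h2
      rw [STAO_Z_apply]
      exact h2
    have h5 := hZ2 t
    have h6 : ‖t‖ ≤ 2 ^ M' * A * (2 * κ) :=
      h5.trans (mul_le_mul_of_nonneg_left h1 (by positivity))
    rw [hc, one_div, inv_mul_le_iff₀ (by positivity)]
    linarith)
  refine ⟨f, LinearMap.pi β, ξ, ?_, ?_, ?_, ?_⟩
  · intro t
    funext h
    exact hξ1 t h
  · intro x
    have hR0 : 0 ≤ R (emb f x) := apply_nonneg R _
    have h1 : ρ' * ‖a' (emb f x)‖ ≤ A * R (emb f x) := hT.pa _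
    have h2 : ‖a' (emb f x)‖ ≤ A * R (emb f x) / ρ' := by
      rw [le_div_iff₀ hρ]
      linarith
    have h3 : ‖(LinearMap.pi β) x‖ ≤ M' * ‖a' (emb f x)‖ := by
      rw [pi_norm_le_iff_of_nonneg (mul_nonneg (Nat.cast_nonneg _) (norm_nonneg _))]
      intro h
      rw [LinearMap.pi_apply, hβ, Real.norm_eq_abs]
      calc |∑ j, Γ (Pi.single h 1) j * a' (emb f x) j|
          ≤ ∑ _j : Fin M', ‖a' (emb f x)‖ := by
            refine (Finset.abs_sum_le_sum_abs _ _).trans (Finset.sum_le_sum fun j _ => ?_)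
            rw [abs_mul]
            calc |Γ (Pi.single h 1) j| * |a' (emb f x) j| ≤ 1 * ‖a' (emb f x)‖ := by
                  refine mul_le_mul ?_ ?_ (abs_nonneg _) zero_le_one
                  · rw [← Real.norm_eq_abs]
                    exact (norm_le_pi_norm _ j).trans (hΓ3 h)
                  · rw [← Real.norm_eq_abs]
                    exact norm_le_pi_norm _ j
              _ = ‖a' (emb f x)‖ := one_mul _
        _ = M' * ‖a' (emb f x)‖ := by
            rw [Finset.sum_const, Finset.card_univ, Fintype.card_fin, nsmul_eq_mul]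
    calc ‖(LinearMap.pi β) x‖ ≤ M' * ‖a' (emb f x)‖ := h3
      _ ≤ M' * (A * R (emb f x) / ρ') := mul_le_mul_of_nonneg_left h2 (Nat.cast_nonneg _)
      _ = M' * A * (R (emb f x) / ρ') := by ring
      _ ≤ (M' * A + 2 * m * (2 * 2 ^ M' * A) + 1) * (R (emb f x) / ρ') := by
          refine mul_le_mul_of_nonneg_right ?_ (div_nonneg hR0 hρ.le)
          have h4 : 0 ≤ 2 * m * (2 * 2 ^ M' * A) := by positivity
          linarith
      _ = (M' * A + 2 * m * (2 * 2 ^ M' * A) + 1) / ρ' * R (emb f x) := by ring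
  · intro y
    refine (hξ2 y).trans (mul_le_mul_of_nonneg_right ?_ (norm_nonneg _))
    have h1 : (l : ℝ) ≤ m := by exact_mod_cast hlm
    have h2 : 2 * (l : ℝ) / c = 2 * l * (2 * 2 ^ M' * A) := by
      rw [hc]
      field_simp
    rw [h2]
    have h3 : 2 * (l : ℝ) * (2 * 2 ^ M' * A) ≤ 2 * m * (2 * 2 ^ M' * A) := by
      refine mul_le_mul_of_nonneg_right (by linarith) (by positivity)
    have h4 : 0 ≤ (M' : ℝ) * A := by positivity
    linarith
  · intro ω x
    rw [XN_false, XN_false]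
    have h1 : ∑ i ∈ E, |w ω i| ≤ ∑ i, |(w ω + emb f x) i| := by
      calc ∑ i ∈ E, |w ω i| = ∑ i ∈ E, |(w ω + emb f x) i| := by
            refine Finset.sum_congr rfl fun i hi => ?_
            rw [Pi.add_apply, emb_zero f x i fun a ha => hf2 a (by rw [ha]; exact hi), add_zero]
        _ ≤ ∑ i, |(w ω + emb f x) i| :=
            Finset.sum_le_sum_of_subset_of_nonneg (Finset.subset_univ _)
              fun i _ _ => abs_nonneg _
    have h2 := (hE2 ω).trans h1
    rw [div_mul_eq_mul_div, le_div_iff₀ hθ]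
    linarith

end Pool.RX
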