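import Pool.Agent.Work.MP_3e8c7a_r.Interface

/-! Block TOPP: a part of a finite set with a large sum. -/

set_option autoImplicit false

namespace Pool.RX

open Module Pool.Agent.MP3e8c7a

theorem TOPP_step {α : Type} [DecidableEq α] (Q : Finset α) (u : α → ℝ) (j : ℕ) :
    j ≤ Q.card → ∃ A ⊆ Q, A.card + j = Q.card ∧
      (A.card : ℝ) * ∑ i ∈ Q, u i ≤ Q.card * ∑ i ∈ A, u i := by
  induction j with
  | zero => exact fun _ => ⟨Q, subset_rfl, rfl, le_rfl⟩
  | succ j ih =>
    intro hj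
    obtain ⟨A, hA, hc, hs⟩ := ih (by omega)
    have hpos : 0 < A.card := by omega
    obtain ⟨a, haA, hmin⟩ := A.exists_min_image u (Finset.card_pos.mp hpos)
    refine ⟨A.erase a, (Finset.erase_subset a A).trans hA, ?_, ?_⟩
    · rw [Finset.card_erase_of_mem haA]
      omega
    · have h1 : (A.card : ℝ) * u a ≤ ∑ i ∈ A, u i := by
        have := Finset.card_nsmul_le_sum A u (u a) hmin
        rwa [nsmul_eq_mul] at this
      have h2 : ∑ i ∈ A.erase a, u i = ∑ i ∈ A, u i - u a := by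
        rw [← Finset.add_sum_erase A u haA]
        ring
      have h3 : ((A.erase a).card : ℝ) = A.card - 1 := by
        rw [Finset.card_erase_of_mem haA, Nat.cast_sub (by omega)]
        norm_num
      have hc1 : (1 : ℝ) ≤ A.card := by exact_mod_cast hpos
      have hn : (0 : ℝ) ≤ Q.card := Nat.cast_nonneg _
      rw [h2, h3]
      have h4 : ((A.card : ℝ) - 1) * (A.card * ∑ i ∈ Q, u i) ≤
          ((A.card : ℝ) - 1) * (Q.card * ∑ i ∈ A, u i) :=
        mul_le_mul_of_nonneg_left hs (by linarith)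
      have h5 : (Q.card : ℝ) * ((A.card : ℝ) * u a) ≤ Q.card * ∑ i ∈ A, u i :=
        mul_le_mul_of_nonneg_left h1 hn
      have h6 : (A.card : ℝ) * (((A.card : ℝ) - 1) * ∑ i ∈ Q, u i) ≤
          A.card * (Q.card * (∑ i ∈ A, u i - u a)) := by
        linarith
      exact le_of_mul_le_mul_left h6 (by linarith)

theorem p_TOPP : Stmt_TOPP := by
  intro N Q u θ hu hθ hθ1
  rcases Finset.eq_empty_or_nonempty Q with rfl | hQ
  · exact ⟨∅, subset_rfl, by simp, by simp⟩
  · have hQ0 : (0 : ℝ) < Q.card := by exact_mod_cast Finset.card_pos.mpr hQ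
    have hk : ⌈θ * Q.card⌉₊ ≤ Q.card := by
      apply Nat.ceil_le.mpr
      nlinarith
    obtain ⟨A, hA, hc, hs⟩ := TOPP_step Q u (Q.card - ⌈θ * Q.card⌉₊) (Nat.sub_le _ _)
    have hcard : A.card = ⌈θ * Q.card⌉₊ := by omega
    refine ⟨A, hA, ?_, ?_⟩
    · rw [hcard]
      exact (Nat.ceil_lt_add_one (by positivity)).le
    · have h1 : θ * Q.card ≤ A.card := by
        rw [hcard]
        exact Nat.le_ceil _
      have h2 : 0 ≤ ∑ i ∈ Q, u i := Finset.sum_nonneg fun i _ => hu i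
      have h3 : (Q.card : ℝ) * (θ * ∑ i ∈ Q, u i) ≤ Q.card * ∑ i ∈ A, u i := by
        calc (Q.card : ℝ) * (θ * ∑ i ∈ Q, u i) = (θ * Q.card) * ∑ i ∈ Q, u i := by ring
          _ ≤ A.card * ∑ i ∈ Q, u i := mul_le_mul_of_nonneg_right h1 h2
          _ ≤ Q.card * ∑ i ∈ A, u i := hs
      exact le_of_mul_le_mul_left h3 hQ0

end Pool.RX
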