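import Pool.Agent.Work.MP_3e8c7a_r.Interface

/-! # Block UI: uniform integrability (helper37) -/

set_option autoImplicit false

namespace Pool.RX

open Module Pool.Agent.MP3e8c7a

/-- The partial sums of the greedy choice. -/
noncomputable def UI_sig {k : ℕ} (K₀ : ℝ) (g : (Fin k → ℝ) → (Fin k → ℝ)) : ℕ → Fin k → ℝ
  | 0 => fun _ => 0
  | n + 1 => fun i => UI_sig K₀ g n i + g (fun i => K₀ * UI_sig K₀ g n i) i

theorem p_UI : Stmt_UI := by
  classical
  intro C ε J hε
  set C' : ℝ := max C 0 with hC'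
  have hC'0 : 0 ≤ C' := le_max_right _ _
  have hCC' : C ≤ C' := le_max_left _ _
  set K₀ : ℝ := 2 * J * C' / ε + 1 with hK₀
  have hK₀1 : 1 ≤ K₀ := by
    have : 0 ≤ 2 * J * C' / ε := by positivity
    linarith
  have hK₀ε : 2 * J * C' ≤ K₀ * ε := by
    have h1 : 2 * J * C' / ε * ε = 2 * J * C' := div_mul_cancel₀ _ hε.ne'
    rw [hK₀, add_mul, h1]
    linarith
  refine ⟨K₀ * (J * C'), by positivity, fun k 𝓕 h𝓕 => ?_⟩
  by_cases hsec : ∃ ν : Fin k → ℝ, (∀ i, 0 ≤ ν i) ∧ ∑ i, ν i ≤ K₀ * (J * C') ∧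
      ∀ μ ∈ 𝓕, ∑ i, max (μ i - ν i) 0 ≤ ε
  · exact Or.inr hsec
  left
  have hch : ∀ ν : Fin k → ℝ, ∃ μ : Fin k → ℝ, (∀ i, 0 ≤ ν i) → ∑ i, ν i ≤ K₀ * (J * C') →
      μ ∈ 𝓕 ∧ ε < ∑ i, max (μ i - ν i) 0 := by
    intro ν
    by_cases h1 : (∀ i, 0 ≤ ν i) ∧ ∑ i, ν i ≤ K₀ * (J * C')
    · by_cases h2 : ∀ μ ∈ 𝓕, ∑ i, max (μ i - ν i) 0 ≤ ε
      · exact absurd ⟨ν, h1.1, h1.2, h2⟩ hsec
      · push Not at h2
        obtain ⟨μ, hμ, h3⟩ := h2
        exact ⟨μ, fun _ _ => ⟨hμ, h3⟩⟩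
    · exact ⟨0, fun ha hb => absurd ⟨ha, hb⟩ h1⟩
  choose g hg using hch
  set σ : ℕ → Fin k → ℝ := UI_sig K₀ g with hσ
  set μ : ℕ → Fin k → ℝ := fun n => g (fun i => K₀ * σ n i) with hμ
  have hσ0 : ∀ i, σ 0 i = 0 := fun i => rfl
  have hσs : ∀ n i, σ (n + 1) i = σ n i + μ n i := fun n i => rfl
  have hinv : ∀ n, n ≤ J → (∀ i, 0 ≤ σ n i) ∧ ∑ i, σ n i ≤ n * C' := by
    intro n
    induction n with
    | zero =>
      intro _
      refine ⟨fun i => (hσ0 i).ge, ?_⟩
      simp [hσ0]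
    | succ n ih =>
      intro hn
      obtain ⟨h1, h2⟩ := ih (by omega)
      have h3 : ∀ i, 0 ≤ K₀ * σ n i := fun i => mul_nonneg (by linarith) (h1 i)
      have hnJ : (n : ℝ) ≤ J := by exact_mod_cast (by omega : n ≤ J)
      have h4 : ∑ i, K₀ * σ n i ≤ K₀ * (J * C') := by
        rw [← Finset.mul_sum]
        exact mul_le_mul_of_nonneg_left (h2.trans (mul_le_mul_of_nonneg_right hnJ hC'0))
          (by linarith)
      obtain ⟨h5, -⟩ := hg _ h3 h4
      obtain ⟨h6, h7⟩ := h𝓕 _ h5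
      constructor
      · intro i
        rw [hσs]
        exact add_nonneg (h1 i) (h6 i)
      · have h8 : ∑ i, σ (n + 1) i = ∑ i, σ n i + ∑ i, μ n i := by
          rw [← Finset.sum_add_distrib]
          exact Finset.sum_congr rfl fun i _ => hσs n i
        rw [h8]
        have h9 : ∑ i, μ n i ≤ C' := h7.trans hCC'
        push_cast
        linarith
  have hμF : ∀ n, n < J → μ n ∈ 𝓕 ∧ ε < ∑ i, max (μ n i - K₀ * σ n i) 0 := by
    intro n hn
    obtain ⟨h1, h2⟩ := hinv n hn.le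
    have h3 : ∀ i, 0 ≤ K₀ * σ n i := fun i => mul_nonneg (by linarith) (h1 i)
    have hnJ : (n : ℝ) ≤ J := by exact_mod_cast hn.le
    have h4 : ∑ i, K₀ * σ n i ≤ K₀ * (J * C') := by
      rw [← Finset.mul_sum]
      exact mul_le_mul_of_nonneg_left (h2.trans (mul_le_mul_of_nonneg_right hnJ hC'0))
        (by linarith)
    exact hg _ h3 h4
  have hμ0 : ∀ n, n < J → ∀ i, 0 ≤ μ n i := fun n hn => (h𝓕 _ (hμF n hn).1).1
  have hle : ∀ n, n ≤ J → ∀ t, t < n → ∀ i, μ t i ≤ σ n i := by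
    intro n
    induction n with
    | zero => intro _ t ht; exact absurd ht (Nat.not_lt_zero t)
    | succ n ih =>
      intro hn t ht i
      rw [hσs]
      rcases Nat.lt_succ_iff_lt_or_eq.1 ht with h | h
      · exact (ih (by omega) t h i).trans (le_add_of_nonneg_right (hμ0 n (by omega) i))
      · rw [h]
        exact le_add_of_nonneg_left ((hinv n (by omega)).1 i)
  set B : ℕ → Finset (Fin k) := fun s => Finset.univ.filter fun i => K₀ * σ s i < μ s i with hB
  have hBs : ∀ s, s < J → ε < ∑ i ∈ B s, μ s i := by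
    intro s hs
    refine (hμF s hs).2.trans_le ?_
    rw [hB, Finset.sum_filter]
    refine Finset.sum_le_sum fun i _ => ?_
    split_ifs with h
    · rw [max_eq_left (by linarith)]
      have := mul_nonneg (by linarith : (0 : ℝ) ≤ K₀) ((hinv s hs.le).1 i)
      linarith
    · rw [max_eq_right (by linarith)]
  have hBt : ∀ s, s < J → ∀ t, t < s → K₀ * ∑ i ∈ B s, μ t i ≤ C' := by
    intro s hs t hts
    have h1 : K₀ * ∑ i ∈ B s, μ t i ≤ ∑ i ∈ B s, μ s i := by
      rw [Finset.mul_sum]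
      refine Finset.sum_le_sum fun i hi => ?_
      have h2 := (Finset.mem_filter.1 hi).2
      have h3 := hle s hs.le t hts i
      have h4 : K₀ * μ t i ≤ K₀ * σ s i := mul_le_mul_of_nonneg_left h3 (by linarith)
      linarith
    refine h1.trans (le_trans ?_ ((h𝓕 _ (hμF s hs).1).2.trans hCC'))
    exact Finset.sum_le_sum_of_subset_of_nonneg (Finset.filter_subset _ _)
      fun i _ _ => hμ0 s hs i
  set A : ℕ → Finset (Fin k) := fun s => B s \ ((Finset.Ioo s J).biUnion B) with hA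
  refine ⟨fun s => μ s, fun s => A s, fun s => (hμF s s.2).1, ?_, ?_⟩
  · have key : ∀ s t : ℕ, s < t → t < J → Disjoint (A s) (A t) := by
      intro s t hst ht
      rw [Finset.disjoint_left]
      intro i hi hi'
      rw [hA] at hi hi'
      have h1 := (Finset.mem_sdiff.1 hi).2
      have h2 := (Finset.mem_sdiff.1 hi').1
      exact h1 (Finset.mem_biUnion.2 ⟨t, Finset.mem_Ioo.2 ⟨hst, ht⟩, h2⟩)
    intro s t hst
    rcases lt_or_gt_of_ne (fun h => hst (Fin.ext h) : (s : ℕ) ≠ t) with h | h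
    · exact key s t h t.2
    · exact (key t s h s.2).symm
  · intro s
    have hs : (s : ℕ) < J := s.2
    have h1 : ∑ i ∈ B s, μ s i ≤ ∑ i ∈ A s, μ s i +
        ∑ t ∈ Finset.Ioo (s : ℕ) J, ∑ i ∈ B t, μ s i := by
      have e1 : ∀ T : Finset (Fin k), ∑ i ∈ T, μ s i = ∑ i, if i ∈ T then μ s i else 0 := by
        intro T
        rw [← Finset.sum_filter]
        congr 1
        ext i
        simp
      rw [e1 (B s), e1 (A s), Finset.sum_congr rfl fun t _ => e1 (B t), Finset.sum_comm,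
        ← Finset.sum_add_distrib]
      refine Finset.sum_le_sum fun i _ => ?_
      have h0 := hμ0 s hs i
      have hnn : 0 ≤ ∑ t ∈ Finset.Ioo (s : ℕ) J, (if i ∈ B t then μ s i else 0) :=
        Finset.sum_nonneg fun t _ => by split_ifs <;> [exact h0; exact le_rfl]
      by_cases hi : i ∈ B s
      · rw [if_pos hi]
        by_cases hiA : i ∈ A s
        · rw [if_pos hiA]
          linarith
        · rw [if_neg hiA, zero_add]
          have h2 : i ∈ (Finset.Ioo (s : ℕ) J).biUnion B := by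
            by_contra h3
            exact hiA (Finset.mem_sdiff.2 ⟨hi, h3⟩)
          obtain ⟨t, ht, hit⟩ := Finset.mem_biUnion.1 h2
          have h4 := Finset.single_le_sum (f := fun t => if i ∈ B t then μ s i else 0)
            (fun t _ => by
              show 0 ≤ if i ∈ B t then μ s i else 0
              split_ifs <;> [exact h0; exact le_rfl]) ht
          simp only [if_pos hit] at h4
          exact h4
      · rw [if_neg hi]
        have : 0 ≤ if i ∈ A s then μ s i else 0 := by split_ifs <;> [exact h0; exact le_rfl]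
        linarith
    have h2 : K₀ * ∑ t ∈ Finset.Ioo (s : ℕ) J, ∑ i ∈ B t, μ s i ≤ J * C' := by
      rw [Finset.mul_sum]
      have h3 : ∑ t ∈ Finset.Ioo (s : ℕ) J, K₀ * ∑ i ∈ B t, μ s i ≤
          ∑ t ∈ Finset.Ioo (s : ℕ) J, C' := by
        refine Finset.sum_le_sum fun t ht => ?_
        obtain ⟨h4, h5⟩ := Finset.mem_Ioo.1 ht
        exact hBt t h5 s h4
      refine h3.trans ?_
      rw [Finset.sum_const, nsmul_eq_mul, Nat.card_Ioo]
      refine mul_le_mul_of_nonneg_right ?_ hC'0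
      exact_mod_cast (by omega : J - (s : ℕ) - 1 ≤ J)
    have h3 := hBs s hs
    have h4 : ∑ t ∈ Finset.Ioo (s : ℕ) J, ∑ i ∈ B t, μ s i ≤ ε / 2 := by
      by_contra hcon
      push Not at hcon
      have h5 : K₀ * (ε / 2) < K₀ * ∑ t ∈ Finset.Ioo (s : ℕ) J, ∑ i ∈ B t, μ s i :=
        mul_lt_mul_of_pos_left hcon (by linarith)
      linarith
    show ε / 2 ≤ ∑ i ∈ A s, μ s i
    linarith

end Pool.RX
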