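import Pool.Agent.Work.MP_3e8c7a_r.Interface

/-!
# MP_3e8c7a_an, THEOREM RX, block XA
-/

set_option autoImplicit false

namespace Pool.RX

open Module Pool.Agent.MP3e8c7a

theorem XA_emb_injective {k N : ℕ} (f : Fin k ↪ Fin N) : Function.Injective (emb f) := by
  intro x y h
  funext l
  have h1 := congrFun h (f l)
  rwa [emb_apply, emb_apply] at h1

theorem p_XA : Stmt_XA := by
  intro t hGRD hCPL hSTA hNOR b θ hb hθ hθ1
  obtain ⟨C₀, hC₀, hSTA'⟩ := hSTA θ hθ hθ1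
  obtain ⟨M, hM⟩ := hNOR (9 * b ^ 2 * C₀)
  obtain ⟨M', hM'⟩ := hSTA' M
  obtain ⟨A₁, hA₁, hG1⟩ := hGRD M
  obtain ⟨A₂, hA₂, hG2⟩ := hGRD M'
  obtain ⟨B, n₀, hB, hS⟩ := hM' A₂ hA₂
  obtain ⟨D₀, hD₀, hC⟩ := hCPL M A₁ C₀ hA₁ hC₀
  refine ⟨max 1 (D₀ * (B * B)), M + M', max n₀ (M + M' + 1), le_max_left _ _, ?_⟩
  intro N k r hN hk1 hk2 hr hyp
  have hNn : n₀ ≤ N := le_trans (le_max_left _ _) hN
  have hNM : M + M' + 1 ≤ N := le_trans (le_max_right _ _) hN
  have hfin : finrank ℝ (Fin N → ℝ) = N := by rw [finrank_fin_fun]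
  obtain ⟨ρ, W, a, F₁, hρ, htop, hF₁, hF₁'⟩ :=
    hG1 (Fin N → ℝ) (XN t N) r (XN_def t N) hr (by rw [hfin]; omega)
  obtain ⟨ρ', W', a', F₂, hρ', htop', hF₂, hF₂'⟩ :=
    hG2 (Fin N → ℝ) r (XN t N) hr (XN_def t N) (by rw [hfin]; omega)
  rw [hfin] at hF₁ hF₂
  rcases le_or_gt (ρ * ρ') (max 1 (D₀ * (B * B))) with hle | hgt
  · refine ⟨ρ, F₁ ⊓ F₂, hρ, ?_, ?_⟩
    · have h1 := Submodule.finrank_sup_add_finrank_inf_eq F₁ F₂
      have h2 : finrank ℝ ↥(F₁ ⊔ F₂) ≤ N := (Submodule.finrank_le (F₁ ⊔ F₂)).trans hfin.le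
      omega
    · intro x hx
      have h1 := hF₁' x hx.1
      have h2 := hF₂' x hx.2
      have h3 : (1 : ℝ) ≤ max 1 (D₀ * (B * B)) := le_max_left _ _
      have h4 : 0 ≤ r x := apply_nonneg r x
      have h5 : 0 ≤ XN t N x := apply_nonneg _ x
      constructor
      · have h6 : ρ * r x ≤ max 1 (D₀ * (B * B)) * (ρ * r x) :=
          le_mul_of_one_le_left (mul_nonneg hρ.le h4) h3
        exact h1.trans h6
      · calc ρ * r x ≤ ρ * (ρ' * XN t N x) := mul_le_mul_of_nonneg_left h2 hρ.le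
          _ = (ρ * ρ') * XN t N x := by ring
          _ ≤ _ := mul_le_mul_of_nonneg_right hle h5
  · exfalso
    have hDp : Def ((XN t N).comp W) := by
      intro ω hω
      have h1 : W ω = 0 := XN_def t N (W ω) hω
      have h2 := htop.aW ω
      rw [h1, map_zero] at h2
      exact h2.symm
    have hWinj : Function.Injective W := by
      intro x y h
      have h1 := htop.aW x
      rw [h, htop.aW y] at h1
      exact h1.symm
    obtain ⟨S, hnot⟩ := hM ((XN t N).comp W) hDp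
    apply hnot
    have hSM : finrank ℝ S ≤ M := by
      have h1 := Submodule.finrank_le S
      rwa [finrank_fin_fun] at h1
    obtain ⟨f, τ, ξ, h1, h2, h3, h4⟩ := hS N k S (W.comp S.subtype) r ρ' W' a' (finrank ℝ S) hNn
      hk1 hk2 (hWinj.comp Subtype.val_injective) rfl hSM hρ' htop'
    have hDρ : D₀ * (B / ρ' * B) ≤ ρ := by
      have h5 : D₀ * (B * B) ≤ ρ * ρ' := (le_max_right _ _).trans hgt.le
      have h6 : D₀ * (B / ρ' * B) = D₀ * (B * B) / ρ' := by ring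
      rw [h6, div_le_iff₀ hρ']
      exact h5
    obtain ⟨j, q, hj1, hj2, hj3⟩ := hC (Fin N → ℝ) (XN t N) r b k (finrank ℝ S) ρ (B / ρ') B W a S
      (emb f) τ ξ hb (XN_def t N) hr hyp htop rfl (XA_emb_injective f) (div_pos hB hρ') hB hDρ h1 h2
      (fun y => by rw [emb_XN]; exact h3 y) (fun ω hω x _ => h4 ⟨ω, hω⟩ x)
    refine ⟨k, j, q, hj1, fun ω => ?_, fun x => ?_⟩
    · have h5 := hj2 ω
      rw [emb_XN] at h5
      exact h5
    · have h5 := hj3 x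
      rw [emb_XN] at h5
      exact h5

end Pool.RX
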