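import Pool.Agent.Work.MP_3e8c7a_r.Sec
import Pool.Agent.Work.MP_3e8c7a_r.B_BAS
import Pool.Agent.Work.MP_3e8c7a_r.B_GRD
import Pool.Agent.Work.MP_3e8c7a_r.B_DUL
import Pool.Agent.Work.MP_3e8c7a_r.B_NET
import Pool.Agent.Work.MP_3e8c7a_r.B_NRM
import Pool.Agent.Work.MP_3e8c7a_r.B_NRF
import Pool.Agent.Work.MP_3e8c7a_r.B_CPL
import Pool.Agent.Work.MP_3e8c7a_r.B_LIF
import Pool.Agent.Work.MP_3e8c7a_r.B_TOPP
import Pool.Agent.Work.MP_3e8c7a_r.B_CLL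
import Pool.Agent.Work.MP_3e8c7a_r.B_CEL
import Pool.Agent.Work.MP_3e8c7a_r.B_STAO
import Pool.Agent.Work.MP_3e8c7a_r.B_ABSO
import Pool.Agent.Work.MP_3e8c7a_r.B_UI
import Pool.Agent.Work.MP_3e8c7a_r.B_SEL
import Pool.Agent.Work.MP_3e8c7a_r.B_DIM
import Pool.Agent.Work.MP_3e8c7a_r.B_DUN
import Pool.Agent.Work.MP_3e8c7a_r.B_SYO
import Pool.Agent.Work.MP_3e8c7a_r.B_KHI
import Pool.Agent.Work.MP_3e8c7a_r.B_OBO
import Pool.Agent.Work.MP_3e8c7a_r.B_RAD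
import Pool.Agent.Work.MP_3e8c7a_r.B_NORO
import Pool.Agent.Work.MP_3e8c7a_r.B_XA

/-!
# MP_3e8c7a_an, THEOREM RX: one section near a cross-polytope, all blocks together
-/

set_option autoImplicit false

namespace Pool.RX

open Module Pool.Agent.MP3e8c7a Pool.Agent.MP3e8c7as

theorem q_GRD : Stmt_GRD := p_GRD p_BAS
theorem q_NET : Stmt_NET := p_NET p_BAS
theorem q_NRM : Stmt_NRM := p_NRM q_NET
theorem q_NRF : Stmt_NRF := p_NRF q_NET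
theorem q_LIF : Stmt_LIF := p_LIF p_BAS
theorem q_CLL : Stmt_CLL := p_CLL p_BAS p_TOPP
theorem q_CEL : Stmt_CEL := p_CEL q_CLL
theorem q_STAO : Stmt_STAO := p_STAO p_BAS q_NRM q_CEL p_DUL
theorem q_ABSO : Stmt_ABSO := p_ABSO p_BAS p_DUL
theorem q_DUN : Stmt_DUN := p_DUN p_BAS
theorem q_SYO : Stmt_SYO := p_SYO p_UI p_SEL p_DIM q_DUN
theorem q_OBO : Stmt_OBO := p_OBO p_KHI
theorem q_RAD : Stmt_RAD := p_RAD p_KHI
theorem q_NORO : Stmt_NORO := p_NORO q_SYO q_OBO q_RAD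

theorem q_RSEC : Stmt_RSEC false :=
  rsec false q_GRD p_CPL q_LIF q_NRF q_STAO q_ABSO q_NORO p_XA

/-- **THEOREM RX.** -/
theorem crossSection_rigidity (α ε b M : ℝ) (hα : 0 < α) (hα1 : α < 1) (hε : 0 < ε)
    (hM : 1 ≤ M) : ∃ C : ℝ, 1 ≤ C ∧
    ∀ n : ℕ, 0 < n → ∀ K L : Set (Fin n → ℝ), IsBody K → IsBody L →
      SectionsClose ⌈α * n⌉₊ b K L → ∀ N : ℕ, (α + ε) * n ≤ N →
      (HasCrossSection M N K ∨ HasCrossSection M N L) →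
      GeomClose C K L ∧ dBM K L ≤ ENNReal.ofReal C :=
  cross_main p_BAS q_RSEC α ε b M hα hα1 hε hM

end Pool.RX
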