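import Pool.Agent.Work.MP_3e8c7a_r.Interface

/-!
# MP_3e8c7a_an, THEOREM RX, block ABSI (helper25)
-/

set_option autoImplicit false

namespace Pool.RX

open Module Pool.Agent.MP3e8c7a

/-- the functional `x ↦ ∑ φ i x i` -/
def ABSI_dot {N : ℕ} (φ : Fin N → ℝ) : (Fin N → ℝ) →ₗ[ℝ] ℝ where
  toFun x := ∑ i, φ i * x i
  map_add' x y := by
    rw [← Finset.sum_add_distrib]
    exact Finset.sum_congr rfl fun i _ => by rw [Pi.add_apply, mul_add]
  map_smul' a x := by
    rw [RingHom.id_apply, smul_eq_mul, Finset.mul_sum]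
    exact Finset.sum_congr rfl fun i _ => by rw [Pi.smul_apply, smul_eq_mul]; ring

theorem ABSI_dot_apply {N : ℕ} (φ x : Fin N → ℝ) : ABSI_dot φ x = ∑ i, φ i * x i := rfl

/-- the annihilator -/
theorem ABSI_ann (N : ℕ) (Φ : Submodule ℝ (Fin N → ℝ)) : ∃ F : Submodule ℝ (Fin N → ℝ),
    finrank ℝ Φ + finrank ℝ F = N ∧ ∀ x, (∀ φ ∈ F, ∑ i, φ i * x i = 0) → x ∈ Φ := by
  refine ⟨Φ.dualAnnihilator.map ((dotProductEquiv ℝ (Fin N)).symm :
    Module.Dual ℝ (Fin N → ℝ) →ₗ[ℝ] (Fin N → ℝ)), ?_, ?_⟩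
  · rw [LinearEquiv.finrank_map_eq, Subspace.finrank_add_finrank_dualAnnihilator_eq,
      Module.finrank_fin_fun]
  · intro x hx
    apply (Subspace.forall_mem_dualAnnihilator_apply_eq_zero_iff Φ x).mp
    intro ψ hψ
    have h1 := hx ((dotProductEquiv ℝ (Fin N)).symm ψ) (Submodule.mem_map_of_mem hψ)
    have h2 : ψ x = dotProductEquiv ℝ (Fin N) ((dotProductEquiv ℝ (Fin N)).symm ψ) x := by
      rw [LinearEquiv.apply_symm_apply]
    rw [h2]
    exact h1

section cells

variable {N ν : ℕ} (u : Fin N → ℝ) (c : Fin N → Fin ν) (A : Finset (Fin N))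

/-- the mass of the chosen part of a cell -/
def ABSI_uA (κ : Fin ν) : ℝ := ∑ i ∈ A with c i = κ, u i

theorem ABSI_uA_nonneg (hu : ∀ i, 0 ≤ u i) (κ : Fin ν) : 0 ≤ ABSI_uA u c A κ :=
  Finset.sum_nonneg fun i _ => hu i

theorem ABSI_uA_le (hu : ∀ i, 0 ≤ u i) (κ : Fin ν) :
    ABSI_uA u c A κ ≤ ∑ i with c i = κ, u i := by
  apply Finset.sum_le_sum_of_subset_of_nonneg
  · exact Finset.filter_subset_filter _ (Finset.subset_univ _)
  · intro i _ _
    exact hu i

theorem ABSI_low (hu : ∀ i, 0 ≤ u i) (mm θ' δ X K : ℝ) (hsum : ∑ i, u i ≤ mm) (hθ : 0 ≤ θ')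
    (hδ : 0 ≤ δ) (h4 : ∀ κ, θ' * ∑ i with c i = κ, u i ≤ ABSI_uA u c A κ) (φ : Fin N → ℝ)
    (hX : X = ∑ i, |φ i|) (h5 : ∀ i, |φ i| ≤ K * u i)
    (h6 : ∀ i j, c i = c j → |φ i * u j - φ j * u i| ≤ δ * X * (u i * u j)) :
    (θ' - δ * mm) * X ≤ ∑ i ∈ A, |φ i| := by
  have hX0 : 0 ≤ X := by
    rw [hX]
    exact Finset.sum_nonneg fun i _ => abs_nonneg _
  have key : ∀ κ, θ' * (∑ i with c i = κ, |φ i|) - δ * X * (∑ i with c i = κ, u i)
      ≤ ∑ i ∈ A with c i = κ, |φ i| := by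
    intro κ
    have hPA : 0 ≤ ∑ i ∈ A with c i = κ, |φ i| := Finset.sum_nonneg fun i _ => abs_nonneg _
    have hP : 0 ≤ ∑ i with c i = κ, |φ i| := Finset.sum_nonneg fun i _ => abs_nonneg _
    have huk : 0 ≤ ∑ i with c i = κ, u i := Finset.sum_nonneg fun i _ => hu i
    have huA := ABSI_uA_nonneg u c A hu κ
    have huAle := ABSI_uA_le u c A hu κ
    have hdb : (∑ i with c i = κ, |φ i|) * ABSI_uA u c A κ
        - δ * X * ((∑ i with c i = κ, u i) * ABSI_uA u c A κ)
        ≤ (∑ i with c i = κ, u i) * ∑ i ∈ A with c i = κ, |φ i| := by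
      unfold ABSI_uA
      rw [Finset.sum_mul_sum, Finset.sum_mul_sum, Finset.sum_mul_sum, Finset.mul_sum,
        ← Finset.sum_sub_distrib]
      apply Finset.sum_le_sum
      intro i hi
      rw [Finset.mul_sum, ← Finset.sum_sub_distrib]
      apply Finset.sum_le_sum
      intro j hj
      have e1 : c i = κ := (Finset.mem_filter.mp hi).2
      have e2 : c j = κ := (Finset.mem_filter.mp hj).2
      have h := h6 i j (e1.trans e2.symm)
      have h7 : |φ i| * u j - |φ j| * u i ≤ |φ i * u j - φ j * u i| := by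
        have := abs_sub_abs_le_abs_sub (φ i * u j) (φ j * u i)
        rw [abs_mul, abs_mul, abs_of_nonneg (hu j), abs_of_nonneg (hu i)] at this
        exact this
      linarith
    rcases huk.lt_or_eq with hpos | hzero
    · have h8 : (∑ i with c i = κ, u i) * (θ' * (∑ i with c i = κ, |φ i|)
          - δ * X * (∑ i with c i = κ, u i)) ≤
          (∑ i with c i = κ, u i) * ∑ i ∈ A with c i = κ, |φ i| := by
        have h9 : (∑ i with c i = κ, |φ i|) * (θ' * ∑ i with c i = κ, u i)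
            ≤ (∑ i with c i = κ, |φ i|) * ABSI_uA u c A κ :=
          mul_le_mul_of_nonneg_left (h4 κ) hP
        have h10 : δ * X * ((∑ i with c i = κ, u i) * ABSI_uA u c A κ)
            ≤ δ * X * ((∑ i with c i = κ, u i) * ∑ i with c i = κ, u i) :=
          mul_le_mul_of_nonneg_left (mul_le_mul_of_nonneg_left huAle huk) (mul_nonneg hδ hX0)
        nlinarith
      exact le_of_mul_le_mul_left h8 hpos
    · have h8 : ∑ i with c i = κ, |φ i| = 0 := by
        apply Finset.sum_eq_zero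
        intro i hi
        have h9 := (Finset.sum_eq_zero_iff_of_nonneg (fun i _ => hu i)).mp hzero.symm i hi
        have h10 := h5 i
        rw [h9, mul_zero] at h10
        exact le_antisymm h10 (abs_nonneg _)
      rw [h8, ← hzero]
      simpa using hPA
  have hs := Finset.sum_le_sum (fun κ (_ : κ ∈ (Finset.univ : Finset (Fin ν))) => key κ)
  rw [Finset.sum_sub_distrib, ← Finset.mul_sum, ← Finset.mul_sum, Finset.sum_fiberwise,
    Finset.sum_fiberwise, Finset.sum_fiberwise, ← hX] at hs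
  have h11 : δ * X * ∑ i, u i ≤ δ * X * mm := mul_le_mul_of_nonneg_left hsum (mul_nonneg hδ hX0)
  linarith

variable {k : ℕ} (f : Fin k ↪ Fin N)

/-- the vectors of the first approximation -/
noncomputable def ABSI_G (l : Fin k) (i : Fin N) : ℝ :=
  (if i = f l then 1 else 0) +
    (if i ∈ A ∧ c i = c (f l) then -(u (f l) * (ABSI_uA u c A (c (f l)))⁻¹) else 0)

/-- the first approximation -/
noncomputable def ABSI_T : (Fin k → ℝ) →ₗ[ℝ] (Fin N → ℝ) where
  toFun x := fun i => ∑ l, ABSI_G u c A f l i * x l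
  map_add' x y := by
    funext i
    rw [Pi.add_apply, ← Finset.sum_add_distrib]
    exact Finset.sum_congr rfl fun l _ => by rw [Pi.add_apply, mul_add]
  map_smul' a x := by
    funext i
    rw [RingHom.id_apply, Pi.smul_apply, smul_eq_mul, Finset.mul_sum]
    exact Finset.sum_congr rfl fun l _ => by rw [Pi.smul_apply, smul_eq_mul]; ring

theorem ABSI_T_apply (x : Fin k → ℝ) (i : Fin N) :
    ABSI_T u c A f x i = ∑ l, ABSI_G u c A f l i * x l := rfl

theorem ABSI_T_range (hf : ∀ l, f l ∉ A) (x : Fin k → ℝ) (l : Fin k) :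
    ABSI_T u c A f x (f l) = x l := by
  rw [ABSI_T_apply, Finset.sum_eq_single l]
  · unfold ABSI_G
    rw [if_pos rfl, if_neg fun h => hf l h.1, add_zero, one_mul]
  · intro j _ hj
    unfold ABSI_G
    rw [if_neg fun h => hj (f.injective h).symm, if_neg fun h => hf l h.1, add_zero, zero_mul]
  · intro h
    exact absurd (Finset.mem_univ l) h

theorem ABSI_sub (hu : ∀ i, 0 ≤ u i) (κ : Fin ν) :
    ∑ l with c (f l) = κ, u (f l) ≤ ∑ i with c i = κ, u i := by
  have h1 : ∑ l with c (f l) = κ, u (f l)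
      = ∑ i ∈ (Finset.univ.filter fun l => c (f l) = κ).map f, u i := by
    rw [Finset.sum_map]
  rw [h1]
  apply Finset.sum_le_sum_of_subset_of_nonneg
  · intro i hi
    obtain ⟨l, hl, rfl⟩ := Finset.mem_map.mp hi
    exact Finset.mem_filter.mpr ⟨Finset.mem_univ _, (Finset.mem_filter.mp hl).2⟩
  · intro i _ _
    exact hu i

theorem ABSI_subu (hu : ∀ i, 0 ≤ u i) : ∑ l, u (f l) ≤ ∑ i, u i := by
  have h1 : ∑ l, u (f l) = ∑ i ∈ Finset.univ.map f, u i := by
    rw [Finset.sum_map]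
  rw [h1]
  apply Finset.sum_le_sum_of_subset_of_nonneg (Finset.subset_univ _)
  intro i _ _
  exact hu i

theorem ABSI_T_le (hu : ∀ i, 0 ≤ u i) (θ' : ℝ) (hθ : 0 < θ')
    (h4 : ∀ κ, θ' * ∑ i with c i = κ, u i ≤ ABSI_uA u c A κ) (x : Fin k → ℝ) :
    ‖ABSI_T u c A f x‖ ≤ (1 + 1 / θ') * ‖x‖ := by
  rw [pi_norm_le_iff_of_nonneg (by positivity)]
  intro i
  rw [ABSI_T_apply, Real.norm_eq_abs]
  have h1 : |∑ l, ABSI_G u c A f l i * x l| ≤ (∑ l, |ABSI_G u c A f l i|) * ‖x‖ := by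
    rw [Finset.sum_mul]
    refine (Finset.abs_sum_le_sum_abs _ _).trans (Finset.sum_le_sum fun l _ => ?_)
    rw [abs_mul]
    exact mul_le_mul_of_nonneg_left (norm_le_pi_norm x l) (abs_nonneg _)
  refine h1.trans (mul_le_mul_of_nonneg_right ?_ (norm_nonneg x))
  have h2 : ∀ l, |ABSI_G u c A f l i| ≤ (if i = f l then 1 else 0) +
      (if c (f l) = c i then u (f l) * (ABSI_uA u c A (c i))⁻¹ else 0) := by
    intro l
    unfold ABSI_G
    have hA := ABSI_uA_nonneg u c A hu (c i)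
    have hnn : 0 ≤ u (f l) * (ABSI_uA u c A (c i))⁻¹ := mul_nonneg (hu _) (inv_nonneg.mpr hA)
    have h3 : |(if i = f l then (1 : ℝ) else 0)| = if i = f l then 1 else 0 := by
      split_ifs
      · exact abs_one
      · exact abs_zero
    have h4 : |(if i ∈ A ∧ c i = c (f l) then -(u (f l) * (ABSI_uA u c A (c (f l)))⁻¹) else 0)|
        ≤ if c (f l) = c i then u (f l) * (ABSI_uA u c A (c i))⁻¹ else 0 := by
      by_cases hc : c (f l) = c i
      · rw [if_pos hc, hc]
        split_ifs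
        · rw [abs_neg, abs_of_nonneg hnn]
        · rw [abs_zero]
          exact hnn
      · rw [if_neg hc, if_neg fun h => hc h.2.symm, abs_zero]
    exact (abs_add_le _ _).trans (by rw [h3]; linarith)
  refine (Finset.sum_le_sum fun l _ => h2 l).trans ?_
  rw [Finset.sum_add_distrib]
  have h5 : ∑ l, (if i = f l then (1 : ℝ) else 0) ≤ 1 := by
    by_cases hex : ∃ l, i = f l
    · obtain ⟨l, rfl⟩ := hex
      rw [Finset.sum_eq_single l]
      · rw [if_pos rfl]
      · intro j _ hj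
        exact if_neg fun h => hj (f.injective h).symm
      · intro h
        exact absurd (Finset.mem_univ l) h
    · rw [Finset.sum_eq_zero fun l _ => if_neg fun h => hex ⟨l, h⟩]
      exact zero_le_one
  have h6 : ∑ l, (if c (f l) = c i then u (f l) * (ABSI_uA u c A (c i))⁻¹ else 0) ≤ 1 / θ' := by
    rw [← Finset.sum_filter, ← Finset.sum_mul]
    have hA := ABSI_uA_nonneg u c A hu (c i)
    have h7 := ABSI_sub u c f hu (c i)
    have h8 := h4 (c i)
    rcases hA.lt_or_eq with hpos | hzero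
    · rw [← div_eq_mul_inv, div_le_div_iff₀ hpos hθ, one_mul]
      have h9 : (∑ l with c (f l) = c i, u (f l)) * θ' ≤ (∑ j with c j = c i, u j) * θ' :=
        mul_le_mul_of_nonneg_right h7 hθ.le
      linarith
    · rw [← hzero, inv_zero, mul_zero]
      positivity
  linarith

theorem ABSI_T_dot (hu : ∀ i, 0 ≤ u i) (mm θ' δ X K : ℝ) (hsum : ∑ i, u i ≤ mm) (hθ : 0 < θ')
    (hδ : 0 ≤ δ) (hX0 : 0 ≤ X) (h4 : ∀ κ, θ' * ∑ i with c i = κ, u i ≤ ABSI_uA u c A κ)
    (φ : Fin N → ℝ) (h5 : ∀ i, |φ i| ≤ K * u i)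
    (h6 : ∀ i j, c i = c j → |φ i * u j - φ j * u i| ≤ δ * X * (u i * u j)) (x : Fin k → ℝ) :
    |∑ i, φ i * ABSI_T u c A f x i| ≤ δ * X * mm * ‖x‖ := by
  have hG : ∀ l, |∑ i, φ i * ABSI_G u c A f l i| ≤ δ * X * u (f l) := by
    intro l
    have h7 : ∑ i, φ i * ABSI_G u c A f l i = φ (f l) -
        (∑ i ∈ A with c i = c (f l), φ i) * (u (f l) * (ABSI_uA u c A (c (f l)))⁻¹) := by
      have e1 : ∑ i, φ i * ABSI_G u c A f l i = ∑ i, (if i = f l then φ i else 0) +
          ∑ i, (if i ∈ A ∧ c i = c (f l) then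
            -(φ i * (u (f l) * (ABSI_uA u c A (c (f l)))⁻¹)) else 0) := by
        rw [← Finset.sum_add_distrib]
        apply Finset.sum_congr rfl
        intro i _
        unfold ABSI_G
        split_ifs <;> ring
      rw [e1, Finset.sum_ite_eq' Finset.univ (f l) φ, if_pos (Finset.mem_univ _),
        ← Finset.sum_filter, Finset.sum_neg_distrib, ← Finset.sum_mul, sub_eq_add_neg]
      have e2 : (Finset.univ.filter fun i => i ∈ A ∧ c i = c (f l))
          = A.filter fun i => c i = c (f l) := by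
        ext i
        simp
      rw [e2]
    rw [h7]
    have hA := ABSI_uA_nonneg u c A hu (c (f l))
    rcases hA.lt_or_eq with hpos | hzero
    · have e3 : φ (f l) - (∑ i ∈ A with c i = c (f l), φ i) *
          (u (f l) * (ABSI_uA u c A (c (f l)))⁻¹)
          = (∑ i ∈ A with c i = c (f l), (φ (f l) * u i - φ i * u (f l))) *
            (ABSI_uA u c A (c (f l)))⁻¹ := by
        rw [Finset.sum_sub_distrib, ← Finset.mul_sum, ← Finset.sum_mul]
        have e4 : (∑ i ∈ A with c i = c (f l), u i) = ABSI_uA u c A (c (f l)) := rfl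
        rw [e4]
        field_simp
      rw [e3, abs_mul, abs_of_nonneg (inv_nonneg.mpr hA)]
      have e5 : |∑ i ∈ A with c i = c (f l), (φ (f l) * u i - φ i * u (f l))|
          ≤ δ * X * u (f l) * ABSI_uA u c A (c (f l)) := by
        unfold ABSI_uA
        rw [Finset.mul_sum]
        refine (Finset.abs_sum_le_sum_abs _ _).trans (Finset.sum_le_sum fun i hi => ?_)
        have := h6 (f l) i (Finset.mem_filter.mp hi).2.symm
        linarith
      calc |∑ i ∈ A with c i = c (f l), (φ (f l) * u i - φ i * u (f l))| *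
            (ABSI_uA u c A (c (f l)))⁻¹
          ≤ (δ * X * u (f l) * ABSI_uA u c A (c (f l))) * (ABSI_uA u c A (c (f l)))⁻¹ :=
            mul_le_mul_of_nonneg_right e5 (inv_nonneg.mpr hA)
        _ = δ * X * u (f l) := by
            rw [mul_assoc, mul_inv_cancel₀ hpos.ne', mul_one]
    · have h8 := h4 (c (f l))
      rw [← hzero] at h8
      have h9 : ∑ i with c i = c (f l), u i = 0 := by
        have := Finset.sum_nonneg (s := Finset.univ.filter fun i => c i = c (f l))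
          fun i _ => hu i
        have h10 : ∑ i with c i = c (f l), u i ≤ 0 := by
          by_contra hcon
          push Not at hcon
          have := mul_pos hθ hcon
          linarith
        exact le_antisymm h10 this
      have h11 : u (f l) = 0 := (Finset.sum_eq_zero_iff_of_nonneg (fun i _ => hu i)).mp h9 (f l)
        (Finset.mem_filter.mpr ⟨Finset.mem_univ _, rfl⟩)
      have h12 := h5 (f l)
      rw [h11, mul_zero] at h12
      have h13 : φ (f l) = 0 := abs_eq_zero.mp (le_antisymm h12 (abs_nonneg _))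
      rw [h11, h13]
      simp
  have h1 : ∑ i, φ i * ABSI_T u c A f x i = ∑ l, (∑ i, φ i * ABSI_G u c A f l i) * x l := by
    have e1 : ∀ i, φ i * ABSI_T u c A f x i = ∑ l, φ i * ABSI_G u c A f l i * x l := by
      intro i
      rw [ABSI_T_apply, Finset.mul_sum]
      exact Finset.sum_congr rfl fun l _ => by ring
    rw [Finset.sum_congr rfl fun i _ => e1 i, Finset.sum_comm]
    exact Finset.sum_congr rfl fun l _ => by rw [Finset.sum_mul]
  rw [h1]
  have h2 : ∑ l, |(∑ i, φ i * ABSI_G u c A f l i) * x l| ≤ ∑ l, δ * X * u (f l) * ‖x‖ := by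
    apply Finset.sum_le_sum
    intro l _
    rw [abs_mul]
    have h3 : |x l| ≤ ‖x‖ := norm_le_pi_norm x l
    exact mul_le_mul (hG l) h3 (abs_nonneg _) (mul_nonneg (mul_nonneg hδ hX0) (hu _))
  refine (Finset.abs_sum_le_sum_abs _ _).trans (h2.trans ?_)
  rw [← Finset.sum_mul, ← Finset.mul_sum]
  apply mul_le_mul_of_nonneg_right _ (norm_nonneg x)
  apply mul_le_mul_of_nonneg_left _ (mul_nonneg hδ hX0)
  exact (ABSI_subu u f hu).trans hsum

end cells

theorem p_ABSI (hBAS : Stmt_BAS) (hCLL : Stmt_CLL) (hDUL : Stmt_DUL) : Stmt_ABSI := by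
  intro θ hθ0 hθ1
  refine ⟨4 / θ, by rw [le_div_iff₀ hθ0]; linarith, ?_⟩
  intro c
  have hc0 : (0 : ℝ) ≤ c := Nat.cast_nonneg c
  have h2c : (0 : ℝ) < 2 ^ c := by positivity
  set δ : ℝ := θ / (8 * (c + 1) ^ 2 * 2 ^ c) with hδdef
  have hδ : 0 < δ := by positivity
  have hδ1 : δ * c ≤ θ / 4 := by
    rw [hδdef, div_mul_eq_mul_div, div_le_div_iff₀ (by positivity) (by norm_num)]
    have h1 : (1 : ℝ) ≤ 2 ^ c := one_le_pow₀ (by norm_num)
    have h2 : (c : ℝ) * 4 ≤ 8 * (c + 1) ^ 2 * 2 ^ c := by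
      have h3 : (c : ℝ) * 4 ≤ 8 * (c + 1) ^ 2 * 1 := by nlinarith
      have h4 : 8 * ((c : ℝ) + 1) ^ 2 * 1 ≤ 8 * (c + 1) ^ 2 * 2 ^ c :=
        mul_le_mul_of_nonneg_left h1 (by positivity)
      linarith
    nlinarith
  obtain ⟨ν, hν⟩ := hCLL c (θ / 2) δ (by linarith) (by linarith) hδ
  refine ⟨Nat.ceil (2 * ν / θ), ?_⟩
  intro N k Φ hN hk hΦ
  obtain ⟨F, hF1, hF2⟩ := ABSI_ann N Φ
  have hFc : finrank ℝ F ≤ c := by omega
  obtain ⟨u, cc, A, hu, husum, hAcard, h4, h5, h6⟩ := hν N F hFc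
  have hNθ : 2 * ν / θ ≤ (N : ℝ) := (Nat.le_ceil _).trans (by exact_mod_cast hN)
  rw [div_le_iff₀ hθ0] at hNθ
  have hkA : k + A.card ≤ N := by
    have : (k : ℝ) + A.card ≤ N := by linarith
    exact_mod_cast this
  obtain ⟨f, -, hf⟩ := exists_emb ∅ A (Finset.disjoint_empty_left A) (by simp) hkA
  -- the basis of the annihilator
  have hone : Def ((oneS N).comp F.subtype) := (XN_def false N).comp F.subtype F.injective_subtype
  obtain ⟨c', hc'⟩ : ∃ c' : ℕ, c' = finrank ℝ F := ⟨_, rfl⟩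
  obtain ⟨e₀, he1, he2⟩ := hBAS c' F ((oneS N).comp F.subtype) hone hc'.symm
  rw [← hc'] at hFc
  have hc'c : (c' : ℝ) ≤ c := by exact_mod_cast hFc
  let B : Fin c' → Fin N → ℝ := fun l => ((e₀.symm (Pi.single l 1) : F) : Fin N → ℝ)
  have hBF : ∀ l, B l ∈ F := fun l => (e₀.symm (Pi.single l 1)).2
  have hB1 : ∀ l, ∑ i, |B l i| ≤ 1 := by
    intro l
    have h := he2 (e₀.symm (Pi.single l 1))
    rw [LinearEquiv.apply_symm_apply] at h
    have h' : ∑ i, |(Pi.single l (1 : ℝ) : Fin c' → ℝ) i| = 1 := by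
      rw [Finset.sum_eq_single l]
      · rw [Pi.single_eq_same, abs_one]
      · intro j _ hj
        rw [Pi.single_eq_of_ne hj, abs_zero]
      · intro hh
        exact absurd (Finset.mem_univ l) hh
    rw [h'] at h
    exact h
  have hBs : ∀ t : Fin c' → ℝ, ∀ i, ((e₀.symm t : F) : Fin N → ℝ) i = ∑ l, t l * B l i := by
    intro t i
    have h1 : t = ∑ l, t l • (Pi.single l (1 : ℝ) : Fin c' → ℝ) := by
      funext j
      rw [Finset.sum_apply, Finset.sum_eq_single j]
      · simp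
      · intro l _ hl
        rw [Pi.smul_apply, Pi.single_eq_of_ne hl.symm, smul_zero]
      · intro hh
        exact absurd (Finset.mem_univ j) hh
    have h2 : e₀.symm t = ∑ l, t l • e₀.symm (Pi.single l (1 : ℝ) : Fin c' → ℝ) := by
      conv_lhs => rw [h1]
      rw [map_sum]
      exact Finset.sum_congr rfl fun l _ => by rw [map_smul]
    rw [h2, Submodule.coe_sum, Finset.sum_apply]
    rfl
  -- the properties of the cells
  have hprop5 : ∀ φ ∈ F, ∀ i, |φ i| ≤ (2 ^ c * ∑ l, |φ l|) * u i := fun φ hφ i => h5 φ hφ i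
  have hprop6 : ∀ φ ∈ F, ∀ i j, cc i = cc j →
      |φ i * u j - φ j * u i| ≤ δ * (∑ l, |φ l|) * (u i * u j) := fun φ hφ => h6 φ hφ
  have hlow : ∀ φ ∈ F, θ / 4 * ∑ i, |φ i| ≤ ∑ i ∈ A, |φ i| := by
    intro φ hφ
    have h := ABSI_low u cc A hu c (θ / 2) δ (∑ i, |φ i|) (2 ^ c * ∑ l, |φ l|) husum
      (by linarith) hδ.le h4 φ rfl (hprop5 φ hφ) (hprop6 φ hφ)
    have hX : 0 ≤ ∑ i, |φ i| := Finset.sum_nonneg fun i _ => abs_nonneg _
    have h7 : θ / 4 * ∑ i, |φ i| ≤ (θ / 2 - δ * c) * ∑ i, |φ i| :=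
      mul_le_mul_of_nonneg_right (by linarith) hX
    linarith
  -- Helly
  let g : Fin A.card ↪ Fin N := (A.orderEmbOfFin rfl).toEmbedding
  have hgA : ∀ j, g j ∈ A := fun j => A.orderEmbOfFin_mem rfl j
  have hgsum : ∀ h : Fin N → ℝ, ∑ i ∈ A, h i = ∑ j, h (g j) := by
    intro h
    conv_lhs => rw [← Finset.map_orderEmbOfFin_univ A rfl]
    rw [Finset.sum_map]
  let β : Fin c' → (Fin A.card → ℝ) →ₗ[ℝ] ℝ := fun l => ABSI_dot (B l) ∘ₗ emb g
  have hβ : ∀ l y, β l y = ∑ j, B l (g j) * y j := by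
    intro l y
    exact emb_sum g y (fun i t => B l i * t) fun i => mul_zero _
  have hcD : 0 < θ / 4 / 2 ^ c := by positivity
  obtain ⟨ξ, hξ1, hξ2⟩ := hDUL (Fin A.card → ℝ) (XN true A.card) c' β (θ / 4 / 2 ^ c)
    (XN_def true A.card) hcD (by
      intro t κ hκ hx
      have hφ : ∀ i, ((e₀.symm t : F) : Fin N → ℝ) i = ∑ l, t l * B l i := hBs t
      set φ : Fin N → ℝ := ((e₀.symm t : F) : Fin N → ℝ) with hφdef
      have hφF : φ ∈ F := (e₀.symm t).2
      have h1 := hx (fun j => if 0 ≤ φ (g j) then 1 else -1)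
      have h2 : ∑ l, t l * β l (fun j => if 0 ≤ φ (g j) then 1 else -1) = ∑ i ∈ A, |φ i| := by
        have e1 : ∀ l, t l * β l (fun j => if 0 ≤ φ (g j) then 1 else -1)
            = ∑ j, t l * B l (g j) * (if 0 ≤ φ (g j) then 1 else -1) := by
          intro l
          rw [hβ, Finset.mul_sum]
          exact Finset.sum_congr rfl fun j _ => by rw [mul_assoc]
        rw [Finset.sum_congr rfl fun l _ => e1 l, Finset.sum_comm, hgsum]
        apply Finset.sum_congr rfl
        intro j _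
        rw [← Finset.sum_mul, ← hφ]
        split_ifs with h0
        · rw [mul_one, abs_of_nonneg h0]
        · push Not at h0
          rw [mul_neg, mul_one, abs_of_neg h0]
      rw [h2] at h1
      have h3 : XN true A.card (fun j => if 0 ≤ φ (g j) then 1 else -1) ≤ 1 := by
        rw [XN_true, pi_norm_le_iff_of_nonneg zero_le_one]
        intro j
        split_ifs <;> simp
      have h4' := (le_abs_self _).trans (h1.trans (mul_le_mul_of_nonneg_left h3 hκ))
      rw [mul_one] at h4'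
      have h5' := hlow φ hφF
      have h6' := he1 (e₀.symm t)
      rw [LinearEquiv.apply_symm_apply] at h6'
      have h7 : ((oneS N).comp F.subtype) (e₀.symm t) = ∑ i, |φ i| := rfl
      rw [h7] at h6'
      have h8 : (2 : ℝ) ^ c' ≤ 2 ^ c := pow_le_pow_right₀ (by norm_num) hFc
      have hX : 0 ≤ ∑ i, |φ i| := Finset.sum_nonneg fun i _ => abs_nonneg _
      have h9 : ‖t‖ ≤ 2 ^ c * ∑ i, |φ i| := h6'.trans (mul_le_mul_of_nonneg_right h8 hX)
      rw [div_mul_eq_mul_div, div_le_iff₀ h2c]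
      nlinarith)
  let T := ABSI_T u cc A f
  let Z : (Fin N → ℝ) →ₗ[ℝ] (Fin c' → ℝ) := LinearMap.pi fun l => ABSI_dot (B l)
  have hZ : ∀ v l, Z v l = ∑ i, B l i * v i := fun v l => rfl
  have hZT : ∀ x, ‖Z (T x)‖ ≤ δ * c * ‖x‖ := by
    intro x
    rw [pi_norm_le_iff_of_nonneg (by positivity)]
    intro l
    rw [hZ, Real.norm_eq_abs]
    have h := ABSI_T_dot u cc A f hu c (θ / 2) δ (∑ i, |B l i|) (2 ^ c * ∑ i, |B l i|) husum
      (by linarith) hδ.le (Finset.sum_nonneg fun i _ => abs_nonneg _) h4 (B l)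
      (hprop5 _ (hBF l)) (hprop6 _ (hBF l)) x
    refine h.trans ?_
    apply mul_le_mul_of_nonneg_right _ (norm_nonneg x)
    apply mul_le_mul_of_nonneg_right _ hc0
    calc δ * ∑ i, |B l i| ≤ δ * 1 := mul_le_mul_of_nonneg_left (hB1 l) hδ.le
      _ = δ := mul_one δ
  refine ⟨T - emb g ∘ₗ ξ ∘ₗ Z ∘ₗ T, ?_, ?_⟩
  · intro x
    apply hF2
    intro φ hφ
    have h1 : φ = ((e₀.symm (e₀ ⟨φ, hφ⟩) : F) : Fin N → ℝ) := by
      rw [LinearEquiv.symm_apply_apply]
    have h2 : ∀ i, φ i = ∑ l, e₀ ⟨φ, hφ⟩ l * B l i := by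
      intro i
      conv_lhs => rw [h1]
      exact hBs _ i
    have h3 : ∀ l, ∑ i, B l i * (T - emb g ∘ₗ ξ ∘ₗ Z ∘ₗ T) x i = 0 := by
      intro l
      have e1 : ∑ i, B l i * (T - emb g ∘ₗ ξ ∘ₗ Z ∘ₗ T) x i
          = Z (T x) l - β l (ξ (Z (T x))) := by
        have e2 : β l (ξ (Z (T x))) = ∑ i, B l i * emb g (ξ (Z (T x))) i := rfl
        rw [e2, hZ, ← Finset.sum_sub_distrib]
        apply Finset.sum_congr rfl
        intro i _
        rw [← mul_sub]
        rfl
      rw [e1, hξ1, sub_self]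
    have h4'' : ∑ i, φ i * (T - emb g ∘ₗ ξ ∘ₗ Z ∘ₗ T) x i
        = ∑ l, e₀ ⟨φ, hφ⟩ l * ∑ i, B l i * (T - emb g ∘ₗ ξ ∘ₗ Z ∘ₗ T) x i := by
      have e1 : ∀ i, φ i * (T - emb g ∘ₗ ξ ∘ₗ Z ∘ₗ T) x i
          = ∑ l, e₀ ⟨φ, hφ⟩ l * (B l i * (T - emb g ∘ₗ ξ ∘ₗ Z ∘ₗ T) x i) := by
        intro i
        rw [h2 i, Finset.sum_mul]
        exact Finset.sum_congr rfl fun l _ => by rw [mul_assoc]
      rw [Finset.sum_congr rfl fun i _ => e1 i, Finset.sum_comm]
      exact Finset.sum_congr rfl fun l _ => by rw [Finset.mul_sum]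
    rw [h4'']
    exact Finset.sum_eq_zero fun l _ => by rw [h3 l, mul_zero]
  · intro x
    have hex : (T - emb g ∘ₗ ξ ∘ₗ Z ∘ₗ T) x = T x - emb g (ξ (Z (T x))) := rfl
    rw [hex, XN_true, XN_true]
    constructor
    · rw [pi_norm_le_iff_of_nonneg (norm_nonneg _)]
      intro l
      have h1 : (T x - emb g (ξ (Z (T x)))) (f l) = x l := by
        rw [Pi.sub_apply, ABSI_T_range u cc A f hf x l, emb_zero g _ (f l) (fun j hj => by
          apply hf l
          rw [← hj]
          exact hgA j), sub_zero]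
      rw [← h1]
      exact norm_le_pi_norm _ (f l)
    · have h1 : ‖T x‖ ≤ (1 + 1 / (θ / 2)) * ‖x‖ := ABSI_T_le u cc A f hu (θ / 2) (by linarith) h4 x
      have h2 : ‖emb g (ξ (Z (T x)))‖ ≤ ‖x‖ := by
        have e1 := emb_XN true g (ξ (Z (T x)))
        rw [XN_true, XN_true] at e1
        rw [e1]
        have e2 := hξ2 (Z (T x))
        rw [XN_true] at e2
        refine e2.trans ?_
        have e3 : 2 * (c' : ℝ) / (θ / 4 / 2 ^ c) * ‖Z (T x)‖
            ≤ 2 * (c' : ℝ) / (θ / 4 / 2 ^ c) * (δ * c * ‖x‖) :=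
          mul_le_mul_of_nonneg_left (hZT x) (by positivity)
        refine e3.trans ?_
        have e4 : 2 * (c' : ℝ) / (θ / 4 / 2 ^ c) * (δ * c) ≤ 1 := by
          rw [hδdef]
          have e5 : 2 * (c' : ℝ) / (θ / 4 / 2 ^ c) * (θ / (8 * (c + 1) ^ 2 * 2 ^ c) * c)
              = (c' * c) / (c + 1) ^ 2 := by
            field_simp
            ring
          rw [e5, div_le_one (by positivity)]
          nlinarith
        calc 2 * (c' : ℝ) / (θ / 4 / 2 ^ c) * (δ * c * ‖x‖)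
            = (2 * (c' : ℝ) / (θ / 4 / 2 ^ c) * (δ * c)) * ‖x‖ := by ring
          _ ≤ 1 * ‖x‖ := mul_le_mul_of_nonneg_right e4 (norm_nonneg x)
          _ = ‖x‖ := one_mul _
      have h3 := norm_sub_le (T x) (emb g (ξ (Z (T x))))
      have h4' : (1 + 1 / (θ / 2)) + 1 ≤ 4 / θ := by
        rw [one_div_div, le_div_iff₀ hθ0]
        have : 2 / θ * θ = 2 := by field_simp
        nlinarith
      have h5' := mul_le_mul_of_nonneg_right h4' (norm_nonneg x)
      linarith

end Pool.RX
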