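import Pool.Agent.Work.MP_3e8c7a_r.Interface

/-! # CLL: cells of equal profile -/

set_option autoImplicit false

namespace Pool.RX

open Module Pool.Agent.MP3e8c7a

/-- the union of the sets of TOPP over all cells -/
theorem CLL_top (hTOPP : Stmt_TOPP) {N ν : ℕ} (u : Fin N → ℝ) (hu : ∀ i, 0 ≤ u i)
    (c : Fin N → Fin ν) (θ : ℝ) (h0 : 0 < θ) (h1 : θ ≤ 1) :
    ∃ A : Finset (Fin N), (A.card : ℝ) ≤ θ * N + ν ∧
      ∀ κ, θ * ∑ i with c i = κ, u i ≤ ∑ i ∈ A with c i = κ, u i := by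
  choose A hA hA1 hA2 using fun κ : Fin ν =>
    hTOPP N (Finset.univ.filter fun i => c i = κ) u θ hu h0 h1
  refine ⟨Finset.univ.biUnion A, ?_, fun κ => ?_⟩
  · have h2 : ((Finset.univ.biUnion A).card : ℝ) ≤ ∑ κ, ((A κ).card : ℝ) := by
      exact_mod_cast Finset.card_biUnion_le
    have h3 : ∑ κ, ((A κ).card : ℝ) ≤
        ∑ κ : Fin ν, (θ * ((Finset.univ.filter fun i => c i = κ).card : ℝ) + 1) :=
      Finset.sum_le_sum fun κ _ => hA1 κ
    have h5 : ∑ κ : Fin ν, ((Finset.univ.filter fun i => c i = κ).card : ℝ) = N := by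
      have h6 := Finset.card_eq_sum_card_fiberwise (s := (Finset.univ : Finset (Fin N)))
        (t := Finset.univ) (f := c) (fun _ _ => Finset.mem_coe.2 (Finset.mem_univ _))
      rw [Finset.card_univ, Fintype.card_fin] at h6
      exact_mod_cast h6.symm
    have h4 : ∑ κ : Fin ν, (θ * ((Finset.univ.filter fun i => c i = κ).card : ℝ) + 1) =
        θ * N + ν := by
      rw [Finset.sum_add_distrib, ← Finset.mul_sum, h5]
      simp
    linarith
  · refine (hA2 κ).trans ?_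
    refine Finset.sum_le_sum_of_subset_of_nonneg (fun i hi => ?_) (fun i _ _ => hu i)
    rw [Finset.mem_filter]
    exact ⟨Finset.mem_biUnion.2 ⟨κ, Finset.mem_univ _, hi⟩, (Finset.mem_filter.1 (hA κ hi)).2⟩

theorem CLL_floor (G : ℕ) (a b : ℝ) (h : |a| ≤ b) :
    ⌊(G : ℝ) * (a / b)⌋ ∈ Finset.Icc (-(G : ℤ)) G := by
  have hb : 0 ≤ b := (abs_nonneg a).trans h
  have h1 : |a / b| ≤ 1 := by
    rw [abs_div, abs_of_nonneg hb]
    exact div_le_one_of_le₀ h hb
  obtain ⟨h2, h3⟩ := abs_le.1 h1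
  have hG : (0 : ℝ) ≤ G := Nat.cast_nonneg G
  rw [Finset.mem_Icc]
  constructor
  · rw [Int.le_floor]
    push_cast
    nlinarith
  · have h4 : (⌊(G : ℝ) * (a / b)⌋ : ℝ) ≤ G := (Int.floor_le _).trans (by nlinarith)
    exact_mod_cast h4

theorem CLL_pair (G : ℕ) (a b p q : ℝ) (hp : 0 < p) (hq : 0 < q)
    (h : ⌊(G : ℝ) * (a / p)⌋ = ⌊(G : ℝ) * (b / q)⌋) : G * |a * q - b * p| ≤ p * q := by
  have h1 := (Int.abs_sub_lt_one_of_floor_eq_floor h).le
  have h2 : (G : ℝ) * (a / p) - G * (b / q) = G * (a * q - b * p) / (p * q) := by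
    field_simp
  rw [h2, abs_div, abs_mul, abs_of_nonneg (Nat.cast_nonneg G : (0 : ℝ) ≤ G),
    abs_of_pos (mul_pos hp hq), div_le_one (mul_pos hp hq)] at h1
  exact h1

theorem p_CLL (hBAS : Stmt_BAS) (hTOPP : Stmt_TOPP) : Stmt_CLL := by
  intro m θ δ h0 h1 hδ
  obtain ⟨G, hG⟩ := exists_nat_ge ((m : ℝ) * 2 ^ m / δ + 1)
  have hd : 0 ≤ (m : ℝ) * 2 ^ m / δ := by positivity
  have hG1 : (0 : ℝ) < G := by linarith
  have hG2 : (m : ℝ) * 2 ^ m ≤ δ * G := by
    have h2 : (m : ℝ) * 2 ^ m / δ ≤ G := by linarith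
    rwa [div_le_iff₀ hδ, mul_comm (G : ℝ) δ] at h2
  refine ⟨(2 * G + 1) ^ m, fun N S hS => ?_⟩
  have hDef : Def ((oneS N).comp S.subtype) := by
    have h2 := XN_def false N
    exact h2.comp S.subtype S.subtype_injective
  obtain ⟨e, he1, he2⟩ := hBAS (finrank ℝ S) S ((oneS N).comp S.subtype) hDef rfl
  generalize finrank ℝ S = m' at hS e he1 he2
  have he1' : ∀ x : S, ‖e x‖ ≤ 2 ^ m' * ∑ i, |(x : Fin N → ℝ) i| := fun x => he1 x
  have he2' : ∀ x : S, ∑ i, |(x : Fin N → ℝ) i| ≤ ∑ i, |e x i| := fun x => he2 x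
  set v : Fin m' → Fin N → ℝ := fun l => (e.symm (Pi.single l 1) : S) with hv
  have hv1 : ∀ l, ∑ i, |v l i| ≤ 1 := by
    intro l
    refine (he2' (e.symm (Pi.single l 1))).trans (le_of_eq ?_)
    rw [LinearEquiv.apply_symm_apply, Finset.sum_eq_single l]
    · simp
    · intro j _ hj
      simp [hj]
    · intro h
      exact absurd (Finset.mem_univ l) h
  have hx : ∀ x : S, ∀ i, (x : Fin N → ℝ) i = ∑ l, e x l * v l i := by
    intro x i
    have h2 : x = ∑ l, e x l • e.symm (Pi.single l 1) := by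
      apply e.injective
      rw [map_sum]
      simp only [map_smul, LinearEquiv.apply_symm_apply]
      exact pi_eq_sum_univ' (e x)
    have h3 := congrArg (fun y : S => (y : Fin N → ℝ) i) h2
    simp only [Submodule.coe_sum, Submodule.coe_smul, Finset.sum_apply, Pi.smul_apply,
      smul_eq_mul] at h3
    exact h3
  set u : Fin N → ℝ := fun i => ∑ l, |v l i| with hu
  have hu0 : ∀ i, 0 ≤ u i := fun i => Finset.sum_nonneg fun l _ => abs_nonneg _
  have hvu : ∀ l i, |v l i| ≤ u i := fun l i =>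
    Finset.single_le_sum (f := fun l => |v l i|) (fun l _ => abs_nonneg _) (Finset.mem_univ l)
  have hcard : Fintype.card (Fin m' → ↥(Finset.Icc (-(G : ℤ)) G)) ≤
      Fintype.card (Fin ((2 * G + 1) ^ m)) := by
    rw [Fintype.card_fun, Fintype.card_fin, Fintype.card_fin, Fintype.card_coe, Int.card_Icc]
    have h2 : ((G : ℤ) + 1 - -(G : ℤ)).toNat = 2 * G + 1 := by omega
    rw [h2]
    exact Nat.pow_le_pow_right (by omega) hS
  obtain ⟨ι⟩ := Function.Embedding.nonempty_of_card_le hcard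
  set c : Fin N → Fin ((2 * G + 1) ^ m) := fun i =>
    ι fun l => ⟨⌊(G : ℝ) * (v l i / u i)⌋, CLL_floor G _ _ (hvu l i)⟩ with hc
  obtain ⟨A, hA1, hA2⟩ := CLL_top hTOPP u hu0 c θ h0 h1
  have h2m : (2 : ℝ) ^ m' ≤ 2 ^ m := pow_le_pow_right₀ (by norm_num) hS
  have hmm : (m' : ℝ) ≤ m := by exact_mod_cast hS
  refine ⟨u, c, A, hu0, ?_, hA1, hA2, ?_, ?_⟩
  · have h2 : ∑ i, u i = ∑ l, ∑ i, |v l i| := Finset.sum_comm
    rw [h2]
    refine (Finset.sum_le_sum fun l _ => hv1 l).trans ?_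
    simpa using hS
  · intro x hxS i
    have hX : 0 ≤ ∑ l, |x l| := Finset.sum_nonneg fun l _ => abs_nonneg _
    have h2 := he1' ⟨x, hxS⟩
    have h3 := hx ⟨x, hxS⟩ i
    simp only at h2 h3
    rw [h3]
    calc |∑ l, e ⟨x, hxS⟩ l * v l i| ≤ ∑ l, |e ⟨x, hxS⟩ l * v l i| :=
          Finset.abs_sum_le_sum_abs _ _
      _ ≤ ∑ l, (2 ^ m * ∑ l, |x l|) * |v l i| := by
          refine Finset.sum_le_sum fun l _ => ?_
          rw [abs_mul]
          refine mul_le_mul_of_nonneg_right ?_ (abs_nonneg _)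
          exact ((norm_le_pi_norm (e ⟨x, hxS⟩) l).trans h2).trans
            (mul_le_mul_of_nonneg_right h2m hX)
      _ = 2 ^ m * (∑ l, |x l|) * u i := by rw [← Finset.mul_sum]
  · intro x hxS i j hij
    have hX : 0 ≤ ∑ l, |x l| := Finset.sum_nonneg fun l _ => abs_nonneg _
    have h2 := he1' ⟨x, hxS⟩
    have h3 := hx ⟨x, hxS⟩
    simp only at h2 h3
    have hz : ∀ i, u i = 0 → x i = 0 := by
      intro i hi
      rw [h3 i]
      refine Finset.sum_eq_zero fun l _ => ?_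
      have h4 := hvu l i
      rw [hi] at h4
      rw [abs_nonpos_iff.1 h4, mul_zero]
    rcases (hu0 i).eq_or_lt with hi | hi
    · rw [hz i hi.symm, ← hi]
      simp
    rcases (hu0 j).eq_or_lt with hj | hj
    · rw [hz j hj.symm, ← hj]
      simp
    have hfl : ∀ l, ⌊(G : ℝ) * (v l i / u i)⌋ = ⌊(G : ℝ) * (v l j / u j)⌋ := by
      intro l
      have h4 := congrFun (ι.injective hij) l
      exact congrArg Subtype.val h4
    have h5 : x i * u j - x j * u i = ∑ l, e ⟨x, hxS⟩ l * (v l i * u j - v l j * u i) := by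
      rw [h3 i, h3 j, Finset.sum_mul, Finset.sum_mul, ← Finset.sum_sub_distrib]
      exact Finset.sum_congr rfl fun l _ => by ring
    have h6 : G * |x i * u j - x j * u i| ≤ m * (2 ^ m * ∑ l, |x l|) * (u i * u j) := by
      rw [h5]
      calc G * |∑ l, e ⟨x, hxS⟩ l * (v l i * u j - v l j * u i)|
          ≤ G * ∑ l, |e ⟨x, hxS⟩ l * (v l i * u j - v l j * u i)| :=
            mul_le_mul_of_nonneg_left (Finset.abs_sum_le_sum_abs _ _) hG1.le
        _ ≤ ∑ l : Fin m', (2 ^ m * ∑ l, |x l|) * (u i * u j) := by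
            rw [Finset.mul_sum]
            refine Finset.sum_le_sum fun l _ => ?_
            rw [abs_mul]
            have h7 := CLL_pair G _ _ _ _ hi hj (hfl l)
            have h8 : |e ⟨x, hxS⟩ l| ≤ 2 ^ m * ∑ l, |x l| :=
              ((norm_le_pi_norm (e ⟨x, hxS⟩) l).trans h2).trans
                (mul_le_mul_of_nonneg_right h2m hX)
            calc G * (|e ⟨x, hxS⟩ l| * |v l i * u j - v l j * u i|)
                = |e ⟨x, hxS⟩ l| * (G * |v l i * u j - v l j * u i|) := by ring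
              _ ≤ (2 ^ m * ∑ l, |x l|) * (u i * u j) :=
                mul_le_mul h8 h7 (by positivity) (by positivity)
        _ = m' * ((2 ^ m * ∑ l, |x l|) * (u i * u j)) := by
            rw [Finset.sum_const, Finset.card_univ, Fintype.card_fin, nsmul_eq_mul]
        _ ≤ m * (2 ^ m * ∑ l, |x l|) * (u i * u j) := by
            rw [mul_assoc (m : ℝ)]
            exact mul_le_mul_of_nonneg_right hmm
              (mul_nonneg (by positivity) (mul_pos hi hj).le)
    have h9 : m * (2 ^ m * ∑ l, |x l|) * (u i * u j) ≤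
        G * (δ * (∑ l, |x l|) * (u i * u j)) := by
      have h10 : (m : ℝ) * 2 ^ m * ((∑ l, |x l|) * (u i * u j)) ≤
          δ * G * ((∑ l, |x l|) * (u i * u j)) :=
        mul_le_mul_of_nonneg_right hG2 (by positivity)
      linarith
    exact le_of_mul_le_mul_left (h6.trans h9) hG1

end Pool.RX
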