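import Pool.Agent.Work.MP_3e8c7a_r.Interface

/-!
# Block STAI of THEOREM RX: the geometry of step A in the cube (helper40)
-/

set_option autoImplicit false

namespace Pool.RX

open Module Pool.Agent.MP3e8c7a

/-- orthonormal vectors in the kernel of a linear map -/
theorem STAI_orth {M l : ℕ} {ι : Type} [Fintype ι] (Λ : (Fin M → ℝ) →ₗ[ℝ] (ι → ℝ))
    (h : Fintype.card ι + l ≤ M) :
    ∃ γ : Fin l → Fin M → ℝ, (∀ i, Λ (γ i) = 0) ∧
      ∀ i i', ∑ j, γ i j * γ i' j = if i = i' then 1 else 0 := by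
  let Λ' : EuclideanSpace ℝ (Fin M) →ₗ[ℝ] (ι → ℝ) :=
    Λ ∘ₗ (WithLp.linearEquiv 2 ℝ (Fin M → ℝ)).toLinearMap
  let K := LinearMap.ker Λ'
  have h1 : finrank ℝ (LinearMap.range Λ') + finrank ℝ K = M := by
    have := LinearMap.finrank_range_add_finrank_ker Λ'
    rwa [finrank_euclideanSpace_fin] at this
  have h2 : finrank ℝ (LinearMap.range Λ') ≤ Fintype.card ι := by
    have := Submodule.finrank_le (LinearMap.range Λ')
    rwa [Module.finrank_fintype_fun_eq_card] at this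
  have h3 : l ≤ finrank ℝ K := by omega
  let B := stdOrthonormalBasis ℝ K
  refine ⟨fun i j => (B (Fin.castLE h3 i) : EuclideanSpace ℝ (Fin M)) j, fun i => ?_,
    fun i i' => ?_⟩
  · have h4 := LinearMap.mem_ker.1 (B (Fin.castLE h3 i)).2
    exact h4
  · have h4 := (orthonormal_iff_ite.1 B.orthonormal) (Fin.castLE h3 i) (Fin.castLE h3 i')
    rw [Submodule.coe_inner, PiLp.inner_apply] at h4
    have h5 : (Fin.castLE h3 i = Fin.castLE h3 i') ↔ i = i' :=
      (Fin.castLE_injective h3).eq_iff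
    simp only [h5] at h4
    rw [← h4]
    refine Finset.sum_congr rfl fun j _ => ?_
    simp [mul_comm]

/-- the basis vectors -/
def STAI_e {N : ℕ} (i : Fin N) : Fin N → ℝ := fun j => if i = j then 1 else 0

theorem STAI_sum {N : ℕ} (f : (Fin N → ℝ) →ₗ[ℝ] ℝ) (x : Fin N → ℝ) :
    f x = ∑ i, x i * f (STAI_e i) := by
  have h := LinearMap.pi_apply_eq_sum_univ f x
  simp only [smul_eq_mul] at h
  exact h

/-- the functionals -/
noncomputable def STAI_b {M N l : ℕ} (γ : Fin l → Fin M → ℝ) (a : (Fin N → ℝ) →ₗ[ℝ] (Fin M → ℝ))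
    (h : Fin l) : (Fin N → ℝ) →ₗ[ℝ] ℝ := ∑ j, γ h j • (LinearMap.proj j ∘ₗ a)

theorem STAI_b_apply {M N l : ℕ} (γ : Fin l → Fin M → ℝ) (a : (Fin N → ℝ) →ₗ[ℝ] (Fin M → ℝ))
    (h : Fin l) (x : Fin N → ℝ) : STAI_b γ a h x = ∑ j, γ h j * a x j := by
  unfold STAI_b
  rw [LinearMap.sum_apply]
  rfl

/-- the matrix of the functionals -/
noncomputable def STAI_G {M N l : ℕ} (γ : Fin l → Fin M → ℝ) (a : (Fin N → ℝ) →ₗ[ℝ] (Fin M → ℝ)) :
    (Fin l → ℝ) →ₗ[ℝ] (Fin N → ℝ) :=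
  LinearMap.pi fun i => ∑ h, STAI_b γ a h (STAI_e i) • (LinearMap.proj h : (Fin l → ℝ) →ₗ[ℝ] ℝ)

theorem STAI_G_apply {M N l : ℕ} (γ : Fin l → Fin M → ℝ) (a : (Fin N → ℝ) →ₗ[ℝ] (Fin M → ℝ))
    (y : Fin l → ℝ) (i : Fin N) :
    STAI_G γ a y i = ∑ h, y h * STAI_b γ a h (STAI_e i) := by
  unfold STAI_G
  rw [LinearMap.pi_apply, LinearMap.sum_apply]
  refine Finset.sum_congr rfl fun h _ => ?_
  rw [LinearMap.smul_apply, smul_eq_mul, mul_comm]
  rfl

theorem STAI_pair {M N l : ℕ} (γ : Fin l → Fin M → ℝ) (a : (Fin N → ℝ) →ₗ[ℝ] (Fin M → ℝ))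
    (y : Fin l → ℝ) (x : Fin N → ℝ) :
    ∑ h, y h * STAI_b γ a h x = ∑ i, x i * STAI_G γ a y i := by
  have h1 : ∀ h, y h * STAI_b γ a h x = ∑ i, x i * (y h * STAI_b γ a h (STAI_e i)) := by
    intro h
    rw [STAI_sum (STAI_b γ a h) x, Finset.mul_sum]
    exact Finset.sum_congr rfl fun i _ => by ring
  rw [Finset.sum_congr rfl fun h _ => h1 h, Finset.sum_comm]
  refine Finset.sum_congr rfl fun i _ => ?_
  rw [STAI_G_apply, Finset.mul_sum]

theorem STAI_sq_le {n : ℕ} (y : Fin n → ℝ) : ‖y‖ ≤ Real.sqrt (∑ h, y h ^ 2) := by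
  rw [pi_norm_le_iff_of_nonneg (Real.sqrt_nonneg _)]
  intro i
  rw [Real.norm_eq_abs]
  refine Real.abs_le_sqrt ?_
  exact Finset.single_le_sum (f := fun h => y h ^ 2) (fun h _ => sq_nonneg (y h))
    (Finset.mem_univ i)

/-- the dual norm of the functionals on the cube -/
theorem STAI_low {M N l : ℕ} {A : ℝ} (hA : 1 ≤ A) (γ : Fin l → Fin M → ℝ)
    (a : (Fin N → ℝ) →ₗ[ℝ] (Fin M → ℝ)) (W : (Fin M → ℝ) →ₗ[ℝ] (Fin N → ℝ))
    (hγ : ∀ i i', ∑ j, γ i j * γ i' j = if i = i' then 1 else 0)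
    (haW : ∀ ω, a (W ω) = ω) (hW : ∀ ω, ‖W ω‖ ≤ A * ‖ω‖) (y : Fin l → ℝ) :
    ‖y‖ ≤ A * ∑ i, |STAI_G γ a y i| := by
  let c : Fin M → ℝ := fun j => ∑ h, y h * γ h j
  have h1 : ∑ j, c j ^ 2 = ∑ h, y h ^ 2 := by
    have h2 : ∀ j, c j ^ 2 = ∑ h, ∑ h', y h * y h' * (γ h j * γ h' j) := by
      intro j
      show (∑ h, y h * γ h j) ^ 2 = _
      rw [sq, Finset.sum_mul_sum]
      exact Finset.sum_congr rfl fun h _ => Finset.sum_congr rfl fun h' _ => by ring
    rw [Finset.sum_congr rfl fun j _ => h2 j, Finset.sum_comm]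
    refine Finset.sum_congr rfl fun h _ => ?_
    rw [Finset.sum_comm]
    have h3 : ∀ h', ∑ j, y h * y h' * (γ h j * γ h' j) = if h = h' then y h * y h' else 0 := by
      intro h'
      rw [← Finset.mul_sum, hγ]
      split_ifs <;> simp
    rw [Finset.sum_congr rfl fun h' _ => h3 h', Finset.sum_ite_eq, if_pos (Finset.mem_univ _), sq]
  have h4 : ∑ h, y h * STAI_b γ a h (W c) = ∑ j, c j ^ 2 := by
    have h5 : ∀ h, y h * STAI_b γ a h (W c) = ∑ j, y h * γ h j * c j := by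
      intro h
      rw [STAI_b_apply, haW, Finset.mul_sum]
      exact Finset.sum_congr rfl fun j _ => by ring
    rw [Finset.sum_congr rfl fun h _ => h5 h, Finset.sum_comm]
    refine Finset.sum_congr rfl fun j _ => ?_
    rw [← Finset.sum_mul, sq]
  rw [STAI_pair, h1] at h4
  set s : ℝ := Real.sqrt (∑ h, y h ^ 2) with hs
  have hs0 : 0 ≤ s := Real.sqrt_nonneg _
  have hss : s ^ 2 = ∑ h, y h ^ 2 := Real.sq_sqrt (Finset.sum_nonneg fun h _ => sq_nonneg _)
  have h6 : ‖c‖ ≤ s := by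
    rw [hs, ← h1]
    exact STAI_sq_le c
  have h7 : ‖y‖ ≤ s := STAI_sq_le y
  have hG0 : 0 ≤ ∑ i, |STAI_G γ a y i| := Finset.sum_nonneg fun i _ => abs_nonneg _
  have h8 : ∑ i, W c i * STAI_G γ a y i ≤ ‖W c‖ * ∑ i, |STAI_G γ a y i| := by
    rw [Finset.mul_sum]
    refine Finset.sum_le_sum fun i _ => ?_
    refine (le_abs_self _).trans ?_
    rw [abs_mul]
    exact mul_le_mul_of_nonneg_right (norm_le_pi_norm (W c) i) (abs_nonneg _)
  have h9 : ‖W c‖ ≤ A * s := (hW c).trans (mul_le_mul_of_nonneg_left h6 (by linarith))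
  have h10 : s ^ 2 ≤ A * s * ∑ i, |STAI_G γ a y i| := by
    rw [hss, ← h4]
    exact h8.trans (mul_le_mul_of_nonneg_right h9 hG0)
  rcases hs0.eq_or_lt with h0 | h0
  · rw [← h0] at h7
    exact h7.trans (mul_nonneg (by linarith) hG0)
  · refine h7.trans ?_
    have h11 : s * s ≤ s * (A * ∑ i, |STAI_G γ a y i|) := by nlinarith
    exact le_of_mul_le_mul_left h11 h0

theorem p_STAI (hNRM : Stmt_NRM) (hCEL : Stmt_CEL) (hDUL : Stmt_DUL) : Stmt_STAI := by
  intro θ hθ hθ1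
  refine ⟨2, by norm_num, fun m => ?_⟩
  obtain ⟨ν₁, h1⟩ := hNRM m
  obtain ⟨ν₂, h2⟩ := hCEL m (θ / 2) (by linarith) (by linarith)
  refine ⟨m + ν₁, fun A hA => ⟨((m + ν₁ : ℕ) : ℝ) * A + 8 * m * A / θ + 1,
    ⌈((ν₁ : ℝ) + 2 * ν₂) / θ⌉₊, ?_, ?_⟩⟩
  · have : 0 < A := by linarith
    positivity
  intro N k S _ _ _ w R ρ' W' a' l hN hk1 hk2 hw hS hl hρ hT
  have hA0 : 0 < A := by linarith
  have hNR : (ν₁ : ℝ) + 2 * ν₂ ≤ θ * N := by
    have h3 : ((ν₁ : ℝ) + 2 * ν₂) / θ ≤ N := (Nat.le_ceil _).trans (by exact_mod_cast hN)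
    rw [div_le_iff₀ hθ] at h3
    linarith
  obtain ⟨J, hJ, hJ2⟩ := h1 N S w 0 (hS ▸ hl) fun x hx _ => hw (by rw [hx, map_zero])
  -- the orthonormal vectors
  let Λ : (Fin (m + ν₁) → ℝ) →ₗ[ℝ] ({i // i ∈ J} → ℝ) :=
    LinearMap.pi fun i => ∑ j, a' (STAI_e i.1) j • (LinearMap.proj j : (Fin (m + ν₁) → ℝ) →ₗ[ℝ] ℝ)
  obtain ⟨γ, hγ1, hγ2⟩ := STAI_orth (l := l) Λ (by rw [Fintype.card_coe]; omega)
  have hbJ : ∀ h, ∀ i ∈ J, STAI_b γ a' h (STAI_e i) = 0 := by
    intro h i hi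
    have h3 := congrFun (hγ1 h) ⟨i, hi⟩
    have h4 : Λ (γ h) ⟨i, hi⟩ = ∑ j, a' (STAI_e i) j * γ h j := by
      show (∑ j, a' (STAI_e i) j • (LinearMap.proj j : (Fin (m + ν₁) → ℝ) →ₗ[ℝ] ℝ)) (γ h) = _
      rw [LinearMap.sum_apply]
      rfl
    rw [h4] at h3
    rw [STAI_b_apply]
    refine Eq.trans (Finset.sum_congr rfl fun j _ => mul_comm _ _) h3
  have hγ3 : ∀ h j, |γ h j| ≤ 1 := by
    intro h j
    have h3 := hγ2 h h
    rw [if_pos rfl] at h3
    have h4 : γ h j * γ h j ≤ 1 := by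
      rw [← h3]
      exact Finset.single_le_sum (f := fun j => γ h j * γ h j)
        (fun j _ => mul_self_nonneg (γ h j)) (Finset.mem_univ j)
    rw [abs_le]
    constructor <;> nlinarith
  have hbb : ∀ h x, |STAI_b γ a' h x| ≤ ((m + ν₁ : ℕ) : ℝ) * (A * R x / ρ') := by
    intro h x
    have h3 : ‖a' x‖ ≤ A * R x / ρ' := by
      rw [le_div_iff₀ hρ, mul_comm]
      exact hT.pa x
    rw [STAI_b_apply]
    refine (Finset.abs_sum_le_sum_abs _ _).trans ?_
    have h4 : ∀ j ∈ (Finset.univ : Finset (Fin (m + ν₁))), |γ h j * a' x j| ≤ A * R x / ρ' := by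
      intro j _
      rw [abs_mul]
      calc |γ h j| * |a' x j| ≤ 1 * ‖a' x‖ :=
            mul_le_mul (hγ3 h j) (norm_le_pi_norm (a' x) j) (abs_nonneg _) zero_le_one
        _ ≤ A * R x / ρ' := by rw [one_mul]; exact h3
    refine (Finset.sum_le_card_nsmul _ _ _ h4).trans (le_of_eq ?_)
    rw [Finset.card_univ, Fintype.card_fin, nsmul_eq_mul]
  have hlow : ∀ y : Fin l → ℝ, ‖y‖ ≤ A * ∑ i, |STAI_G γ a' y i| :=
    STAI_low hA γ a' W' hγ2 hT.aW hT.rW
  -- the set of coordinates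
  obtain ⟨A₀, hA₀, hA₀2⟩ := h2 N (LinearMap.range (STAI_G γ a'))
    ((LinearMap.finrank_range_le _).trans (by
      rw [Module.finrank_fintype_fun_eq_card, Fintype.card_fin]
      exact hl))
  have hc1 : (A₀ \ J).card ≤ k := by
    have h3 : (A₀ \ J).card ≤ A₀.card := Finset.card_le_card Finset.sdiff_subset
    have h4 : (A₀.card : ℝ) ≤ k := by
      have : (0 : ℝ) ≤ ν₁ := Nat.cast_nonneg _
      linarith
    exact h3.trans (by exact_mod_cast h4)
  have hc2 : k + J.card ≤ N := by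
    have h3 : (J.card : ℝ) ≤ ν₁ := by exact_mod_cast hJ
    have h4 : (k : ℝ) + J.card ≤ N := by
      have : (0 : ℝ) ≤ ν₂ := Nat.cast_nonneg _
      linarith
    exact_mod_cast h4
  obtain ⟨f, hf1, hf2⟩ := exists_emb (A₀ \ J) J Finset.sdiff_disjoint hc1 hc2
  obtain ⟨ξ, hξ1, hξ2⟩ := hDUL (Fin k → ℝ) (XN true k) l
    (fun h => STAI_b γ a' h ∘ₗ emb f) (θ / (4 * A)) (XN_def true k) (by positivity) (by
      intro y κ _ hy
      have h3 := hy fun u => if 0 ≤ STAI_G γ a' y (f u) then 1 else -1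
      have h4 : XN true k (fun u => if 0 ≤ STAI_G γ a' y (f u) then (1 : ℝ) else -1) ≤ 1 := by
        rw [XN_true, pi_norm_le_iff_of_nonneg zero_le_one]
        intro u
        rw [Real.norm_eq_abs]
        split_ifs <;> simp
      have h5 : ∑ h, y h * (STAI_b γ a' h ∘ₗ emb f)
          (fun u => if 0 ≤ STAI_G γ a' y (f u) then (1 : ℝ) else -1) =
            ∑ u, |STAI_G γ a' y (f u)| := by
        have h6 := STAI_pair γ a' y
          (emb f fun u => if 0 ≤ STAI_G γ a' y (f u) then (1 : ℝ) else -1)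
        refine h6.trans ?_
        rw [emb_sum f (fun u => if 0 ≤ STAI_G γ a' y (f u) then (1 : ℝ) else -1)
          (fun i z => z * STAI_G γ a' y i) fun i => zero_mul _]
        refine Finset.sum_congr rfl fun u _ => ?_
        show (if 0 ≤ STAI_G γ a' y (f u) then (1 : ℝ) else -1) * STAI_G γ a' y (f u) =
          |STAI_G γ a' y (f u)|
        split_ifs with h7
        · rw [one_mul, abs_of_nonneg h7]
        · rw [abs_of_neg (not_le.1 h7)]
          ring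
      rw [h5] at h3
      have h8 : ∑ i ∈ A₀, |STAI_G γ a' y i| ≤ ∑ u, |STAI_G γ a' y (f u)| := by
        have h9 : ∑ u, |STAI_G γ a' y (f u)| =
            ∑ i ∈ Finset.univ.map f, |STAI_G γ a' y i| := by rw [Finset.sum_map]
        have h10 : ∑ i ∈ A₀, |STAI_G γ a' y i| = ∑ i ∈ A₀ \ J, |STAI_G γ a' y i| := by
          symm
          refine Finset.sum_subset Finset.sdiff_subset fun i hi hi2 => ?_
          have h11 : i ∈ J := by
            by_contra h12
            exact hi2 (Finset.mem_sdiff.2 ⟨hi, h12⟩)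
          rw [STAI_G_apply, abs_eq_zero]
          exact Finset.sum_eq_zero fun h _ => by rw [hbJ h i h11, mul_zero]
        rw [h9, h10]
        refine Finset.sum_le_sum_of_subset_of_nonneg (fun i hi => ?_) fun i _ _ => abs_nonneg _
        obtain ⟨u, hu⟩ := hf1 i hi
        exact Finset.mem_map.2 ⟨u, Finset.mem_univ u, hu⟩
      have h13 := hA₀2 (STAI_G γ a' y) ⟨y, rfl⟩
      have h14 := hlow y
      have h15 : ∑ u, |STAI_G γ a' y (f u)| ≤ κ := by
        have h16 := (le_abs_self _).trans h3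
        have h17 : κ * XN true k (fun u => if 0 ≤ STAI_G γ a' y (f u) then (1 : ℝ) else -1) ≤
            κ * 1 := mul_le_mul_of_nonneg_left h4 (by assumption)
        linarith
      have h18 : θ / 4 * ∑ i, |STAI_G γ a' y i| ≤ κ := by
        have h19 : θ / 4 = θ / 2 / 2 := by ring
        rw [h19]
        linarith
      have h20 : θ / (4 * A) * ‖y‖ ≤ θ / (4 * A) * (A * ∑ i, |STAI_G γ a' y i|) :=
        mul_le_mul_of_nonneg_left h14 (by positivity)
      have h21 : θ / (4 * A) * (A * ∑ i, |STAI_G γ a' y i|) =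
          θ / 4 * ∑ i, |STAI_G γ a' y i| := by field_simp
      linarith)
  refine ⟨f, LinearMap.pi fun h => STAI_b γ a' h ∘ₗ emb f, ξ, ?_, ?_, ?_, ?_⟩
  · intro y
    funext h
    exact hξ1 y h
  · intro x
    have hR : 0 ≤ R (emb f x) := apply_nonneg R _
    rw [pi_norm_le_iff_of_nonneg (by positivity)]
    intro h
    refine (hbb h (emb f x)).trans ?_
    have h3 : ((m + ν₁ : ℕ) : ℝ) * (A * R (emb f x) / ρ') =
        ((m + ν₁ : ℕ) : ℝ) * A / ρ' * R (emb f x) := by ring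
    rw [h3]
    refine mul_le_mul_of_nonneg_right ?_ hR
    refine div_le_div_of_nonneg_right ?_ hρ.le
    have h4 : 0 ≤ 8 * (m : ℝ) * A / θ := by positivity
    linarith
  · intro y
    refine (hξ2 y).trans (mul_le_mul_of_nonneg_right ?_ (norm_nonneg y))
    have h3 : 2 * (l : ℝ) / (θ / (4 * A)) = 8 * l * A / θ := by
      field_simp
      ring
    rw [h3]
    have h4 : 8 * (l : ℝ) * A / θ ≤ 8 * m * A / θ := by
      refine div_le_div_of_nonneg_right ?_ hθ.le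
      have h5 : (l : ℝ) ≤ m := by exact_mod_cast hl
      nlinarith
    have h6 : 0 ≤ ((m + ν₁ : ℕ) : ℝ) * A := by positivity
    linarith
  · intro ω x
    have h3 := hJ2 ω ‖w ω + emb f x‖ (norm_nonneg _) (fun i hi => by
      have h4 : emb f x i = 0 := emb_zero f x i fun u hu => hf2 u (hu ▸ hi)
      have h5 := norm_le_pi_norm (w ω + emb f x) i
      rw [Pi.add_apply, h4, add_zero, Real.norm_eq_abs] at h5
      exact h5)
    have h6 : (0 : Seminorm ℝ S) ω = 0 := rfl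
    rw [h6, add_zero, add_zero] at h3
    exact h3

end Pool.RX
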