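import Pool.Agent.Work.MP_3e8c7a_r.Interface

/-!
# MP_3e8c7a_an, THEOREM RX, block STBI
-/

set_option autoImplicit false

namespace Pool.RX

open Module Pool.Agent.MP3e8c7a

theorem p_STBI (hNRM : Stmt_NRM) : Stmt_STBI := by
  intro θ hθ _
  refine ⟨2, by norm_num, fun m => ?_⟩
  obtain ⟨ν, hν⟩ := hNRM m
  refine ⟨⌈(ν : ℝ) / θ⌉₊, ?_⟩
  intro N k S _ _ _ w q hN hk hS hdef
  obtain ⟨J, hJ, hJ'⟩ := hν N S w q hS hdef
  have h1 : (ν : ℝ) ≤ θ * N := by
    have h2 : (ν : ℝ) / θ ≤ N := (Nat.le_ceil _).trans (by exact_mod_cast hN)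
    rw [div_le_iff₀ hθ] at h2
    linarith
  have h3 : k + J.card ≤ N := by
    have h4 : (J.card : ℝ) ≤ ν := by exact_mod_cast hJ
    have h5 : ((k + J.card : ℕ) : ℝ) ≤ N := by
      push_cast
      linarith
    exact_mod_cast h5
  obtain ⟨f, -, hf⟩ := exists_emb (k := k) ∅ J (Finset.disjoint_empty_left J)
    (by rw [Finset.card_empty]; exact Nat.zero_le k) h3
  refine ⟨f, fun ω x => ?_⟩
  rw [XN_true, XN_true]
  refine hJ' ω ‖w ω + emb f x‖ (norm_nonneg _) fun i hi => ?_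
  have h6 : emb f x i = 0 := emb_zero f x i fun l hl => hf l (hl ▸ hi)
  have h7 := norm_le_pi_norm (w ω + emb f x) i
  rw [Pi.add_apply, h6, add_zero, Real.norm_eq_abs] at h7
  exact h7

end Pool.RX
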