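import Pool.Agent.Work.MP_3e8c7a_r.Interface

/-!
# Block STBO: the geometry of step B for `ℓ_1`
-/

set_option autoImplicit false

namespace Pool.RX

open Module Pool.Agent.MP3e8c7a

theorem p_STBO (h1 : Stmt_CEL) : Stmt_STBO := by
  intro θ hθ0 hθ1
  refine ⟨4 / θ, ?_, ?_⟩
  · rw [le_div_iff₀ hθ0]
    linarith
  intro m
  obtain ⟨ν, hν⟩ := h1 m (θ / 2) (by linarith) (by linarith)
  refine ⟨⌈2 * ν / θ⌉₊, ?_⟩
  intro N k S _ _ _ w q hN hk hS _
  have hN' : 2 * (ν : ℝ) / θ ≤ N := (Nat.le_ceil _).trans (by exact_mod_cast hN)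
  rw [div_le_iff₀ hθ0] at hN'
  obtain ⟨A, hA, hAx⟩ := hν N (LinearMap.range w) ((LinearMap.finrank_range_le w).trans hS)
  have hkA : k + A.card ≤ N := by
    have : (k : ℝ) + A.card ≤ N := by linarith
    exact_mod_cast this
  obtain ⟨f, -, hf⟩ := exists_emb (k := k) ∅ A (Finset.disjoint_empty_left A) (by simp) hkA
  refine ⟨f, fun ω x => ?_⟩
  rw [XN_false, XN_false]
  have hx := hAx (w ω) (LinearMap.mem_range_self w ω)
  have h2 : ∑ i ∈ A, |w ω i| ≤ ∑ i, |(w ω + emb f x) i| := by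
    calc ∑ i ∈ A, |w ω i| = ∑ i ∈ A, |(w ω + emb f x) i| := by
          apply Finset.sum_congr rfl
          intro i hi
          rw [Pi.add_apply, emb_zero f x i fun l hl => hf l (hl ▸ hi), add_zero]
      _ ≤ ∑ i, |(w ω + emb f x) i| :=
          Finset.sum_le_sum_of_subset_of_nonneg (Finset.subset_univ _) fun _ _ _ => abs_nonneg _
  have h3 : ∑ i, |w ω i| ≤ 4 / θ * ∑ i, |(w ω + emb f x) i| := by
    rw [div_mul_eq_mul_div, le_div_iff₀ hθ0]
    have : θ / 2 / 2 * ∑ i, |w ω i| ≤ ∑ i, |(w ω + emb f x) i| := hx.trans h2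
    linarith
  have h4 : q ω ≤ 4 / θ * q ω := by
    have h5 : 1 ≤ 4 / θ := by
      rw [le_div_iff₀ hθ0]
      linarith
    nlinarith [apply_nonneg q ω]
  rw [mul_add]
  linarith

end Pool.RX
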