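import Pool.Agent.Work.MP_3e8c7a_r.Interface

set_option autoImplicit false

namespace Pool.RX

open Module Pool.Agent.MP3e8c7a

/-- The preimage of a subspace of codimension `c` has codimension at most `c`. -/
theorem XB_comap {k N c : ℕ} (g : (Fin k → ℝ) →ₗ[ℝ] (Fin N → ℝ)) (F : Submodule ℝ (Fin N → ℝ))
    (h : N ≤ finrank ℝ F + c) : k ≤ finrank ℝ (F.comap g) + c := by
  have h1 := LinearMap.finrank_range_add_finrank_ker (F.mkQ.comp g)
  have h2 : LinearMap.ker (F.mkQ.comp g) = F.comap g := by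
    rw [LinearMap.ker_comp, Submodule.ker_mkQ]
  have h3 : finrank ℝ (LinearMap.range (F.mkQ.comp g)) ≤ finrank ℝ ((Fin N → ℝ) ⧸ F) :=
    Submodule.finrank_le _
  have h4 := Submodule.finrank_quotient_add_finrank F
  rw [h2] at h1
  simp only [Module.finrank_fin_fun] at h1 h4
  omega

theorem XB_def {t : Bool} {N : ℕ} {Y : Type} [AddCommGroup Y] [Module ℝ Y] {q : Seminorm ℝ Y}
    (hq : Def q) : Def (ds (XN t N) q) := by
  intro x hx
  rw [ds_apply] at hx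
  have h1 : 0 ≤ XN t N x.1 := apply_nonneg _ _
  have h2 : 0 ≤ q x.2 := apply_nonneg _ _
  have h3 : x.1 = 0 := XN_def t N x.1 (by linarith)
  have h4 : x.2 = 0 := hq x.2 (by linarith)
  exact Prod.ext h3 h4

theorem p_XB : Stmt_XB := by
  intro t hGRD hCPL hLIF hSTB hNOR b θ D₁ c₁ hb hθ hθ1 hD₁
  obtain ⟨C₀, hC₀, hSTB'⟩ := hSTB θ hθ hθ1
  obtain ⟨M, hM⟩ := hNOR (9 * b ^ 2 * C₀)
  obtain ⟨A, hA, hGRD'⟩ := hGRD M
  obtain ⟨B, hB, hLIF'⟩ := hLIF M D₁ hD₁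
  obtain ⟨D₀, hD₀, hCPL'⟩ := hCPL M A C₀ hA hC₀
  obtain ⟨n₁, hn₁⟩ := hSTB' M
  refine ⟨D₀ * (B * B) + 1, M, max n₁ (max (M + 1) ⌈((M : ℝ) + c₁) / θ⌉₊), ?_, ?_⟩
  · have : 0 ≤ D₀ * (B * B) := by positivity
    linarith
  intro N k Y _ _ _ q r F₁ hN hk1 hk2 hq hr hHyp hF₁ hF₁r
  have hN1 : n₁ ≤ N := le_trans (le_max_left _ _) hN
  have hN2 : M + 1 ≤ N := le_trans (le_trans (le_max_left _ _) (le_max_right _ _)) hN
  have hN3 : ⌈((M : ℝ) + c₁) / θ⌉₊ ≤ N :=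
    le_trans (le_trans (le_max_right _ _) (le_max_right _ _)) hN
  have hkM : M + c₁ ≤ k := by
    have h1 : ((M : ℝ) + c₁) / θ ≤ N := le_trans (Nat.le_ceil _) (by exact_mod_cast hN3)
    have h2 : (M : ℝ) + c₁ ≤ θ * N := by
      rw [div_le_iff₀ hθ] at h1
      linarith
    have h3 : (M : ℝ) + c₁ ≤ k := le_trans h2 hk1
    exact_mod_cast h3
  have hp : Def (ds (XN t N) q) := XB_def hq
  have hfin : M < finrank ℝ ((Fin N → ℝ) × Y) := by
    rw [Module.finrank_prod, Module.finrank_fin_fun]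
    omega
  obtain ⟨ρ, W, a, F, hρ, hTop, hF1, hF2⟩ :=
    hGRD' ((Fin N → ℝ) × Y) (ds (XN t N) q) r hp hr hfin
  by_cases hρD : ρ ≤ D₀ * (B * B) + 1
  · refine ⟨F, hF1, fun x hx => le_trans (hF2 x hx) ?_⟩
    exact mul_le_mul_of_nonneg_right hρD (apply_nonneg _ _)
  exfalso
  have hρ2 : D₀ * (B * B) ≤ ρ := by linarith [not_le.mp hρD]
  have hWinj : Function.Injective W := fun x y hxy => by
    rw [← hTop.aW x, ← hTop.aW y, hxy]
  obtain ⟨S, hS⟩ := hM ((ds (XN t N) q).comp W) (hp.comp W hWinj)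
  apply hS
  have hSM : finrank ℝ S ≤ M := by
    have := Submodule.finrank_le S
    rwa [Module.finrank_fin_fun] at this
  have hw0 : ∀ x : S, ((LinearMap.fst ℝ (Fin N → ℝ) Y).comp (W.comp S.subtype)) x = 0 →
      (q.comp ((LinearMap.snd ℝ (Fin N → ℝ) Y).comp (W.comp S.subtype))) x = 0 → x = 0 := by
    intro x h1 h2
    have h3 : (W (x : Fin M → ℝ)).1 = 0 := h1
    have h4 : (W (x : Fin M → ℝ)).2 = 0 := hq _ h2
    have h5 : W (x : Fin M → ℝ) = W 0 := by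
      rw [map_zero]
      exact Prod.ext h3 h4
    exact Subtype.ext (hWinj h5)
  obtain ⟨f, hf⟩ := hn₁ N k S ((LinearMap.fst ℝ (Fin N → ℝ) Y).comp (W.comp S.subtype))
    (q.comp ((LinearMap.snd ℝ (Fin N → ℝ) Y).comp (W.comp S.subtype))) hN1 hk2 hSM hw0
  have hPe : ∀ x, ds (XN t N) q (((LinearMap.inl ℝ (Fin N → ℝ) Y).comp (emb f)) x) =
      XN t k x := by
    intro x
    have h1 : ((LinearMap.inl ℝ (Fin N → ℝ) Y).comp (emb f)) x = (emb f x, (0 : Y)) := rfl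
    rw [h1, ds_apply, emb_XN, map_zero, add_zero]
  have hembinj : Function.Injective (emb f) := by
    intro x y hxy
    funext l
    rw [← emb_apply f x l, ← emb_apply f y l, hxy]
  have heinj : Function.Injective ((LinearMap.inl ℝ (Fin N → ℝ) Y).comp (emb f)) := by
    intro x y hxy
    have h1 : ((emb f x, (0 : Y)) : (Fin N → ℝ) × Y) = (emb f y, (0 : Y)) := hxy
    exact hembinj (congrArg Prod.fst h1)
  have hFe : ∀ x ∈ F₁.map (LinearMap.inl ℝ (Fin N → ℝ) Y),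
      ds (XN t N) q x ≤ D₁ * r x := by
    intro x hx
    obtain ⟨y, hy, hyx⟩ := Submodule.mem_map.mp hx
    have h1 : x = (y, (0 : Y)) := hyx.symm
    rw [h1, ds_apply, map_zero, add_zero]
    exact hF₁r y hy
  have hcom : finrank ℝ S ≤ finrank ℝ ((F₁.map (LinearMap.inl ℝ (Fin N → ℝ) Y)).comap
      ((LinearMap.inl ℝ (Fin N → ℝ) Y).comp (emb f))) := by
    have h1 := XB_comap (emb f) F₁ hF₁
    have h2 : F₁.comap (emb f) ≤ (F₁.map (LinearMap.inl ℝ (Fin N → ℝ) Y)).comap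
        ((LinearMap.inl ℝ (Fin N → ℝ) Y).comp (emb f)) := by
      intro x hx
      exact Submodule.mem_map.mpr ⟨emb f x, hx, rfl⟩
    have h3 := Submodule.finrank_mono h2
    omega
  obtain ⟨τ, ξ, hτξ, hτ, hξ⟩ := hLIF' ((Fin N → ℝ) × Y) (ds (XN t N) q) r k (finrank ℝ S)
    ((LinearMap.inl ℝ (Fin N → ℝ) Y).comp (emb f)) (F₁.map (LinearMap.inl ℝ (Fin N → ℝ) Y))
    hp hr heinj hFe hSM hcom
  have hsep : ∀ ω ∈ S, ∀ x, τ x = 0 → ds (XN t N) q (W ω) ≤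
      C₀ * ds (XN t N) q (W ω + ((LinearMap.inl ℝ (Fin N → ℝ) Y).comp (emb f)) x) := by
    intro ω hω x _
    have h1 := hf ⟨ω, hω⟩ x
    have h2 : W ω + ((LinearMap.inl ℝ (Fin N → ℝ) Y).comp (emb f)) x =
        ((W ω).1 + emb f x, (W ω).2 + (0 : Y)) := rfl
    rw [h2, ds_apply, ds_apply, add_zero]
    exact h1
  obtain ⟨j, q', hqj, hj, hq'⟩ := hCPL' ((Fin N → ℝ) × Y) (ds (XN t N) q) r b k (finrank ℝ S) ρ
    B B W a S ((LinearMap.inl ℝ (Fin N → ℝ) Y).comp (emb f)) τ ξ hb hp hr hHyp hTop rfl heinj hB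
    hB hρ2 hτξ hτ hξ hsep
  refine ⟨k, j, q', hqj, fun ω => ?_, fun x => ?_⟩
  · have h1 := hj ω
    rw [hPe] at h1
    exact h1
  · have h1 := hq' x
    rw [hPe] at h1
    exact h1

end Pool.RX
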