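import Pool.Agent.Work.MP_3e8c7a_r.Interface

/-!
# Block XC of THEOREM RX: the second half of step B (helper40)
-/

set_option autoImplicit false

namespace Pool.RX

open Module Pool.Agent.MP3e8c7a

theorem XC_comap {V₁ V : Type} [AddCommGroup V₁] [Module ℝ V₁] [FiniteDimensional ℝ V₁]
    [AddCommGroup V] [Module ℝ V] [FiniteDimensional ℝ V] (e : V₁ →ₗ[ℝ] V)
    (Φ : Submodule ℝ V) :
    finrank ℝ V₁ + finrank ℝ Φ ≤ finrank ℝ (Φ.comap e) + finrank ℝ V := by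
  have h1 := LinearMap.finrank_range_add_finrank_ker (Φ.mkQ ∘ₗ e)
  have h2 : LinearMap.ker (Φ.mkQ ∘ₗ e) = Φ.comap e := by
    rw [LinearMap.ker_comp, Submodule.ker_mkQ]
  rw [h2] at h1
  have h3 := Submodule.finrank_le (LinearMap.range (Φ.mkQ ∘ₗ e))
  have h4 := Submodule.finrank_quotient_add_finrank Φ
  omega

theorem XC_ds_def {V W : Type} [AddCommGroup V] [Module ℝ V] [AddCommGroup W] [Module ℝ W]
    {p : Seminorm ℝ V} {q : Seminorm ℝ W} (hp : Def p) (hq : Def q) : Def (ds p q) := by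
  intro x hx
  rw [ds_apply] at hx
  have h1 : p x.1 = 0 := by
    have := apply_nonneg p x.1
    have := apply_nonneg q x.2
    linarith
  have h2 : q x.2 = 0 := by
    have := apply_nonneg p x.1
    linarith
  exact Prod.ext (hp _ h1) (hq _ h2)

theorem XC_inj_of {t : Bool} {k N : ℕ} {Y : Type} [AddCommGroup Y] [Module ℝ Y]
    (e₀ : (Fin k → ℝ) →ₗ[ℝ] (Fin N → ℝ)) (h : ∀ x, XN t k x ≤ XN t N (e₀ x)) :
    Function.Injective (LinearMap.inl ℝ (Fin N → ℝ) Y ∘ₗ e₀) := by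
  rw [← LinearMap.ker_eq_bot, LinearMap.ker_eq_bot']
  intro x hx
  have h1 : e₀ x = 0 := congrArg Prod.fst hx
  have h2 := h x
  rw [h1, map_zero] at h2
  exact XN_def t k x (le_antisymm h2 (apply_nonneg _ _))

/-- the complemented copy -/
theorem XC_fac {t : Bool} {k : ℕ} {V S : Type} [AddCommGroup V] [Module ℝ V] [AddCommGroup S]
    [Module ℝ S] {b C₁ : ℝ} (hb : 1 ≤ b) {p r : Seminorm ℝ V}
    {s : Seminorm ℝ S} (e : (Fin k → ℝ) →ₗ[ℝ] V) (T : (Fin k → ℝ) ≃ₗ[ℝ] (Fin k → ℝ))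
    (hT : ∀ x, r (e x) ≤ p (e (T x)) ∧ p (e (T x)) ≤ b * r (e x))
    (he : ∀ x, XN t k x ≤ p (e x) ∧ p (e x) ≤ C₁ * XN t k x)
    (j : S →ₗ[ℝ] (Fin k → ℝ)) (q : (Fin k → ℝ) →ₗ[ℝ] S) (h1 : ∀ ω, q (j ω) = ω)
    (h2 : ∀ ω, r (e (j ω)) ≤ s ω) (h3 : ∀ x, s (q x) ≤ 9 * b ^ 2 * 2 * r (e x)) :
    Fac t (18 * b ^ 3 * C₁) s := by
  have hb0 : 0 < b := by linarith
  refine ⟨k, b⁻¹ • (T.toLinearMap ∘ₗ j), b • (q ∘ₗ T.symm.toLinearMap), ?_, ?_, ?_⟩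
  · intro ω
    show b • q (T.symm (b⁻¹ • T (j ω))) = ω
    rw [map_smul, LinearEquiv.symm_apply_apply, map_smul, smul_smul, mul_inv_cancel₀ hb0.ne',
      one_smul, h1]
  · intro ω
    show XN t k (b⁻¹ • T (j ω)) ≤ s ω
    rw [map_smul_eq_mul, Real.norm_eq_abs, abs_of_pos (inv_pos.2 hb0),
      inv_mul_le_iff₀ hb0]
    exact ((he _).1.trans (hT _).2).trans (mul_le_mul_of_nonneg_left (h2 ω) hb0.le)
  · intro x
    show s (b • q (T.symm x)) ≤ 18 * b ^ 3 * C₁ * XN t k x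
    rw [map_smul_eq_mul, Real.norm_eq_abs, abs_of_pos hb0]
    have h4 := h3 (T.symm x)
    have h5 := (hT (T.symm x)).1
    rw [LinearEquiv.apply_symm_apply] at h5
    have h6 := h5.trans (he x).2
    calc b * s (q (T.symm x)) ≤ b * (9 * b ^ 2 * 2 * r (e (T.symm x))) :=
          mul_le_mul_of_nonneg_left h4 hb0.le
      _ ≤ b * (9 * b ^ 2 * 2 * (C₁ * XN t k x)) :=
          mul_le_mul_of_nonneg_left (mul_le_mul_of_nonneg_left h6 (by positivity)) hb0.le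
      _ = 18 * b ^ 3 * C₁ * XN t k x := by ring

theorem p_XC : Stmt_XC := by
  intro t hGRD hCPL hLIF hNRF hABS hNOR b θ D₁ c₁ hb hθ hθ1 hD₁
  obtain ⟨C₁, hC₁, hA1⟩ := hABS θ hθ hθ1
  obtain ⟨M, hM⟩ := hNOR (18 * b ^ 3 * C₁)
  obtain ⟨ν, hν⟩ := hNRF M
  obtain ⟨n₁, hn₁⟩ := hA1 ν
  obtain ⟨A, hA, hG⟩ := hGRD M
  obtain ⟨B, hB, hL⟩ := hLIF M D₁ hD₁
  obtain ⟨D₀, hD₀, hC⟩ := hCPL M A 2 hA (by norm_num)
  refine ⟨D₀ * (B * B) + 1, M, max n₁ (max (M + 1) ⌈((M : ℝ) + c₁) / θ⌉₊), ?_, ?_⟩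
  · have : 0 < D₀ * (B * B) := by positivity
    linarith
  intro N k Y _ _ _ q r F₁ hN hk1 hk2 hq hr hyp hF1 hF2
  have hN1 : n₁ ≤ N := (le_max_left _ _).trans hN
  have hN2 : M + 1 ≤ N := (le_max_left _ _).trans ((le_max_right _ _).trans hN)
  have hN3 : ⌈((M : ℝ) + c₁) / θ⌉₊ ≤ N := (le_max_right _ _).trans ((le_max_right _ _).trans hN)
  have hMk : M + c₁ ≤ k := by
    have h3 : ((M : ℝ) + c₁) / θ ≤ N := (Nat.le_ceil _).trans (by exact_mod_cast hN3)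
    rw [div_le_iff₀ hθ] at h3
    have h4 : (M : ℝ) + c₁ ≤ k := by linarith
    exact_mod_cast h4
  have hp : Def (ds (XN t N) q) := XC_ds_def (XN_def t N) hq
  have hfr : finrank ℝ ((Fin N → ℝ) × Y) = N + finrank ℝ Y := by
    rw [Module.finrank_prod, Module.finrank_fintype_fun_eq_card, Fintype.card_fin]
  obtain ⟨ρ, W, a, F, hρ, hT, hFc, hFb⟩ := hG ((Fin N → ℝ) × Y) r (ds (XN t N) q) hr hp
    (by rw [hfr]; omega)
  rcases le_or_gt ρ (D₀ * (B * B) + 1) with hρ2 | hρ2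
  · exact ⟨F, hFc, fun x hx => (hFb x hx).trans
      (mul_le_mul_of_nonneg_right hρ2 (apply_nonneg _ _))⟩
  exfalso
  have hWi : Function.Injective W := by
    intro x y hxy
    rw [← hT.aW x, ← hT.aW y, hxy]
  obtain ⟨S, hS⟩ := hM (r.comp W) (hr.comp W hWi)
  apply hS
  have hSM : finrank ℝ S ≤ M := by
    have h3 := Submodule.finrank_le S
    rwa [Module.finrank_fintype_fun_eq_card, Fintype.card_fin] at h3
  obtain ⟨Φ, hΦ1, hΦ2⟩ := hν ((Fin N → ℝ) × Y) r hr (S.map W)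
    ((Submodule.finrank_map_le W S).trans hSM)
  have hΦ3 : N ≤ finrank ℝ (Φ.comap (LinearMap.inl ℝ (Fin N → ℝ) Y)) + ν := by
    have h3 := XC_comap (LinearMap.inl ℝ (Fin N → ℝ) Y) Φ
    rw [Module.finrank_fintype_fun_eq_card, Fintype.card_fin] at h3
    omega
  obtain ⟨e₀, he1, he2⟩ := hn₁ N k _ hN1 hk2 hΦ3
  have hei : Function.Injective (LinearMap.inl ℝ (Fin N → ℝ) Y ∘ₗ e₀) :=
    XC_inj_of (t := t) e₀ fun x => (he2 x).1
  have hpe : ∀ x, ds (XN t N) q ((LinearMap.inl ℝ (Fin N → ℝ) Y ∘ₗ e₀) x) = XN t N (e₀ x) := by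
    intro x
    show XN t N (e₀ x) + q 0 = XN t N (e₀ x)
    rw [map_zero, add_zero]
  have hcom : finrank ℝ S ≤ finrank ℝ ((F₁.map (LinearMap.inl ℝ (Fin N → ℝ) Y)).comap
      (LinearMap.inl ℝ (Fin N → ℝ) Y ∘ₗ e₀)) := by
    have h3 : (F₁.map (LinearMap.inl ℝ (Fin N → ℝ) Y)).comap
        (LinearMap.inl ℝ (Fin N → ℝ) Y ∘ₗ e₀) = F₁.comap e₀ := by
      rw [Submodule.comap_comp, Submodule.comap_map_eq_of_injective LinearMap.inl_injective]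
    rw [h3]
    have h4 := XC_comap e₀ F₁
    rw [Module.finrank_fintype_fun_eq_card, Module.finrank_fintype_fun_eq_card,
      Fintype.card_fin, Fintype.card_fin] at h4
    omega
  obtain ⟨τ, ξ, hτ1, hτ2, hτ3⟩ := hL ((Fin N → ℝ) × Y) r (ds (XN t N) q) k (finrank ℝ S)
    (LinearMap.inl ℝ (Fin N → ℝ) Y ∘ₗ e₀) (F₁.map (LinearMap.inl ℝ (Fin N → ℝ) Y)) hr hp hei
    (by
      rintro x ⟨y, hy, rfl⟩
      have h3 := hF2 y hy
      have h4 : ds (XN t N) q (LinearMap.inl ℝ (Fin N → ℝ) Y y) = XN t N y := by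
        show XN t N y + q 0 = XN t N y
        rw [map_zero, add_zero]
      rw [h4]
      exact h3) hSM hcom
  obtain ⟨j, qq, hj1, hj2, hj3⟩ := hC ((Fin N → ℝ) × Y) r (ds (XN t N) q) b k (finrank ℝ S) ρ B B
    W a S (LinearMap.inl ℝ (Fin N → ℝ) Y ∘ₗ e₀) τ ξ hb hr hp
    (Hyp.symm (by linarith) hyp) hT rfl hei hB hB (by linarith) hτ1 hτ2 hτ3
    (fun ω hω x _ => hΦ2 (W ω) ⟨ω, hω, rfl⟩ _ (he1 x))
  obtain ⟨T, hT2⟩ := (Hyp.symm (by linarith) hyp).inj (LinearMap.inl ℝ (Fin N → ℝ) Y ∘ₗ e₀) hei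
    (by rw [Module.finrank_fintype_fun_eq_card, Fintype.card_fin])
  exact XC_fac (t := t) hb (LinearMap.inl ℝ (Fin N → ℝ) Y ∘ₗ e₀) T hT2
    (fun x => by rw [hpe]; exact he2 x) j qq hj1 hj2 hj3

end Pool.RX
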