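import Pool.Agent.Work.MP_3e8c7a_r.B_XC

/-!
# MP_3e8c7a_an, THEOREM RX: step B for a section near a cross-polytope (or a cube)

`i : ℝ^N → V` is a copy of `X^N` for the norm `P`, in the sense that all its sections of dimension
`k` are `b'`-isomorphic to those of `X^N`, `P ≤ D₁ R` on a subspace of bounded codimension of
`i(ℝ^N)`.  Then `P ≤ D₂ R` on a subspace of bounded codimension of `V`.  The range of `i` need not
be complemented.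
-/

set_option autoImplicit false

namespace Pool.RX

open Module Pool.Agent.MP3e8c7a

/-- step B for a section -/
def Stmt_XG : Prop :=
  ∀ t : Bool, Stmt_GRD → Stmt_CPL → Stmt_LIF → Stmt_NRF → Stmt_ABS t → Stmt_NOR t →
    ∀ (b b' θ D₁ : ℝ) (c₁ : ℕ), 1 ≤ b → 1 ≤ b' → 0 < θ → θ ≤ 1 → 0 < D₁ →
      ∃ (D₂ : ℝ) (c₂ n₀ : ℕ), 1 ≤ D₂ ∧
      ∀ (N k : ℕ) (V : Type) [AddCommGroup V] [Module ℝ V] [FiniteDimensional ℝ V]
        (P R : Seminorm ℝ V) (i : (Fin N → ℝ) →ₗ[ℝ] V) (F₁ : Submodule ℝ (Fin N → ℝ)),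
        n₀ ≤ N → θ * N ≤ k → k + θ * N ≤ N → Def P → Def R → Function.Injective i →
        Hyp b k P R → Hyp b' k (XN t N) (P.comp i) →
        N ≤ finrank ℝ F₁ + c₁ → (∀ x ∈ F₁, P (i x) ≤ D₁ * R (i x)) →
        ∃ F : Submodule ℝ V, finrank ℝ V ≤ finrank ℝ F + c₂ ∧ ∀ x ∈ F, P x ≤ D₂ * R x

/-- the complemented copy -/
theorem XG_fac {t : Bool} {k : ℕ} {V S : Type} [AddCommGroup V] [Module ℝ V] [AddCommGroup S]
    [Module ℝ S] {b b' C₁ : ℝ} (hb' : 0 ≤ b') {u : Seminorm ℝ (Fin k → ℝ)} {P : Seminorm ℝ V}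
    {s : Seminorm ℝ S} (e : (Fin k → ℝ) →ₗ[ℝ] V) (T : (Fin k → ℝ) ≃ₗ[ℝ] (Fin k → ℝ))
    (hT : ∀ x, u x ≤ P (e (T x)) ∧ P (e (T x)) ≤ b' * u x)
    (he : ∀ x, XN t k x ≤ u x ∧ u x ≤ C₁ * XN t k x)
    (j : S →ₗ[ℝ] (Fin k → ℝ)) (q : (Fin k → ℝ) →ₗ[ℝ] S) (h1 : ∀ ω, q (j ω) = ω)
    (h2 : ∀ ω, P (e (j ω)) ≤ s ω) (h3 : ∀ x, s (q x) ≤ 9 * b ^ 2 * 2 * P (e x)) :
    Fac t (18 * b ^ 2 * b' * C₁) s := by
  refine ⟨k, T.symm.toLinearMap ∘ₗ j, q ∘ₗ T.toLinearMap, ?_, ?_, ?_⟩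
  · intro ω
    show q (T (T.symm (j ω))) = ω
    rw [LinearEquiv.apply_symm_apply, h1]
  · intro ω
    show XN t k (T.symm (j ω)) ≤ s ω
    have h4 := (hT (T.symm (j ω))).1
    rw [LinearEquiv.apply_symm_apply] at h4
    exact ((he _).1.trans h4).trans (h2 ω)
  · intro x
    show s (q (T x)) ≤ 18 * b ^ 2 * b' * C₁ * XN t k x
    have h4 := h3 (T x)
    have h5 := (hT x).2
    have h6 := mul_le_mul_of_nonneg_left (he x).2 hb'
    have h7 : (0 : ℝ) ≤ 9 * b ^ 2 * 2 := by positivity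
    calc s (q (T x)) ≤ 9 * b ^ 2 * 2 * P (e (T x)) := h4
      _ ≤ 9 * b ^ 2 * 2 * (b' * (C₁ * XN t k x)) :=
          mul_le_mul_of_nonneg_left (h5.trans h6) h7
      _ = 18 * b ^ 2 * b' * C₁ * XN t k x := by ring

theorem p_XG : Stmt_XG := by
  intro t hGRD hCPL hLIF hNRF hABS hNOR b b' θ D₁ c₁ hb hb' hθ hθ1 hD₁
  obtain ⟨C₁, hC₁, hA1⟩ := hABS θ hθ hθ1
  obtain ⟨M, hM⟩ := hNOR (18 * b ^ 2 * b' * C₁)
  obtain ⟨ν, hν⟩ := hNRF M
  obtain ⟨n₁, hn₁⟩ := hA1 ν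
  obtain ⟨A, hA, hG⟩ := hGRD M
  obtain ⟨B, hB, hL⟩ := hLIF M D₁ hD₁
  obtain ⟨D₀, hD₀, hC⟩ := hCPL M A 2 hA (by norm_num)
  refine ⟨D₀ * (B * B) + 1, M, max n₁ (max (M + 1) ⌈((M : ℝ) + c₁) / θ⌉₊), ?_, ?_⟩
  · have : 0 < D₀ * (B * B) := by positivity
    linarith
  intro N k V _ _ _ P R i F₁ hN hk1 hk2 hP hR hi hyp hyp' hF1 hF2
  have hN1 : n₁ ≤ N := (le_max_left _ _).trans hN
  have hN2 : M + 1 ≤ N := (le_max_left _ _).trans ((le_max_right _ _).trans hN)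
  have hN3 : ⌈((M : ℝ) + c₁) / θ⌉₊ ≤ N := (le_max_right _ _).trans ((le_max_right _ _).trans hN)
  have hMk : M + c₁ ≤ k := by
    have h3 : ((M : ℝ) + c₁) / θ ≤ N := (Nat.le_ceil _).trans (by exact_mod_cast hN3)
    rw [div_le_iff₀ hθ] at h3
    have h4 : (M : ℝ) + c₁ ≤ k := by linarith
    exact_mod_cast h4
  have hfr : N ≤ finrank ℝ V := by
    have h3 := LinearMap.finrank_le_finrank_of_injective hi
    rwa [Module.finrank_fintype_fun_eq_card, Fintype.card_fin] at h3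
  obtain ⟨ρ, W, a, F, hρ, hT, hFc, hFb⟩ := hG V P R hP hR (by omega)
  rcases le_or_gt ρ (D₀ * (B * B) + 1) with hρ2 | hρ2
  · exact ⟨F, hFc, fun x hx => (hFb x hx).trans
      (mul_le_mul_of_nonneg_right hρ2 (apply_nonneg _ _))⟩
  exfalso
  have hWi : Function.Injective W := by
    intro x y hxy
    rw [← hT.aW x, ← hT.aW y, hxy]
  obtain ⟨S, hS⟩ := hM (P.comp W) (hP.comp W hWi)
  apply hS
  have hSM : finrank ℝ S ≤ M := by
    have h3 := Submodule.finrank_le S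
    rwa [Module.finrank_fintype_fun_eq_card, Fintype.card_fin] at h3
  obtain ⟨Φ, hΦ1, hΦ2⟩ := hν V P hP (S.map W) ((Submodule.finrank_map_le W S).trans hSM)
  have hΦ3 : N ≤ finrank ℝ (Φ.comap i) + ν := by
    have h3 := XC_comap i Φ
    rw [Module.finrank_fintype_fun_eq_card, Fintype.card_fin] at h3
    omega
  obtain ⟨e₀, he1, he2⟩ := hn₁ N k _ hN1 hk2 hΦ3
  have he0 : Function.Injective e₀ := by
    rw [← LinearMap.ker_eq_bot, LinearMap.ker_eq_bot']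
    intro x hx
    have h2 := (he2 x).1
    rw [hx, map_zero] at h2
    exact XN_def t k x (le_antisymm h2 (apply_nonneg _ _))
  have hei : Function.Injective (i ∘ₗ e₀) := hi.comp he0
  have hcom : finrank ℝ S ≤ finrank ℝ ((F₁.map i).comap (i ∘ₗ e₀)) := by
    have h3 : (F₁.map i).comap (i ∘ₗ e₀) = F₁.comap e₀ := by
      rw [Submodule.comap_comp, Submodule.comap_map_eq_of_injective hi]
    rw [h3]
    have h4 := XC_comap e₀ F₁
    rw [Module.finrank_fintype_fun_eq_card, Module.finrank_fintype_fun_eq_card,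
      Fintype.card_fin, Fintype.card_fin] at h4
    omega
  obtain ⟨τ, ξ, hτ1, hτ2, hτ3⟩ := hL V P R k (finrank ℝ S) (i ∘ₗ e₀) (F₁.map i) hP hR hei
    (by
      rintro x ⟨y, hy, rfl⟩
      exact hF2 y hy) hSM hcom
  obtain ⟨j, qq, hj1, hj2, hj3⟩ := hC V P R b k (finrank ℝ S) ρ B B
    W a S (i ∘ₗ e₀) τ ξ hb hP hR hyp hT rfl hei hB hB (by linarith) hτ1 hτ2 hτ3
    (fun ω hω x _ => hΦ2 (W ω) ⟨ω, hω, rfl⟩ _ (he1 x))
  obtain ⟨T, hT2⟩ := hyp'.inj e₀ he0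
    (by rw [Module.finrank_fintype_fun_eq_card, Fintype.card_fin])
  exact XG_fac (t := t) (by linarith) (u := (XN t N).comp e₀) (i ∘ₗ e₀) T hT2
    (fun x => he2 x) j qq hj1 hj2 hj3

end Pool.RX
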