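import Pool.Agent.Work.MP_3e8c7a.Glue

/-!
# MP_3e8c7a_an, THEOREM RX: rigidity of cube and cross-polytope factors. Basic definitions

`Iso`, `Hyp`, `Def`, `ds` are in `Pool/Agent/Work/MP_3e8c7a/{Base,Hyper}.lean`.
-/

set_option autoImplicit false

namespace Pool.RX

open Module Pool.Agent.MP3e8c7a

/-- the norm of `ℓ_1` -/
noncomputable def oneS (N : ℕ) : Seminorm ℝ (Fin N → ℝ) :=
  Seminorm.of (fun x => ∑ i, |x i|)
    (fun x y => by
      rw [← Finset.sum_add_distrib]
      exact Finset.sum_le_sum fun i _ => abs_add_le (x i) (y i))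
    (fun a x => by
      rw [Finset.mul_sum]
      refine Finset.sum_congr rfl fun i _ => ?_
      rw [Pi.smul_apply, smul_eq_mul, abs_mul, Real.norm_eq_abs])

@[simp] theorem oneS_apply (N : ℕ) (x : Fin N → ℝ) : oneS N x = ∑ i, |x i| := rfl

/-- the norm of `ℓ_∞` (`t = true`) or `ℓ_1` (`t = false`) -/
noncomputable def XN (t : Bool) (N : ℕ) : Seminorm ℝ (Fin N → ℝ) :=
  if t then normSeminorm ℝ (Fin N → ℝ) else oneS N

theorem XN_true (N : ℕ) (x : Fin N → ℝ) : XN true N x = ‖x‖ := rfl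

theorem XN_false (N : ℕ) (x : Fin N → ℝ) : XN false N x = ∑ i, |x i| := rfl

theorem norm_le_one (N : ℕ) (x : Fin N → ℝ) : ‖x‖ ≤ ∑ i, |x i| := by
  rw [pi_norm_le_iff_of_nonneg (Finset.sum_nonneg fun i _ => abs_nonneg (x i))]
  intro i
  rw [Real.norm_eq_abs]
  exact Finset.single_le_sum (f := fun i => |x i|) (fun i _ => abs_nonneg (x i))
    (Finset.mem_univ i)

theorem norm_le_XN (t : Bool) (N : ℕ) (x : Fin N → ℝ) : ‖x‖ ≤ XN t N x := by
  cases t
  · rw [XN_false]
    exact norm_le_one N x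
  · rw [XN_true]

theorem XN_def (t : Bool) (N : ℕ) : Def (XN t N) := by
  intro x hx
  have h := norm_le_XN t N x
  rw [hx] at h
  exact norm_le_zero_iff.1 h

/-- extension by zero along an embedding -/
def emb {k N : ℕ} (f : Fin k ↪ Fin N) : (Fin k → ℝ) →ₗ[ℝ] (Fin N → ℝ) where
  toFun x := fun i => ∑ l, if f l = i then x l else 0
  map_add' x y := by
    funext i
    rw [Pi.add_apply, ← Finset.sum_add_distrib]
    refine Finset.sum_congr rfl fun l _ => ?_
    split_ifs
    · rfl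
    · simp
  map_smul' c x := by
    funext i
    rw [Pi.smul_apply, smul_eq_mul, Finset.mul_sum]
    refine Finset.sum_congr rfl fun l _ => ?_
    split_ifs
    · rfl
    · simp

theorem emb_apply {k N : ℕ} (f : Fin k ↪ Fin N) (x : Fin k → ℝ) (l : Fin k) :
    emb f x (f l) = x l := by
  change ∑ j, (if f j = f l then x j else 0) = x l
  rw [Finset.sum_eq_single l]
  · rw [if_pos rfl]
  · intro j _ hj
    rw [if_neg fun h => hj (f.injective h)]
  · intro h
    exact absurd (Finset.mem_univ l) h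

theorem emb_zero {k N : ℕ} (f : Fin k ↪ Fin N) (x : Fin k → ℝ) (i : Fin N)
    (hi : ∀ l, f l ≠ i) : emb f x i = 0 := by
  change ∑ j, (if f j = i then x j else 0) = 0
  exact Finset.sum_eq_zero fun j _ => if_neg (hi j)

/-- sums over the range of an embedding -/
theorem emb_sum {k N : ℕ} (f : Fin k ↪ Fin N) (x : Fin k → ℝ) (g : Fin N → ℝ → ℝ)
    (hg : ∀ i, g i 0 = 0) : ∑ i, g i (emb f x i) = ∑ l, g (f l) (x l) := by
  have h1 : ∑ l, g (f l) (x l) = ∑ i ∈ Finset.univ.map f, g i (emb f x i) := by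
    rw [Finset.sum_map]
    exact Finset.sum_congr rfl fun l _ => by rw [emb_apply]
  rw [h1]
  symm
  refine Finset.sum_subset (Finset.subset_univ _) fun i _ hi => ?_
  rw [emb_zero f x i fun l h => hi (Finset.mem_map.2 ⟨l, Finset.mem_univ l, h⟩), hg]

theorem emb_XN (t : Bool) {k N : ℕ} (f : Fin k ↪ Fin N) (x : Fin k → ℝ) :
    XN t N (emb f x) = XN t k x := by
  cases t
  · rw [XN_false, XN_false]
    exact emb_sum f x (fun _ y => |y|) fun _ => abs_zero
  · rw [XN_true, XN_true]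
    refine le_antisymm ?_ ?_
    · rw [pi_norm_le_iff_of_nonneg (norm_nonneg x)]
      intro i
      by_cases h : ∃ l, f l = i
      · obtain ⟨l, rfl⟩ := h
        rw [emb_apply]
        exact norm_le_pi_norm x l
      · rw [emb_zero f x i fun l hl => h ⟨l, hl⟩, norm_zero]
        exact norm_nonneg x
    · rw [pi_norm_le_iff_of_nonneg (norm_nonneg _)]
      intro l
      rw [← emb_apply f x l]
      exact norm_le_pi_norm _ _

/-- an embedding whose range contains `J` and avoids `A` -/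
theorem exists_emb {k N : ℕ} (J A : Finset (Fin N)) (hJA : Disjoint J A) (h1 : J.card ≤ k)
    (h2 : k + A.card ≤ N) : ∃ f : Fin k ↪ Fin N, (∀ i ∈ J, ∃ l, f l = i) ∧ ∀ l, f l ∉ A := by
  have h3 : J ⊆ Aᶜ := fun i hi => Finset.mem_compl.2 fun h => Finset.disjoint_left.1 hJA hi h
  have h4 : k ≤ (Aᶜ).card := by
    rw [Finset.card_compl, Fintype.card_fin]
    omega
  obtain ⟨I, hJI, hIA, hI⟩ := Finset.exists_subsuperset_card_eq h3 h1 h4
  refine ⟨(I.orderEmbOfFin hI).toEmbedding, fun i hi => ?_, fun l hl => ?_⟩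
  · have h5 : i ∈ Set.range (I.orderEmbOfFin hI) := by
      rw [Finset.range_orderEmbOfFin]
      exact hJI hi
    exact h5
  · exact Finset.mem_compl.1 (hIA (Finset.orderEmbOfFin_mem I hI l)) hl

/-- `A` with the norm `s` is `C`-isomorphic to a `C`-complemented subspace of `ℓ_∞^k` or
`ℓ_1^k`: the identity of `A` is `q j`, `‖j‖ ≤ 1`, `‖q‖ ≤ C` -/
def Fac (t : Bool) (C : ℝ) {A : Type} [AddCommGroup A] [Module ℝ A] (s : Seminorm ℝ A) : Prop :=
  ∃ (k : ℕ) (j : A →ₗ[ℝ] (Fin k → ℝ)) (q : (Fin k → ℝ) →ₗ[ℝ] A), (∀ a, q (j a) = a) ∧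
    (∀ a, XN t k (j a) ≤ s a) ∧ ∀ x, s (q x) ≤ C * XN t k x

section top

variable {V : Type} [AddCommGroup V] [Module ℝ V]

/-- a space `W(ℝ^M)` on which `p` is much larger than `r` (by the factor `ρ`, up to constants that
depend on `M` only), with coordinate functionals `a` bounded in both norms -/
structure Top (M : ℕ) (A ρ : ℝ) (p r : Seminorm ℝ V) (W : (Fin M → ℝ) →ₗ[ℝ] V)
    (a : V →ₗ[ℝ] (Fin M → ℝ)) : Prop where
  aW : ∀ ω, a (W ω) = ω
  rW : ∀ ω, r (W ω) ≤ A * ‖ω‖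
  ra : ∀ x, ‖a x‖ ≤ A * r x
  pa : ∀ x, ρ * ‖a x‖ ≤ A * p x

end top

end Pool.RX
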