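import Pool.Agent.Work.MP_3e8c7a_r.Rig

/-!
# MP_3e8c7a_an, THEOREM RX: the theorem for convex bodies
-/

set_option autoImplicit false

namespace Pool.RX

open Module Pool.Agent.MP3e8c7a
open scoped Pointwise

/-- `K` is a linear image of `[-1,1]^N × W` for a symmetric convex body `W` of some `ℝ^d`, up to
the factor `M`. -/
def CubeFactor (M : ℝ) (N : ℕ) {n : ℕ} (K : Set (Fin n → ℝ)) : Prop :=
  ∃ (d : ℕ) (A : (Fin n → ℝ) ≃ₗ[ℝ] (Fin N → ℝ) × (Fin d → ℝ)) (W : Set (Fin d → ℝ)), IsBody W ∧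
    {x | (∀ i, |(A x).1 i| ≤ 1) ∧ (A x).2 ∈ W} ⊆ K ∧
    K ⊆ M • {x | (∀ i, |(A x).1 i| ≤ 1) ∧ (A x).2 ∈ W}

/-- `K` is a linear image of `O × W`, `O` the cross-polytope of `ℝ^N`, `W` a symmetric convex body
of some `ℝ^d`, up to the factor `M`. -/
def CrossFactor (M : ℝ) (N : ℕ) {n : ℕ} (K : Set (Fin n → ℝ)) : Prop :=
  ∃ (d : ℕ) (A : (Fin n → ℝ) ≃ₗ[ℝ] (Fin N → ℝ) × (Fin d → ℝ)) (W : Set (Fin d → ℝ)), IsBody W ∧
    {x | ∑ i, |(A x).1 i| ≤ 1 ∧ (A x).2 ∈ W} ⊆ K ∧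
    K ⊆ M • {x | ∑ i, |(A x).1 i| ≤ 1 ∧ (A x).2 ∈ W}

/-- both definitions together -/
def XFactor (t : Bool) (M : ℝ) (N : ℕ) {n : ℕ} (K : Set (Fin n → ℝ)) : Prop :=
  ∃ (d : ℕ) (A : (Fin n → ℝ) ≃ₗ[ℝ] (Fin N → ℝ) × (Fin d → ℝ)) (W : Set (Fin d → ℝ)), IsBody W ∧
    {x | XN t N (A x).1 ≤ 1 ∧ (A x).2 ∈ W} ⊆ K ∧
    K ⊆ M • {x | XN t N (A x).1 ≤ 1 ∧ (A x).2 ∈ W}

theorem CubeFactor.x {M : ℝ} {N n : ℕ} {K : Set (Fin n → ℝ)} (h : CubeFactor M N K) :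
    XFactor true M N K := by
  obtain ⟨d, A, W, hW, h1, h2⟩ := h
  have e : {x | XN true N (A x).1 ≤ 1 ∧ (A x).2 ∈ W} =
      {x | (∀ i, |(A x).1 i| ≤ 1) ∧ (A x).2 ∈ W} := by
    ext x
    have h3 : XN true N (A x).1 ≤ 1 ↔ ∀ i, |(A x).1 i| ≤ 1 := by
      rw [XN_true]
      exact pi_norm_le_iff_of_nonneg zero_le_one
    exact and_congr_left fun _ => h3
  refine ⟨d, A, W, hW, ?_, ?_⟩
  · rw [e]
    exact h1
  · rw [e]
    exact h2

theorem CrossFactor.x {M : ℝ} {N n : ℕ} {K : Set (Fin n → ℝ)} (h : CrossFactor M N K) :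
    XFactor false M N K := h

/-- the norm level data of a factor -/
theorem XFactor.data {t : Bool} {M : ℝ} (hM : 1 ≤ M) {N n : ℕ} {K : Set (Fin n → ℝ)}
    {p : Seminorm ℝ (Fin n → ℝ)} (hp : Def p) (hK : ∀ x, x ∈ K ↔ p x ≤ 1)
    (h : XFactor t M N K) : ∃ (d : ℕ) (A : (Fin n → ℝ) ≃ₗ[ℝ] (Fin N → ℝ) × (Fin d → ℝ))
      (q : Seminorm ℝ (Fin d → ℝ)), Def q ∧ ∀ x, p x ≤ ds (XN t N) q (A x) ∧
        ds (XN t N) q (A x) ≤ 2 * M * p x := by
  obtain ⟨d, A, W, hW, h1, h2⟩ := h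
  obtain ⟨q, hq, hWq⟩ := hW.exists_seminorm
  have hM0 : 0 < M := by linarith
  refine ⟨d, A, q, hq, fun x => ⟨?_, ?_⟩⟩
  · have hdsd : Def (ds (XN t N) q) := by
      intro x hx
      have h1 : XN t N x.1 + q x.2 = 0 := hx
      have h2 : 0 ≤ XN t N x.1 := apply_nonneg _ _
      have h3 : 0 ≤ q x.2 := apply_nonneg _ _
      exact Prod.ext (XN_def t N _ (by linarith)) (hq _ (by linarith))
    rcases (apply_nonneg (ds (XN t N) q) (A x)).lt_or_eq with h0 | h0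
    · have h3 : (ds (XN t N) q (A x))⁻¹ • x ∈ K := by
        apply h1
        have e1 : ds (XN t N) q (A x) = XN t N (A x).1 + q (A x).2 := rfl
        have e2 : 0 ≤ XN t N (A x).1 := apply_nonneg _ _
        have e3 : 0 ≤ q (A x).2 := apply_nonneg _ _
        refine ⟨?_, ?_⟩
        · rw [map_smul, Prod.smul_fst, map_smul_eq_mul, Real.norm_eq_abs,
            abs_of_pos (inv_pos.2 h0), inv_mul_le_iff₀ h0]
          linarith
        · rw [map_smul, Prod.smul_snd, hWq, map_smul_eq_mul, Real.norm_eq_abs,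
            abs_of_pos (inv_pos.2 h0), inv_mul_le_iff₀ h0]
          linarith
      rw [hK, map_smul_eq_mul, Real.norm_eq_abs, abs_of_pos (inv_pos.2 h0),
        inv_mul_le_iff₀ h0, mul_one] at h3
      exact h3
    · have h3 : A x = 0 := hdsd _ h0.symm
      have h4 : x = 0 := by
        apply A.injective
        rw [h3, map_zero]
      rw [h4, map_zero, map_zero, map_zero]
  · rcases (apply_nonneg p x).lt_or_eq with h0 | h0
    · have h3 : (p x)⁻¹ • x ∈ K := by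
        rw [hK, map_smul_eq_mul, Real.norm_eq_abs, abs_of_pos (inv_pos.2 h0),
          inv_mul_cancel₀ h0.ne']
      have h4 := h2 h3
      rw [Set.mem_smul_set_iff_inv_smul_mem₀ (by linarith)] at h4
      obtain ⟨h5, h6⟩ := h4
      rw [map_smul, map_smul, Prod.smul_fst, Prod.smul_fst, map_smul_eq_mul, map_smul_eq_mul,
        Real.norm_eq_abs, Real.norm_eq_abs, abs_of_pos (inv_pos.2 h0),
        abs_of_pos (inv_pos.2 hM0), inv_mul_le_iff₀ hM0, inv_mul_le_iff₀ h0] at h5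
      rw [map_smul, map_smul, Prod.smul_snd, Prod.smul_snd, hWq, map_smul_eq_mul,
        map_smul_eq_mul, Real.norm_eq_abs, Real.norm_eq_abs, abs_of_pos (inv_pos.2 h0),
        abs_of_pos (inv_pos.2 hM0), inv_mul_le_iff₀ hM0, inv_mul_le_iff₀ h0] at h6
      change XN t N (A x).1 + q (A x).2 ≤ 2 * M * p x
      linarith
    · have h3 : x = 0 := hp _ h0.symm
      rw [h3, map_zero, map_zero, map_zero, mul_zero]

/-- the theorem for the norms of `ℝ^n` -/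
theorem main_norm (t : Bool) (hBAS : Stmt_BAS) (hRIG : Stmt_RIG t) (b α ε M : ℝ) (hb : 1 ≤ b)
    (hα : 0 < α) (hα1 : α < 1) (hε : 0 < ε) (hM : 1 ≤ M) : ∃ (D : ℝ) (c : ℕ), 1 ≤ D ∧
    ∀ (n N : ℕ) (K : Set (Fin n → ℝ)) (p r : Seminorm ℝ (Fin n → ℝ)), 0 < n →
      (α + ε) * n ≤ N → Def p → Def r → (∀ x, x ∈ K ↔ p x ≤ 1) → Hyp b ⌈α * n⌉₊ p r →
      XFactor t M N K →
      (∃ (lam : ℝ) (F : Submodule ℝ (Fin n → ℝ)), 0 < lam ∧ n ≤ finrank ℝ F + c ∧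
        ∀ x ∈ F, p x ≤ D * (lam * r x) ∧ lam * r x ≤ D * p x) ∧ Iso D p r := by
  obtain ⟨D, c, hD, h⟩ := rig_all t hBAS hRIG (2 * M * b) α ε (by nlinarith) hα hα1 hε
  have hM0 : 0 < M := by linarith
  have hD0 : 0 < D := by linarith
  have hDM : D ≤ 2 * M * D := by nlinarith
  refine ⟨2 * M * D, c, by nlinarith, ?_⟩
  intro n N K p r hn hN hp hr hK H hX
  obtain ⟨d, A, q, hq, hA⟩ := hX.data hM hp hK
  have hAs : ∀ y, p (A.symm y) ≤ ds (XN t N) q y ∧ ds (XN t N) q y ≤ 2 * M * p (A.symm y) := by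
    intro y
    have h1 := hA (A.symm y)
    rwa [A.apply_symm_apply] at h1
  let r' : Seminorm ℝ ((Fin N → ℝ) × (Fin d → ℝ)) :=
    r.comp (A.symm : (Fin N → ℝ) × (Fin d → ℝ) →ₗ[ℝ] (Fin n → ℝ))
  have hr' : Def r' := hr.comp _ A.symm.injective
  have hr'A : ∀ x, r' (A x) = r x := by
    intro x
    change r (A.symm (A x)) = r x
    rw [A.symm_apply_apply]
  have H' : Hyp (2 * M * b) ⌈α * n⌉₊ (ds (XN t N) q) r' := by
    have H1 := H.comp (A.symm : (Fin N → ℝ) × (Fin d → ℝ) →ₗ[ℝ] (Fin n → ℝ)) A.symm.injective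
    intro E hE
    obtain ⟨T, hT⟩ := H1 E hE
    have h1 := Iso.of_bounds (p := (ds (XN t N) q).comp E.subtype) (r := r'.comp E.subtype) T
      (A := 2 * M) (B := b) (by linarith) (fun x => by
        have h2 := (hT x).1
        have h3 := (hAs x).2
        change ds (XN t N) q (x : (Fin N → ℝ) × (Fin d → ℝ)) ≤ 2 * M * _
        refine h3.trans (mul_le_mul_of_nonneg_left h2 (by linarith))) (fun x => by
        have h2 := (hT x).2
        have h3 := (hAs x).1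
        exact h2.trans (mul_le_mul_of_nonneg_left h3 (by linarith)))
    exact h1
  have hf : finrank ℝ ((Fin N → ℝ) × (Fin d → ℝ)) = n := by
    rw [← LinearEquiv.finrank_eq A, Module.finrank_fintype_fun_eq_card, Fintype.card_fin]
  obtain ⟨⟨lam, F, hlam, hF, hFF⟩, T, hT⟩ := h n N (Fin d → ℝ) q r' hn hf hN hq hr' H'
  refine ⟨⟨lam, F.comap (A : (Fin n → ℝ) →ₗ[ℝ] (Fin N → ℝ) × (Fin d → ℝ)), hlam, ?_,
    fun x hx => ?_⟩, ?_⟩
  · have e : finrank ℝ (F.comap (A : (Fin n → ℝ) →ₗ[ℝ] (Fin N → ℝ) × (Fin d → ℝ))) =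
        finrank ℝ F := LinearEquiv.finrank_eq (A.ofSubmodule' F)
    rw [e]
    exact hF
  · have h1 := hFF (A x) hx
    rw [hr'A] at h1
    have h2 := hA x
    have h3 : 0 ≤ lam * r x := mul_nonneg hlam.le (apply_nonneg r x)
    refine ⟨?_, ?_⟩
    · exact (h2.1.trans h1.1).trans (mul_le_mul_of_nonneg_right hDM h3)
    · calc lam * r x ≤ D * ds (XN t N) q (A x) := h1.2
        _ ≤ D * (2 * M * p x) := mul_le_mul_of_nonneg_left h2.2 hD0.le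
        _ = 2 * M * D * p x := by ring
  · have h1 := Iso.of_bounds (p := p) (r := r) ((A.trans T).trans A.symm) (A := 1)
      (B := 2 * M * D) one_pos (fun x => by
        have h2 := (hT (A x)).1
        have h3 := (hA x).1
        have e : r (((A.trans T).trans A.symm) x) = r' (T (A x)) := rfl
        rw [e, one_mul]
        exact h3.trans h2) (fun x => by
        have h2 := (hT (A x)).2
        have h3 := (hA x).2
        have e : r (((A.trans T).trans A.symm) x) = r' (T (A x)) := rfl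
        rw [e]
        calc r' (T (A x)) ≤ D * ds (XN t N) q (A x) := h2
          _ ≤ D * (2 * M * p x) := mul_le_mul_of_nonneg_left h3 hD0.le
          _ = 2 * M * D * p x := by ring)
    rwa [one_mul] at h1

/-- from the norms to the bodies -/
theorem bodies_close {n : ℕ} {K L : Set (Fin n → ℝ)} {p r : Seminorm ℝ (Fin n → ℝ)}
    (hK : ∀ x, x ∈ K ↔ p x ≤ 1) (hL : ∀ x, x ∈ L ↔ r x ≤ 1) {D lam : ℝ} (hD : 1 ≤ D)
    (hlam : 0 < lam) {F : Submodule ℝ (Fin n → ℝ)}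
    (h : ∀ x ∈ F, p x ≤ D * (lam * r x) ∧ lam * r x ≤ D * p x) :
    (∀ x ∈ F, x ∈ K → x ∈ (D / lam) • L) ∧ ∀ x ∈ F, x ∈ (D / lam) • L → x ∈ (D * D) • K := by
  have hD0 : 0 < D := by linarith
  have hDl : 0 < D / lam := div_pos hD0 hlam
  refine ⟨fun x hx hxK => ?_, fun x hx hxL => ?_⟩
  · rw [Set.mem_smul_set_iff_inv_smul_mem₀ hDl.ne', hL, map_smul_eq_mul, Real.norm_eq_abs,
      abs_of_pos (inv_pos.2 hDl), inv_mul_le_iff₀ hDl, mul_one, le_div_iff₀ hlam]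
    have h1 := (h x hx).2
    have h2 := (hK x).1 hxK
    nlinarith
  · rw [Set.mem_smul_set_iff_inv_smul_mem₀ hDl.ne', hL, map_smul_eq_mul, Real.norm_eq_abs,
      abs_of_pos (inv_pos.2 hDl), inv_mul_le_iff₀ hDl, mul_one, le_div_iff₀ hlam] at hxL
    have hDD : 0 < D * D := mul_pos hD0 hD0
    rw [Set.mem_smul_set_iff_inv_smul_mem₀ hDD.ne', hK, map_smul_eq_mul, Real.norm_eq_abs,
      abs_of_pos (inv_pos.2 hDD), inv_mul_le_iff₀ hDD, mul_one]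
    have h1 := (h x hx).1
    nlinarith

/-- the theorem for bodies, one of the two factors -/
theorem main_x (t : Bool) (hBAS : Stmt_BAS) (hRIG : Stmt_RIG t) (α ε b M : ℝ)
    (hα : 0 < α) (hα1 : α < 1) (hε : 0 < ε) (hM : 1 ≤ M) : ∃ C : ℝ, 1 ≤ C ∧
    ∀ n : ℕ, 0 < n → ∀ K L : Set (Fin n → ℝ), IsBody K → IsBody L →
      SectionsClose ⌈α * n⌉₊ b K L → ∀ N : ℕ, (α + ε) * n ≤ N →
      (XFactor t M N K ∨ XFactor t M N L) →
      dBM K L ≤ ENNReal.ofReal C ∧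
      ∃ (lam : ℝ) (U : Submodule ℝ (Fin n → ℝ)), 0 < lam ∧ (n : ℝ) ≤ finrank ℝ U + C ∧
        (∀ x ∈ U, x ∈ K → x ∈ lam • L) ∧ ∀ x ∈ U, x ∈ lam • L → x ∈ C • K := by
  have hb : 1 ≤ |b| + 1 := by linarith [abs_nonneg b]
  obtain ⟨D, c, hD, h⟩ := main_norm t hBAS hRIG (|b| + 1) α ε M hb hα hα1 hε hM
  have hD0 : 0 < D := by linarith
  have hDD : 1 ≤ D * D := by nlinarith
  have hc0 : (0 : ℝ) ≤ c := Nat.cast_nonneg c
  refine ⟨D * D + c, by linarith, ?_⟩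
  intro n hn K L hK hL hS N hN hX
  obtain ⟨p, hp, hKp⟩ := hK.exists_seminorm
  obtain ⟨r, hr, hLr⟩ := hL.exists_seminorm
  have H : Hyp (|b| + 1) ⌈α * n⌉₊ p r := hS.hyp hp hr hKp hLr
  have key : (∃ (lam : ℝ) (F : Submodule ℝ (Fin n → ℝ)), 0 < lam ∧ n ≤ finrank ℝ F + c ∧
      ∀ x ∈ F, p x ≤ D * (lam * r x) ∧ lam * r x ≤ D * p x) ∧ Iso D p r := by
    rcases hX with hX | hX
    · exact h n N K p r hn hN hp hr hKp H hX
    · obtain ⟨⟨lam, F, hlam, hF, hFF⟩, hI⟩ := h n N L r p hn hN hr hp hLr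
        (H.symm (by linarith)) hX
      refine ⟨⟨lam⁻¹, F, inv_pos.2 hlam, hF, fun x hx => ?_⟩, hI.symm hD0⟩
      obtain ⟨h1, h2⟩ := hFF x hx
      constructor
      · rw [← mul_assoc, mul_comm D, mul_assoc, le_inv_mul_iff₀ hlam]
        exact h2
      · rw [inv_mul_le_iff₀ hlam]
        calc r x ≤ D * (lam * p x) := h1
          _ = lam * (D * p x) := by ring
  obtain ⟨⟨lam, F, hlam, hF, hFF⟩, hI⟩ := key
  refine ⟨(hI.mono (by nlinarith)).dBM_le (by linarith) hKp hLr, D / lam, F,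
    div_pos hD0 hlam, ?_, ?_, ?_⟩
  · have h1 : (n : ℝ) ≤ finrank ℝ F + c := by exact_mod_cast hF
    linarith
  · exact (bodies_close hKp hLr hD hlam hFF).1
  · intro x hx hxL
    have h1 := (bodies_close hKp hLr hD hlam hFF).2 x hx hxL
    have hpos : 0 < D * D + c := by linarith
    have hDD0 : 0 < D * D := by linarith
    rw [Set.mem_smul_set_iff_inv_smul_mem₀ hDD0.ne', hKp, map_smul_eq_mul, Real.norm_eq_abs,
      abs_of_pos (inv_pos.2 hDD0), inv_mul_le_iff₀ hDD0, mul_one] at h1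
    rw [Set.mem_smul_set_iff_inv_smul_mem₀ hpos.ne', hKp, map_smul_eq_mul, Real.norm_eq_abs,
      abs_of_pos (inv_pos.2 hpos), inv_mul_le_iff₀ hpos, mul_one]
    linarith

/-- **The theorem for bodies.** -/
theorem main (hBAS : Stmt_BAS) (hRt : Stmt_RIG true) (hRf : Stmt_RIG false) (α ε b M : ℝ)
    (hα : 0 < α) (hα1 : α < 1) (hε : 0 < ε) (hM : 1 ≤ M) : ∃ C : ℝ, 1 ≤ C ∧
    ∀ n : ℕ, 0 < n → ∀ K L : Set (Fin n → ℝ), IsBody K → IsBody L →
      SectionsClose ⌈α * n⌉₊ b K L → ∀ N : ℕ, (α + ε) * n ≤ N →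
      (CubeFactor M N K ∨ CubeFactor M N L ∨ CrossFactor M N K ∨ CrossFactor M N L) →
      dBM K L ≤ ENNReal.ofReal C ∧
      ∃ (lam : ℝ) (U : Submodule ℝ (Fin n → ℝ)), 0 < lam ∧ (n : ℝ) ≤ finrank ℝ U + C ∧
        (∀ x ∈ U, x ∈ K → x ∈ lam • L) ∧ ∀ x ∈ U, x ∈ lam • L → x ∈ C • K := by
  obtain ⟨C₁, hC₁, h1⟩ := main_x true hBAS hRt α ε b M hα hα1 hε hM
  obtain ⟨C₂, hC₂, h2⟩ := main_x false hBAS hRf α ε b M hα hα1 hε hM
  refine ⟨C₁ + C₂, by linarith, ?_⟩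
  intro n hn K L hK hL hS N hN hX
  obtain ⟨p, hp, hKp⟩ := hK.exists_seminorm
  have mono : ∀ C C' : ℝ, 1 ≤ C → C ≤ C' → ∀ x, x ∈ C • K → x ∈ C' • K := by
    intro C C' hC hCC x hx
    have h3 : 0 < C := by linarith
    have h4 : 0 < C' := by linarith
    rw [Set.mem_smul_set_iff_inv_smul_mem₀ h3.ne', hKp, map_smul_eq_mul, Real.norm_eq_abs,
      abs_of_pos (inv_pos.2 h3), inv_mul_le_iff₀ h3, mul_one] at hx
    rw [Set.mem_smul_set_iff_inv_smul_mem₀ h4.ne', hKp, map_smul_eq_mul, Real.norm_eq_abs,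
      abs_of_pos (inv_pos.2 h4), inv_mul_le_iff₀ h4, mul_one]
    linarith
  have fin : ∀ C : ℝ, 1 ≤ C → C ≤ C₁ + C₂ → (dBM K L ≤ ENNReal.ofReal C ∧
      ∃ (lam : ℝ) (U : Submodule ℝ (Fin n → ℝ)), 0 < lam ∧ (n : ℝ) ≤ finrank ℝ U + C ∧
        (∀ x ∈ U, x ∈ K → x ∈ lam • L) ∧ ∀ x ∈ U, x ∈ lam • L → x ∈ C • K) →
      dBM K L ≤ ENNReal.ofReal (C₁ + C₂) ∧
      ∃ (lam : ℝ) (U : Submodule ℝ (Fin n → ℝ)), 0 < lam ∧
        (n : ℝ) ≤ finrank ℝ U + (C₁ + C₂) ∧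
        (∀ x ∈ U, x ∈ K → x ∈ lam • L) ∧ ∀ x ∈ U, x ∈ lam • L → x ∈ (C₁ + C₂) • K := by
    rintro C hC hCC ⟨h3, lam, U, hlam, hU, h4, h5⟩
    exact ⟨h3.trans (ENNReal.ofReal_le_ofReal hCC), lam, U, hlam, by linarith, h4,
      fun x hx hxL => mono C (C₁ + C₂) hC hCC x (h5 x hx hxL)⟩
  rcases hX with hX | hX | hX | hX
  · exact fin C₁ hC₁ (by linarith) (h1 n hn K L hK hL hS N hN (Or.inl hX.x))
  · exact fin C₁ hC₁ (by linarith) (h1 n hn K L hK hL hS N hN (Or.inr hX.x))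
  · exact fin C₂ hC₂ (by linarith) (h2 n hn K L hK hL hS N hN (Or.inl hX.x))
  · exact fin C₂ hC₂ (by linarith) (h2 n hn K L hK hL hS N hN (Or.inr hX.x))

end Pool.RX
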