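import Mathlib

/-!
# MP_3e8c7a_an, THEOREM RX: definitions
-/

set_option autoImplicit false

namespace Pool.RX

/-- `K` has a section of dimension `m` that is within `M` of a cross-polytope. -/
def HasCrossSection (M : ℝ) (m : ℕ) {n : ℕ} (K : Set (Fin n → ℝ)) : Prop :=
  ∃ i : (Fin m → ℝ) →ₗ[ℝ] (Fin n → ℝ), Function.Injective i ∧
    (∀ x, ∑ l, |x l| ≤ 1 → i x ∈ K) ∧ ∀ x, i x ∈ K → ∑ l, |x l| ≤ M

end Pool.RX
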