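import Pool.Agent.Work.MP_3e8c7a_r.Base

/-!
# MP_3e8c7a_an, THEOREM RX: rigidity of cube and cross-polytope factors. The blocks

File `Pool/Agent/Work/MP_3e8c7a_r/B_X.lean`, `import Pool.Agent.Work.MP_3e8c7a_r.Interface`,
namespace `Pool.RX`, `open Module Pool.Agent.MP3e8c7a`, `theorem p_X (hA : Stmt_A) .. : Stmt_X` with
exactly the blocks of the column `uses` as hypotheses in that order; auxiliary lemmas with the name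
of the block in front.  Useful: `exists_ext` (Hahn-Banach for seminorms, `MP_3e8c7a/Step.lean`),
`Iso`, `Hyp.inj`, `Hyp.symm`, `Def.comp`, `emb`, `emb_XN`, `exists_emb` (`Base.lean`).

THE THEOREM.  Let `V = ℝ^N × Y` with the norm `p = |x|_X + q y`, `X = ℓ_∞^N` or `ℓ_1^N`, `r` any
norm on `V`, `θ N ≤ k ≤ N - θ N`, and suppose that `p` and `r` are `b`-isomorphic on every subspace
of dimension `k`.  Then `p` and a multiple of `r` are equivalent with a constant `C(b,θ)` on a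
subspace of codimension `≤ C(b,θ)`.

THE PROOF.  If not, then for all `M` and all `ρ` there are `M` dimensional spaces `W(ℝ^M)` on which
`p` is much larger than `r` (`Top`, block GRD), and also such spaces with `p` and `r` exchanged.
TILT (block CPL): if `e : ℝ^k → V`, `τ : ℝ^k → ℝ^m` is bounded for `r`, has a lifting `ξ` bounded
for `p` and `S ≤ ℝ^M` has dimension `m`, then `e x ↦ e x + s W (v (τ x))` does not change `r`, so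
`p` on `e(ℝ^k)` is isomorphic to `p` on `W(S) + e(ker τ)`, with the constant `9 b²` only.  So every
subspace of `ℝ^M` is isomorphic to a complemented subspace of `X^k`, with a constant that does not
depend on `M`.  This is impossible for large `M` (block NOR).
-/

set_option autoImplicit false

namespace Pool.RX

open Module Pool.Agent.MP3e8c7a

/-! ### A. General facts on finite dimensional norms -/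

/-- BAS (100 lines; uses nothing). Induction on `m` (for all `V`).  `m = 0`: trivial.  `m + 1`:
choose `v` with `s v = 1` and (Hahn-Banach, `exists_ext`) a functional `f` with `f v = 1`,
`|f| ≤ s`.  `ker f` has dimension `m`, take `e'` for it; `x = f x • v + x'`, `s x' ≤ 2 s x`,
`e x = (f x, e' x')` (`Fin.cons`), `‖e' x'‖ ≤ 2^m s x' ≤ 2^(m+1) s x`. -/
def Stmt_BAS : Prop :=
  ∀ (m : ℕ) (V : Type) [AddCommGroup V] [Module ℝ V] [FiniteDimensional ℝ V]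
    (s : Seminorm ℝ V), Def s → finrank ℝ V = m →
    ∃ e : V ≃ₗ[ℝ] (Fin m → ℝ), (∀ x, ‖e x‖ ≤ 2 ^ m * s x) ∧ ∀ x, s x ≤ ∑ i, |e x i|

/-- GRD (200 lines; uses BAS). Greedy choice.  All ratios `p x / r x`, `x ≠ 0`, are bounded above and
below (BAS for `p` and for `r`).  Construct `x_1, x_2, ..` and functionals `f_1, f_2, ..`:
`V_0 = V`, `ρ_j = sup {p x / r x : x ∈ V_{j-1}, x ≠ 0}` (`> 0`, since `V_{j-1} ≠ 0`), `x_j ∈ V_{j-1}`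
with `r x_j = 1`, `p x_j ≥ ρ_j / 2`, `f_j x_j = p x_j`, `|f_j| ≤ p` on `V`,
`V_j = V_{j-1} ∩ ker f_j`.  `ρ_1 ≥ ρ_2 ≥ ..`.  Coordinates: `a_1 x = f_1 x / p x_1`,
`x' = x - a_1 x • x_1 ∈ V_1`, `a_2 x = f_2 x' / p x_2`, and so on.  `|a_1 x| ≤ p x / p x_1
≤ 2 p x / ρ_1 ≤ 2 r x`, `p x' ≤ 2 p x`, `r x' ≤ 3 r x`, `|a_2 x| ≤ p x' / p x_2 ≤ 2 r x'` (as
`x' ∈ V_1`), `≤ 2 p x' / ρ_2`, .. (constants `6^M`).  `W ω = ∑ ω_j x_j`, `F = V_M`, `ρ = ρ_{M+1}` (the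
supremum on `V_M ≠ 0`).  (Best: induction on `M` with the statement that moreover `x - W (a x) ∈ F`,
`p (x - W (a x)) ≤ A p x`, `r (x - W (a x)) ≤ A r x`, `a = 0` on `F`.) -/
def Stmt_GRD : Prop :=
  ∀ M : ℕ, ∃ A : ℝ, 1 ≤ A ∧ ∀ (V : Type) [AddCommGroup V] [Module ℝ V] [FiniteDimensional ℝ V]
    (p r : Seminorm ℝ V), Def p → Def r → M < finrank ℝ V →
    ∃ (ρ : ℝ) (W : (Fin M → ℝ) →ₗ[ℝ] V) (a : V →ₗ[ℝ] (Fin M → ℝ)) (F : Submodule ℝ V), 0 < ρ ∧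
      Top M A ρ p r W a ∧ finrank ℝ V ≤ finrank ℝ F + M ∧ ∀ x ∈ F, p x ≤ ρ * r x

/-- DUL (100 lines; uses nothing). Helly's lemma.  It suffices to find, for every `l`, a vector `ξ_l` with
`β_j ξ_l = δ_jl`, `s ξ_l ≤ 2 / c` (`ξ t = ∑ t_l • ξ_l`, `∑ |t_l| ≤ m ‖t‖`).  Let `U` be the intersection
of the `ker β_j`, `j ≠ l`.  If some `x ∈ U` has `β_l x > (c / 2) s x` take `ξ_l = (β_l x)⁻¹ • x`.
Otherwise `|β_l| ≤ (c / 2) s` on `U`, so (Hahn-Banach, `exists_ext`) there is `φ` on `V` with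
`|φ| ≤ (c / 2) s` and `φ = β_l` on `U`; then `φ - β_l = ∑_{j ≠ l} t_j β_j` (Mathlib:
`mem_span_of_iInf_ker_le_ker`), so the hypothesis for `t` with `t_l = 1` and `κ = c / 2` gives
`c ≤ c ‖t‖ ≤ c / 2`, a contradiction. -/
def Stmt_DUL : Prop :=
  ∀ (V : Type) [AddCommGroup V] [Module ℝ V] [FiniteDimensional ℝ V] (s : Seminorm ℝ V) (m : ℕ)
    (β : Fin m → V →ₗ[ℝ] ℝ) (c : ℝ), Def s → 0 < c →
    (∀ (t : Fin m → ℝ) (κ : ℝ), 0 ≤ κ → (∀ x, |∑ l, t l * β l x| ≤ κ * s x) → c * ‖t‖ ≤ κ) →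
    ∃ ξ : (Fin m → ℝ) →ₗ[ℝ] V, (∀ t l, β l (ξ t) = t l) ∧ ∀ t, s (ξ t) ≤ 2 * m / c * ‖t‖

/-- NET (120 lines; uses BAS). `e` of BAS, `m' = finrank V`, `Q = 4 (m + 1)`; `T` = the points
`e⁻¹ (z / Q)`, `z ∈ ℤ^m'`, `|z_i| ≤ 2^m Q`; `z_i` = the integer part of `Q (e x) i`. -/
def Stmt_NET : Prop :=
  ∀ m : ℕ, ∃ ν : ℕ, ∀ (V : Type) [AddCommGroup V] [Module ℝ V] [FiniteDimensional ℝ V]
    (s : Seminorm ℝ V), Def s → finrank ℝ V ≤ m →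
    ∃ T : Finset V, T.card ≤ ν ∧ ∀ x, s x ≤ 1 → ∃ y ∈ T, s (x - y) ≤ 1 / 4

/-- NRM (100 lines; uses NET). Few coordinates norm a space of small dimension.  `N = 0`: `J = ∅`.
NET for `s x = ‖w x‖ + q x`; for `y ∈ T` choose `i_y` with `|w y i_y| = ‖w y‖`; `J = {i_y}`.  By
homogeneity `s x = 1`; `s (x - y) ≤ 1/4`: `κ + q x ≥ |w x i_y| + q x ≥ ‖w y‖ + q y - s (x - y)
≥ s x - 2 s (x - y) ≥ 1/2`. -/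
def Stmt_NRM : Prop :=
  ∀ m : ℕ, ∃ ν : ℕ, ∀ (N : ℕ) (S : Type) [AddCommGroup S] [Module ℝ S] [FiniteDimensional ℝ S]
    (w : S →ₗ[ℝ] (Fin N → ℝ)) (q : Seminorm ℝ S), finrank ℝ S ≤ m →
    (∀ x, w x = 0 → q x = 0 → x = 0) →
    ∃ J : Finset (Fin N), J.card ≤ ν ∧ ∀ (x : S) (κ : ℝ), 0 ≤ κ → (∀ i ∈ J, |w x i| ≤ κ) →
      ‖w x‖ + q x ≤ 2 * (κ + q x)

/-- NRF (80 lines; uses NET). NET for `r` on `S`, for `y ∈ T` a functional `φ_y` with `φ_y y = r y`,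
`|φ_y| ≤ r`; `Φ` = the intersection of the kernels.  `r w = 1`, `r (w - y) ≤ 1/4`:
`r (w + x) ≥ φ_y (w + x) = φ_y w ≥ r y - 1/4 ≥ 1/2`. -/
def Stmt_NRF : Prop :=
  ∀ m : ℕ, ∃ ν : ℕ, ∀ (V : Type) [AddCommGroup V] [Module ℝ V] [FiniteDimensional ℝ V]
    (r : Seminorm ℝ V), Def r → ∀ S : Submodule ℝ V, finrank ℝ S ≤ m →
    ∃ Φ : Submodule ℝ V, finrank ℝ V ≤ finrank ℝ Φ + ν ∧ ∀ w ∈ S, ∀ x ∈ Φ, r w ≤ 2 * r (w + x)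

/-! ### B. The tilt -/

/-- CPL (250 lines; uses nothing). `κ = M + 1`; choose an isomorphism `v : ℝ^m ≃ S` with
`‖v t‖ ≤ κ ‖t‖`, `‖t‖ ≤ κ ‖v t‖` (an orthonormal basis of `S` for the Euclidean scalar product of
`ℝ^M`; `‖x‖ ≤ |x|_2 ≤ √M ‖x‖`).  `s = 1 / (2 A κ B)`, `u x = e x + s W (v (τ x))`,
`D = 4 A² κ² C₀`.  (1) `R (s W v τ x) ≤ s A κ ‖τ x‖ ≤ R (e x) / 2`.  So `u` is injective,
`R (e x) ≤ R (u (2 x)) ≤ 3 R (e x)`.  `Hyp.inj` for `e` and `u`: there is an isomorphism `T` of `ℝ^k`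
with `P (e x) ≤ P (u (T x)) ≤ 3 b² P (e x)`.  (2) If `τ g = 0` then `P (s W v t + e g)
≥ P (s W v t) / C₀ ≥ s ρ ‖a (W v t)‖ / (A C₀) = s ρ ‖v t‖ / (A C₀) ≥ 2 B' ‖t‖ ≥ 2 P (e (ξ t))`.  For
`x ∈ ℝ^k`, `t = τ x`, `g = x - ξ t`: `P (u x) ≥ P (s W v t + e g) / 2 ≥ P (s W v t) / (2 C₀)`, and
`P (u (ξ t)) ≤ 3/2 P (s W v t)`.  `j ω = 2 / (3 s) • T⁻¹ (ξ (v⁻¹ ω))`,
`q x = (3 s / 2) • v (τ (T x))`. -/
def Stmt_CPL : Prop :=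
  ∀ (M : ℕ) (A C₀ : ℝ), 1 ≤ A → 1 ≤ C₀ → ∃ D : ℝ, 0 < D ∧
    ∀ (V : Type) [AddCommGroup V] [Module ℝ V] [FiniteDimensional ℝ V] (P R : Seminorm ℝ V)
      (b : ℝ) (k m : ℕ) (ρ B B' : ℝ) (W : (Fin M → ℝ) →ₗ[ℝ] V) (a : V →ₗ[ℝ] (Fin M → ℝ))
      (S : Submodule ℝ (Fin M → ℝ)) (e : (Fin k → ℝ) →ₗ[ℝ] V)
      (τ : (Fin k → ℝ) →ₗ[ℝ] (Fin m → ℝ)) (ξ : (Fin m → ℝ) →ₗ[ℝ] (Fin k → ℝ)),
      1 ≤ b → Def P → Def R → Hyp b k P R → Top M A ρ P R W a → finrank ℝ S = m →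
      Function.Injective e → 0 < B → 0 < B' → D * (B * B') ≤ ρ → (∀ t, τ (ξ t) = t) →
      (∀ x, ‖τ x‖ ≤ B * R (e x)) → (∀ t, P (e (ξ t)) ≤ B' * ‖t‖) →
      (∀ ω ∈ S, ∀ x, τ x = 0 → P (W ω) ≤ C₀ * P (W ω + e x)) →
      ∃ (j : S →ₗ[ℝ] (Fin k → ℝ)) (q : (Fin k → ℝ) →ₗ[ℝ] S), (∀ ω, q (j ω) = ω) ∧
        (∀ ω : S, P (e (j ω)) ≤ P (W ω)) ∧ ∀ x, P (W (q x)) ≤ 9 * b ^ 2 * C₀ * P (e x)

/-- LIF (100 lines; uses BAS). Let `S` be a subspace of dimension `m` of `F.comap e`, `e₀` the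
coordinates of BAS for `P ∘ e` on `S`, `ξ t = e₀⁻¹ t`: `P (e (ξ t)) ≤ ∑ |t_i| ≤ M ‖t‖`.  On `S`
`|(e₀ x)_i| ≤ 2^m P (e x) ≤ 2^M D₁ R (e x)`; extend these functionals to `ℝ^k` (`exists_ext` for the
seminorm `R ∘ e`).  `B = 2^M D₁ + M`. -/
def Stmt_LIF : Prop :=
  ∀ (M : ℕ) (D₁ : ℝ), 0 < D₁ → ∃ B : ℝ, 0 < B ∧ ∀ (V : Type) [AddCommGroup V] [Module ℝ V]
    [FiniteDimensional ℝ V] (P R : Seminorm ℝ V) (k m : ℕ) (e : (Fin k → ℝ) →ₗ[ℝ] V)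
    (F : Submodule ℝ V), Def P → Def R → Function.Injective e → (∀ x ∈ F, P x ≤ D₁ * R x) →
    m ≤ M → m ≤ finrank ℝ (F.comap e) →
    ∃ (τ : (Fin k → ℝ) →ₗ[ℝ] (Fin m → ℝ)) (ξ : (Fin m → ℝ) →ₗ[ℝ] (Fin k → ℝ)),
      (∀ t, τ (ξ t) = t) ∧ (∀ x, ‖τ x‖ ≤ B * R (e x)) ∧ ∀ t, P (e (ξ t)) ≤ B * ‖t‖

/-! ### C. Coordinate subspaces -/

/-- TOPP (80 lines; uses nothing). Let `A` be a subset of `Q` with `⌈θ |Q|⌉` elements and the largest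
sum of `u` (exchange: every value on `A` is at least every value on `Q \ A`, so the mean on `A` is at
least the mean on `Q`). -/
def Stmt_TOPP : Prop :=
  ∀ (N : ℕ) (Q : Finset (Fin N)) (u : Fin N → ℝ) (θ : ℝ), (∀ i, 0 ≤ u i) → 0 < θ → θ ≤ 1 →
    ∃ A ⊆ Q, (A.card : ℝ) ≤ θ * Q.card + 1 ∧ θ * ∑ i ∈ Q, u i ≤ ∑ i ∈ A, u i

/-- CLL (200 lines; uses BAS TOPP). Cells of equal profile.  `e` = BAS for the norm `∑ |x_i|` on `S`,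
`m' = finrank S`, `v_l = e⁻¹ (single l)`, so `∑_i |v_l i| ≤ 1`, `x = ∑_l (e x)_l v_l`, `u i = ∑_l |v_l i|`;
`G` a natural number `≥ m 2^m / δ` and `≥ 1`.  The cell `c i` is the vector of the integers
`⌊G v_l i / u i⌋ ∈ [-G, G]`, `l < m'` (an element of `Fin m' → Fin (2 G + 1)`, which has at most
`ν = (2 G + 1)^m` elements, so it embeds into `Fin ν`; `u i = 0`: any cell).  `|x i| ≤ ∑ |(e x)_l| |v_l i| ≤ 2^m |x|_1 u i`, and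
`|x i / u i - x j / u j| ≤ ∑_l |(e x)_l| / G ≤ m 2^m |x|_1 / G`.  `A` = the union of the sets of TOPP
for the `ν` cells. -/
def Stmt_CLL : Prop :=
  ∀ (m : ℕ) (θ δ : ℝ), 0 < θ → θ ≤ 1 → 0 < δ → ∃ ν : ℕ, ∀ (N : ℕ)
    (S : Submodule ℝ (Fin N → ℝ)), finrank ℝ S ≤ m →
    ∃ (u : Fin N → ℝ) (c : Fin N → Fin ν) (A : Finset (Fin N)), (∀ i, 0 ≤ u i) ∧
      ∑ i, u i ≤ m ∧ (A.card : ℝ) ≤ θ * N + ν ∧
      (∀ κ, θ * ∑ i with c i = κ, u i ≤ ∑ i ∈ A with c i = κ, u i) ∧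
      (∀ x ∈ S, ∀ i, |x i| ≤ 2 ^ m * (∑ l, |x l|) * u i) ∧
      ∀ x ∈ S, ∀ i j, c i = c j → |x i * u j - x j * u i| ≤ δ * (∑ l, |x l|) * (u i * u j)

/-- CEL (100 lines; uses CLL). CLL with `δ = θ / (2 (m + 1))`.  For a cell `Q`, `A_Q = A ∩ Q`, `i ∈ Q`,
`a ∈ A_Q`, `X = ∑ |x l|`: `|x a| u i ≥ |x i| u a - δ X u i u a`; sum over `i`, `a` and divide by `u Q`
(if `u Q = 0` then `x = 0` on `Q`): `∑_{A_Q} |x| ≥ (u A_Q / u Q) ∑_Q |x| - δ X u A_Q ≥ θ ∑_Q |x| -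
δ X u Q`.  Sum over the cells: `≥ θ X - δ m X ≥ θ X / 2`. -/
def Stmt_CEL : Prop :=
  ∀ (m : ℕ) (θ : ℝ), 0 < θ → θ ≤ 1 → ∃ ν : ℕ, ∀ (N : ℕ) (S : Submodule ℝ (Fin N → ℝ)),
    finrank ℝ S ≤ m → ∃ A : Finset (Fin N), (A.card : ℝ) ≤ θ * N + ν ∧
      ∀ x ∈ S, θ / 2 * ∑ i, |x i| ≤ ∑ i ∈ A, |x i|

/-- the geometry of step A, for `X = ℓ_∞^N` (`t = true`) or `ℓ_1^N` -/
def Stmt_STA (t : Bool) : Prop :=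
  ∀ θ : ℝ, 0 < θ → θ ≤ 1 → ∃ C₀ : ℝ, 1 ≤ C₀ ∧ ∀ m : ℕ, ∃ M' : ℕ, ∀ A : ℝ, 1 ≤ A →
    ∃ (B : ℝ) (n₀ : ℕ), 0 < B ∧ ∀ (N k : ℕ) (S : Type) [AddCommGroup S] [Module ℝ S]
      [FiniteDimensional ℝ S] (w : S →ₗ[ℝ] (Fin N → ℝ)) (R : Seminorm ℝ (Fin N → ℝ)) (ρ' : ℝ)
      (W' : (Fin M' → ℝ) →ₗ[ℝ] (Fin N → ℝ)) (a' : (Fin N → ℝ) →ₗ[ℝ] (Fin M' → ℝ)) (l : ℕ),
      n₀ ≤ N → θ * N ≤ k → k + θ * N ≤ N → Function.Injective w → finrank ℝ S = l → l ≤ m →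
      0 < ρ' → Top M' A ρ' R (XN t N) W' a' →
      ∃ (f : Fin k ↪ Fin N) (τ : (Fin k → ℝ) →ₗ[ℝ] (Fin l → ℝ))
        (ξ : (Fin l → ℝ) →ₗ[ℝ] (Fin k → ℝ)), (∀ t, τ (ξ t) = t) ∧
        (∀ x, ‖τ x‖ ≤ B / ρ' * R (emb f x)) ∧ (∀ y, XN t k (ξ y) ≤ B * ‖y‖) ∧
        ∀ ω x, XN t N (w ω) ≤ C₀ * XN t N (w ω + emb f x)

/-- STAI (200 lines; uses NRM CEL DUL). `C₀ = 2`.  `J` = NRM for `w`, `q = 0`, `|J| ≤ ν₁(m)`; `M' = m +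
ν₁`.  The space of the `γ ∈ ℝ^M'` with `∑_j γ_j (a' e_i)_j = 0` for `i ∈ J` has dimension `≥ m`; take
`γ_1, .., γ_l` orthonormal in it (Euclidean), `β_h x = ∑_j γ_h,j (a' x)_j`, so `β_h e_i = 0` for
`i ∈ J`.  (a) `|β_h x| ≤ M' ‖a' x‖ ≤ M' A R x / ρ'`.  (b) For `y ∈ ℝ^l` let `c = ∑ y_h γ_h`,
`|c|_2 = |y|_2`; `∑ y_h β_h (W' c) = |c|_2²`, `‖W' c‖ ≤ A |c|_2`, so
`∑_i |∑_h y_h β_h e_i| ≥ |c|_2 / A ≥ ‖y‖ / A`.  CEL (`θ / 2`) for the span of the vectors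
`(β_h e_i)_i`: `A₀`, `|A₀| ≤ θ N / 2 + ν₂ ≤ k`.  `exists_emb (A₀ \ J) J`: `f` avoids `J` and contains
`A₀ \ J`.  `τ x = (β_h (emb f x))_h`; DUL on `ℝ^k` with the sup norm (the dual norm of
`∑ y_h β_h ∘ emb f` is `∑_{i ∈ range f} |..| ≥ θ/4 · ‖y‖ / A`: test with signs).  (c) `emb f x = 0` on
`J`, so NRM with `κ = ‖w ω + emb f x‖` gives `‖w ω‖ ≤ 2 ‖w ω + emb f x‖`. -/
def Stmt_STAI : Prop := Stmt_STA true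

/-- STAO (250 lines; uses BAS NRM CEL DUL). `C₀ = 8 / θ`.  Norms `|.|_1`.  `ν₁` = NRM for `m`,
`η = 1 / (4 (ν₁ + 1))`.  BAS for `|w ω|_1` on `S`, `v_h = e⁻¹ (single h)`, `u i = ∑_h |w v_h i|`,
`∑ u i ≤ m`, `|w ω i| ≤ 2^m |w ω|_1 u i`; `H₀ = {i : 2^m u i > η}`, `|H₀| ≤ 2^m m / η ≤ ν₀`,
`M' = m + ν₀`.  `γ_h`, `β_h` as in STAI with `H₀` instead of `J`: `β_h e_i = 0` for `i ∈ H₀`, and
`max_i |∑_h y_h β_h e_i| ≥ ‖y‖ / A` (`|W' c|_1 ≤ A |c|_2`).  NRM for `ℝ^l → ℝ^N`,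
`y ↦ (∑_h y_h β_h e_i)_i`, `q = 0`: `J₂`; `J = J₂ \ H₀`, `|J| ≤ ν₁`.  `∑_{i ∈ J} |w ω i| ≤ ν₁ η |w ω|_1
≤ |w ω|_1 / 4`.  CEL (`θ / 2`) for the vectors `w ω` with the coordinates in `J` replaced by 0: `A₀`;
`A = A₀ \ J`, `|A| ≤ θ N / 2 + ν₂ ≤ θ N ≤ N - k`, `∑_{i ∈ A} |w ω i| ≥ θ/4 · 3/4 · |w ω|_1`.
`exists_emb J A`: `f` contains `J` and avoids `A`.  (c) `|w ω + emb f x|_1 ≥ ∑_{i ∈ A} |w ω i|`.
`τ x = (β_h (emb f x))_h`; DUL on `ℝ^k` with the norm `|.|_1` (dual norm = maximum over the range of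
`f`, `≥ ‖y‖ / (2 A)`). -/
def Stmt_STAO : Prop := Stmt_STA false

/-- the geometry of step B, for `X = ℓ_∞^N` (`t = true`) or `ℓ_1^N` -/
def Stmt_STB (t : Bool) : Prop :=
  ∀ θ : ℝ, 0 < θ → θ ≤ 1 → ∃ C₀ : ℝ, 1 ≤ C₀ ∧ ∀ m : ℕ, ∃ n₀ : ℕ, ∀ (N k : ℕ) (S : Type)
    [AddCommGroup S] [Module ℝ S] [FiniteDimensional ℝ S] (w : S →ₗ[ℝ] (Fin N → ℝ))
    (q : Seminorm ℝ S), n₀ ≤ N → k + θ * N ≤ N → finrank ℝ S ≤ m →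
    (∀ x, w x = 0 → q x = 0 → x = 0) →
    ∃ f : Fin k ↪ Fin N, ∀ ω x, XN t N (w ω) + q ω ≤ C₀ * (XN t N (w ω + emb f x) + q ω)

/-- STBI (50 lines; uses NRM). `C₀ = 2`, `n₀ ≥ ν / θ`; `J` of NRM, `exists_emb ∅ J`. -/
def Stmt_STBI : Prop := Stmt_STB true

/-- STBO (60 lines; uses CEL). `C₀ = 4 / θ`; CEL (`θ / 2`) for the range of `w`: `A`,
`|A| ≤ θ N / 2 + ν ≤ θ N ≤ N - k`, `exists_emb ∅ A`; `|w ω + emb f x|_1 ≥ ∑_{i ∈ A} |w ω i|`. -/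
def Stmt_STBO : Prop := Stmt_STB false

/-- a subspace of codimension `c` of `X^N` contains a copy of `X^k`; the constant does not depend on
`c` -/
def Stmt_ABS (t : Bool) : Prop :=
  ∀ θ : ℝ, 0 < θ → θ ≤ 1 → ∃ C₁ : ℝ, 1 ≤ C₁ ∧ ∀ c : ℕ, ∃ n₀ : ℕ, ∀ (N k : ℕ)
    (Φ : Submodule ℝ (Fin N → ℝ)), n₀ ≤ N → k + θ * N ≤ N → N ≤ finrank ℝ Φ + c →
    ∃ e : (Fin k → ℝ) →ₗ[ℝ] (Fin N → ℝ), (∀ x, e x ∈ Φ) ∧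
      ∀ x, XN t k x ≤ XN t N (e x) ∧ XN t N (e x) ≤ C₁ * XN t k x

/-- ABSI (300 lines; uses BAS CLL DUL). `C₁ = 3 / θ`.  `𝓕` = the vectors `φ` with `∑ φ i x i = 0` for
all `x ∈ Φ`, of dimension `c' ≤ c`; `Φ` = the common kernel of `𝓕`.  `φ^1, .., φ^c'` = BAS basis of `𝓕`
for `|.|_1`: `|φ^l|_1 ≤ 1`, `|∑ y_l φ^l|_1 ≥ 2^(-c) ‖y‖`.  CLL for `𝓕` with `θ / 2` and `δ` small
(`δ ≤ θ / 4 / (c+1)`, `δ ≤ θ / (8 (c+1)² 2^c)`): `u`, cells, `A`, `|A| ≤ θ N / 2 + ν ≤ N - k`;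
`exists_emb ∅ A`: `f` avoids `A`.  As in CEL `∑_A |φ i| ≥ θ/4 · |φ|_1` on `𝓕`.
`(U x)_a = - (1 / u(A_κ)) ∑_{i : c (f i) = κ} u (f i) x_i` for `a ∈ A`, `κ = c a`, `A_κ = A ∩ κ`, and 0
outside `A`: `‖U x‖ ≤ 2/θ ‖x‖`.  For `φ ∈ 𝓕`: `|⟨φ, emb f x + U x⟩| ≤ δ |φ|_1 (∑ u) ‖x‖`, because
`|φ_{f i} u(A_κ) - u_{f i} ∑_{a ∈ A_κ} φ_a| ≤ δ |φ|_1 u_{f i} u(A_κ)` (if `u(A_κ) = 0` then `u = 0` and
`φ = 0` on the cell).  DUL for the functionals `φ^l` on the space of the vectors with support in `A`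
(sup norm; dual norm `∑_A |.|`): `ξ : ℝ^c' → ℝ^A`, `⟨φ^l, ξ y⟩ = y_l`, `‖ξ y‖ ≤ 2 c · 4 · 2^c / θ · ‖y‖`.
`e x = emb f x + U x - ξ (⟨φ^l, emb f x + U x⟩)_l`: `e x ∈ Φ`, on `range f` it is `x`, on `A` it is
`≤ (2/θ + 1) ‖x‖`. -/
def Stmt_ABSI : Prop := Stmt_ABS true

/-- ABSO (250 lines; uses BAS DUL). `C₁ = 3`.  `𝓕` as in ABSI, `φ^1, .., φ^c'` = BAS basis of `𝓕` for the
sup norm: `‖φ^l‖ ≤ 1`, `‖∑ y_l φ^l‖ ≥ 2^(-c) ‖y‖`.  Cells: the vectors of the integers `⌊G φ^l i⌋`,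
`|φ i - φ j| ≤ c 2^c ‖φ‖ / G` in a cell; `δ = c 2^c / G` small (`δ ≤ 1/2`, `δ ≤ 1 / (4 (c+1)² 2^c)`).
`A` = one representative `rep i` of every nonempty cell, `|A| ≤ ν ≤ θ N ≤ N - k`; `exists_emb ∅ A`.
`U x = - ∑_i x_i e_{rep (f i)}`, `|U x|_1 ≤ |x|_1`, `|⟨φ^l, emb f x + U x⟩| ≤ δ |x|_1`.  On `𝓕`
`max_A |φ i| ≥ (1 - δ) ‖φ‖ ≥ ‖φ‖ / 2`; DUL for the `φ^l` on the vectors with support in `A` (norm
`|.|_1`, dual norm `max_A`): `|ξ y|_1 ≤ 2 c · 2 · 2^c ‖y‖`.  `e x = emb f x + U x - ξ (..)`: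
`|x|_1 ≤ |e x|_1 ≤ 3 |x|_1`. -/
def Stmt_ABSO : Prop := Stmt_ABS false

/-! ### D. Not all subspaces are complemented -/

/-- UI (150 lines; uses nothing). `K₀ = 2 J C / ε + 1`, `K = K₀ J C` (if `C < 0` then `𝓕` is empty).
Choose `μ_0, μ_1, .. ∈ 𝓕`: given `μ_0, .., μ_(s-1)`, either `ν = K₀ ∑_{t < s} μ_t` has the second
property, or there is `μ_s ∈ 𝓕` with `∑ max (μ_s - ν) 0 > ε`; let `B_s = {i : μ_s i > K₀ ∑_{t < s} μ_t i}`,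
so `∑_{B_s} μ_s > ε` and `∑_{B_s} μ_t ≤ C / K₀ ≤ ε / (2 J)` for `t < s`.  If this goes on up to
`s = J`: `A_s = B_s \ ∪_{t > s} B_t` are disjoint, `∑_{A_s} μ_s ≥ ε - J ε / (2 J)`. -/
def Stmt_UI : Prop :=
  ∀ (C ε : ℝ) (J : ℕ), 0 < ε → ∃ K : ℝ, 0 ≤ K ∧ ∀ (k : ℕ) (𝓕 : Set (Fin k → ℝ)),
    (∀ μ ∈ 𝓕, (∀ i, 0 ≤ μ i) ∧ ∑ i, μ i ≤ C) →
    (∃ (μ : Fin J → Fin k → ℝ) (A : Fin J → Finset (Fin k)), (∀ s, μ s ∈ 𝓕) ∧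
      (∀ s t, s ≠ t → Disjoint (A s) (A t)) ∧ ∀ s, ε / 2 ≤ ∑ i ∈ A s, μ s i) ∨
    ∃ ν : Fin k → ℝ, (∀ i, 0 ≤ ν i) ∧ ∑ i, ν i ≤ K ∧ ∀ μ ∈ 𝓕, ∑ i, max (μ i - ν i) 0 ≤ ε

/-- SEL (120 lines; uses nothing). In every row at most `d = ⌊C / η⌋` entries are `> η`.  A directed
graph with outdegrees `≤ d` on `J ≥ (2 d + 1) j` vertices has an independent set of `j` vertices:
induction on `j`, for every subset of vertices: some vertex has indegree `≤ d`; take it and delete it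
together with its at most `2 d` neighbours. -/
def Stmt_SEL : Prop :=
  ∀ (C η : ℝ) (j : ℕ), 0 < η → ∃ J : ℕ, ∀ m : Fin J → Fin J → ℝ, (∀ s t, 0 ≤ m s t) →
    (∀ s, ∑ t, m s t ≤ C) →
    ∃ f : Fin j → Fin J, Function.Injective f ∧ ∀ s t, s ≠ t → m (f s) (f t) ≤ η

/-- DIM (150 lines; uses nothing). `s x ≤ 2 ∑ ν_i |h x i| ≤ 2 √K (∑ ν_i (h x i)²)^(1/2)`
(Cauchy-Schwarz).  The map `Λ x = (√ν_i h x i)_i` to `EuclideanSpace ℝ (Fin k)` is injective; let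
`u_1, .., u_n` (`n = finrank V`) be orthonormal in its range, `u_l = Λ x_l`.  For every `i` and real
`a_l`: `|∑ a_l h x_l i| ≤ C s (∑ a_l x_l) ≤ 2 C √K |a|_2`, so `∑_l (h x_l i)² ≤ 4 C² K` (take
`a_l = h x_l i`).  Hence `n = ∑_l |u_l|² = ∑_i ν_i ∑_l (h x_l i)² ≤ 4 C² K²`. -/
def Stmt_DIM : Prop :=
  ∀ K C : ℝ, ∃ n₁ : ℕ, ∀ (V : Type) [AddCommGroup V] [Module ℝ V] [FiniteDimensional ℝ V]
    (s : Seminorm ℝ V) (k : ℕ) (h : V →ₗ[ℝ] (Fin k → ℝ)) (ν : Fin k → ℝ), Def s →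
    (∀ i, 0 ≤ ν i) → ∑ i, ν i ≤ K → (∀ x i, |h x i| ≤ C * s x) →
    (∀ x, s x ≤ 2 * ∑ i, ν i * |h x i|) → finrank ℝ V ≤ n₁

/-- DUN (80 lines; uses BAS). The dual norm `σ f = sup {|f w| : s w ≤ 1}` (finite by BAS). -/
def Stmt_DUN : Prop :=
  ∀ (V : Type) [AddCommGroup V] [Module ℝ V] [FiniteDimensional ℝ V] (s : Seminorm ℝ V), Def s →
    ∃ σ : Seminorm ℝ (Module.Dual ℝ V), Def σ ∧ (∀ (f : Module.Dual ℝ V) (w : V),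
      |f w| ≤ σ f * s w) ∧ ∀ (f : Module.Dual ℝ V) (κ : ℝ), 0 ≤ κ →
      (∀ w, s w ≤ 1 → f w ≤ κ) → σ f ≤ κ

/-- SYI (200 lines; uses UI SEL DIM). `C ≥ 1`.  Let `Fac` be given by `j₀, q₀`, `x_i = q₀ e_i`.  `J` = SEL
(`C`, `η = 1 / (8 (j + 1))`, `j`), `K` = UI (`C`, `ε = 1/2`, `J`), `n₁` = DIM (`K`, `1`) `+ 1`.
`𝓕` = the functions `μ_f i = |f x_i|`, `f` a functional with `|f| ≤ s`; `∑ |f x_i| = f (q₀ (signs)) ≤ C`.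
Second case of UI: for `x ∈ V` take `f` with `f x = s x`, `|f| ≤ s`: `s x = f (q₀ (j₀ x)) ≤
∑ |j₀ x i| μ_f i ≤ ∑ ν i |j₀ x i| + s x / 2`; DIM with `h = j₀`: contradiction.  First case:
`f_s`, `A_s`, `∑_{A_s} |f_s x_i| ≥ 1/4`; `m s t = ∑_{i ∈ A_t} |f_s x_i|`, SEL gives `j` indices.
`y a = ∑_s a_s y_s`, `y_s = ∑_{i ∈ A_s} sign (f_s x_i) x_i = q₀ (..)`: `s (y a) ≤ C ‖a‖` (the `A_s` are
disjoint), and for the `s` with `|a_s| = ‖a‖`: `|f_s (y a)| ≥ ‖a‖ (1/4 - j η) ≥ ‖a‖ / 8`. -/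
def Stmt_SYI : Prop :=
  ∀ (C : ℝ) (j : ℕ), 1 ≤ C → ∃ n₁ : ℕ, ∀ (V : Type) [AddCommGroup V] [Module ℝ V]
    [FiniteDimensional ℝ V] (s : Seminorm ℝ V), Def s → n₁ ≤ finrank ℝ V → Fac true C s →
    ∃ y : (Fin j → ℝ) →ₗ[ℝ] V, ∀ a, ‖a‖ ≤ 8 * s (y a) ∧ s (y a) ≤ C * ‖a‖

/-- SYO (250 lines; uses UI SEL DIM DUN). `C ≥ 1`.  Let `Fac` be given by `j₀, q₀`, `x_i = q₀ e_i`,
`s x_i ≤ C`.  `ε = 1 / (2 C)`, `J` = SEL (`1`, `η = ε / (4 (j + 1))`, `j`), `K` = UI (`1`, `ε`, `J`),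
`n₁` = DIM (`K`, `C`) `+ 1`.  `𝓕` = the functions `μ_w i = |j₀ w i|`, `s w ≤ 1`; `∑ μ_w ≤ 1`.  Second case
of UI: `V' = Module.Dual ℝ V` with `σ` of DUN, `h f = (f x_i)_i`, `|f x_i| ≤ C σ f`; for `s w ≤ 1`
`f w = ∑ j₀ w i f x_i ≤ ∑ ν i |f x_i| + ε C σ f`, so `σ f ≤ 2 ∑ ν i |f x_i|`; DIM (`finrank` of the dual
is `finrank V`): contradiction.  First case: `w_s`, `A_s`, `∑_{A_s} |j₀ w_s i| ≥ ε / 2`;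
`m s t = ∑_{i ∈ A_t} |j₀ w_s i|`.  `y a = ∑ a_s w_s`: `s (y a) ≤ ∑ |a_s|`, and
`s (y a) ≥ ∑_i |j₀ (y a) i| ≥ ∑_s (|a_s| ε / 2 - ∑_{t ≠ s} |a_t| m t s) ≥ (ε/2 - j η) ∑ |a_s|
≥ ε / 4 ∑ |a_s| = ∑ |a_s| / (8 C)`. -/
def Stmt_SYO : Prop :=
  ∀ (C : ℝ) (j : ℕ), 1 ≤ C → ∃ n₁ : ℕ, ∀ (V : Type) [AddCommGroup V] [Module ℝ V]
    [FiniteDimensional ℝ V] (s : Seminorm ℝ V), Def s → n₁ ≤ finrank ℝ V → Fac false C s →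
    ∃ y : (Fin j → ℝ) →ₗ[ℝ] V, ∀ a, ∑ i, |a i| ≤ 8 * C * s (y a) ∧ s (y a) ≤ ∑ i, |a i|

/-- the sign of a Boolean -/
def sgn (c : Bool) : ℝ := if c then 1 else -1

/-- the Rademacher sum `∑ ± x_l` -/
def rad {m : ℕ} (g : Fin m → Bool) (x : Fin m → ℝ) : ℝ := ∑ l, sgn (g l) * x l

/-- KHI (100 lines; uses nothing). Khinchine's inequality: for `∑ x_l² = 1` and `w ≥ 0`
`(√3/2) w ≥ (3/4) w² - (4/27) (9/16) w⁴` (from `z ≥ z² - (4/27) z⁴`, `z = (√3/2) w`, see block ROW in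
`MP_3e8c7a_k`), and the sums over `g` of `(rad g x)²` and `(rad g x)⁴` are `2^m` and `≤ 3 · 2^m`
(`MP_3e8c7a_k/B_MOM.lean`, may be imported; `rad = dt`).  So `2^(-m) ∑_g |rad g x| ≥ (2/√3) (3/4 - 1/4) =
1/√3`.  Homogeneity. -/
def Stmt_KHI : Prop :=
  ∀ (m : ℕ) (x : Fin m → ℝ), 2 ^ m * Real.sqrt (∑ l, x l ^ 2) ≤
    Real.sqrt 3 * ∑ g : Fin m → Bool, |rad g x|

/-- OBI (120 lines; uses KHI). `ℓ_1^m` is not complemented in `ℓ_∞`.  `Fac`: `j, q`, `x_i = q e_i`,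
`h i l = (j e_l) i`, `|h i l| ≤ 1`.  `m = ∑_l (q j e_l)_l = ∑_i ∑_l h i l (x_i)_l ≤ ∑_i |x_i|_1 ≤
√m ∑_i |x_i|_2`.  For signs `g`: `∑_i |rad g x_i| = rad g (q (signs)) ≤ |q (signs)|_1 ≤ C`; sum over
`g`, KHI: `∑_i |x_i|_2 ≤ √3 C`.  So `√m ≤ √3 C`. -/
def Stmt_OBI : Prop := ∀ (m : ℕ) (C : ℝ), Fac true C (oneS m) → (m : ℝ) ≤ 3 * C ^ 2

/-- OBO (120 lines; uses KHI). `ℓ_2^m` is not complemented in `ℓ_1`.  `j, q`: `∑_i |j y i| ≤ |y|_2`,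
`|q e_i|_2 ≤ C`.  `h_i ∈ ℝ^m`, `j y i = ∑_l h_i l y_l`.  `m = ∑_i ∑_l h_i l (q e_i)_l ≤ C ∑_i |h_i|_2`.
For signs `g`: `∑_i |rad g h_i| ≤ √m`; KHI: `∑_i |h_i|_2 ≤ √3 √m`.  So `√m ≤ √3 C`. -/
def Stmt_OBO : Prop :=
  ∀ (m k : ℕ) (C : ℝ) (j : (Fin m → ℝ) →ₗ[ℝ] (Fin k → ℝ)) (q : (Fin k → ℝ) →ₗ[ℝ] (Fin m → ℝ)),
    0 ≤ C → (∀ y, q (j y) = y) → (∀ y, ∑ i, |j y i| ≤ Real.sqrt (∑ l, y l ^ 2)) →
    (∀ x, Real.sqrt (∑ l, q x l ^ 2) ≤ C * ∑ i, |x i|) → (m : ℝ) ≤ 3 * C ^ 2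

/-- RAD (100 lines; uses KHI). The spaces spanned by the Rademacher functions in `ℓ_∞` and `ℓ_1`.
`k = 2^m`, `Fin k ≃ (Fin m → Bool)`; first map: `(u y)_g = rad g y`; second map:
`(u y)_g = 2^(-m) rad g y` (the second inequality: Cauchy-Schwarz and the second moment). -/
def Stmt_RAD : Prop :=
  ∀ m : ℕ, (∃ u : (Fin m → ℝ) →ₗ[ℝ] (Fin (2 ^ m) → ℝ), ∀ y, ‖u y‖ = ∑ l, |y l|) ∧
    ∃ u : (Fin m → ℝ) →ₗ[ℝ] (Fin (2 ^ m) → ℝ), ∀ y,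
      Real.sqrt (∑ l, y l ^ 2) ≤ Real.sqrt 3 * ∑ i, |u y i| ∧
      ∑ i, |u y i| ≤ Real.sqrt (∑ l, y l ^ 2)

/-- in every norm on `ℝ^M` some subspace is not a `C`-complemented subspace of `X^k` -/
def Stmt_NOR (t : Bool) : Prop :=
  ∀ C : ℝ, ∃ M : ℕ, ∀ s : Seminorm ℝ (Fin M → ℝ), Def s →
    ∃ S : Submodule ℝ (Fin M → ℝ), ¬ Fac t C (s.comp S.subtype)

/-- NORI (120 lines; uses SYI OBI RAD). We may take `C ≥ 1` (`Fac` is monotone in `C`).  `m₂ > 192 C⁴`,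
`j = 2^m₂`, `M = n₁` of SYI.  Suppose that all `S` have the property.  `S = ⊤`: SYI gives `y`; `u` = the
first map of RAD (`m₂`); `S` = the range of `y ∘ u`, `s (y (u z)) ∈ [|z|_1 / 8, C |z|_1]`.  `Fac true C` for
`S` (maps `j, q`) gives `Fac true (8 C²)` for `oneS m₂`: `z ↦ C⁻¹ j (y u z)`, `x ↦ C (y u)⁻¹ (q x)`.
OBI: `m₂ ≤ 192 C⁴`, a contradiction. -/
def Stmt_NORI : Prop := Stmt_NOR true

/-- NORO (120 lines; uses SYO OBO RAD). `C ≥ 1`, `m₂ > 576 C⁴`, `j = 2^m₂`, `M = n₁` of SYO; `S` = the range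
of `y ∘ u`, `u` = the second map of RAD: `|z|_2 ≤ √3 |u z|_1 ≤ 8 √3 C s (y u z)`, `s (y u z) ≤ |z|_2`.
OBO for `j ∘ (y u)` and `(y u)⁻¹ ∘ q` with the constant `8 √3 C²`. -/
def Stmt_NORO : Prop := Stmt_NOR false

/-! ### E. Assembly -/

/-- XA (150 lines; `∀ t`, uses GRD CPL and `Stmt_STA t`, `Stmt_NOR t`). `C₀` of STA (`θ`), `M` of NOR
(`9 b² C₀`), `M'` of STA (`m = M`), `A₁` = GRD (`M`), `A₂` = GRD (`M'`), `B, n₀` of STA (`A₂`), `D₀` =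
CPL (`M, A₁, C₀`); `D = max 1 (D₀ B²)`, `c = M + M'`, `N > M + M'`.  GRD for `(p, r)`: `ρ, W, a, F₁`; for
`(r, p)` and `M'`: `ρ', W', a', F₂`.  If `ρ ρ' ≤ D` take `lam = ρ`, `F = F₁ ⊓ F₂`: `p ≤ ρ r`,
`ρ r ≤ ρ ρ' p`.  Otherwise for every `S ≤ ℝ^M` STA (`w = W` on `S`) and CPL (`P = p`, `R = r`,
`B := B / ρ'`, `B' := B`) give `Fac t (9 b² C₀)` for `p ∘ W` on `S` (`emb_XN`), against NOR for the norm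
`p ∘ W`. -/
def Stmt_XA : Prop :=
  ∀ t : Bool, Stmt_GRD → Stmt_CPL → Stmt_STA t → Stmt_NOR t → ∀ b θ : ℝ, 1 ≤ b → 0 < θ → θ ≤ 1 →
    ∃ (D : ℝ) (c n₀ : ℕ), 1 ≤ D ∧ ∀ (N k : ℕ) (r : Seminorm ℝ (Fin N → ℝ)), n₀ ≤ N → θ * N ≤ k →
      k + θ * N ≤ N → Def r → Hyp b k (XN t N) r →
      ∃ (lam : ℝ) (F : Submodule ℝ (Fin N → ℝ)), 0 < lam ∧ N ≤ finrank ℝ F + c ∧
        ∀ x ∈ F, XN t N x ≤ D * (lam * r x) ∧ lam * r x ≤ D * XN t N x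

/-- XB (150 lines; `∀ t`, uses GRD CPL LIF and `Stmt_STB t`, `Stmt_NOR t`). `C₀` of STB (`θ`), `M` of NOR
(`9 b² C₀`), `A` = GRD (`M`), `B` = LIF (`M, D₁`), `D₀` = CPL (`M, A, C₀`), `D₂ = D₀ B² + 1`, `c₂ = M`, `n₀`
large (`≥ n₀` of STB for `m = M`, `θ n₀ ≥ M + c₁`, `n₀ > M`).  GRD for `(p, r)` (`p = ds (XN t N) q`):
`ρ, W, a, F`.  If `ρ ≤ D₂` done.  Otherwise let `S ≤ ℝ^M`: STB for the first component of `W` on `S` and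
for `q` of the second one gives `f`; `e = inl ∘ emb f`; LIF for `F₁.map inl` (`F.comap e` has dimension
`≥ k - c₁ ≥ M`); CPL with `P = p`, `R = r`; `P (e x) = XN t k x` (`emb_XN`): `Fac t (9 b² C₀)` for `p ∘ W` on
`S`, against NOR. -/
def Stmt_XB : Prop :=
  ∀ t : Bool, Stmt_GRD → Stmt_CPL → Stmt_LIF → Stmt_STB t → Stmt_NOR t →
    ∀ (b θ D₁ : ℝ) (c₁ : ℕ), 1 ≤ b → 0 < θ → θ ≤ 1 → 0 < D₁ → ∃ (D₂ : ℝ) (c₂ n₀ : ℕ), 1 ≤ D₂ ∧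
      ∀ (N k : ℕ) (Y : Type) [AddCommGroup Y] [Module ℝ Y] [FiniteDimensional ℝ Y]
        (q : Seminorm ℝ Y) (r : Seminorm ℝ ((Fin N → ℝ) × Y)) (F₁ : Submodule ℝ (Fin N → ℝ)),
        n₀ ≤ N → θ * N ≤ k → k + θ * N ≤ N → Def q → Def r → Hyp b k (ds (XN t N) q) r →
        N ≤ finrank ℝ F₁ + c₁ → (∀ x ∈ F₁, XN t N x ≤ D₁ * r (x, 0)) →
        ∃ F : Submodule ℝ ((Fin N → ℝ) × Y), finrank ℝ ((Fin N → ℝ) × Y) ≤ finrank ℝ F + c₂ ∧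
          ∀ x ∈ F, ds (XN t N) q x ≤ D₂ * r x

/-- XC (200 lines; `∀ t`, uses GRD CPL LIF NRF and `Stmt_ABS t`, `Stmt_NOR t`). The same with `p` and `r`
exchanged.  `C₁` of ABS (`θ`), `M` of NOR (`18 b³ C₁`), `C₀ = 2`, `c` = NRF (`M`), `n₀ ≥` ABS (`c`).  GRD
for `(r, p)`: `ρ, W, a, F`.  If `ρ ≤ D₂` done.  Otherwise let `S ≤ ℝ^M`: NRF for `W(S)` and the norm `r`:
`Φ`; ABS for `Φ.comap inl`: `e₀`, `e = inl ∘ e₀`; LIF (`P = r`, `R = p`) for `F₁.map inl`; CPL with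
`P = r`, `R = p` (`Hyp.symm`).  It gives `j, q`; `Hyp.inj` for `e`: `T` with `r (e x) ≤ p (e (T x)) ≤
b r (e x)`; `XN x ≤ p (e x) ≤ C₁ XN x`.  `j' = b⁻¹ T j`, `q' x = b q (T⁻¹ x)`: `Fac t (18 b³ C₁)` for
`r ∘ W` on `S`. -/
def Stmt_XC : Prop :=
  ∀ t : Bool, Stmt_GRD → Stmt_CPL → Stmt_LIF → Stmt_NRF → Stmt_ABS t → Stmt_NOR t →
    ∀ (b θ D₁ : ℝ) (c₁ : ℕ), 1 ≤ b → 0 < θ → θ ≤ 1 → 0 < D₁ → ∃ (D₂ : ℝ) (c₂ n₀ : ℕ), 1 ≤ D₂ ∧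
      ∀ (N k : ℕ) (Y : Type) [AddCommGroup Y] [Module ℝ Y] [FiniteDimensional ℝ Y]
        (q : Seminorm ℝ Y) (r : Seminorm ℝ ((Fin N → ℝ) × Y)) (F₁ : Submodule ℝ (Fin N → ℝ)),
        n₀ ≤ N → θ * N ≤ k → k + θ * N ≤ N → Def q → Def r → Hyp b k (ds (XN t N) q) r →
        N ≤ finrank ℝ F₁ + c₁ → (∀ x ∈ F₁, r (x, 0) ≤ D₁ * XN t N x) →
        ∃ F : Submodule ℝ ((Fin N → ℝ) × Y), finrank ℝ ((Fin N → ℝ) × Y) ≤ finrank ℝ F + c₂ ∧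
          ∀ x ∈ F, r x ≤ D₂ * ds (XN t N) q x

/-- the theorem for norms -/
def Stmt_RIG (t : Bool) : Prop :=
  ∀ b θ : ℝ, 1 ≤ b → 0 < θ → θ ≤ 1 → ∃ (D : ℝ) (c n₀ : ℕ), 1 ≤ D ∧
    ∀ (N k : ℕ) (Y : Type) [AddCommGroup Y] [Module ℝ Y] [FiniteDimensional ℝ Y]
      (q : Seminorm ℝ Y) (r : Seminorm ℝ ((Fin N → ℝ) × Y)), n₀ ≤ N → θ * N ≤ k →
      k + θ * N ≤ N → Def q → Def r → Hyp b k (ds (XN t N) q) r →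
      ∃ (lam : ℝ) (F : Submodule ℝ ((Fin N → ℝ) × Y)), 0 < lam ∧
        finrank ℝ ((Fin N → ℝ) × Y) ≤ finrank ℝ F + c ∧
        ∀ x ∈ F, ds (XN t N) q x ≤ D * (lam * r x) ∧ lam * r x ≤ D * ds (XN t N) q x

end Pool.RX
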