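import Pool.Agent.Work.MP_3e8c7a_r.Interface
import Pool.Agent.Work.MP_3e8c7a_k.B_COD

/-!
# MP_3e8c7a_an, THEOREM RX: the norm level theorem from the blocks, and all dimensions
-/

set_option autoImplicit false

namespace Pool.RX

open Module Pool.Agent.MP3e8c7a

section scale

variable {V : Type} [AddCommGroup V] [Module ℝ V]

/-- the multiple `lam r` of a seminorm -/
noncomputable def scl (lam : ℝ) (r : Seminorm ℝ V) : Seminorm ℝ V :=
  r.comp (lam • LinearMap.id)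

theorem scl_apply {lam : ℝ} (h : 0 < lam) (r : Seminorm ℝ V) (x : V) :
    scl lam r x = lam * r x := by
  change r (lam • x) = lam * r x
  rw [map_smul_eq_mul, Real.norm_eq_abs, abs_of_pos h]

theorem scl_def {lam : ℝ} (h : 0 < lam) {r : Seminorm ℝ V} (hr : Def r) : Def (scl lam r) := by
  intro x hx
  rw [scl_apply h] at hx
  exact hr x ((mul_eq_zero.1 hx).resolve_left h.ne')

theorem scl_hyp {lam b : ℝ} (h : 0 < lam) {k : ℕ} {p r : Seminorm ℝ V} (H : Hyp b k p r) :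
    Hyp b k p (scl lam r) := by
  intro E hE
  obtain ⟨T, hT⟩ := H E hE
  refine ⟨T.trans (LinearEquiv.smulOfNeZero ℝ E lam⁻¹ (inv_ne_zero h.ne')), fun x => ?_⟩
  have e : ((scl lam r).comp E.subtype)
      ((T.trans (LinearEquiv.smulOfNeZero ℝ E lam⁻¹ (inv_ne_zero h.ne'))) x) =
      (r.comp E.subtype) (T x) := by
    change scl lam r (lam⁻¹ • ((T x : E) : V)) = r ((T x : E) : V)
    rw [scl_apply h, map_smul_eq_mul, Real.norm_eq_abs, abs_of_pos (inv_pos.2 h),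
      ← mul_assoc, mul_inv_cancel₀ h.ne', one_mul]
  rw [e]
  exact hT x

theorem finrank_inf_ge [FiniteDimensional ℝ V] {F G : Submodule ℝ V} {a b : ℕ}
    (h1 : finrank ℝ V ≤ finrank ℝ F + a) (h2 : finrank ℝ V ≤ finrank ℝ G + b) :
    finrank ℝ V ≤ finrank ℝ (F ⊓ G : Submodule ℝ V) + (a + b) := by
  have h3 := Submodule.finrank_sup_add_finrank_inf_eq F G
  have h4 := Submodule.finrank_le (F ⊔ G)
  omega

end scale

theorem ds_inl {V Y : Type} [AddCommGroup V] [Module ℝ V] [AddCommGroup Y] [Module ℝ Y]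
    (p : Seminorm ℝ V) (q : Seminorm ℝ Y) : (ds p q).comp (LinearMap.inl ℝ V Y) = p := by
  ext x
  change p x + q 0 = p x
  rw [map_zero, add_zero]

/-- the theorem for norms, `N` large -/
theorem rig (t : Bool) (hG : Stmt_GRD) (hC : Stmt_CPL) (hL : Stmt_LIF) (hR : Stmt_NRF)
    (hA : Stmt_STA t) (hB : Stmt_STB t) (hS : Stmt_ABS t) (hN : Stmt_NOR t) (hXA : Stmt_XA)
    (hXB : Stmt_XB) (hXC : Stmt_XC) : Stmt_RIG t := by
  intro b θ hb hθ hθ1
  obtain ⟨D, c, n₀, hD, h0⟩ := hXA t hG hC hA hN b θ hb hθ hθ1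
  have hD0 : 0 < D := by linarith
  obtain ⟨D₂, c₂, n₂, hD₂, h2⟩ := hXB t hG hC hL hB hN b θ D c hb hθ hθ1 hD0
  obtain ⟨D₃, c₃, n₃, hD₃, h3⟩ := hXC t hG hC hL hR hS hN b θ D c hb hθ hθ1 hD0
  refine ⟨max D₂ D₃, c₂ + c₃, max n₀ (max n₂ n₃), le_max_of_le_left hD₂, ?_⟩
  intro N k Y _ _ _ q r hn hk1 hk2 hq hr H
  have hn0 : n₀ ≤ N := le_trans (le_max_left _ _) hn
  have hn2 : n₂ ≤ N := le_trans (le_trans (le_max_left _ _) (le_max_right _ _)) hn
  have hn3 : n₃ ≤ N := le_trans (le_trans (le_max_right _ _) (le_max_right _ _)) hn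
  have hi : Function.Injective (LinearMap.inl ℝ (Fin N → ℝ) Y) := LinearMap.inl_injective
  have H1 : Hyp b k (XN t N) (r.comp (LinearMap.inl ℝ (Fin N → ℝ) Y)) := by
    have h := H.comp _ hi
    rwa [ds_inl] at h
  obtain ⟨lam, F₁, hlam, hF₁, h1⟩ := h0 N k _ hn0 hk1 hk2 (hr.comp _ hi) H1
  have hr' : Def (scl lam r) := scl_def hlam hr
  have H' : Hyp b k (ds (XN t N) q) (scl lam r) := scl_hyp hlam H
  obtain ⟨F₂, hF₂, hb2⟩ := h2 N k Y q (scl lam r) F₁ hn2 hk1 hk2 hq hr' H' hF₁ fun x hx => by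
    rw [scl_apply hlam]
    exact (h1 x hx).1
  obtain ⟨F₃, hF₃, hb3⟩ := h3 N k Y q (scl lam r) F₁ hn3 hk1 hk2 hq hr' H' hF₁ fun x hx => by
    rw [scl_apply hlam]
    exact (h1 x hx).2
  refine ⟨lam, F₂ ⊓ F₃, hlam, finrank_inf_ge hF₂ hF₃, fun x hx => ?_⟩
  have e2 := hb2 x hx.1
  have e3 := hb3 x hx.2
  rw [scl_apply hlam] at e2 e3
  exact ⟨e2.trans (mul_le_mul_of_nonneg_right (le_max_left _ _)
    (mul_nonneg hlam.le (apply_nonneg r x))), e3.trans (mul_le_mul_of_nonneg_right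
    (le_max_right _ _) (apply_nonneg _ x))⟩

/-- two norms on a space of small dimension -/
theorem small_iso (hBAS : Stmt_BAS) (n : ℕ) : ∃ C : ℝ, 1 ≤ C ∧ ∀ (V : Type) [AddCommGroup V]
    [Module ℝ V] [FiniteDimensional ℝ V] (p r : Seminorm ℝ V), Def p → Def r →
    finrank ℝ V ≤ n → Iso C p r := by
  let G : ℝ := n * 2 ^ n + 1
  have hn : (0 : ℝ) ≤ n := Nat.cast_nonneg n
  have h2 : (0 : ℝ) < 2 ^ n := by positivity
  have hG : 1 ≤ G := by
    change 1 ≤ (n : ℝ) * 2 ^ n + 1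
    nlinarith [mul_nonneg hn h2.le]
  refine ⟨G * G, by nlinarith, ?_⟩
  intro V _ _ _ p r hp hr hf
  obtain ⟨e, he1, he2⟩ := hBAS (finrank ℝ V) V p hp rfl
  obtain ⟨f, hf1, hf2⟩ := hBAS (finrank ℝ V) V r hr rfl
  have hm : ((finrank ℝ V : ℕ) : ℝ) ≤ n := by exact_mod_cast hf
  have hpow : (2 : ℝ) ^ (finrank ℝ V) ≤ 2 ^ n := pow_le_pow_right₀ (by norm_num) hf
  have hsum : ∀ y : Fin (finrank ℝ V) → ℝ, ∑ i, |y i| ≤ n * ‖y‖ := by
    intro y
    calc ∑ i, |y i| ≤ ∑ _i : Fin (finrank ℝ V), ‖y‖ :=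
          Finset.sum_le_sum fun i _ => norm_le_pi_norm y i
      _ = (finrank ℝ V : ℝ) * ‖y‖ := by
          rw [Finset.sum_const, Finset.card_univ, Fintype.card_fin, nsmul_eq_mul]
      _ ≤ n * ‖y‖ := mul_le_mul_of_nonneg_right hm (norm_nonneg y)
  have key : ∀ (s s' : Seminorm ℝ V) (g g' : V ≃ₗ[ℝ] (Fin (finrank ℝ V) → ℝ)),
      (∀ x, ‖g x‖ ≤ 2 ^ (finrank ℝ V) * s x) → (∀ x, s' x ≤ ∑ i, |g' x i|) →
      ∀ x, s' (g'.symm (g x)) ≤ G * s x := by
    intro s s' g g' h1 h3 x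
    have h4 := h3 (g'.symm (g x))
    rw [g'.apply_symm_apply] at h4
    have h5 := h4.trans (hsum (g x))
    have h6 : ‖g x‖ ≤ 2 ^ n * s x :=
      (h1 x).trans (mul_le_mul_of_nonneg_right hpow (apply_nonneg s x))
    have h7 : (n : ℝ) * ‖g x‖ ≤ n * (2 ^ n * s x) := mul_le_mul_of_nonneg_left h6 hn
    have h8 : (0 : ℝ) ≤ s x := apply_nonneg s x
    change s' (g'.symm (g x)) ≤ ((n : ℝ) * 2 ^ n + 1) * s x
    nlinarith
  refine Iso.of_bounds (e.trans f.symm) (by linarith) (fun x => ?_) fun x => ?_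
  · have h := key r p f e hf1 he2 (f.symm (e x))
    rw [f.apply_symm_apply, e.symm_apply_apply] at h
    exact h
  · exact key p r e f he1 hf2 x

/-- the theorem for norms in the form used for bodies: `n` in all dimensions -/
theorem rig_all (t : Bool) (hBAS : Stmt_BAS) (hRIG : Stmt_RIG t) (b α ε : ℝ) (hb : 1 ≤ b)
    (hα : 0 < α) (hα1 : α < 1) (hε : 0 < ε) : ∃ (D : ℝ) (c : ℕ), 1 ≤ D ∧
    ∀ (n N : ℕ) (Y : Type) [AddCommGroup Y] [Module ℝ Y] [FiniteDimensional ℝ Y]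
      (q : Seminorm ℝ Y) (r : Seminorm ℝ ((Fin N → ℝ) × Y)), 0 < n →
      finrank ℝ ((Fin N → ℝ) × Y) = n → (α + ε) * n ≤ N → Def q → Def r →
      Hyp b ⌈α * n⌉₊ (ds (XN t N) q) r →
      (∃ (lam : ℝ) (F : Submodule ℝ ((Fin N → ℝ) × Y)), 0 < lam ∧
        n ≤ finrank ℝ F + c ∧
        ∀ x ∈ F, ds (XN t N) q x ≤ D * (lam * r x) ∧ lam * r x ≤ D * ds (XN t N) q x) ∧
      Iso D (ds (XN t N) q) r := by
  have hθ : 0 < min α (ε / 2) := lt_min hα (by linarith)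
  have hθ1 : min α (ε / 2) ≤ 1 := (min_le_left _ _).trans hα1.le
  obtain ⟨D, c, n₀, hD, h⟩ := hRIG b (min α (ε / 2)) hb hθ hθ1
  -- the constants for codimension at most `c`
  have hD2 : 1 ≤ D * D := by nlinarith
  choose Cc hCc1 hCc using fun m : ℕ => Pool.Agent.MP3e8c7ak.COD m (D * D) hD2
  -- small dimensions
  let n₁ : ℕ := ⌈(n₀ : ℝ) / α⌉₊ + ⌈2 / ε⌉₊
  obtain ⟨Cs, hCs1, hCs⟩ := small_iso hBAS n₁
  let D' : ℝ := D + Cs + ∑ m ∈ Finset.range (c + 1), Cc m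
  have hsum0 : 0 ≤ ∑ m ∈ Finset.range (c + 1), Cc m :=
    Finset.sum_nonneg fun m _ => by linarith [hCc1 m]
  have hDD : D ≤ D' := by
    change D ≤ D + Cs + ∑ m ∈ Finset.range (c + 1), Cc m
    linarith
  have hCsD : Cs ≤ D' := by
    change Cs ≤ D + Cs + ∑ m ∈ Finset.range (c + 1), Cc m
    linarith
  have hCcD : ∀ m, m ≤ c → Cc m ≤ D' := by
    intro m hm
    have h1 : Cc m ≤ ∑ m ∈ Finset.range (c + 1), Cc m :=
      Finset.single_le_sum (f := Cc) (fun i _ => by linarith [hCc1 i])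
        (Finset.mem_range.2 (by omega))
    change Cc m ≤ D + Cs + ∑ m ∈ Finset.range (c + 1), Cc m
    linarith
  refine ⟨D', c + n₁, hD.trans hDD, ?_⟩
  intro n N Y _ _ _ q r hn hf hN hq hr H
  have hp : Def (ds (XN t N) q) := by
    intro x hx
    have h1 : XN t N x.1 + q x.2 = 0 := hx
    have h2 : 0 ≤ XN t N x.1 := apply_nonneg _ _
    have h3 : 0 ≤ q x.2 := apply_nonneg _ _
    exact Prod.ext (XN_def t N _ (by linarith)) (hq _ (by linarith))
  by_cases hn1 : n ≤ n₁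
  · refine ⟨⟨1, ⊥, one_pos, by omega, fun x hx => ?_⟩, ?_⟩
    · have hx0 : x = 0 := (Submodule.mem_bot ℝ).1 hx
      rw [hx0, map_zero, map_zero, mul_zero, mul_zero]
      exact ⟨le_rfl, le_rfl⟩
    · exact (hCs _ _ r hp hr (by rw [hf]; exact hn1)).mono hCsD
  · push Not at hn1
    have hn0 : (0 : ℝ) < n := by exact_mod_cast hn
    have hNn : (N : ℝ) ≤ n := by
      have h1 : N ≤ n := by
        rw [← hf, Module.finrank_prod, Module.finrank_fintype_fun_eq_card, Fintype.card_fin]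
        omega
      exact_mod_cast h1
    have hn1' : ((n₁ : ℕ) : ℝ) ≤ n := by exact_mod_cast hn1.le
    have e1 : (n₀ : ℝ) / α ≤ ⌈(n₀ : ℝ) / α⌉₊ := Nat.le_ceil _
    have e2 : 2 / ε ≤ ⌈2 / ε⌉₊ := Nat.le_ceil _
    have e3 : ((n₁ : ℕ) : ℝ) = (⌈(n₀ : ℝ) / α⌉₊ : ℝ) + (⌈2 / ε⌉₊ : ℝ) := by
      change ((⌈(n₀ : ℝ) / α⌉₊ + ⌈2 / ε⌉₊ : ℕ) : ℝ) = _
      push_cast
      ring
    have e4 : (0 : ℝ) ≤ (⌈(n₀ : ℝ) / α⌉₊ : ℝ) := Nat.cast_nonneg _
    have e5 : (0 : ℝ) ≤ (⌈2 / ε⌉₊ : ℝ) := Nat.cast_nonneg _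
    have e6 : (n₀ : ℝ) ≤ α * n := by
      have h1 : (n₀ : ℝ) / α ≤ n := by linarith
      rw [div_le_iff₀ hα] at h1
      linarith
    have e7 : 2 ≤ ε * n := by
      have h1 : 2 / ε ≤ n := by linarith
      rw [div_le_iff₀ hε] at h1
      linarith
    have g1 : n₀ ≤ N := by
      have : (n₀ : ℝ) ≤ N := by nlinarith
      exact_mod_cast this
    have g2 : min α (ε / 2) * N ≤ (⌈α * n⌉₊ : ℝ) := by
      have h1 : α * n ≤ (⌈α * n⌉₊ : ℝ) := Nat.le_ceil _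
      have h2 : min α (ε / 2) * N ≤ α * n :=
        mul_le_mul (min_le_left _ _) hNn (Nat.cast_nonneg _) hα.le
      linarith
    have g3 : (⌈α * n⌉₊ : ℝ) + min α (ε / 2) * N ≤ N := by
      have h1 : (⌈α * n⌉₊ : ℝ) < α * n + 1 := Nat.ceil_lt_add_one (by positivity)
      have h2 : min α (ε / 2) * N ≤ ε / 2 * n :=
        mul_le_mul (min_le_right _ _) hNn (Nat.cast_nonneg _) (by linarith)
      nlinarith
    obtain ⟨lam, F, hlam, hF, hFF⟩ := h N ⌈α * n⌉₊ Y q r g1 g2 g3 hq hr H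
    rw [hf] at hF
    refine ⟨⟨lam, F, hlam, by omega, fun x hx => ?_⟩, ?_⟩
    · obtain ⟨h1, h2⟩ := hFF x hx
      exact ⟨h1.trans (mul_le_mul_of_nonneg_right hDD (mul_nonneg hlam.le (apply_nonneg r x))),
        h2.trans (mul_le_mul_of_nonneg_right hDD (apply_nonneg _ x))⟩
    · have hI : Iso (D * D) ((ds (XN t N) q).comp F.subtype) (r.comp F.subtype) := by
        have h1 := Iso.of_bounds (p := (ds (XN t N) q).comp F.subtype) (r := r.comp F.subtype)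
          (LinearEquiv.refl ℝ F) (A := D * lam) (B := D / lam)
          (mul_pos (by linarith) hlam) (fun x => by
            have h2 := (hFF x x.2).1
            change ds (XN t N) q (x : (Fin N → ℝ) × Y) ≤ D * lam * r (x : (Fin N → ℝ) × Y)
            linarith) (fun x => by
            have h2 := (hFF x x.2).2
            change r (x : (Fin N → ℝ) × Y) ≤ D / lam * ds (XN t N) q (x : (Fin N → ℝ) × Y)
            rw [div_mul_eq_mul_div, le_div_iff₀ hlam]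
            linarith)
        refine h1.mono (le_of_eq ?_)
        field_simp
      have hle : finrank ℝ F ≤ n := by
        rw [← hf]
        exact Submodule.finrank_le F
      have h3 := hCc (n - finrank ℝ F) _ _ (ds (XN t N) q) r hp hr F F (by omega) (by omega) hI
      exact h3.mono (hCcD _ (by omega))

end Pool.RX
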