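import Pool.Agent.Work.MP_3e8c7a_r.Rig
import Pool.Agent.Work.MP_3e8c7a_r.B_XG
import Pool.Agent.Work.MP_3e8c7a_s.Final
import Pool.Agent.Work.MP_3e8c7a_r.Defs

/-!
# MP_3e8c7a_an, THEOREM RX: one section near a cross-polytope, norms and bodies
-/

set_option autoImplicit false

namespace Pool.RX

open Module Pool.Agent.MP3e8c7a Pool.Agent.MP3e8c7as
open scoped Pointwise

/-- the theorem for norms, with a section near `X^N` -/
def Stmt_RSEC (t : Bool) : Prop :=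
  ∀ b M₀ θ : ℝ, 1 ≤ b → 1 ≤ M₀ → 0 < θ → θ ≤ 1 → ∃ (D : ℝ) (c n₀ : ℕ), 1 ≤ D ∧
    ∀ (N k : ℕ) (V : Type) [AddCommGroup V] [Module ℝ V] [FiniteDimensional ℝ V]
      (p r : Seminorm ℝ V) (i : (Fin N → ℝ) →ₗ[ℝ] V), n₀ ≤ N → θ * N ≤ k → k + θ * N ≤ N →
      Def p → Def r → Hyp b k p r → (∀ z, p (i z) ≤ XN t N z ∧ XN t N z ≤ M₀ * p (i z)) →
      ∃ (lam : ℝ) (F : Submodule ℝ V), 0 < lam ∧ finrank ℝ V ≤ finrank ℝ F + c ∧
        ∀ x ∈ F, p x ≤ D * (lam * r x) ∧ lam * r x ≤ D * p x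

theorem rsec (t : Bool) (hG : Stmt_GRD) (hC : Stmt_CPL) (hL : Stmt_LIF) (hR : Stmt_NRF)
    (hA : Stmt_STA t) (hS : Stmt_ABS t) (hN : Stmt_NOR t) (hXA : Stmt_XA) : Stmt_RSEC t := by
  intro b M₀ θ hb hM hθ hθ1
  have hbM : 1 ≤ M₀ * b := by nlinarith
  obtain ⟨D, c, n₀, hD, h0⟩ := hXA t hG hC hA hN (M₀ * b) θ hbM hθ hθ1
  have hD0 : 0 < D := by linarith
  obtain ⟨D₂, c₂, n₂, hD₂, h2⟩ := p_XG t hG hC hL hR hS hN b M₀ θ D c hb hM hθ hθ1 hD0
  obtain ⟨D₃, c₃, n₃, hD₃, h3⟩ := p_XG t hG hC hL hR hS hN b (M₀ * b) θ (D * M₀) c hb hbM hθ hθ1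
    (by positivity)
  refine ⟨max D₂ D₃, c₂ + c₃, max n₀ (max n₂ n₃), le_max_of_le_left hD₂, ?_⟩
  intro N k V _ _ _ p r i hn hk1 hk2 hp hr H hi
  have hn0 : n₀ ≤ N := le_trans (le_max_left _ _) hn
  have hn2 : n₂ ≤ N := le_trans (le_trans (le_max_left _ _) (le_max_right _ _)) hn
  have hn3 : n₃ ≤ N := le_trans (le_trans (le_max_right _ _) (le_max_right _ _)) hn
  have hM0 : 0 < M₀ := by linarith
  have hinj : Function.Injective i := by
    rw [← LinearMap.ker_eq_bot, LinearMap.ker_eq_bot']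
    intro z hz
    have h := (hi z).2
    rw [hz, map_zero, mul_zero] at h
    exact XN_def t N z (le_antisymm h (apply_nonneg _ _))
  -- the sections of `X^N` and of `p`
  have hE : ∀ E : Submodule ℝ (Fin N → ℝ), Iso M₀ ((XN t N).comp E.subtype)
      ((p.comp i).comp E.subtype) := by
    intro E
    have h := Iso.of_bounds (p := (XN t N).comp E.subtype) (r := (p.comp i).comp E.subtype)
      (LinearEquiv.refl ℝ E) (A := M₀) (B := 1) hM0 (fun z => (hi z).2)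
      (fun z => by
        rw [one_mul]
        exact (hi z).1)
    rwa [mul_one] at h
  have Hp : Hyp M₀ k (XN t N) (p.comp i) := fun E _ => hE E
  have Hr : Hyp (M₀ * b) k (XN t N) (r.comp i) := fun E hf =>
    (hE E).trans ((H.comp i hinj) E hf) (by linarith)
  obtain ⟨lam, F₁, hlam, hF₁, h1⟩ := h0 N k _ hn0 hk1 hk2 (hr.comp _ hinj) Hr
  have hr' : Def (scl lam r) := scl_def hlam hr
  have H' : Hyp b k p (scl lam r) := scl_hyp hlam H
  have Hr' : Hyp (M₀ * b) k (XN t N) ((scl lam r).comp i) := by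
    have h := scl_hyp hlam Hr
    have e : scl lam (r.comp i) = (scl lam r).comp i := by
      ext z
      change scl lam (r.comp i) z = scl lam r (i z)
      rw [scl_apply hlam, scl_apply hlam]
      rfl
    rwa [e] at h
  obtain ⟨F₂, hF₂, hb2⟩ := h2 N k V p (scl lam r) i F₁ hn2 hk1 hk2 hp hr' hinj H' Hp hF₁
    fun x hx => by
      rw [scl_apply hlam]
      exact (hi x).1.trans (h1 x hx).1
  obtain ⟨F₃, hF₃, hb3⟩ := h3 N k V (scl lam r) p i F₁ hn3 hk1 hk2 hr' hp hinj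
    (H'.symm (by linarith)) Hr' hF₁ fun x hx => by
      rw [scl_apply hlam]
      have e1 := (h1 x hx).2
      have e2 := mul_le_mul_of_nonneg_left (hi x).2 hD0.le
      calc lam * r (i x) ≤ D * XN t N x := e1
        _ ≤ D * (M₀ * p (i x)) := e2
        _ = D * M₀ * p (i x) := by ring
  refine ⟨lam, F₂ ⊓ F₃, hlam, finrank_inf_ge hF₂ hF₃, fun x hx => ?_⟩
  have e2 := hb2 x hx.1
  have e3 := hb3 x hx.2
  rw [scl_apply hlam] at e2 e3
  exact ⟨e2.trans (mul_le_mul_of_nonneg_right (le_max_left _ _)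
    (mul_nonneg hlam.le (apply_nonneg r x))), e3.trans (mul_le_mul_of_nonneg_right
    (le_max_right _ _) (apply_nonneg _ x))⟩

/-- the theorem for norms on `ℝ^n`, all dimensions -/
theorem rsec_all (t : Bool) (hBAS : Stmt_BAS) (hR : Stmt_RSEC t) (b M₀ α ε : ℝ) (hb : 1 ≤ b)
    (hM : 1 ≤ M₀) (hα : 0 < α) (hα1 : α < 1) (hε : 0 < ε) : ∃ (D : ℝ) (c : ℕ), 1 ≤ D ∧
    ∀ (n N : ℕ) (p r : Seminorm ℝ (Fin n → ℝ)) (i : (Fin N → ℝ) →ₗ[ℝ] (Fin n → ℝ)), 0 < n →
      (α + ε) * n ≤ N → Def p → Def r → Hyp b ⌈α * n⌉₊ p r →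
      (∀ z, p (i z) ≤ XN t N z ∧ XN t N z ≤ M₀ * p (i z)) →
      (∃ (lam : ℝ) (F : Submodule ℝ (Fin n → ℝ)), 0 < lam ∧ n ≤ finrank ℝ F + c ∧
        ∀ x ∈ F, p x ≤ D * (lam * r x) ∧ lam * r x ≤ D * p x) ∧ Iso D p r := by
  have hθ : 0 < min α (ε / 2) := lt_min hα (by linarith)
  have hθ1 : min α (ε / 2) ≤ 1 := (min_le_left _ _).trans hα1.le
  obtain ⟨D, c, n₀, hD, h⟩ := hR b M₀ (min α (ε / 2)) hb hM hθ hθ1
  have hD2 : 1 ≤ D * D := by nlinarith
  choose Cc hCc1 hCc using fun m : ℕ => Pool.Agent.MP3e8c7ak.COD m (D * D) hD2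
  let n₁ : ℕ := ⌈(n₀ : ℝ) / α⌉₊ + ⌈2 / ε⌉₊
  obtain ⟨Cs, hCs1, hCs⟩ := small_iso hBAS n₁
  let D' : ℝ := D + Cs + ∑ m ∈ Finset.range (c + 1), Cc m
  have hsum0 : 0 ≤ ∑ m ∈ Finset.range (c + 1), Cc m :=
    Finset.sum_nonneg fun m _ => by linarith [hCc1 m]
  have hDD : D ≤ D' := by
    change D ≤ D + Cs + ∑ m ∈ Finset.range (c + 1), Cc m
    linarith
  have hCsD : Cs ≤ D' := by
    change Cs ≤ D + Cs + ∑ m ∈ Finset.range (c + 1), Cc m
    linarith
  have hCcD : ∀ m, m ≤ c → Cc m ≤ D' := by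
    intro m hm
    have h1 : Cc m ≤ ∑ m ∈ Finset.range (c + 1), Cc m :=
      Finset.single_le_sum (f := Cc) (fun i _ => by linarith [hCc1 i])
        (Finset.mem_range.2 (by omega))
    change Cc m ≤ D + Cs + ∑ m ∈ Finset.range (c + 1), Cc m
    linarith
  refine ⟨D', c + n₁, hD.trans hDD, ?_⟩
  intro n N p r i hn hN hp hr H hi
  have hf : finrank ℝ (Fin n → ℝ) = n := by
    rw [Module.finrank_fintype_fun_eq_card, Fintype.card_fin]
  have hinj : Function.Injective i := by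
    rw [← LinearMap.ker_eq_bot, LinearMap.ker_eq_bot']
    intro z hz
    have h := (hi z).2
    rw [hz, map_zero, mul_zero] at h
    exact XN_def t N z (le_antisymm h (apply_nonneg _ _))
  by_cases hn1 : n ≤ n₁
  · refine ⟨⟨1, ⊥, one_pos, by omega, fun x hx => ?_⟩, ?_⟩
    · have hx0 : x = 0 := (Submodule.mem_bot ℝ).1 hx
      rw [hx0, map_zero, map_zero, mul_zero, mul_zero]
      exact ⟨le_rfl, le_rfl⟩
    · exact (hCs _ p r hp hr (by rw [hf]; exact hn1)).mono hCsD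
  · push Not at hn1
    have hn0 : (0 : ℝ) < n := by exact_mod_cast hn
    have hNn : (N : ℝ) ≤ n := by
      have h1 : N ≤ n := by
        have h2 := LinearMap.finrank_le_finrank_of_injective hinj
        rwa [Module.finrank_fintype_fun_eq_card, Fintype.card_fin, hf] at h2
      exact_mod_cast h1
    have hn1' : ((n₁ : ℕ) : ℝ) ≤ n := by exact_mod_cast hn1.le
    have e1 : (n₀ : ℝ) / α ≤ ⌈(n₀ : ℝ) / α⌉₊ := Nat.le_ceil _
    have e2 : 2 / ε ≤ ⌈2 / ε⌉₊ := Nat.le_ceil _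
    have e3 : ((n₁ : ℕ) : ℝ) = (⌈(n₀ : ℝ) / α⌉₊ : ℝ) + (⌈2 / ε⌉₊ : ℝ) := by
      change ((⌈(n₀ : ℝ) / α⌉₊ + ⌈2 / ε⌉₊ : ℕ) : ℝ) = _
      push_cast
      ring
    have e4 : (0 : ℝ) ≤ (⌈(n₀ : ℝ) / α⌉₊ : ℝ) := Nat.cast_nonneg _
    have e5 : (0 : ℝ) ≤ (⌈2 / ε⌉₊ : ℝ) := Nat.cast_nonneg _
    have e6 : (n₀ : ℝ) ≤ α * n := by
      have h1 : (n₀ : ℝ) / α ≤ n := by linarith
      rw [div_le_iff₀ hα] at h1
      linarith
    have e7 : 2 ≤ ε * n := by
      have h1 : 2 / ε ≤ n := by linarith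
      rw [div_le_iff₀ hε] at h1
      linarith
    have g1 : n₀ ≤ N := by
      have : (n₀ : ℝ) ≤ N := by nlinarith
      exact_mod_cast this
    have g2 : min α (ε / 2) * N ≤ (⌈α * n⌉₊ : ℝ) := by
      have h1 : α * n ≤ (⌈α * n⌉₊ : ℝ) := Nat.le_ceil _
      have h2 : min α (ε / 2) * N ≤ α * n :=
        mul_le_mul (min_le_left _ _) hNn (Nat.cast_nonneg _) hα.le
      linarith
    have g3 : (⌈α * n⌉₊ : ℝ) + min α (ε / 2) * N ≤ N := by
      have h1 : (⌈α * n⌉₊ : ℝ) < α * n + 1 := Nat.ceil_lt_add_one (by positivity)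
      have h2 : min α (ε / 2) * N ≤ ε / 2 * n :=
        mul_le_mul (min_le_right _ _) hNn (Nat.cast_nonneg _) (by linarith)
      nlinarith
    obtain ⟨lam, F, hlam, hF, hFF⟩ := h N ⌈α * n⌉₊ (Fin n → ℝ) p r i g1 g2 g3 hp hr H hi
    rw [hf] at hF
    refine ⟨⟨lam, F, hlam, by omega, fun x hx => ?_⟩, ?_⟩
    · obtain ⟨h1, h2⟩ := hFF x hx
      exact ⟨h1.trans (mul_le_mul_of_nonneg_right hDD (mul_nonneg hlam.le (apply_nonneg r x))),
        h2.trans (mul_le_mul_of_nonneg_right hDD (apply_nonneg _ x))⟩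
    · have hI : Iso (D * D) (p.comp F.subtype) (r.comp F.subtype) := by
        have h1 := Iso.of_bounds (p := p.comp F.subtype) (r := r.comp F.subtype)
          (LinearEquiv.refl ℝ F) (A := D * lam) (B := D / lam)
          (mul_pos (by linarith) hlam) (fun x => by
            have h2 := (hFF x x.2).1
            change p (x : Fin n → ℝ) ≤ D * lam * r (x : Fin n → ℝ)
            linarith) (fun x => by
            have h2 := (hFF x x.2).2
            change r (x : Fin n → ℝ) ≤ D / lam * p (x : Fin n → ℝ)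
            rw [div_mul_eq_mul_div, le_div_iff₀ hlam]
            linarith)
        refine h1.mono (le_of_eq ?_)
        field_simp
      have hle : finrank ℝ F ≤ n := by
        have h1 := Submodule.finrank_le F
        rwa [hf] at h1
      have h3 := hCc (n - finrank ℝ F) _ _ p r hp hr F F (by omega) (by omega) hI
      exact h3.mono (hCcD _ (by omega))

/-- the norm level data of a section near a cross-polytope -/
theorem cross_data {M : ℝ} (hM : 1 ≤ M) {m n : ℕ} {K : Set (Fin n → ℝ)}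
    {p : Seminorm ℝ (Fin n → ℝ)} (hp : Def p) (hK : ∀ x, x ∈ K ↔ p x ≤ 1)
    (h : HasCrossSection M m K) : ∃ i : (Fin m → ℝ) →ₗ[ℝ] (Fin n → ℝ),
      ∀ z, p (i z) ≤ XN false m z ∧ XN false m z ≤ M * p (i z) := by
  obtain ⟨i, hi, h1, h2⟩ := h
  have h1' : ∀ x, XN false m x ≤ 1 → i x ∈ K := h1
  have h2' : ∀ x, i x ∈ K → XN false m x ≤ M := h2
  refine ⟨i, fun a => ⟨?_, ?_⟩⟩
  · rcases (apply_nonneg (XN false m) a).lt_or_eq with h0 | h0
    · have h3 : i ((XN false m a)⁻¹ • a) ∈ K := by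
        apply h1'
        rw [map_smul_eq_mul, Real.norm_eq_abs, abs_of_pos (inv_pos.2 h0),
          inv_mul_cancel₀ h0.ne']
      rw [hK, map_smul, map_smul_eq_mul, Real.norm_eq_abs, abs_of_pos (inv_pos.2 h0),
        inv_mul_le_iff₀ h0, mul_one] at h3
      exact h3
    · have h3 : a = 0 := XN_def false m _ h0.symm
      rw [h3, map_zero, map_zero, map_zero]
  · rcases (apply_nonneg p (i a)).lt_or_eq with h0 | h0
    · have h3 : i ((p (i a))⁻¹ • a) ∈ K := by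
        rw [hK, map_smul, map_smul_eq_mul, Real.norm_eq_abs, abs_of_pos (inv_pos.2 h0),
          inv_mul_cancel₀ h0.ne']
      have h4 := h2' _ h3
      rw [map_smul_eq_mul, Real.norm_eq_abs, abs_of_pos (inv_pos.2 h0),
        inv_mul_le_iff₀ h0] at h4
      linarith
    · have h3 : i a = 0 := hp _ h0.symm
      have h4 : a = 0 := hi (by rw [h3, map_zero])
      rw [h4, map_zero]
      exact mul_nonneg (by linarith) (apply_nonneg p _)

/-- **THEOREM RX**, for bodies. -/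
theorem cross_main (hBAS : Stmt_BAS) (hR : Stmt_RSEC false) (α ε b M : ℝ) (hα : 0 < α)
    (hα1 : α < 1) (hε : 0 < ε) (hM : 1 ≤ M) : ∃ C : ℝ, 1 ≤ C ∧
    ∀ n : ℕ, 0 < n → ∀ K L : Set (Fin n → ℝ), IsBody K → IsBody L →
      SectionsClose ⌈α * n⌉₊ b K L → ∀ N : ℕ, (α + ε) * n ≤ N →
      (HasCrossSection M N K ∨ HasCrossSection M N L) →
      GeomClose C K L ∧ dBM K L ≤ ENNReal.ofReal C := by
  have hb : 1 ≤ |b| + 1 := by linarith [abs_nonneg b]
  obtain ⟨D, c, hD, h⟩ := rsec_all false hBAS hR (|b| + 1) M α ε hb hM hα hα1 hε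
  have hD0 : 0 < D := by linarith
  have hDD : 1 ≤ D * D := by nlinarith
  have hc0 : (0 : ℝ) ≤ c := Nat.cast_nonneg c
  refine ⟨D * D + c, by linarith, ?_⟩
  intro n hn K L hK hL hS N hN hX
  obtain ⟨p, hp, hKp⟩ := hK.exists_seminorm
  obtain ⟨r, hr, hLr⟩ := hL.exists_seminorm
  have H : Hyp (|b| + 1) ⌈α * n⌉₊ p r := hS.hyp hp hr hKp hLr
  have key : (∃ (lam : ℝ) (F : Submodule ℝ (Fin n → ℝ)), 0 < lam ∧ n ≤ finrank ℝ F + c ∧
      ∀ x ∈ F, p x ≤ D * (lam * r x) ∧ lam * r x ≤ D * p x) ∧ Iso D p r := by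
    rcases hX with hX | hX
    · obtain ⟨i, hi⟩ := cross_data hM hp hKp hX
      exact h n N p r i hn hN hp hr H hi
    · obtain ⟨i, hi⟩ := cross_data hM hr hLr hX
      obtain ⟨⟨lam, F, hlam, hF, hFF⟩, hI⟩ := h n N r p i hn hN hr hp (H.symm (by linarith)) hi
      refine ⟨⟨lam⁻¹, F, inv_pos.2 hlam, hF, fun x hx => ?_⟩, hI.symm hD0⟩
      obtain ⟨h1, h2⟩ := hFF x hx
      constructor
      · rw [← mul_assoc, mul_comm D, mul_assoc, le_inv_mul_iff₀ hlam]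
        exact h2
      · rw [inv_mul_le_iff₀ hlam]
        calc r x ≤ D * (lam * p x) := h1
          _ = lam * (D * p x) := by ring
  obtain ⟨⟨lam, F, hlam, hF, hFF⟩, hI⟩ := key
  have hDl : 0 < D / lam := div_pos hD0 hlam
  have hpos : 0 < D * D + c := by linarith
  refine ⟨⟨F, D / lam, hDl, ?_, ?_, ?_⟩, (hI.mono (by nlinarith)).dBM_le (by linarith) hKp hLr⟩
  · have h1 : (n : ℝ) ≤ finrank ℝ F + c := by exact_mod_cast hF
    linarith
  · rintro x ⟨hx1, hx2⟩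
    rw [Set.mem_smul_set_iff_inv_smul_mem₀ hDl.ne', hLr, map_smul_eq_mul,
      Real.norm_eq_abs, abs_of_pos (inv_pos.2 hDl), inv_mul_le_iff₀ hDl,
      mul_one, le_div_iff₀ hlam]
    have h5 := (hFF x hx2).2
    have h6 := (hKp x).1 hx1
    nlinarith
  · rintro x ⟨hx1, hx2⟩
    rw [Set.mem_smul_set_iff_inv_smul_mem₀ hDl.ne', hLr, map_smul_eq_mul,
      Real.norm_eq_abs, abs_of_pos (inv_pos.2 hDl), inv_mul_le_iff₀ hDl,
      mul_one, le_div_iff₀ hlam] at hx1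
    rw [Set.mem_smul_set_iff_inv_smul_mem₀ hpos.ne', hKp, map_smul_eq_mul,
      Real.norm_eq_abs, abs_of_pos (inv_pos.2 hpos), inv_mul_le_iff₀ hpos, mul_one]
    have h5 := (hFF x hx2).1
    nlinarith

end Pool.RX
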